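import Pool.Agent.Work.MP_27623f_ag.SF.Defs

/-!
MODULE A1 (size M).  Splittings for large exponents; the splitting ideals decrease.

PROOF.  `q = p^e`.  Let `(e₀, φ₀)` be given by `h t` for the nonunit `t ≠ 0`; `e₀ ≥ 1`, since for `e₀ = 0` the map `φ₀` is `R`-linear
on `R` (`a ^ p ^ 0 = a`) and `t φ₀ (1) = 1`.
`exists_split_one`: `σ (toRoot 1 x) = φ₀ (toRoot e₀ (t * x^(p^(e₀-1))))`; additive (`add_pow_char_pow`), and
`σ (a • toRoot x) = φ₀ (toRoot (t (a^p x)^(p^(e₀-1)))) = φ₀ (toRoot (a^(p^e₀) t x^..)) = a σ (toRoot x)`.  `σ (toRoot 1)` is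
`φ₀ (toRoot t) = 1`.
`step`: for `φ : RootMod R p e → R` and `c`, `φ' (toRoot (e+1) x) = φ (toRoot e (σ (toRoot 1 (c^(p-1) x))))` is `R`-linear
(`a^(p^(e+1)) = (a^(p^e))^p`, so `σ` takes out `a^(p^e)`), and `φ' (toRoot c) = φ (toRoot (σ (c • toRoot 1))) = φ (toRoot c)`.
`sfr_large`: iterate `step` starting with `h c`.  `splitId_anti`: `step` with `c = a`.
-/

set_option autoImplicit false

namespace Pool.Agent.FSig.SF

open IsLocalRing Pool.Agent.FSig

universe u

theorem exists_split_one {R : Type u} [CommRing R] (p : ℕ) [Fact p.Prime] [CharP R p]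
    (h : StronglyFRegular R p) (t : R) (ht : t ≠ 0) (htu : ¬ IsUnit t) :
    ∃ σ : RootMod R p 1 →ₗ[R] R, σ (toRoot p 1 1) = 1 := by
  obtain ⟨e0, φ, h0⟩ := h t ht
  cases e0 with
  | zero =>
    exfalso
    apply htu
    have h1 : toRoot p 0 t = t • toRoot p 0 (1 : R) := by
      show t = t ^ p ^ 0 * 1
      rw [pow_zero, pow_one, mul_one]
    rw [h1, map_smul, smul_eq_mul] at h0
    exact IsUnit.of_mul_eq_one _ h0
  | succ k =>
    refine ⟨{ toFun := fun x => φ (toRoot p (k + 1) (t * (show R from x) ^ p ^ k))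
              map_add' := fun x y => ?_
              map_smul' := fun a x => ?_ }, ?_⟩
    · have h1 : toRoot p (k + 1) (t * ((show R from x) + (show R from y)) ^ p ^ k) =
          toRoot p (k + 1) (t * (show R from x) ^ p ^ k) +
            toRoot p (k + 1) (t * (show R from y) ^ p ^ k) := by
        show t * ((show R from x) + (show R from y)) ^ p ^ k =
          t * (show R from x) ^ p ^ k + t * (show R from y) ^ p ^ k
        rw [add_pow_char_pow, mul_add]
      show φ (toRoot p (k + 1) (t * ((show R from x) + (show R from y)) ^ p ^ k)) = _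
      rw [h1, map_add]
    · have h1 : toRoot p (k + 1) (t * (a ^ p ^ 1 * (show R from x)) ^ p ^ k) =
          a • toRoot p (k + 1) (t * (show R from x) ^ p ^ k) := by
        show t * (a ^ p ^ 1 * (show R from x)) ^ p ^ k =
          a ^ p ^ (k + 1) * (t * (show R from x) ^ p ^ k)
        rw [mul_pow, ← pow_mul, ← pow_add, add_comm 1 k]
        ring
      show φ (toRoot p (k + 1) (t * (a ^ p ^ 1 * (show R from x)) ^ p ^ k)) = _
      rw [h1, map_smul]
      rfl
    · show φ (toRoot p (k + 1) (t * (1 : R) ^ p ^ k)) = 1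
      rw [one_pow, mul_one, h0]

private theorem step {R : Type u} [CommRing R] (p : ℕ) [Fact p.Prime] [CharP R p]
    (σ : RootMod R p 1 →ₗ[R] R) (hσ : σ (toRoot p 1 1) = 1) (e : ℕ)
    (φ : RootMod R p e →ₗ[R] R) (c : R) :
    ∃ φ' : RootMod R p (e + 1) →ₗ[R] R, φ' (toRoot p (e + 1) c) = φ (toRoot p e c) := by
  refine ⟨{ toFun := fun x => φ (toRoot p e (σ (toRoot p 1 (c ^ (p - 1) * (show R from x)))))
            map_add' := fun x y => ?_
            map_smul' := fun a x => ?_ }, ?_⟩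
  · have h1 : toRoot p 1 (c ^ (p - 1) * ((show R from x) + (show R from y))) =
        toRoot p 1 (c ^ (p - 1) * (show R from x)) +
          toRoot p 1 (c ^ (p - 1) * (show R from y)) := by
      show c ^ (p - 1) * ((show R from x) + (show R from y)) =
        c ^ (p - 1) * (show R from x) + c ^ (p - 1) * (show R from y)
      rw [mul_add]
    show φ (toRoot p e (σ (toRoot p 1 (c ^ (p - 1) * ((show R from x) + (show R from y)))))) = _
    rw [h1, map_add]
    exact map_add φ _ _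
  · have h1 : toRoot p 1 (c ^ (p - 1) * (a ^ p ^ (e + 1) * (show R from x))) =
        (a ^ p ^ e) • toRoot p 1 (c ^ (p - 1) * (show R from x)) := by
      show c ^ (p - 1) * (a ^ p ^ (e + 1) * (show R from x)) =
        (a ^ p ^ e) ^ p ^ 1 * (c ^ (p - 1) * (show R from x))
      rw [← pow_mul, ← pow_add]
      ring
    show φ (toRoot p e (σ (toRoot p 1 (c ^ (p - 1) * (a ^ p ^ (e + 1) * (show R from x)))))) = _
    rw [h1, map_smul, smul_eq_mul]
    exact map_smul φ a (toRoot p e (σ (toRoot p 1 (c ^ (p - 1) * (show R from x)))))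
  · show φ (toRoot p e (σ (toRoot p 1 (c ^ (p - 1) * c)))) = _
    have h1 : toRoot p 1 (c ^ (p - 1) * c) = c • toRoot p 1 (1 : R) := by
      show c ^ (p - 1) * c = c ^ p ^ 1 * 1
      rw [← pow_succ, Nat.sub_add_cancel (Fact.out : p.Prime).one_le, pow_one, mul_one]
    rw [h1, map_smul, hσ, smul_eq_mul, mul_one]

theorem sfr_large {R : Type u} [CommRing R] (p : ℕ) [Fact p.Prime] [CharP R p]
    (h : StronglyFRegular R p) (t : R) (ht : t ≠ 0) (htu : ¬ IsUnit t) (c : R) (hc : c ≠ 0)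
    (N : ℕ) : ∃ e : ℕ, N ≤ e ∧ ∃ φ : RootMod R p e →ₗ[R] R, φ (toRoot p e c) = 1 := by
  obtain ⟨σ, hσ⟩ := exists_split_one p h t ht htu
  induction N with
  | zero =>
    obtain ⟨e, φ, hφ⟩ := h c hc
    exact ⟨e, Nat.zero_le _, φ, hφ⟩
  | succ N ih =>
    obtain ⟨e, he, φ, hφ⟩ := ih
    obtain ⟨φ', hφ'⟩ := step p σ hσ e φ c
    exact ⟨e + 1, by omega, φ', by rw [hφ', hφ]⟩

theorem splitId_anti {R : Type u} [CommRing R] [IsLocalRing R] (p : ℕ) [Fact p.Prime] [CharP R p]
    (h : StronglyFRegular R p) (t : R) (ht : t ≠ 0) (htu : ¬ IsUnit t) (e : ℕ) :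
    splitId R p (e + 1) ≤ splitId R p e := by
  obtain ⟨σ, hσ⟩ := exists_split_one p h t ht htu
  intro a ha
  rw [mem_splitId] at ha ⊢
  intro φ
  obtain ⟨φ', hφ'⟩ := step p σ hσ e φ a
  rw [← hφ']
  exact ha φ'

end Pool.Agent.FSig.SF
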