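import Pool.Agent.Work.MP_27623f_ag.SF.Defs

/-!
MODULE A2 (size S-M).  Extension of a linear map `R^{1/q} → R` to the fraction field, and divisorial modules.

PROOF.  `exists_ext`: `K ∋ x = r / s = (r s^(q-1)) / s^q`, `Φ x = φ (toRoot (r s^(q-1))) / s`.  Well defined: if `r / s = r' / s'`
then `φ (toRoot (r s^(q-1) s'^q)) = s' φ (toRoot (r s^(q-1)))` and `r s^(q-1) s'^q = r' s'^(q-1) s^q`.
A clean way: the set of pairs; or use that `toRoot : K → RootMod K p e` is a localization of `RootMod R p e` at the nonzero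
elements of `R` and `IsLocalizedModule.lift`; or choose for every `x : K` a representation `x = algebraMap r / algebraMap s ^ q`
(exists by the formula above) and define `Φ x = algebraMap (φ (toRoot r)) / algebraMap s`; prove first the key fact:
if `algebraMap r / (algebraMap s)^q = algebraMap r' / (algebraMap s')^q` then `r s'^q = r' s^q`, so
`s' φ (toRoot r) = s φ (toRoot r')`.
`ext_symZ`: by `hJ.dual (-n)` it suffices that `Φ x * y ∈ 1` for `y ∈ symZ J (-n)`: `Φ x * y = Φ (y^q x)`, `y^q ∈ symZ J (q * (-n))`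
(induction with `hJ.mul`, `hJ.zero`), `y^q x ∈ symZ J 0 = 1`, so it is `algebraMap r` and `Φ` of it is in `1` by `hR`.
-/

set_option autoImplicit false

namespace Pool.Agent.FSig.SF

open Pool.Agent.FSig Pool.Agent.FSig.SA

universe u

private theorem rootLin {R : Type u} [CommRing R] (p e : ℕ) [ExpChar R p]
    (φ : RootMod R p e →ₗ[R] R) (c r : R) :
    φ (toRoot p e (c ^ p ^ e * r)) = c * φ (toRoot p e r) :=
  (map_smul φ c (toRoot p e r))

private theorem rootAdd {R : Type u} [CommRing R] (p e : ℕ) [ExpChar R p]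
    (φ : RootMod R p e →ₗ[R] R) (r r' : R) :
    φ (toRoot p e (r + r')) = φ (toRoot p e r) + φ (toRoot p e r') :=
  map_add φ (toRoot p e r) (toRoot p e r')

theorem exists_ext {R K : Type u} [CommRing R] [IsDomain R] [Field K] [Algebra R K]
    [IsFractionRing R K] (p e : ℕ) [Fact p.Prime] [CharP R p] (φ : RootMod R p e →ₗ[R] R) :
    ∃ Φ : K →+ K, (∀ a x : K, Φ (a ^ p ^ e * x) = a * Φ x) ∧
      ∀ r : R, Φ (algebraMap R K r) = algebraMap R K (φ (toRoot p e r)) := by
  classical
  have hinj : Function.Injective (algebraMap R K) := IsFractionRing.injective R K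
  have h0 : ∀ s : R, s ≠ 0 → algebraMap R K s ≠ 0 := fun s hs h =>
    hs (hinj (h.trans (map_zero _).symm))
  have hq : 0 < p ^ e := pow_pos (Fact.out : p.Prime).pos e
  have hrep : ∀ x : K, ∃ rs : R × R, rs.2 ≠ 0 ∧
      x = algebraMap R K rs.1 / algebraMap R K rs.2 ^ p ^ e := by
    intro x
    obtain ⟨a, b, hb, hx⟩ := IsFractionRing.div_surjective (A := R) x
    have hb0 : b ≠ 0 := nonZeroDivisors.ne_zero hb
    refine ⟨(a * b ^ (p ^ e - 1), b), hb0, ?_⟩
    have h1 : algebraMap R K b ≠ 0 := h0 b hb0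
    have h2 : algebraMap R K b ^ p ^ e = algebraMap R K b ^ (p ^ e - 1) * algebraMap R K b := by
      rw [← pow_succ, Nat.sub_add_cancel hq]
    show x = algebraMap R K (a * b ^ (p ^ e - 1)) / algebraMap R K b ^ p ^ e
    rw [h2, map_mul, map_pow, ← hx]
    field_simp
  choose rs hs hx using hrep
  let F : K → K := fun x =>
    algebraMap R K (φ (toRoot p e (rs x).1)) / algebraMap R K (rs x).2
  have key : ∀ r s r' s' : R, s ≠ 0 → s' ≠ 0 →
      algebraMap R K r / algebraMap R K s ^ p ^ e =
        algebraMap R K r' / algebraMap R K s' ^ p ^ e →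
      algebraMap R K (φ (toRoot p e r)) / algebraMap R K s =
        algebraMap R K (φ (toRoot p e r')) / algebraMap R K s' := by
    intro r s r' s' hs hs' h
    rw [div_eq_div_iff (pow_ne_zero _ (h0 s hs)) (pow_ne_zero _ (h0 s' hs'))] at h
    rw [div_eq_div_iff (h0 s hs) (h0 s' hs')]
    have h1 : r * s' ^ p ^ e = r' * s ^ p ^ e := by
      apply hinj
      rw [map_mul, map_mul, map_pow, map_pow]
      exact h
    have h2 : s' * φ (toRoot p e r) = s * φ (toRoot p e r') := by
      rw [← rootLin, ← rootLin]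
      congr 2
      rw [mul_comm, h1, mul_comm]
    rw [← map_mul, ← map_mul, mul_comm _ s', mul_comm _ s, h2]
  have hF : ∀ r s : R, s ≠ 0 → F (algebraMap R K r / algebraMap R K s ^ p ^ e) =
      algebraMap R K (φ (toRoot p e r)) / algebraMap R K s := by
    intro r s h
    exact key _ _ _ _ (hs _) h (hx _).symm
  have hFadd : ∀ x y : K, F (x + y) = F x + F y := by
    intro x y
    have h1 := h0 _ (hs x)
    have h2 := h0 _ (hs y)
    have h3 : x + y = algebraMap R K ((rs y).2 ^ p ^ e * (rs x).1 + (rs x).2 ^ p ^ e * (rs y).1) /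
        algebraMap R K ((rs x).2 * (rs y).2) ^ p ^ e := by
      conv_lhs => rw [hx x, hx y]
      rw [map_add, map_mul, map_mul, map_mul, map_pow, map_pow, mul_pow]
      have h4 := pow_ne_zero (p ^ e) h1
      have h5 := pow_ne_zero (p ^ e) h2
      field_simp
    rw [h3, hF _ _ (mul_ne_zero (hs x) (hs y)), rootAdd, rootLin, rootLin]
    show _ = algebraMap R K (φ (toRoot p e (rs x).1)) / algebraMap R K (rs x).2 +
      algebraMap R K (φ (toRoot p e (rs y).1)) / algebraMap R K (rs y).2
    rw [map_add, map_mul, map_mul, map_mul]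
    field_simp
  have hF0 : F 0 = 0 := by
    have h := hFadd 0 0
    rw [add_zero] at h
    exact (left_eq_add.1 h)
  refine ⟨{ toFun := F, map_zero' := hF0, map_add' := hFadd }, ?_, ?_⟩
  · intro a x
    show F (a ^ p ^ e * x) = a * F x
    obtain ⟨c, d, hd, ha⟩ := IsFractionRing.div_surjective (A := R) a
    have hd0 : d ≠ 0 := nonZeroDivisors.ne_zero hd
    have h1 := h0 _ (hs x)
    have h2 := h0 _ hd0
    have h3 : a ^ p ^ e * x = algebraMap R K (c ^ p ^ e * (rs x).1) /
        algebraMap R K (d * (rs x).2) ^ p ^ e := by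
      conv_lhs => rw [hx x, ← ha]
      rw [map_mul, map_mul, map_pow, mul_pow, div_pow]
      have h4 := pow_ne_zero (p ^ e) h1
      have h5 := pow_ne_zero (p ^ e) h2
      field_simp
    rw [h3, hF _ _ (mul_ne_zero hd0 (hs x)), rootLin, ← ha]
    show _ = algebraMap R K c / algebraMap R K d *
      (algebraMap R K (φ (toRoot p e (rs x).1)) / algebraMap R K (rs x).2)
    rw [map_mul, map_mul]
    field_simp
  · intro r
    show F (algebraMap R K r) = _
    have h1 := hF r 1 one_ne_zero
    rwa [map_one, one_pow, div_one, div_one] at h1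

theorem ext_symZ {R K : Type u} [CommRing R] [Field K] [Algebra R K] (p e : ℕ)
    (J : Submodule R K) (hJ : DivSys R K (symZ J)) (Φ : K →+ K)
    (h : ∀ a x : K, Φ (a ^ p ^ e * x) = a * Φ x)
    (hR : ∀ r : R, Φ (algebraMap R K r) ∈ (1 : Submodule R K)) (n : ℤ) (x : K)
    (hx : x ∈ symZ J ((p : ℤ) ^ e * n)) : Φ x ∈ symZ J n := by
  have h1 := hJ.dual (-n) (Φ x) (fun y hy => ?_)
  · rwa [neg_neg] at h1
  · have hpow : ∀ m : ℕ, y ^ m ∈ symZ J ((m : ℤ) * (-n)) := by
      intro m
      induction m with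
      | zero =>
        rw [pow_zero, Nat.cast_zero, zero_mul, hJ.zero]
        exact Submodule.one_le.1 le_rfl
      | succ m ih =>
        have h2 := hJ.mul _ _ _ ih _ hy
        rw [pow_succ]
        have h3 : (m : ℤ) * -n + -n = ((m + 1 : ℕ) : ℤ) * -n := by
          push_cast
          ring
        rwa [h3] at h2
    have h2 := hJ.mul _ _ _ (hpow (p ^ e)) _ hx
    have h3 : ((p ^ e : ℕ) : ℤ) * -n + (p : ℤ) ^ e * n = 0 := by
      push_cast
      ring
    rw [h3, hJ.zero] at h2
    obtain ⟨r, hr⟩ := Submodule.mem_one.1 h2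
    rw [mul_comm, ← h, ← hr]
    exact hR r

end Pool.Agent.FSig.SF
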