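import Pool.Agent.Work.MP_27623f_ag.SF.A1
import Pool.Agent.Work.MP_27623f_ag.SF.A2

/-!
MODULE A3 (size M).  The symbolic algebra of a strongly F-regular ring is strongly F-regular.

PROOF.  Let `0 ≠ f ∈ S = symAlg J`, `f_n = coeff n ≠ 0`.  `symZ J n = symPow J n` for `n : ℕ`.  Choose `0 ≠ b ∈ symZ J (-n)` (`hJ.ne`);
`b f_n ∈ symZ J 0 = 1`, `b f_n = algebraMap c`, `c ≠ 0`.  `sfr_large`: `e` with `p^e > f.natDegree` and `p^e > n` (`e ≥ N` implies
`p^e ≥ 2^e > e ≥ N`) and `φ` with `φ (toRoot c) = 1`; `Φ` from `exists_ext`; `q = p^e`.  Define for `g ∈ S`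
`Ψ g = ∑_j Φ (b g_(n + q j)) X^j` (a polynomial over `K`: finite support, for instance `∑ j ∈ range (natDegree g + 1)`, or
`Polynomial.ofFinsupp`; only the coefficients matter: `(Ψ g)_j = Φ (b g_(n+qj))`).
* `Ψ g ∈ S`: `b g_(n+qj) ∈ symZ J (q j)` (`hJ.mul`), `ext_symZ` gives `Φ (..) ∈ symZ J j = symPow J j`.
* linear over `S`: for `h ∈ S`: `(h^q g)_(n+qj) = ∑_(i ≤ j) h_i^q g_(n+q(j-i))`: `h^q = ∑ h_i^q X^(q i)`
  (`Polynomial.expand`/`map_iterateFrobenius_expand`; see `SA/Lam.lean`), and the terms with `i > j` have index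
  `n - q (i - j) < 0` because `n < q`.  `Φ (b h_i^q g_..) = h_i Φ (b g_..)`.  So `Ψ (h^q g) = h Ψ g`.
* `(Ψ f)_0 = Φ (b f_n) = Φ (algebraMap c) = 1` and `(Ψ f)_j = Φ 0 = 0` for `j ≥ 1` since `n + q j > natDegree f`.  So `Ψ f = 1`.
-/

set_option autoImplicit false

namespace Pool.Agent.FSig.SF

open Pool.Agent.FSig Pool.Agent.FSig.SA

universe u


private theorem a3_coeff_frob {K : Type*} [Field K] (p e : ℕ) [Fact p.Prime] [CharP K p]
    (u : Polynomial K) (m : ℕ) :
    (u ^ p ^ e).coeff m = if p ^ e ∣ m then u.coeff (m / p ^ e) ^ p ^ e else 0 := by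
  have : ExpChar K p := ExpChar.prime Fact.out
  have hq : 0 < p ^ e := pow_pos (Fact.out : p.Prime).pos e
  rw [← Polynomial.map_iterateFrobenius_expand p u e, Polynomial.coeff_map,
    Polynomial.coeff_expand hq]
  split_ifs with h
  · rw [iterateFrobenius_def]
  · rw [map_zero]

private theorem a3_coeff {K : Type*} [Field K] (p e : ℕ) [Fact p.Prime] [CharP K p]
    (g a : Polynomial K) (n j : ℕ) (hn : n < p ^ e) :
    (g ^ p ^ e * a).coeff (n + p ^ e * j) =
      ∑ x ∈ Finset.HasAntidiagonal.antidiagonal j, g.coeff x.1 ^ p ^ e * a.coeff (n + p ^ e * x.2) := by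
  have hq : 0 < p ^ e := pow_pos (Fact.out : p.Prime).pos e
  rw [Polynomial.coeff_mul]
  symm
  refine Finset.sum_of_injOn (fun x => (p ^ e * x.1, n + p ^ e * x.2)) ?_ ?_ ?_ ?_
  · intro a _ b _ hab
    have h1 := congrArg Prod.fst hab
    have h2 := congrArg Prod.snd hab
    refine Prod.ext (Nat.eq_of_mul_eq_mul_left hq h1) (Nat.eq_of_mul_eq_mul_left hq ?_)
    exact Nat.add_left_cancel h2
  · intro x hx
    have hx' : x.1 + x.2 = j := by simpa using hx
    simp only [Finset.mem_coe, Finset.HasAntidiagonal.mem_antidiagonal]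
    rw [← hx']
    ring
  · intro x hx hne
    rw [Finset.HasAntidiagonal.mem_antidiagonal] at hx
    rw [a3_coeff_frob]
    split_ifs with hd
    · exfalso
      apply hne
      obtain ⟨l, hl⟩ := hd
      have hlj : l ≤ j := by
        by_contra hcon
        have h1 : p ^ e * (j + 1) ≤ p ^ e * l := Nat.mul_le_mul_left _ (by omega)
        have h2 : p ^ e * (j + 1) = p ^ e * j + p ^ e := by ring
        omega
      refine ⟨(l, j - l), ?_, ?_⟩
      · simp only [Finset.mem_coe, Finset.HasAntidiagonal.mem_antidiagonal]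
        omega
      · ext
        · exact hl.symm
        · change n + p ^ e * (j - l) = x.2
          have h3 : p ^ e * l + p ^ e * (j - l) = p ^ e * j := by
            rw [← Nat.mul_add]
            congr 1
            omega
          omega
    · rw [zero_mul]
  · intro x _
    change _ = (g ^ p ^ e).coeff (p ^ e * x.1) * a.coeff (n + p ^ e * x.2)
    rw [a3_coeff_frob, if_pos (Dvd.intro x.1 rfl), Nat.mul_div_cancel_left _ hq]

/-- `∑_j Φ (b g_(n + q j)) X^j` -/
private noncomputable def a3Psi {K : Type*} [Field K] (Φ : K →+ K) (b : K) (n q : ℕ)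
    (g : Polynomial K) : Polynomial K :=
  ∑ j ∈ Finset.range (g.natDegree + 1), Polynomial.monomial j (Φ (b * g.coeff (n + q * j)))

private theorem a3Psi_coeff {K : Type*} [Field K] (Φ : K →+ K) (b : K) (n q : ℕ) (hq : 0 < q)
    (g : Polynomial K) (j : ℕ) : (a3Psi Φ b n q g).coeff j = Φ (b * g.coeff (n + q * j)) := by
  unfold a3Psi
  rw [Polynomial.finsetSum_coeff]
  simp only [Polynomial.coeff_monomial, Finset.sum_ite_eq', Finset.mem_range]
  split_ifs with h
  · rfl
  · have h1 : j ≤ q * j := Nat.le_mul_of_pos_left j hq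
    rw [Polynomial.coeff_eq_zero_of_natDegree_lt (by omega), mul_zero, map_zero]

theorem sfr_symAlg {R K : Type u} [CommRing R] [IsDomain R] [Field K] [Algebra R K]
    [IsFractionRing R K] (p : ℕ) [Fact p.Prime] [CharP R p] (h : StronglyFRegular R p) (t : R)
    (ht : t ≠ 0) (htu : ¬ IsUnit t) (J : Submodule R K) (hJ : DivSys R K (symZ J))
    [CharP (symAlg J) p] : StronglyFRegular (symAlg J) p := by
  have hinj : Function.Injective (algebraMap R K) := IsFractionRing.injective R K
  have : CharP K p := charP_of_injective_algebraMap hinj p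
  intro f hf
  have hf0 : (f : Polynomial K) ≠ 0 := fun h0 => hf (Subtype.ext h0)
  obtain ⟨n, hn⟩ : ∃ n, (f : Polynomial K).coeff n ≠ 0 := by
    by_contra hcon
    push Not at hcon
    exact hf0 (Polynomial.ext fun m => by rw [hcon m, Polynomial.coeff_zero])
  obtain ⟨b, hb, hb0⟩ := hJ.ne (-(n : ℤ))
  have hfm : ∀ (g : symAlg J) (m : ℕ), (g : Polynomial K).coeff m ∈ symZ J (m : ℤ) :=
    fun g m => g.2 m
  have h1 := hJ.mul _ _ _ hb _ (hfm f n)
  rw [neg_add_cancel, hJ.zero] at h1
  obtain ⟨c, hc⟩ := Submodule.mem_one.1 h1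
  have hc0 : c ≠ 0 := by
    rintro rfl
    rw [map_zero] at hc
    exact mul_ne_zero hb0 hn hc.symm
  obtain ⟨e, he, φ, hφ⟩ := sfr_large p h t ht htu c hc0 ((f : Polynomial K).natDegree + n + 1)
  obtain ⟨Φ, hΦ1, hΦ2⟩ := exists_ext (K := K) p e φ
  have hq : 0 < p ^ e := pow_pos (Fact.out : p.Prime).pos e
  have hqe : e < p ^ e := Nat.lt_pow_self (Fact.out : p.Prime).one_lt
  have hmem : ∀ g : symAlg J, a3Psi Φ b n (p ^ e) (g : Polynomial K) ∈ symAlg J := by
    intro g
    rw [mem_symAlg]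
    intro j
    rw [a3Psi_coeff Φ b n _ hq]
    have h2 := hJ.mul _ _ _ hb _ (hfm g (n + p ^ e * j))
    have h3 : -(n : ℤ) + ((n + p ^ e * j : ℕ) : ℤ) = (p : ℤ) ^ e * (j : ℤ) := by
      push_cast
      ring
    rw [h3] at h2
    exact ext_symZ p e J hJ Φ hΦ1 (fun r => by
      rw [hΦ2]
      exact Submodule.mem_one.2 ⟨_, rfl⟩) (j : ℤ) _ h2
  refine ⟨e, { toFun := fun g => ⟨a3Psi Φ b n (p ^ e) ((show symAlg J from g) : Polynomial K),
                hmem _⟩
               map_add' := fun x y => ?_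
               map_smul' := fun a x => ?_ }, ?_⟩
  · apply Subtype.ext
    apply Polynomial.ext
    intro j
    show (a3Psi Φ b n (p ^ e) (((show symAlg J from x) + (show symAlg J from y) : symAlg J) :
      Polynomial K)).coeff j = (a3Psi Φ b n (p ^ e) ((show symAlg J from x) : Polynomial K) +
        a3Psi Φ b n (p ^ e) ((show symAlg J from y) : Polynomial K)).coeff j
    rw [Polynomial.coeff_add, a3Psi_coeff Φ b n _ hq, a3Psi_coeff Φ b n _ hq,
      a3Psi_coeff Φ b n _ hq, ← map_add, ← mul_add, ← Polynomial.coeff_add]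
    rfl
  · apply Subtype.ext
    apply Polynomial.ext
    intro j
    show (a3Psi Φ b n (p ^ e) ((a ^ p ^ e * (show symAlg J from x) : symAlg J) :
      Polynomial K)).coeff j = ((a : Polynomial K) *
        a3Psi Φ b n (p ^ e) ((show symAlg J from x) : Polynomial K)).coeff j
    rw [a3Psi_coeff Φ b n _ hq, Polynomial.coeff_mul]
    have h4 : ((a ^ p ^ e * (show symAlg J from x) : symAlg J) : Polynomial K) =
        (a : Polynomial K) ^ p ^ e * ((show symAlg J from x) : Polynomial K) := by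
      push_cast
      rfl
    rw [h4, a3_coeff p e _ _ n j (by omega), Finset.mul_sum, map_sum]
    refine Finset.sum_congr rfl fun z _ => ?_
    rw [a3Psi_coeff Φ b n _ hq, ← hΦ1]
    congr 1
    ring
  · apply Subtype.ext
    apply Polynomial.ext
    intro j
    show (a3Psi Φ b n (p ^ e) (f : Polynomial K)).coeff j = (1 : Polynomial K).coeff j
    rw [a3Psi_coeff Φ b n _ hq, Polynomial.coeff_one]
    split_ifs with h5
    · rw [h5, mul_zero, add_zero, ← hc, hΦ2, hφ, map_one]
    · have h6 : p ^ e ≤ p ^ e * j := Nat.le_mul_of_pos_right _ (Nat.pos_of_ne_zero h5)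
      rw [Polynomial.coeff_eq_zero_of_natDegree_lt (by omega), mul_zero, map_zero]

end Pool.Agent.FSig.SF
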