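import Pool.Agent.Work.MP_27623f_ag.SF.Defs

/-!
MODULE A4 (size S-M).  Localizations of strongly F-regular domains are strongly F-regular.

PROOF.  `A = Localization M`, `c ∈ A` not zero, `s c = algebraMap f` with `s ∈ M` (so `algebraMap s` is a unit), `f ≠ 0`.  Let
`ψ : RootMod S p e → S` with `ψ (toRoot f) = 1`.  The map `ψ_A : RootMod A p e → A`,
`ψ_A (toRoot (g / m)) = ψ (toRoot (g m^(q-1))) / m`, is well defined and `A`-linear: `RootMod A p e` is the localization of
`RootMod S p e` at `M` (`IsLocalizedModule`; `m` acts on it as the unit `m^q`, every element of `A` is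
`g/m = g m^(q-1) / m^q`), so `ψ_A` is the map of localized modules (`IsLocalizedModule.map` / `lift`), which is `A`-linear
(`LinearMap.extendScalarsOfIsLocalization`).  `ψ_A (toRoot (algebraMap f)) = 1`.  Then
`x ↦ ψ_A (toRoot (algebraMap s * x))` is `A`-linear on `RootMod A p e` and sends `toRoot c` to `1`.
-/

set_option autoImplicit false

namespace Pool.Agent.FSig.SF

open Pool.Agent.FSig

universe u

/-- The values of `ψ` on products, written in `S`. -/
private theorem psi_smul {S : Type u} [CommRing S] {p e : ℕ} [ExpChar S p]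
    (ψ : RootMod S p e →ₗ[S] S) (r x : S) :
    ψ (toRoot p e (r ^ p ^ e * x)) = r * ψ (toRoot p e x) := by
  have h : toRoot p e (r ^ p ^ e * x) = r • toRoot p e x := rfl
  rw [h, map_smul, smul_eq_mul]

private theorem psi_add {S : Type u} [CommRing S] {p e : ℕ} [ExpChar S p]
    (ψ : RootMod S p e →ₗ[S] S) (x y : S) :
    ψ (toRoot p e (x + y)) = ψ (toRoot p e x) + ψ (toRoot p e y) := by
  have h : toRoot p e (x + y) = toRoot p e x + toRoot p e y := rfl
  rw [h, map_add]

/-- The map `g / m ↦ ψ (g m^(q-1)) / m`. -/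
private noncomputable def locFun {S : Type u} [CommRing S] {p e : ℕ} [ExpChar S p]
    (M : Submonoid S) (ψ : RootMod S p e →ₗ[S] S) (x : Localization M) : Localization M :=
  IsLocalization.mk' (Localization M)
    (ψ (toRoot p e ((IsLocalization.sec M x).1 * ((IsLocalization.sec M x).2 : S) ^ (p ^ e - 1))))
    (IsLocalization.sec M x).2

private theorem locFun_mk {S : Type u} [CommRing S] [IsDomain S] {p e : ℕ} [ExpChar S p]
    (hq : 0 < p ^ e) (M : Submonoid S) (hM : M ≤ nonZeroDivisors S)
    (ψ : RootMod S p e →ₗ[S] S) (g : S) (m : M) :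
    locFun M ψ (IsLocalization.mk' (Localization M) g m) =
      IsLocalization.mk' (Localization M) (ψ (toRoot p e (g * (m : S) ^ (p ^ e - 1)))) m := by
  have key : ∀ (g g' m m' : S), g * m' = g' * m →
      ψ (toRoot p e (g * m ^ (p ^ e - 1))) * m' = ψ (toRoot p e (g' * m' ^ (p ^ e - 1))) * m := by
    intro g g' m m' h
    rw [mul_comm _ m', mul_comm _ m, ← psi_smul, ← psi_smul]
    congr 2
    obtain ⟨n, hn⟩ : ∃ n, p ^ e = n + 1 := ⟨p ^ e - 1, by omega⟩
    rw [hn, Nat.add_sub_cancel]
    calc m' ^ (n + 1) * (g * m ^ n) = (g * m') * (m ^ n * m' ^ n) := by ring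
      _ = (g' * m) * (m ^ n * m' ^ n) := by rw [h]
      _ = m ^ (n + 1) * (g' * m' ^ n) := by ring
  set x := IsLocalization.mk' (Localization M) g m with hx
  have hsec : IsLocalization.mk' (Localization M) (IsLocalization.sec M x).1
      (IsLocalization.sec M x).2 = IsLocalization.mk' (Localization M) g m := by
    rw [IsLocalization.mk'_sec]
  rw [IsLocalization.mk'_eq_iff_eq] at hsec
  have hinj := IsLocalization.injective (Localization M) hM
  have h2 := hinj hsec
  unfold locFun
  rw [IsLocalization.mk'_eq_iff_eq]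
  congr 1
  have h3 := key (IsLocalization.sec M x).1 g (IsLocalization.sec M x).2 m (by
    rw [mul_comm, h2, mul_comm])
  rw [mul_comm, h3, mul_comm]

private theorem locFun_add {S : Type u} [CommRing S] [IsDomain S] {p e : ℕ} [ExpChar S p]
    (hq : 0 < p ^ e) (M : Submonoid S) (hM : M ≤ nonZeroDivisors S)
    (ψ : RootMod S p e →ₗ[S] S) (x y : Localization M) :
    locFun M ψ (x + y) = locFun M ψ x + locFun M ψ y := by
  obtain ⟨g, m, rfl⟩ := IsLocalization.exists_mk'_eq M x
  obtain ⟨g', m', rfl⟩ := IsLocalization.exists_mk'_eq M y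
  rw [← IsLocalization.mk'_add, locFun_mk hq M hM, locFun_mk hq M hM, locFun_mk hq M hM,
    ← IsLocalization.mk'_add]
  congr 1
  rw [mul_comm (ψ _) (m' : S), mul_comm (ψ _) (m : S), ← psi_smul, ← psi_smul, ← psi_add]
  congr 2
  obtain ⟨n, hn⟩ : ∃ n, p ^ e = n + 1 := ⟨p ^ e - 1, by omega⟩
  rw [hn, Nat.add_sub_cancel, Submonoid.coe_mul]
  ring

private theorem locFun_mul {S : Type u} [CommRing S] [IsDomain S] {p e : ℕ} [ExpChar S p]
    (hq : 0 < p ^ e) (M : Submonoid S) (hM : M ≤ nonZeroDivisors S)
    (ψ : RootMod S p e →ₗ[S] S) (a x : Localization M) :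
    locFun M ψ (a ^ p ^ e * x) = a * locFun M ψ x := by
  obtain ⟨g, m, rfl⟩ := IsLocalization.exists_mk'_eq M x
  obtain ⟨r, t, rfl⟩ := IsLocalization.exists_mk'_eq M a
  rw [← IsLocalization.mk'_pow, ← IsLocalization.mk'_mul, locFun_mk hq M hM, locFun_mk hq M hM,
    ← IsLocalization.mk'_mul, IsLocalization.mk'_eq_iff_eq]
  congr 1
  obtain ⟨n, hn⟩ : ∃ n, p ^ e = n + 1 := ⟨p ^ e - 1, by omega⟩
  have h1 : r ^ p ^ e * g * ((t ^ p ^ e * m : M) : S) ^ (p ^ e - 1) =
      (r * (t : S) ^ (p ^ e - 1)) ^ p ^ e * (g * (m : S) ^ (p ^ e - 1)) := by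
    rw [Submonoid.coe_mul, SubmonoidClass.coe_pow]
    rw [hn, Nat.add_sub_cancel]
    ring
  rw [h1, psi_smul]
  simp only [Submonoid.coe_mul, SubmonoidClass.coe_pow]
  rw [hn, Nat.add_sub_cancel]
  ring

theorem sfr_loc {S : Type u} [CommRing S] [IsDomain S] (p : ℕ) [Fact p.Prime] [CharP S p]
    (M : Submonoid S) (hM : M ≤ nonZeroDivisors S) [CharP (Localization M) p]
    (h : StronglyFRegular S p) : StronglyFRegular (Localization M) p := by
  have hp : p.Prime := Fact.out
  intro c hc
  obtain ⟨f, s, rfl⟩ := IsLocalization.exists_mk'_eq M c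
  have hf : f ≠ 0 := by
    rintro rfl
    exact hc (IsLocalization.mk'_zero s)
  obtain ⟨e, ψ, hψ⟩ := h f hf
  have hq : 0 < p ^ e := pow_pos hp.pos e
  have hadd := locFun_add hq M hM ψ
  have hmul := locFun_mul hq M hM ψ
  let u : Localization M := algebraMap S (Localization M) (s : S)
  refine ⟨e, ⟨⟨fun x => locFun M ψ (u * (show Localization M from x)), ?_⟩, ?_⟩, ?_⟩
  · intro x y
    have h1 : u * (show Localization M from (x + y)) =
      u * (show Localization M from x) + u * (show Localization M from y) :=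
      mul_add u (show Localization M from x) (show Localization M from y)
    rw [h1, hadd]
  · intro r x
    have h1 : u * (show Localization M from (r • x)) =
        r ^ p ^ e * (u * (show Localization M from x)) := by
      show u * (r ^ p ^ e * (show Localization M from x)) = _
      ring
    show locFun M ψ (u * (show Localization M from (r • x))) = _
    rw [h1, hmul]
    rfl
  · show locFun M ψ (u * IsLocalization.mk' (Localization M) f s) = 1
    have h1 : u * IsLocalization.mk' (Localization M) f s =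
        IsLocalization.mk' (Localization M) f (1 : M) := by
      rw [IsLocalization.mk'_one]
      exact IsLocalization.mk'_spec' (Localization M) f s
    rw [h1, locFun_mk hq M hM]
    rw [Submonoid.coe_one, one_pow, mul_one, hψ, IsLocalization.mk'_one, map_one]

end Pool.Agent.FSig.SF
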