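import Mathlib

/-!
MODULE A5 (size S, Mathlib only).  Localizations of finitely generated algebras over an F-finite ring are F-finite.

PROOF.  Copy of `ffinite_loc` in `Pool/Agent/Work/MP_27623f_ag/HY/Ffin.lean` with the field `k` replaced by an F-finite ring `R`
(the proof for the algebra: `frobenius S p` is integral and of finite type, because
`(frobenius S p).comp (algebraMap R S) = (algebraMap R S).comp (frobenius R p)` is of finite type).
-/

set_option autoImplicit false

namespace Pool.Agent.FSig.SF

private theorem frob_isIntegral (R : Type*) [CommRing R] (p : ℕ) [Fact p.Prime] [CharP R p] :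
    (frobenius R p).IsIntegral := by
  intro a
  refine ⟨Polynomial.X ^ p - Polynomial.C a,
    Polynomial.monic_X_pow_sub_C a (Fact.out : p.Prime).ne_zero, ?_⟩
  simp [frobenius_def]

private theorem ffinite_alg {R S : Type*} [CommRing R] [CommRing S] [Algebra R S] (p : ℕ) [Fact p.Prime]
    [CharP R p] [CharP S p] (hR : (frobenius R p).Finite) (hS : Algebra.FiniteType R S) :
    (frobenius S p).Finite := by
  rw [RingHom.finite_iff_isIntegral_and_finiteType]
  refine ⟨frob_isIntegral S p, ?_⟩
  have h1 : (algebraMap R S).FiniteType := RingHom.finiteType_algebraMap.2 hS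
  have h2 : ((algebraMap R S).comp (frobenius R p)).FiniteType :=
    h1.comp hR.to_finiteType
  have h3 : (algebraMap R S).comp (frobenius R p) = (frobenius S p).comp (algebraMap R S) := by
    ext x
    simp [frobenius_def]
  rw [h3] at h2
  exact RingHom.FiniteType.of_comp_finiteType h2

theorem ffinite_loc' {R S : Type*} [CommRing R] [CommRing S] [Algebra R S] (p : ℕ)
    [Fact p.Prime] [CharP R p] [CharP S p] (hR : (frobenius R p).Finite)
    (hS : Algebra.FiniteType R S) (M : Submonoid S) [CharP (Localization M) p] :
    (frobenius (Localization M) p).Finite := by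
  have hp : p.Prime := Fact.out
  have hfA := ffinite_alg p hR hS
  have hloc : IsLocalization (M.map (frobenius S p)) (Localization M) := by
    refine ⟨?_, ?_, ?_⟩
    · rintro ⟨y, hy⟩
      obtain ⟨m, hm, rfl⟩ := hy
      have h1 := (IsLocalization.map_units (Localization M) ⟨m, hm⟩).pow p
      rw [← map_pow] at h1
      exact h1
    · intro z
      obtain ⟨⟨a, w⟩, h⟩ := IsLocalization.surj M z
      refine ⟨(a * (w : S) ^ (p - 1), ⟨frobenius S p w, ⟨w, w.2, rfl⟩⟩), ?_⟩
      have h2 : frobenius S p w = (w : S) * (w : S) ^ (p - 1) := by
        rw [frobenius_def, ← pow_succ', Nat.sub_add_cancel hp.one_le]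
      have h3 : z * algebraMap S (Localization M) (frobenius S p w) =
          algebraMap S (Localization M) (a * (w : S) ^ (p - 1)) := by
        rw [h2, map_mul, map_mul, ← mul_assoc, h]
      exact h3
    · intro x y hxy
      obtain ⟨c, hc⟩ := (IsLocalization.eq_iff_exists M (Localization M)).1 hxy
      refine ⟨⟨frobenius S p c, ⟨c, c.2, rfl⟩⟩, ?_⟩
      have h2 : frobenius S p c = (c : S) ^ (p - 1) * (c : S) := by
        rw [frobenius_def, ← pow_succ, Nat.sub_add_cancel hp.one_le]
      have h3 : frobenius S p c * x = frobenius S p c * y := by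
        rw [h2, mul_assoc, mul_assoc, hc]
      exact h3
  have h4 := RingHom.finite_localizationPreserves (frobenius S p) M (Localization M)
    (Localization M) hfA
  have h5 : IsLocalization.map (Localization M) (frobenius S p) (Submonoid.le_comap_map M) =
      frobenius (Localization M) p := by
    apply IsLocalization.ringHom_ext M
    ext x
    simp [frobenius_def]
  rw [h5] at h4
  exact h4

end Pool.Agent.FSig.SF
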