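import Mathlib

/-!
MODULE D1 (size M, Mathlib only).  Heights and one generator.

PROOF.  `φ = aeval t : R[X] → S` is onto.  `P' = P.comap φ` is maximal and lies over `𝔭 = P.comap (algebraMap R S)`, so
`P'.height = 𝔭.height + 1` (`Polynomial.height_eq_height_add_one`, `LiesOver`).  The primes of `S` below `P`
correspond to the primes of `R[X]` between `ker φ` and `P'` (strictly monotone comap: `RingHom.strictMono_comap_of_surjective`), so
`P.height ≤ P'.height`; if `ker φ ≠ 0`, then `(0) < ker φ` (a prime) can be put below a chain, and `P.height + 1 ≤ P'.height`.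
(Use `Ideal.exists_ltSeries_length_eq_height` and `Order.length_le_height` as in `Mathlib/RingTheory/Ideal/KrullsHeightTheorem.lean`,
or `Order.height_le_height_apply_of_strictMono`.)  Heights are finite: `R[X]` is Noetherian (`Ideal.height_ne_top`).
-/

set_option autoImplicit false

namespace Pool.Agent.FSig.SF

universe u

theorem height_step {R S : Type u} [CommRing R] [IsDomain R] [IsNoetherianRing R] [CommRing S]
    [IsDomain S] [Algebra R S] (hinj : Function.Injective (algebraMap R S)) (t : S)
    (ht : Algebra.adjoin R {t} = ⊤) (P : Ideal S) [P.IsMaximal]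
    (hP : (P.comap (algebraMap R S)).IsMaximal) :
    P.height ≤ (P.comap (algebraMap R S)).height + 1 ∧
      ((∃ f : Polynomial R, f ≠ 0 ∧ Polynomial.aeval t f = 0) →
        P.height ≤ (P.comap (algebraMap R S)).height) := by
  have hsurj : Function.Surjective (Polynomial.aeval t : Polynomial R →ₐ[R] S) := by
    rw [← AlgHom.range_eq_top, ← Algebra.adjoin_singleton_eq_range_aeval, ht]
  let φ : Polynomial R →+* S := (Polynomial.aeval t : Polynomial R →ₐ[R] S)
  have hφ : Function.Surjective φ := hsurj
  have hmax : (P.comap φ).IsMaximal := Ideal.comap_isMaximal_of_surjective φ hφ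
  have hover : (P.comap φ).LiesOver (P.comap (algebraMap R S)) := by
    refine ⟨?_⟩
    rw [Ideal.under_def, Ideal.comap_comap]
    congr 1
    ext r
    show algebraMap R S r = Polynomial.aeval t (Polynomial.C r)
    rw [Polynomial.aeval_C]
  have h1 : (P.comap φ).height = (P.comap (algebraMap R S)).height + 1 :=
    Polynomial.height_eq_height_add_one (P.comap (algebraMap R S)) (P.comap φ)
  have hN : IsNoetherianRing S := isNoetherianRing_of_surjective _ _ φ hφ
  have hPp : P.IsPrime := Ideal.IsMaximal.isPrime inferInstance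
  have hP'p : (P.comap φ).IsPrime := hmax.isPrime
  obtain ⟨l, hl, hlen⟩ := P.exists_ltSeries_length_eq_height
  let l' : LTSeries (PrimeSpectrum (Polynomial R)) :=
    l.map (PrimeSpectrum.comap φ) (RingHom.strictMono_comap_of_surjective hφ)
  have hlast : l'.last = ⟨P.comap φ, hP'p⟩ := by
    rw [LTSeries.last_map]
    rw [hl]
    rfl
  have hlen' : (l'.length : ℕ∞) = P.height := hlen
  have hht : ∀ m : LTSeries (PrimeSpectrum (Polynomial R)), m.last = ⟨P.comap φ, hP'p⟩ →
      (m.length : ℕ∞) ≤ (P.comap φ).height := by
    intro m hm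
    have h2 := Order.length_le_height (p := m) (x := ⟨P.comap φ, hP'p⟩) hm.le
    rw [← PrimeSpectrum.height_eq_orderHeight] at h2
    exact h2
  constructor
  · rw [← h1, ← hlen']
    exact hht l' hlast
  · rintro ⟨f, hf0, hf⟩
    have hbot : (⊥ : Ideal (Polynomial R)).IsPrime := Ideal.isPrime_bot
    have hlt : (⟨⊥, hbot⟩ : PrimeSpectrum (Polynomial R)) < l'.head := by
      rw [← PrimeSpectrum.asIdeal_lt_asIdeal]
      show (⊥ : Ideal (Polynomial R)) < l'.head.asIdeal
      rw [bot_lt_iff_ne_bot]
      intro hcon
      have h3 : f ∈ l'.head.asIdeal := by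
        rw [LTSeries.head_map]
        show φ f ∈ l.head.asIdeal
        have h4 : φ f = 0 := hf
        rw [h4]
        exact Ideal.zero_mem _
      rw [hcon] at h3
      exact hf0 h3
    have h3 := hht (l'.cons ⟨⊥, hbot⟩ hlt) (by rw [RelSeries.last_cons, hlast])
    rw [RelSeries.cons_length, h1] at h3
    push_cast at h3
    rw [hlen'] at h3
    exact (ENat.add_le_add_iff_right ENat.one_ne_top).1 h3

end Pool.Agent.FSig.SF
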