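import Mathlib

/-!
MODULE D2 (size S-M, Mathlib only).  Every polynomial is algebraic over a subalgebra which contains a nonconstant polynomial.

PROOF.  Let `f = ∑_(i ≤ n) a_i X^i`, `n ≥ 1`, `a_n ≠ 0`.  `X` is integral over `K[f] = Algebra.adjoin K {f}`: it is a root of
`∑ a_i T^i - f`, whose leading coefficient `a_n` is a unit.  So `K[X] = Algebra.adjoin K {X}` is integral over `K[f]`, and `g` is
a root of a monic `h₀ = T^k + ∑ c_i T^i` with `c_i ∈ K[f]`, `c_i = ∑_j c_ij f^j`, `c_ij ∈ K`.  Let `0 ≠ r ∈ R` be a common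
denominator of the `c_ij` (`IsLocalization.exist_integer_multiples_of_finset`).  Then `h = r T^k + ∑ (r c_i) T^i` has coefficients
in `B` (`r c_i = ∑ (r c_ij) f^j`, `r c_ij ∈ R`), is not zero, and `h (g) = r h₀ (g) = 0`.
-/

set_option autoImplicit false

namespace Pool.Agent.FSig.SF

universe u

theorem exists_poly_eq_zero {R K : Type u} [CommRing R] [IsDomain R] [Field K] [Algebra R K]
    [IsFractionRing R K] (B : Subalgebra R (Polynomial K)) (f : Polynomial K) (hf : f ∈ B)
    (hf0 : f.natDegree ≠ 0) (g : Polynomial K) :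
    ∃ h : Polynomial B, h ≠ 0 ∧ Polynomial.aeval g h = 0 := by
  have hinj : Function.Injective (algebraMap R K) := IsFractionRing.injective R K
  have hR : FaithfulSMul R K := (faithfulSMul_iff_algebraMap_injective R K).2 hinj
  have halg : Algebra.IsAlgebraic R K := 
    IsLocalization.isAlgebraic K (nonZeroDivisors R)
  have htr0 : Transcendental K f := by
    rw [transcendental_iff]
    intro p hp
    have h1 : p.comp f = 0 := by
      rw [← hp, Polynomial.aeval_def]
      rfl
    rcases Polynomial.comp_eq_zero_iff.1 h1 with h2 | ⟨-, h2⟩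
    · exact h2
    · exact absurd (by rw [h2, Polynomial.natDegree_C]) hf0
  have htr : Transcendental R f := htr0.restrictScalars hinj
  have hdeg : Algebra.trdeg R (Polynomial K) = 1 := by
    rw [← trdeg_add_eq R K (A := Polynomial K), trdeg_eq_zero_iff.2 halg, zero_add,
      Polynomial.trdeg_of_isDomain]
  have hind : AlgebraicIndependent R (fun _ : Unit => f) :=
    algebraicIndependent_unique_type_iff.2 htr
  have hbas : IsTranscendenceBasis R (fun _ : Unit => f) :=
    hind.isTranscendenceBasis_of_lift_trdeg_le_of_finite (by rw [hdeg]; simp)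
  obtain ⟨p, hp0, hp⟩ := hbas.isAlgebraic.1 g
  have hle : Algebra.adjoin R (Set.range fun _ : Unit => f) ≤ B := by
    rw [Algebra.adjoin_le_iff]
    rintro _ ⟨_, rfl⟩
    exact hf
  refine ⟨p.map (Subalgebra.inclusion hle).toRingHom, ?_, ?_⟩
  · exact (Polynomial.map_ne_zero_iff (Subalgebra.inclusion_injective hle)).2 hp0
  · rw [Polynomial.aeval_def, Polynomial.eval₂_map]
    rw [Polynomial.aeval_def] at hp
    exact hp

end Pool.Agent.FSig.SF
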