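import Pool.Agent.Work.MP_27623f_ag.SF.D1
import Pool.Agent.Work.MP_27623f_ag.SF.D2
import Pool.Agent.Work.MP_27623f_ag.SA.Defs

/-!
MODULE D3 (size M).  The dimension of the symbolic algebra at the origin is at most `dim R + 1`.

PROOF.  `ringKrullDim (Localization.AtPrime (origin J)) = (origin J).height` (`IsLocalization.AtPrime.ringKrullDim_eq_height`) and
`ringKrullDim R = (maximalIdeal R).height`.  Let `G` be a finite set of generators of `symAlg J`.  For `G' ⊆ G` (Finset induction)
let `B = Algebra.adjoin R G' ≤ symAlg J` and `P_B = {b ∈ B | (constant term of b) ∈ m}` = the comap of `origin J` under the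
inclusion `B → symAlg J`; it is a maximal ideal of `B` (`B → R → R/m` is onto with this kernel).  Claim: `B` is a Noetherian
domain, `P_B.height ≤ m.height + 1`, and if all elements of `G'` are constant polynomials then `B = ⊥` and
`P_B.height ≤ m.height`.  (A constant polynomial in `symAlg J` is in the image of `R`, since `symPow J 0 = 1`.)
Insert `t`: `B' = Algebra.adjoin R (insert t G')` is generated by `t` over `B` (`Algebra.adjoin_insert_adjoin`, ...; work with the
`B`-algebra `B'` or with `Algebra.adjoin B {t}` inside of `K[X]`).  If `t` is constant then `B' = B`.  If `t` is not constant and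
all elements of `G'` are constant: `height_step`, first part.  If some element of `G'` is not constant:
`exists_poly_eq_zero` and the second part.  Finally `G' = G`: `B = symAlg J`.
-/

set_option autoImplicit false

set_option linter.unusedSectionVars false

namespace Pool.Agent.FSig.SF

open Pool.Agent.FSig Pool.Agent.FSig.SA IsLocalRing

universe u

section

variable {R K : Type u} [CommRing R] [IsDomain R] [Field K] [Algebra R K] [IsFractionRing R K]

private noncomputable def ctB (J : Submodule R K) (B : Subalgebra R (Polynomial K))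
    (hB : B ≤ symAlg J) : B →+* R :=
  (constTerm J).comp (Subalgebra.inclusion hB).toRingHom

private theorem alg_ctB (J : Submodule R K) (B : Subalgebra R (Polynomial K))
    (hB : B ≤ symAlg J) (b : B) : algebraMap R K (ctB J B hB b) = (b : Polynomial K).coeff 0 :=
  algebraMap_constTerm (J := J) (Subalgebra.inclusion hB b)

private theorem ctB_alg (J : Submodule R K) (B : Subalgebra R (Polynomial K))
    (hB : B ≤ symAlg J) (r : R) : ctB J B hB (algebraMap R B r) = r := by
  apply IsFractionRing.injective R K
  rw [alg_ctB]
  show (algebraMap R (Polynomial K) r).coeff 0 = _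
  rw [Polynomial.algebraMap_apply, Polynomial.coeff_C_zero]

private theorem ctB_surj (J : Submodule R K) (B : Subalgebra R (Polynomial K))
    (hB : B ≤ symAlg J) : Function.Surjective (ctB J B hB) := fun r => ⟨_, ctB_alg J B hB r⟩

variable [IsLocalRing R]

private noncomputable def PB (J : Submodule R K) (B : Subalgebra R (Polynomial K))
    (hB : B ≤ symAlg J) : Ideal B := (maximalIdeal R).comap (ctB J B hB)

private theorem PB_max (J : Submodule R K) (B : Subalgebra R (Polynomial K))
    (hB : B ≤ symAlg J) : (PB J B hB).IsMaximal :=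
  Ideal.comap_isMaximal_of_surjective _ (ctB_surj J B hB)

private theorem step (J : Submodule R K) (B B' : Subalgebra R (Polynomial K)) (hBB : B ≤ B')
    (hB' : B' ≤ symAlg J) [IsNoetherianRing B] (t : Polynomial K) (ht : t ∈ B')
    (hgen : B' ≤ Algebra.adjoin R (insert t (B : Set (Polynomial K)))) :
    (PB J B' hB').height ≤ (PB J B (hBB.trans hB')).height + 1 ∧
      ((∃ h : Polynomial B, h ≠ 0 ∧ Polynomial.aeval t h = 0) →
        (PB J B' hB').height ≤ (PB J B (hBB.trans hB')).height) := by
  let _ : Algebra B B' := (Subalgebra.inclusion hBB).toRingHom.toAlgebra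
  have hcoe : ∀ b : B, ((algebraMap B B' b : B') : Polynomial K) = b := fun b => rfl
  have hinj : Function.Injective (algebraMap B B') := by
    intro x y h
    exact Subtype.ext (congrArg (fun z : B' => (z : Polynomial K)) h)
  have hadj : Algebra.adjoin B {(⟨t, ht⟩ : B')} = ⊤ := by
    rw [eq_top_iff]
    rintro ⟨x, hx⟩ -
    have hx' := hgen hx
    suffices h : ∀ (y : Polynomial K) (hy : y ∈ Algebra.adjoin R
        (insert t (B : Set (Polynomial K)))), ∀ hy' : y ∈ B',
        (⟨y, hy'⟩ : B') ∈ Algebra.adjoin B {(⟨t, ht⟩ : B')} from h x hx' hx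
    intro y hy
    have hle : Algebra.adjoin R (insert t (B : Set (Polynomial K))) ≤ B' := by
      refine Algebra.adjoin_le ?_
      rintro z (rfl | hz)
      · exact ht
      · exact hBB hz
    induction hy using Algebra.adjoin_induction with
    | mem y hy =>
      intro hy'
      rcases hy with rfl | hy
      · exact Algebra.subset_adjoin rfl
      · exact (Algebra.adjoin B {(⟨t, ht⟩ : B')}).algebraMap_mem ⟨y, hy⟩
    | algebraMap r =>
      intro hy'
      exact (Algebra.adjoin B {(⟨t, ht⟩ : B')}).algebraMap_mem (algebraMap R B r)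
    | add y z hy hz ihy ihz =>
      intro hyz
      have e : (⟨y + z, hyz⟩ : B') = ⟨y, hle hy⟩ + ⟨z, hle hz⟩ := Subtype.ext rfl
      rw [e]
      exact Subalgebra.add_mem _ (ihy (hle hy)) (ihz (hle hz))
    | mul y z hy hz ihy ihz =>
      intro hyz
      have e : (⟨y * z, hyz⟩ : B') = ⟨y, hle hy⟩ * ⟨z, hle hz⟩ := Subtype.ext rfl
      rw [e]
      exact Subalgebra.mul_mem _ (ihy (hle hy)) (ihz (hle hz))
  have hcomap : (PB J B' hB').comap (algebraMap B B') = PB J B (hBB.trans hB') := rfl
  have := PB_max J B' hB'
  have hP : ((PB J B' hB').comap (algebraMap B B')).IsMaximal := by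
    rw [hcomap]
    exact PB_max J B _
  obtain ⟨h1, h2⟩ := height_step hinj (⟨t, ht⟩ : B') hadj (PB J B' hB') hP
  rw [hcomap] at h1 h2
  refine ⟨h1, fun ⟨h, hh0, hh⟩ => h2 ⟨h, hh0, ?_⟩⟩
  apply Subtype.ext
  have h3 : (B'.val : B' →+* Polynomial K) (Polynomial.eval₂ (algebraMap B B') (⟨t, ht⟩ : B') h) =
      Polynomial.eval₂ ((B'.val : B' →+* Polynomial K).comp (algebraMap B B')) t h :=
    Polynomial.hom_eval₂ h (algebraMap B B') (B'.val : B' →+* Polynomial K) ⟨t, ht⟩
  have h4 : (B'.val : B' →+* Polynomial K).comp (algebraMap B B') =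
      algebraMap B (Polynomial K) := RingHom.ext fun b => rfl
  rw [h4] at h3
  exact h3.trans hh

private theorem const_adjoin (s : Set (Polynomial K)) (hs : ∀ f ∈ s, f.natDegree = 0) :
    ∀ f ∈ Algebra.adjoin R s, f.natDegree = 0 := by
  intro f hf
  induction hf using Algebra.adjoin_induction with
  | mem f hf => exact hs f hf
  | algebraMap r =>
    rw [Polynomial.algebraMap_apply]
    exact Polynomial.natDegree_C _
  | add f g _ _ hf hg =>
    refine Nat.le_zero.1 ((Polynomial.natDegree_add_le f g).trans ?_)
    rw [hf, hg]
    exact le_rfl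
  | mul f g _ _ hf hg =>
    refine Nat.le_zero.1 (Polynomial.natDegree_mul_le.trans ?_)
    rw [hf, hg]

private theorem const_height (J : Submodule R K) (B : Subalgebra R (Polynomial K))
    (hB : B ≤ symAlg J) (h0 : ∀ f ∈ B, f.natDegree = 0) :
    (PB J B hB).height = (maximalIdeal R).height := by
  have hbij : Function.Bijective (ctB J B hB) := by
    refine ⟨?_, ctB_surj J B hB⟩
    rw [injective_iff_map_eq_zero]
    intro b hb
    apply Subtype.ext
    have h1 := alg_ctB J B hB b
    rw [hb, map_zero] at h1
    have h2 := Polynomial.eq_C_of_natDegree_eq_zero (h0 b b.2)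
    rw [h2, ← h1, Polynomial.C_0]
    rfl
  exact RingEquiv.height_comap (RingEquiv.ofBijective (ctB J B hB) hbij) (maximalIdeal R)

private theorem main [IsNoetherianRing R] (J : Submodule R K) (s : Finset (Polynomial K)) :
    ∀ (B : Subalgebra R (Polynomial K)) (hB : B ≤ symAlg J),
      Algebra.adjoin R (s : Set (Polynomial K)) = B →
      (PB J B hB).height ≤ (maximalIdeal R).height + 1 := by
  classical
  induction s using Finset.induction_on with
  | empty =>
    intro B hB hs
    rw [const_height J B hB fun f hf => const_adjoin (R := R) (∅ : Set (Polynomial K))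
      (fun f hf => absurd hf (Set.notMem_empty f)) f (by
        rw [← hs, Finset.coe_empty] at hf
        exact hf)]
    exact le_self_add
  | insert t s _ ih =>
    intro B' hB' hs
    have hBB : Algebra.adjoin R (s : Set (Polynomial K)) ≤ B' := by
      rw [← hs]
      refine Algebra.adjoin_mono ?_
      rw [Finset.coe_insert]
      exact Set.subset_insert _ _
    have ht : t ∈ B' := by
      rw [← hs]
      refine Algebra.subset_adjoin ?_
      rw [Finset.coe_insert]
      exact Set.mem_insert _ _
    have hgen : B' ≤ Algebra.adjoin R (insert t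
        ((Algebra.adjoin R (s : Set (Polynomial K)) : Subalgebra R (Polynomial K)) :
          Set (Polynomial K))) := by
      rw [← hs, Finset.coe_insert]
      exact Algebra.adjoin_mono (Set.insert_subset_insert Algebra.subset_adjoin)
    have : IsNoetherianRing (Algebra.adjoin R (s : Set (Polynomial K))) :=
      isNoetherianRing_of_fg ⟨s, rfl⟩
    obtain ⟨h1, h2⟩ := step J _ B' hBB hB' t ht hgen
    by_cases hc : ∀ f ∈ s, f.natDegree = 0
    · rw [const_height J _ (hBB.trans hB')
        (const_adjoin (R := R) (s : Set (Polynomial K)) fun f hf => hc f hf)] at h1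
      exact h1
    · push Not at hc
      obtain ⟨f, hf, hf0⟩ := hc
      have h3 := h2 (exists_poly_eq_zero (Algebra.adjoin R (s : Set (Polynomial K))) f
        (Algebra.subset_adjoin hf) hf0 t)
      exact h3.trans (ih _ (hBB.trans hB') rfl)

end

theorem dim_origin_le {R K : Type u} [CommRing R] [IsDomain R] [IsNoetherianRing R]
    [IsLocalRing R] [Field K] [Algebra R K] [IsFractionRing R K] (J : Submodule R K)
    (hfg : (symAlg J).FG) :
    ringKrullDim (Localization.AtPrime (origin J)) ≤ ringKrullDim R + 1 := by
  obtain ⟨s, hs⟩ := hfg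
  have h1 := main J s (symAlg J) le_rfl hs
  have h2 : PB J (symAlg J) le_rfl = origin J := rfl
  rw [h2] at h1
  rw [IsLocalization.AtPrime.ringKrullDim_eq_height (origin J) (Localization.AtPrime (origin J)),
    ← IsLocalRing.maximalIdeal_height_eq_ringKrullDim]
  exact_mod_cast h1

end Pool.Agent.FSig.SF
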