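import Pool.Agent.Work.MP_27623f_ag.SA.Defs

/-!
MP_27623f_ag / SF: strongly F-regular rings with a finitely generated anticanonical algebra.
Definitions.
-/

set_option autoImplicit false

namespace Pool.Agent.FSig.SF

open Pool.Agent.FSig Pool.Agent.FSig.SA IsLocalRing

universe u

/-- `R` is strongly F-regular (for an F-finite domain `R`): for every `c ≠ 0` there are `q = p^e`
and an `R`-linear map `R^{1/q} → R` which sends `c^{1/q}` to `1`. -/
def StronglyFRegular (R : Type u) [CommRing R] (p : ℕ) [ExpChar R p] : Prop :=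
  ∀ c : R, c ≠ 0 → ∃ (e : ℕ) (φ : RootMod R p e →ₗ[R] R), φ (toRoot p e c) = 1

/-- `z_1, ..., z_d` is a system of parameters of the local ring `R`. -/
structure IsSop {R : Type*} [CommRing R] [IsLocalRing R] {d : ℕ} (z : Fin d → R) : Prop where
  dim : ringKrullDim R = d
  mem : ∀ i, z i ∈ maximalIdeal R
  prim : ∃ c, maximalIdeal R ^ c ≤ Ideal.span (Set.range z)

/-- `z` is a `W`-regular sequence in every order. -/
def RegOn {R M : Type*} [CommRing R] [AddCommGroup M] [Module R M] (W : Submodule R M) {d : ℕ}
    (z : Fin d → R) : Prop :=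
  ∀ (i : Fin d) (T : Finset (Fin d)), i ∉ T → ∀ b ∈ W,
    z i • b ∈ Ideal.span (z '' T) • W → b ∈ Ideal.span (z '' T) • W

/-- `w` generates the socle of `W / I W`, which is simple and essential: `w ∉ I W` and every
element of `W` outside of `I W` has a multiple congruent to `w`. -/
structure SocGen {R M : Type*} [CommRing R] [AddCommGroup M] [Module R M] (W : Submodule R M)
    (I : Ideal R) (w : M) : Prop where
  mem : w ∈ W
  nmem : w ∉ I • W
  soc : ∀ b ∈ W, b ∉ I • W → ∃ r : R, r • b - w ∈ I • W

/-- `W` is a canonical module of the local ring `R`: every system of parameters `z` of `R` is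
`W`-regular and the socle of `W / (z) W` is simple (`W` is maximal Cohen-Macaulay of type one;
it is used for a nonzero submodule `W` of the fraction field of `R`, which is faithful). -/
def IsCanonical {R M : Type*} [CommRing R] [IsLocalRing R] [AddCommGroup M] [Module R M]
    (W : Submodule R M) : Prop :=
  ∀ (d : ℕ) (z : Fin d → R), IsSop z →
    RegOn W z ∧ ∃ w, SocGen W (Ideal.span (Set.range z)) w

/-- The elements `a` of `A` such that no `A`-linear map `A^{1/q} → A` sends `a^{1/q}` to a unit. -/
noncomputable def splitId (A : Type u) [CommRing A] [IsLocalRing A] (p e : ℕ) [ExpChar A p] :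
    Ideal A where
  carrier := {a | ∀ φ : RootMod A p e →ₗ[A] A, φ (toRoot p e a) ∈ maximalIdeal A}
  add_mem' := fun {a b} ha hb φ => by
    have h : toRoot p e (a + b) = toRoot p e a + toRoot p e b := rfl
    rw [h, map_add]
    exact Ideal.add_mem _ (ha φ) (hb φ)
  zero_mem' := fun φ => by
    have h : toRoot p e (0 : A) = 0 := rfl
    rw [h, map_zero]
    exact Ideal.zero_mem _
  smul_mem' := fun c a ha φ => by
    let μ : RootMod A p e →ₗ[A] RootMod A p e :=
      { toFun := fun x => toRoot p e (c * (show A from x))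
        map_add' := fun x y => mul_add c (show A from x) (show A from y)
        map_smul' := fun r x => by
          show c * ((r ^ p ^ e) * (show A from x)) = (r ^ p ^ e) * (c * (show A from x))
          ring }
    exact ha (φ ∘ₗ μ)

theorem mem_splitId {A : Type u} [CommRing A] [IsLocalRing A] {p e : ℕ} [ExpChar A p] {a : A} :
    a ∈ splitId A p e ↔ ∀ φ : RootMod A p e →ₗ[A] A, φ (toRoot p e a) ∈ maximalIdeal A := Iff.rfl

/-! ### Koszul homology in degrees zero and one -/

/-- `m ↦ ∑ x_i m_i` -/
def kosOne {R : Type*} [CommRing R] {s : ℕ} (x : Fin s → R) (M : Type*) [AddCommGroup M]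
    [Module R M] : (Fin s → M) →ₗ[R] M :=
  ∑ i, x i • (LinearMap.proj i : (Fin s → M) →ₗ[R] M)

/-- `t ↦ (∑_j x_j (t_(i j) - t_(j i)))_i` -/
def kosTwo {R : Type*} [CommRing R] {s : ℕ} (x : Fin s → R) (M : Type*) [AddCommGroup M]
    [Module R M] : (Fin s → Fin s → M) →ₗ[R] (Fin s → M) where
  toFun t := fun i => ∑ j, x j • (t i j - t j i)
  map_add' := fun t t' => by
    funext i
    simp only [Pi.add_apply]
    rw [← Finset.sum_add_distrib]
    refine Finset.sum_congr rfl fun j _ => ?_
    rw [← smul_add]
    congr 1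
    abel
  map_smul' := fun c t => by
    funext i
    simp only [Pi.smul_apply, RingHom.id_apply]
    rw [Finset.smul_sum]
    refine Finset.sum_congr rfl fun j _ => ?_
    rw [← smul_sub, smul_comm]

theorem kosOne_apply {R : Type*} [CommRing R] {s : ℕ} (x : Fin s → R) {M : Type*}
    [AddCommGroup M] [Module R M] (m : Fin s → M) : kosOne x M m = ∑ i, x i • m i := by
  simp [kosOne]

theorem kosTwo_apply {R : Type*} [CommRing R] {s : ℕ} (x : Fin s → R) {M : Type*}
    [AddCommGroup M] [Module R M] (t : Fin s → Fin s → M) (i : Fin s) :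
    kosTwo x M t i = ∑ j, x j • (t i j - t j i) := rfl

/-- The length of `H_0(x; M) = M / (x) M`. -/
noncomputable def h0 {R : Type*} [CommRing R] {s : ℕ} (x : Fin s → R) (M : Type*)
    [AddCommGroup M] [Module R M] : ℕ∞ :=
  Module.length R (M ⧸ LinearMap.range (kosOne x M))

/-- The length of `H_1(x; M)`: the module of all relations `∑ x_i m_i = 0` modulo the trivial
ones. -/
noncomputable def h1 {R : Type*} [CommRing R] {s : ℕ} (x : Fin s → R) (M : Type*)
    [AddCommGroup M] [Module R M] : ℕ∞ :=
  Module.length R (LinearMap.ker (kosOne x M) ⧸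
    (LinearMap.range (kosTwo x M)).submoduleOf (LinearMap.ker (kosOne x M)))

end Pool.Agent.FSig.SF
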