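import Pool.Agent.Work.MP_27623f_ag.SF.D3
import Pool.Agent.Work.MP_27623f_ag.SF.Defs

/-!
MODULE D4 (size M).  A system of parameters of the symbolic algebra at the origin which contains a given `y` of constant term `0`.

PROOF.  `S = symAlg J` is Noetherian (finite type over `R`), a domain; `A = S_n`, `n = origin J`.  `ε : A → R` is the extension of
`constTerm J` (elements outside of `n` have unit constant terms; see SA/StA), `φ : R → S → A`, `ε φ = id`, `ε y = 0`,
`y ≠ 0`.  `dim A ≥ dim R + 1`: `ringKrullDim_succ_le_of_surjective` for `ε` and the nonzerodivisor `y ∈ ker ε`.  With `dim_origin_le`: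
`dim A = d + 1`; `dim A/(y) = d` (`ringKrullDim_quotient_span_singleton_succ_eq_ringKrullDim_of_mem_nonZeroDivisors`).  The maximal
ideal of `A/(y)` has height `d`, so there is a set of `d` elements (`Ideal.exists_finset_card_eq_height_of_isNoetherianRing`) such that it
is minimal over the ideal generated by them, hence it is its radical; lift them to elements of the maximal ideal of `A` and multiply by units
of `A` to obtain `x_i ∈ S`, `x_i ∈ n`.  `m_A^c ≤ (y, x)` (`Ideal.exists_pow_le_of_le_radical_of_fg`).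
`z_i = constTerm x_i ∈ m`; for `r ∈ m^c`: `φ r ∈ m_A^c ≤ (y, x)A`, apply `ε`: `r ∈ (z)`.
-/

set_option autoImplicit false

namespace Pool.Agent.FSig.SF

open Pool.Agent.FSig Pool.Agent.FSig.SA IsLocalRing

universe u

private theorem cancel_one {x : WithBot ℕ∞} {d : ℕ} (h : x + 1 = (d : WithBot ℕ∞) + 1) :
    x = d := by
  cases x with
  | bot =>
    exfalso
    rw [WithBot.bot_add] at h
    exact WithBot.bot_ne_coe (a := (d : ℕ∞) + 1) h
  | coe m =>
    have h1 : m + 1 = (d : ℕ∞) + 1 := by exact_mod_cast h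
    have h2 := ENat.add_left_injective_of_ne_top (n := 1) (by exact ENat.one_ne_top) h1
    rw [h2]
    rfl

/-- a system of parameters of a local ring, from a nonzerodivisor `y` -/
private theorem exists_gens {A : Type u} [CommRing A] [IsLocalRing A] [IsNoetherianRing A] {d : ℕ}
    (y : A) (hym : y ∈ maximalIdeal A) (hyn : y ∈ nonZeroDivisors A)
    (hdim : ringKrullDim A = ((d + 1 : ℕ) : WithBot ℕ∞)) :
    ∃ a : Fin d → A, (∀ i, a i ∈ maximalIdeal A) ∧
      maximalIdeal A ≤ (Ideal.span (insert y (Set.range a))).radical := by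
  have hdim' : ringKrullDim (A ⧸ Ideal.span {y}) = (d : WithBot ℕ∞) := by
    have h1 := ringKrullDim_quotient_span_singleton_succ_eq_ringKrullDim_of_mem_nonZeroDivisors
      hyn hym
    rw [hdim] at h1
    have h2 : ringKrullDim (A ⧸ Ideal.span {y}) + 1 = (d : WithBot ℕ∞) + 1 := by
      rw [h1]
      push_cast
      rfl
    exact cancel_one h2
  have hnt : Nontrivial (A ⧸ Ideal.span {y}) := by
    refine Ideal.Quotient.nontrivial_iff.2 fun h => ?_
    have h1 : (1 : A) ∈ Ideal.span {y} := by rw [h]; trivial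
    have h2 : Ideal.span {y} ≤ maximalIdeal A := by
      rw [Ideal.span_singleton_le_iff_mem]
      exact hym
    exact (maximalIdeal.isMaximal A).ne_top ((Ideal.eq_top_iff_one _).2 (h2 h1))
  have hloc : IsLocalRing (A ⧸ Ideal.span {y}) :=
    IsLocalRing.of_surjective' (Ideal.Quotient.mk (Ideal.span {y})) Ideal.Quotient.mk_surjective
  obtain ⟨s, hs, hcard⟩ :=
    (maximalIdeal (A ⧸ Ideal.span {y})).exists_finset_card_eq_height_of_isNoetherianRing
  have hcard' : s.card = d := by
    have h1 := IsLocalRing.maximalIdeal_height_eq_ringKrullDim (R := A ⧸ Ideal.span {y})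
    rw [← hcard, hdim'] at h1
    exact_mod_cast h1
  have hrad : maximalIdeal (A ⧸ Ideal.span {y}) ≤ (Ideal.span (s : Set (A ⧸ Ideal.span {y}))).radical := by
    rw [Ideal.radical_eq_sInf]
    refine le_sInf fun P hP => ?_
    obtain ⟨h1, h2⟩ := hP
    exact hs.2 ⟨h2, h1⟩ (IsLocalRing.le_maximalIdeal h2.ne_top)
  have hmem : ∀ b ∈ s, b ∈ maximalIdeal (A ⧸ Ideal.span {y}) := fun b hb =>
    hs.1.2 (Ideal.subset_span (Finset.mem_coe.2 hb))
  let e := s.equivFinOfCardEq hcard'
  choose a ha using fun i : Fin d => Ideal.Quotient.mk_surjective ((e.symm i : A ⧸ Ideal.span {y}))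
  refine ⟨a, fun i => ?_, fun z hz => ?_⟩
  · by_contra hcon
    have h1 : IsUnit (a i) := IsLocalRing.notMem_maximalIdeal.1 hcon
    have h2 := h1.map (Ideal.Quotient.mk (Ideal.span {y}))
    rw [ha i] at h2
    exact (IsLocalRing.mem_maximalIdeal _).1 (hmem _ (e.symm i).2) h2
  · have hz' : Ideal.Quotient.mk (Ideal.span {y}) z ∈ maximalIdeal (A ⧸ Ideal.span {y}) := by
      rw [IsLocalRing.mem_maximalIdeal]
      intro hu
      obtain ⟨v, hv⟩ := hu.exists_right_inv
      obtain ⟨w, rfl⟩ := Ideal.Quotient.mk_surjective v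
      rw [← map_mul, ← map_one (Ideal.Quotient.mk (Ideal.span {y})), Ideal.Quotient.eq] at hv
      have h2 : Ideal.span {y} ≤ maximalIdeal A := by
        rw [Ideal.span_singleton_le_iff_mem]
        exact hym
      have h3 : z * w - 1 ∈ maximalIdeal A := h2 hv
      have h4 : z * w ∈ maximalIdeal A := Ideal.mul_mem_right _ _ hz
      have h5 : (1 : A) ∈ maximalIdeal A := by
        have := Ideal.sub_mem _ h4 h3
        rwa [sub_sub_cancel] at this
      exact (maximalIdeal.isMaximal A).ne_top ((Ideal.eq_top_iff_one _).2 h5)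
    obtain ⟨n, hn⟩ := hrad hz'
    refine ⟨n, ?_⟩
    rw [← map_pow] at hn
    set I := Ideal.span (insert y (Set.range a)) with hI
    have h1 : Ideal.span (s : Set (A ⧸ Ideal.span {y})) ≤
        I.map (Ideal.Quotient.mk (Ideal.span {y})) := by
      rw [Ideal.span_le]
      intro b hb
      have h2 : b = Ideal.Quotient.mk (Ideal.span {y}) (a (e ⟨b, Finset.mem_coe.1 hb⟩)) := by
        rw [ha, Equiv.symm_apply_apply]
      rw [h2]
      exact Ideal.mem_map_of_mem _ (Ideal.subset_span (Or.inr ⟨_, rfl⟩))
    have h2 := h1 hn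
    rw [Ideal.mem_map_iff_of_surjective _ Ideal.Quotient.mk_surjective] at h2
    obtain ⟨x, hx, hxz⟩ := h2
    rw [Ideal.Quotient.eq] at hxz
    have h3 : Ideal.span {y} ≤ I := Ideal.span_mono (Set.singleton_subset_iff.2 (Or.inl rfl))
    have h4 := Ideal.sub_mem _ hx (h3 hxz)
    rwa [sub_sub_cancel] at h4

private theorem exists_gens_loc {S : Type u} [CommRing S] (P : Ideal S) [P.IsPrime] (A : Type u)
    [CommRing A] [Algebra S A] [IsLocalization.AtPrime A P] [IsLocalRing A] [IsNoetherianRing A]
    {d : ℕ} (y : S) (hym : algebraMap S A y ∈ maximalIdeal A)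
    (hyn : algebraMap S A y ∈ nonZeroDivisors A)
    (hdim : ringKrullDim A = ((d + 1 : ℕ) : WithBot ℕ∞)) :
    ∃ (x : Fin d → S) (c : ℕ), (∀ i, algebraMap S A (x i) ∈ maximalIdeal A) ∧
      maximalIdeal A ^ c ≤ Ideal.span (Set.range
        (Fin.cons (algebraMap S A y) (fun i => algebraMap S A (x i)) : Fin (d + 1) → A)) := by
  obtain ⟨a, ham, harad⟩ := exists_gens (algebraMap S A y) hym hyn hdim
  have hex : ∀ i, ∃ (s : S) (t : P.primeCompl), a i * algebraMap S A t = algebraMap S A s :=
    fun i => by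
      obtain ⟨⟨s, t⟩, h⟩ := IsLocalization.surj P.primeCompl (a i)
      exact ⟨s, t, h⟩
  choose x t hx using hex
  have htu : ∀ i, IsUnit (algebraMap S A (t i)) := fun i => IsLocalization.map_units A (t i)
  have hIle : Ideal.span (insert (algebraMap S A y) (Set.range a)) ≤ Ideal.span (Set.range
      (Fin.cons (algebraMap S A y) (fun i => algebraMap S A (x i)) : Fin (d + 1) → A)) := by
    rw [Ideal.span_le]
    rintro b (rfl | ⟨i, rfl⟩)
    · exact Ideal.subset_span ⟨0, rfl⟩
    · obtain ⟨u, hu⟩ := (htu i).exists_right_inv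
      have h1 : a i = algebraMap S A (x i) * u := by
        rw [← hx i, mul_assoc, hu, mul_one]
      rw [h1]
      exact Ideal.mul_mem_right _ _ (Ideal.subset_span ⟨i.succ, rfl⟩)
  obtain ⟨c, hc⟩ := Ideal.exists_pow_le_of_le_radical_of_fg
    (harad.trans (Ideal.radical_mono hIle))
    ((isNoetherianRing_iff_ideal_fg A).1 inferInstance (maximalIdeal A))
  refine ⟨x, c, fun i => ?_, hc⟩
  rw [← hx i]
  exact Ideal.mul_mem_right _ _ (ham i)

private theorem main_aux {R S : Type u} [CommRing R] [IsLocalRing R] [CommRing S] [IsDomain S]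
    [IsNoetherianRing S] [Algebra R S] (c : S →+* R) (hct : ∀ r, c (algebraMap R S r) = r)
    (P : Ideal S) [P.IsPrime] (hP : P = (maximalIdeal R).comap c) (A : Type u) [CommRing A]
    [IsLocalRing A] [Algebra S A] [IsLocalization.AtPrime A P]
    (hdimA : ringKrullDim A ≤ ringKrullDim R + 1) {d : ℕ} (hd : ringKrullDim R = d) (y : S)
    (hy0 : y ≠ 0) (hy : c y = 0) :
    ∃ x : Fin d → S, (∀ i, x i ∈ P) ∧ IsSop (fun i => c (x i)) ∧
      IsSop (Fin.cons (algebraMap S A y) (fun i => algebraMap S A (x i)) : Fin (d + 1) → A) := by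
  have hNA : IsNoetherianRing A := IsLocalization.isNoetherianRing P.primeCompl A inferInstance
  have hle : P.primeCompl ≤ nonZeroDivisors S := by
    intro t ht
    rw [mem_nonZeroDivisors_iff_ne_zero]
    rintro rfl
    exact ht (Ideal.zero_mem _)
  have hdom : IsDomain A :=
    IsLocalization.isDomain_of_le_nonZeroDivisors (M := P.primeCompl) A hle
  have hinjA : Function.Injective (algebraMap S A) := IsLocalization.injective A hle
  have hmP : ∀ t : S, t ∈ P ↔ c t ∈ maximalIdeal R := fun t => by
    rw [hP]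
    exact Iff.rfl
  have hunit : ∀ t : P.primeCompl, IsUnit (c (t : S)) := by
    intro t
    have h1 : (t : S) ∉ P := t.2
    rw [hmP] at h1
    exact IsLocalRing.notMem_maximalIdeal.1 h1
  let ε : A →+* R := IsLocalization.lift (M := P.primeCompl) hunit
  have hε : ∀ t : S, ε (algebraMap S A t) = c t := fun t => IsLocalization.lift_eq hunit t
  have hεs : Function.Surjective ε := fun r => ⟨algebraMap S A (algebraMap R S r), by
    rw [hε, hct]⟩
  have hmm : ∀ t : S, algebraMap S A t ∈ maximalIdeal A ↔ t ∈ P := fun t =>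
    IsLocalization.AtPrime.to_map_mem_maximal_iff A P t
  have hym : algebraMap S A y ∈ maximalIdeal A := by
    rw [hmm, hmP, hy]
    exact Ideal.zero_mem _
  have hyA0 : algebraMap S A y ≠ 0 := fun h => hy0 (hinjA (by rw [h, map_zero]))
  have hyn : algebraMap S A y ∈ nonZeroDivisors A := mem_nonZeroDivisors_iff_ne_zero.2 hyA0
  have hdim : ringKrullDim A = ((d + 1 : ℕ) : WithBot ℕ∞) := by
    have h1 := ringKrullDim_succ_le_of_surjective ε hεs hyn (by rw [hε, hy])
    rw [hd] at h1 hdimA
    have h3 : ((d + 1 : ℕ) : WithBot ℕ∞) = (d : WithBot ℕ∞) + 1 := by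
      push_cast
      rfl
    rw [h3]
    exact le_antisymm hdimA h1
  obtain ⟨x, n, hxA, hc⟩ := exists_gens_loc P A y hym hyn hdim
  have hxo : ∀ i, x i ∈ P := fun i => (hmm _).1 (hxA i)
  refine ⟨x, hxo, ⟨hd, fun i => (hmP _).1 (hxo i), n, fun r hr => ?_⟩, ⟨hdim, ?_, n, hc⟩⟩
  · set φ : R →+* A := (algebraMap S A).comp (algebraMap R S) with hφ
    have h1 : (maximalIdeal R).map φ ≤ maximalIdeal A := by
      rw [Ideal.map_le_iff_le_comap]
      intro z hz
      rw [Ideal.mem_comap]
      show algebraMap S A (algebraMap R S z) ∈ maximalIdeal A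
      rw [hmm, hmP, hct]
      exact hz
    have h2 : φ r ∈ Ideal.span (Set.range
        (Fin.cons (algebraMap S A y) (fun i => algebraMap S A (x i)) : Fin (d + 1) → A)) := by
      apply hc
      apply Ideal.pow_right_mono h1 n
      rw [← Ideal.map_pow]
      exact Ideal.mem_map_of_mem _ hr
    have h3 : (Ideal.span (Set.range
        (Fin.cons (algebraMap S A y) (fun i => algebraMap S A (x i)) : Fin (d + 1) → A))).map ε ≤
        Ideal.span (Set.range fun i => c (x i)) := by
      rw [Ideal.map_span, Ideal.span_le]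
      rintro _ ⟨_, ⟨i, rfl⟩, rfl⟩
      refine Fin.cases ?_ (fun i => ?_) i
      · show ε (algebraMap S A y) ∈ _
        rw [hε, hy]
        exact Ideal.zero_mem _
      · show ε (algebraMap S A (x i)) ∈ _
        rw [hε]
        exact Ideal.subset_span ⟨i, rfl⟩
    have h4 := h3 (Ideal.mem_map_of_mem ε h2)
    have h5 : ε (φ r) = r := by
      show ε (algebraMap S A (algebraMap R S r)) = r
      rw [hε, hct]
    rwa [h5] at h4
  · intro i
    refine Fin.cases ?_ (fun i => ?_) i
    · exact hym
    · exact hxA i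

theorem exists_params {R K : Type u} [CommRing R] [IsDomain R] [IsNoetherianRing R]
    [IsLocalRing R] [Field K] [Algebra R K] [IsFractionRing R K] (J : Submodule R K)
    (hfg : (symAlg J).FG) {d : ℕ} (hd : ringKrullDim R = d) (y : symAlg J) (hy0 : y ≠ 0)
    (hy : constTerm J y = 0) :
    ∃ x : Fin d → symAlg J, (∀ i, x i ∈ origin J) ∧
      IsSop (fun i => constTerm J (x i)) ∧
      IsSop (Fin.cons (algebraMap (symAlg J) (Localization.AtPrime (origin J)) y)
        (fun i => algebraMap (symAlg J) (Localization.AtPrime (origin J)) (x i)) :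
        Fin (d + 1) → Localization.AtPrime (origin J)) := by
  have hct : ∀ r : R, constTerm J (algebraMap R (symAlg J) r) = r := by
    intro r
    apply FaithfulSMul.algebraMap_injective R K
    rw [algebraMap_constTerm]
    have h1 : ((algebraMap R (symAlg J) r : symAlg J) : Polynomial K) =
        algebraMap R (Polynomial K) r := rfl
    rw [h1, Polynomial.algebraMap_apply, Polynomial.coeff_C_zero]
  have hft : Algebra.FiniteType R (symAlg J) := (Subalgebra.fg_iff_finiteType _).1 hfg
  have hN : IsNoetherianRing (symAlg J) := Algebra.FiniteType.isNoetherianRing R (symAlg J)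
  exact main_aux (constTerm J) hct (origin J) rfl (Localization.AtPrime (origin J))
    (dim_origin_le J hfg) hd y hy0 hy

end Pool.Agent.FSig.SF
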