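import Pool.Agent.Work.MP_27623f_ag.SF.Defs

/-!
MODULE F1 (size S-M, Mathlib only).  A finitely generated torsion-free module is free up to a nonzero element.

PROOF.  Choose a maximal linearly independent family among a finite set of generators of `M`
(`exists_linearIndependent`-type lemma over a domain; or pass to `K ⊗ M`, `K` the fraction field; or
`Module.exists_linearIndependent_...`); call it `v_1, ..., v_m`, `ι(a) = ∑ a_i v_i`, injective.  Every generator `g` has
`c_g g ∈ range ι` with `c_g ≠ 0` by maximality (the family with `g` added is dependent and the coefficient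
of `g` is not zero).  `c = ∏ c_g ≠ 0` satisfies `c M ⊆ range ι`; `π(y) = ι⁻¹(c y)` is linear, `ι π = c`, `π ι = c`
(`M` is torsion-free is needed only if one prefers `π` with `π ι = c`: it follows from the injectivity of `ι`).
-/

set_option autoImplicit false

namespace Pool.Agent.FSig.SF

universe u

theorem exists_generic {A : Type u} [CommRing A] [IsDomain A] (M : Type u) [AddCommGroup M]
    [Module A M] [Module.Finite A M] (htf : ∀ (a : A) (m : M), a ≠ 0 → a • m = 0 → m = 0) :
    ∃ (m : ℕ) (ι : (Fin m → A) →ₗ[A] M) (π : M →ₗ[A] (Fin m → A)) (c : A),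
      c ≠ 0 ∧ (∀ v, π (ι v) = c • v) ∧ ∀ y, ι (π y) = c • y := by
  classical
  obtain ⟨k, g, hg⟩ := Module.Finite.exists_fin (R := A) (M := M)
  obtain ⟨s, hs, hmax⟩ := exists_maximal_linearIndepOn A g
  have hfs : Fintype s := Fintype.ofFinite s
  let e : Fin (Fintype.card s) ≃ s := (Fintype.equivFin s).symm
  let v : Fin (Fintype.card s) → M := fun j => g (e j)
  have hv : LinearIndependent A v := by
    have h1 : LinearIndependent A (fun x : s => g x) := hs
    exact h1.comp e e.injective
  have hr : Set.range v = g '' s := by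
    ext y
    constructor
    · rintro ⟨j, rfl⟩
      exact ⟨e j, (e j).2, rfl⟩
    · rintro ⟨i, hi, rfl⟩
      exact ⟨e.symm ⟨i, hi⟩, by simp [v]⟩
  let ι : (Fin (Fintype.card s) → A) →ₗ[A] M := Fintype.linearCombination A v
  have hι : Function.Injective ι := hv.fintypeLinearCombination_injective
  have hrange : LinearMap.range ι = Submodule.span A (g '' s) := by
    rw [← hr]
    exact Fintype.range_linearCombination A v
  have hc : ∀ i : Fin k, ∃ c : A, c ≠ 0 ∧ c • g i ∈ LinearMap.range ι := by
    intro i
    by_cases hi : i ∈ s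
    · refine ⟨1, one_ne_zero, ?_⟩
      rw [one_smul, hrange]
      exact Submodule.subset_span ⟨i, hi, rfl⟩
    · obtain ⟨c, hc, hci⟩ := hmax i hi
      exact ⟨c, hc, by rw [hrange]; exact hci⟩
  choose c hc0 hcm using hc
  have hC0 : (∏ i, c i) ≠ 0 := Finset.prod_ne_zero_iff.2 fun i _ => hc0 i
  have hC : ∀ y : M, (∏ i, c i) • y ∈ LinearMap.range ι := by
    intro y
    have hy : y ∈ Submodule.span A (Set.range g) := by rw [hg]; exact Submodule.mem_top
    induction hy using Submodule.span_induction with
    | mem x hx =>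
      obtain ⟨i, rfl⟩ := hx
      rw [← Finset.mul_prod_erase _ _ (Finset.mem_univ i), mul_comm, mul_smul]
      exact Submodule.smul_mem _ _ (hcm i)
    | zero =>
      rw [smul_zero]
      exact Submodule.zero_mem _
    | add x y _ _ hx hy =>
      rw [smul_add]
      exact Submodule.add_mem _ hx hy
    | smul a x _ hx =>
      rw [smul_comm]
      exact Submodule.smul_mem _ _ hx
  let E := LinearEquiv.ofInjective ι hι
  let π : M →ₗ[A] (Fin (Fintype.card s) → A) :=
    E.symm.toLinearMap ∘ₗ LinearMap.codRestrict (LinearMap.range ι)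
      ((∏ i, c i) • (LinearMap.id : M →ₗ[A] M)) (fun y => hC y)
  have hπ : ∀ y, ι (π y) = (∏ i, c i) • y := by
    intro y
    have h1 : E (π y) = ⟨(∏ i, c i) • y, hC y⟩ := by
      show E (E.symm _) = _
      rw [LinearEquiv.apply_symm_apply]
      rfl
    exact congrArg Subtype.val h1
  refine ⟨_, ι, π, ∏ i, c i, hC0, fun v => ?_, hπ⟩
  apply hι
  rw [hπ, map_smul]

end Pool.Agent.FSig.SF
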