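import Pool.Agent.Work.MP_27623f_ag.SF.F1
import Pool.Agent.Work.MP_27623f_ag.RootLen

/-!
MODULE F2 (size M).  `A^{1/q}` is free up to an element `c` which does not depend on `q`.

PROOF.  `RootMod A p 1` is a finite torsion-free `A`-module (`finite_root`; `a • toRoot 1 x = toRoot 1 (a^p x)`,
`root_smul_def`); `exists_generic` gives `m, ι₁, π₁, c₁`.  `c = c₁ ^ 2`.  Induction on `e`.
`e = 0`: `RootMod A p 0 = A` with the usual action (`a ^ p ^ 0 = a`), `m ^ 0 = 1`: `ι v = toRoot (v 0)`, `π y = fun _ => c y`.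
Step: let `ι_e, π_e` be given, `π_e (ι_e v) = c • v`.  Underlying set of `RootMod A p e`, `RootMod A p (e+1)` and
`RootMod A p 1` is `A`.  `F_* ι_e`, the same function as `ι_e`, is `A`-linear as a map
`(Fin (m^e) → RootMod A p 1) → RootMod A p (e+1)` (`ι_e ((a^p v_j)_j) = (a^p)^(p^e) ι_e (v)`), and similarly
`F_* π_e : RootMod A p (e+1) → (Fin (m^e) → RootMod A p 1)`.
`ι_(e+1) : (Fin (m^e) → Fin m → A) → RootMod A p (e+1)`, `v ↦ F_* ι_e ((ι₁ (v_j))_j)`, and
`π_(e+1) : x ↦ (π₁ (c₁^(p-2) * (F_* π_e x)_j))_j` (multiplication by an element of `A` inside `RootMod A p 1` is `A`-linear).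
`π_(e+1) (ι_(e+1) v)_j = π₁ (c₁^(p-2) c ι₁(v_j)) = π₁ (c₁^p ι₁ (v_j)) = π₁ (c₁ • ι₁ (v_j)) = c₁ c₁ v_j = c v_j` (`p ≥ 2`;
`c₁ • toRoot 1 x = toRoot 1 (c₁^p x)`).  Finally `Fin (m^e) × Fin m ≃ Fin (m^(e+1))` (`finProdFinEquiv`, `LinearEquiv.funCongrLeft`).
-/

set_option autoImplicit false

namespace Pool.Agent.FSig.SF

open Pool.Agent.FSig

universe u

private theorem root_smul {A : Type u} [CommRing A] (p e : ℕ) [ExpChar A p] (a : A)
    (y : RootMod A p e) : a • y = toRoot p e (a ^ p ^ e * (show A from y)) := by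
  change iterateFrobenius A p e a * (show A from y) = _
  rw [iterateFrobenius_def]
  rfl

private theorem step {A : Type u} [CommRing A] (p : ℕ) [ExpChar A p] (hp : 2 ≤ p) {n m e : ℕ}
    (c₁ : A) (ι₁ : (Fin m → A) →ₗ[A] RootMod A p 1) (π₁ : RootMod A p 1 →ₗ[A] (Fin m → A))
    (h₁ : ∀ v, π₁ (ι₁ v) = c₁ • v) (ι : (Fin n → A) →ₗ[A] RootMod A p e)
    (π : RootMod A p e →ₗ[A] (Fin n → A)) (h : ∀ v, π (ι v) = (c₁ ^ 2) • v) :
    ∃ (ι' : (Fin n × Fin m → A) →ₗ[A] RootMod A p (e + 1))
      (π' : RootMod A p (e + 1) →ₗ[A] (Fin n × Fin m → A)), ∀ v, π' (ι' v) = (c₁ ^ 2) • v := by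
  refine ⟨{ toFun := fun v => toRoot p (e + 1) (show A from
              ι (fun j => (show A from ι₁ (fun i => v (j, i)))))
            map_add' := fun v w => ?_
            map_smul' := fun a v => ?_ },
          { toFun := fun x => fun ji => π₁ (toRoot p 1 (c₁ ^ (p - 2) *
              π (toRoot p e (show A from x)) ji.1)) ji.2
            map_add' := fun x y => ?_
            map_smul' := fun a x => ?_ }, fun v => ?_⟩
  · have h1 : (fun j => (show A from ι₁ (fun i => (v + w) (j, i)))) =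
        (fun j => (show A from ι₁ (fun i => v (j, i)))) +
          (fun j => (show A from ι₁ (fun i => w (j, i)))) := by
      funext j
      exact map_add ι₁ (fun i => v (j, i)) (fun i => w (j, i))
    change (show A from ι (fun j => (show A from ι₁ (fun i => (v + w) (j, i))))) = _
    rw [h1]
    exact map_add ι _ _
  · have h1 : (fun j => (show A from ι₁ (fun i => (a • v) (j, i)))) =
        (a ^ p) • (fun j => (show A from ι₁ (fun i => v (j, i)))) := by
      funext j
      have h2 := map_smul ι₁ a (fun i => v (j, i))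
      rw [root_smul, pow_one] at h2
      exact h2
    have h2 : ι ((a ^ p) • (fun j => (show A from ι₁ (fun i => v (j, i))))) =
        toRoot p e ((a ^ p) ^ p ^ e * (show A from
          ι (fun j => (show A from ι₁ (fun i => v (j, i)))))) := by
      rw [map_smul, root_smul]
    rw [RingHom.id_apply, root_smul]
    change (show A from ι (fun j => (show A from ι₁ (fun i => (a • v) (j, i))))) =
      a ^ p ^ (e + 1) * (show A from ι (fun j => (show A from ι₁ (fun i => v (j, i)))))
    rw [h1, h2]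
    change (a ^ p) ^ p ^ e * _ = _
    rw [← pow_mul, ← pow_succ']
  · funext ji
    have h1 : π (toRoot p e (show A from (x + y))) =
        π (toRoot p e (show A from x)) + π (toRoot p e (show A from y)) :=
      map_add π (toRoot p e (show A from x)) (toRoot p e (show A from y))
    change π₁ (toRoot p 1 (c₁ ^ (p - 2) * π (toRoot p e (show A from (x + y))) ji.1)) ji.2 = _
    rw [h1, Pi.add_apply, mul_add]
    have h2 := map_add π₁ (toRoot p 1 (c₁ ^ (p - 2) * π (toRoot p e (show A from x)) ji.1))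
      (toRoot p 1 (c₁ ^ (p - 2) * π (toRoot p e (show A from y)) ji.1))
    exact congrFun h2 ji.2
  · funext ji
    have h1 : π (toRoot p e (a ^ p ^ (e + 1) * (show A from x))) =
        (a ^ p) • π (toRoot p e (show A from x)) := by
      rw [← map_smul, root_smul]
      congr 1
      rw [← pow_mul, ← pow_succ']
      rfl
    have h2 : (a • x : RootMod A p (e + 1)) = toRoot p (e + 1) (a ^ p ^ (e + 1) * (show A from x)) :=
      root_smul p (e + 1) a x
    rw [h2]
    change π₁ (toRoot p 1 (c₁ ^ (p - 2) * π (toRoot p e (a ^ p ^ (e + 1) * (show A from x))) ji.1))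
      ji.2 = a * π₁ (toRoot p 1 (c₁ ^ (p - 2) * π (toRoot p e (show A from x)) ji.1)) ji.2
    rw [h1]
    have h3 : toRoot p 1 (c₁ ^ (p - 2) * ((a ^ p) • π (toRoot p e (show A from x))) ji.1) =
        a • toRoot p 1 (c₁ ^ (p - 2) * π (toRoot p e (show A from x)) ji.1) := by
      rw [root_smul, pow_one, Pi.smul_apply, smul_eq_mul]
      change toRoot p 1 _ = toRoot p 1 _
      congr 1
      change _ = a ^ p * (c₁ ^ (p - 2) * π (toRoot p e (show A from x)) ji.1)
      ring
    rw [h3, map_smul]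
    rfl
  · funext ji
    change π₁ (toRoot p 1 (c₁ ^ (p - 2) * π (ι (fun j => (show A from
      ι₁ (fun i => v (j, i))))) ji.1)) ji.2 = c₁ ^ 2 * v ji
    rw [h]
    have h3 : toRoot p 1 (c₁ ^ (p - 2) * ((c₁ ^ 2) • (fun j => (show A from
        ι₁ (fun i => v (j, i))))) ji.1) = c₁ • ι₁ (fun i => v (ji.1, i)) := by
      rw [root_smul, pow_one, Pi.smul_apply, smul_eq_mul, ← mul_assoc, ← pow_add,
        Nat.sub_add_cancel hp]
    rw [h3, map_smul, h₁]
    change c₁ * (c₁ * v (ji.1, ji.2)) = c₁ ^ 2 * v ji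
    ring

theorem exists_uniform {A : Type u} [CommRing A] [IsDomain A] [IsNoetherianRing A] (p : ℕ)
    [Fact p.Prime] [CharP A p] (hF : (frobenius A p).Finite) :
    ∃ (m : ℕ) (c : A), c ≠ 0 ∧
      (∃ (ι : (Fin m → A) →ₗ[A] RootMod A p 1) (π : RootMod A p 1 →ₗ[A] (Fin m → A)) (b : A),
        b ≠ 0 ∧ (∀ v, π (ι v) = b • v) ∧ ∀ y, ι (π y) = b • y) ∧
      ∀ e : ℕ, ∃ (ι : (Fin (m ^ e) → A) →ₗ[A] RootMod A p e)
        (π : RootMod A p e →ₗ[A] (Fin (m ^ e) → A)), ∀ v, π (ι v) = c • v := by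
  have hp : 2 ≤ p := (Fact.out : p.Prime).two_le
  have : Module.Finite A (RootMod A p 1) := finite_root p 1 hF
  obtain ⟨m, ι₁, π₁, c₁, hc₁, h₁, h₂⟩ := exists_generic (A := A) (RootMod A p 1) (by
    intro a y ha hy
    rw [root_smul] at hy
    have h3 : a ^ p ^ 1 * (show A from y) = 0 := hy
    rcases mul_eq_zero.1 h3 with h4 | h4
    · exact absurd h4 (pow_ne_zero _ ha)
    · exact h4)
  refine ⟨m, c₁ ^ 2, pow_ne_zero 2 hc₁, ⟨ι₁, π₁, c₁, hc₁, h₁, h₂⟩, fun e => ?_⟩
  induction e with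
  | zero =>
    have h0 : 0 < m ^ 0 := by rw [pow_zero]; exact one_pos
    refine ⟨{ toFun := fun v => toRoot p 0 (v ⟨0, h0⟩)
              map_add' := fun v w => rfl
              map_smul' := fun a v => ?_ },
            { toFun := fun x => fun _ => c₁ ^ 2 * (show A from x)
              map_add' := fun x y => ?_
              map_smul' := fun a x => ?_ }, fun v => ?_⟩
    · have h5 : a ^ p ^ 0 = a := by rw [pow_zero, pow_one]
      rw [RingHom.id_apply, root_smul, h5]
      rfl
    · funext _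
      change c₁ ^ 2 * ((show A from x) + (show A from y)) =
        c₁ ^ 2 * (show A from x) + c₁ ^ 2 * (show A from y)
      ring
    · funext _
      have h5 : a ^ p ^ 0 = a := by rw [pow_zero, pow_one]
      rw [root_smul, h5]
      change c₁ ^ 2 * (a * (show A from x)) = a * (c₁ ^ 2 * (show A from x))
      ring
    · funext i
      have hi : i = ⟨0, h0⟩ := by
        apply Fin.ext
        have h6 : (i : ℕ) < m ^ 0 := i.2
        have h7 : m ^ 0 = 1 := pow_zero m
        change (i : ℕ) = 0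
        omega
      rw [hi]
      rfl
  | succ e ih =>
    obtain ⟨ι, π, h⟩ := ih
    obtain ⟨ι', π', h'⟩ := step p hp c₁ ι₁ π₁ h₁ ι π h
    let f : Fin (m ^ e) × Fin m ≃ Fin (m ^ (e + 1)) :=
      finProdFinEquiv.trans (finCongr (pow_succ m e).symm)
    let L := LinearEquiv.funCongrLeft A A f
    refine ⟨ι' ∘ₗ L.toLinearMap, L.symm.toLinearMap ∘ₗ π', fun v => ?_⟩
    rw [LinearMap.comp_apply, LinearMap.comp_apply, h', map_smul]
    change c₁ ^ 2 • L.symm (L v) = c₁ ^ 2 • v
    rw [LinearEquiv.symm_apply_apply]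

end Pool.Agent.FSig.SF
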