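import Pool.Agent.Work.MP_27623f_ag.Defs

/-!
MODULE F3 (size S-M, Mathlib only).  `[k : k^(p^e)] = [k : k^p]^e`.

PROOF.  The set of the `p^e`-th powers is a subfield `k_e` = the range of the injective ring homomorphism
`iterateFrobenius k p e` (so `Subfield.closure (Set.range ...) = RingHom.fieldRange`).  Tower `k_(e+1) ⊆ k_e ⊆ k`:
`[k : k_(e+1)] = [k : k_e] [k_e : k_(e+1)]` (`Module.finrank_mul_finrank`; valid also in the infinite case), and
`iterateFrobenius k p e : k ≃ k_e` maps `k_1` onto `k_(e+1)`, so `[k_e : k_(e+1)] = [k : k_1]`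
(for instance `Algebra.finrank_eq_of_equiv_equiv` or a transport of a basis).
It may be simpler to use the `k`-modules `RootMod k p e`: `finrank_k (RootMod k p e) = rootDegree k (p^e)`
and `RootMod k p (e+1)` is `RootMod k p 1` restricted along `iterateFrobenius`; choose the fastest way.
-/

set_option autoImplicit false

namespace Pool.Agent.FSig.SF

open Pool.Agent.FSig

private noncomputable def fk {A B : Type*} [Field A] [Field B] (f : A →+* B) : ℕ :=
  @Module.finrank A B _ _ f.toAlgebra.toModule

private theorem fk_comp {A B C : Type*} [Field A] [Field B] [Field C] (f : A →+* B)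
    (g : B →+* C) : fk (g.comp f) = fk f * fk g := by
  let _ := f.toAlgebra
  let _ := g.toAlgebra
  let _ := (g.comp f).toAlgebra
  have : IsScalarTower A B C := IsScalarTower.of_algebraMap_eq (fun x => rfl)
  exact (Module.finrank_mul_finrank A B C).symm

private theorem fk_range {A B : Type*} [Field A] [Field B] (f : A →+* B) :
    fk f = Module.finrank f.fieldRange B := by
  let _ := f.toAlgebra
  exact Algebra.finrank_eq_of_equiv_equiv f.rangeRestrictFieldEquiv (RingEquiv.refl B) rfl

private theorem fk_id {A : Type*} [Field A] : fk (RingHom.id A) = 1 := by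
  exact Module.finrank_self A

private theorem fk_root (k : Type*) [Field k] (p : ℕ) [Fact p.Prime] [CharP k p] (e : ℕ) :
    rootDegree k (p ^ e) = fk (iterateFrobenius k p e) := by
  rw [fk_range]
  have h : Subfield.closure (Set.range fun a : k => a ^ p ^ e) =
      (iterateFrobenius k p e).fieldRange := by
    apply le_antisymm
    · rw [Subfield.closure_le]
      rintro _ ⟨a, rfl⟩
      exact ⟨a, rfl⟩
    · rintro _ ⟨a, rfl⟩
      exact Subfield.subset_closure ⟨a, rfl⟩
  unfold rootDegree
  rw [h]

theorem rootDegree_pow (k : Type*) [Field k] (p : ℕ) [Fact p.Prime] [CharP k p] (e : ℕ) :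
    rootDegree k (p ^ e) = rootDegree k (p ^ 1) ^ e := by
  induction e with
  | zero =>
    rw [fk_root, pow_zero, iterateFrobenius_zero, fk_id]
  | succ n ih =>
    rw [pow_succ (rootDegree k (p ^ 1)), ← ih, fk_root, fk_root, fk_root]
    have : iterateFrobenius k p (n + 1) =
        (iterateFrobenius k p 1).comp (iterateFrobenius k p n) := by
      ext x
      rw [RingHom.comp_apply, iterateFrobenius_def, iterateFrobenius_def, iterateFrobenius_def,
        ← pow_mul, ← pow_add]
    rw [this, fk_comp]

end Pool.Agent.FSig.SF
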