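import Pool.Agent.Work.MP_27623f_ag.SF.K4

/-!
MODULE K6 (size M).  `H_0` of the powers of a system of parameters grows slower for a module killed by `c ≠ 0`.

PROOF.  `D = 0`: `A` is a field (`m^c ≤ (0)`, domain), `c` is a unit and `M = 0`.
`D ≥ 1`: if `c` is a unit then `M = 0`.  Let `c ∈ m`; `B = A/(c)` has dimension `D - 1`
(`ringKrullDim_quotient_span_singleton_succ_eq_ringKrullDim_of_mem_nonZeroDivisors`); there are `y_1, ..., y_(D-1)` in `m` with
`m^a ≤ (y) ⊔ (c)` for some `a` (`Ideal.exists_finset_card_eq_height_of_isNoetherianRing` for the maximal ideal of `B`, lift to `A`;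
`(c) ≤ Ann M`).  `growth` for `y`, `M`: `h0 (y^n) M ≤ C n^(D-1)`.
Let `m^a' ≤ (x)` and `b = a' D`.  For `n ≥ 1`: `y_i^(b n) ∈ m^(a' D n) ≤ (x)^(D n) ≤ (x_1^n, ..., x_D^n)` (a monomial of degree `D n` in
`D` elements is divisible by some `x_i^n`; there may be such a lemma: `Ideal.span_pow_le...`/`powId` lemmas in `ColonPow`, `Cofinal`,
`SocleS` of `Pool/Agent/Work/MP_27623f_ag`; or use `Ideal.exists_pow_le...` only for the existence of some exponent is NOT enough,
linearity in `n` is needed).  So `(y^(b n)) M ≤ (x^n) M` and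
`h0 (x^n) M ≤ h0 (y^(b n)) M ≤ C (b n)^(D-1)`; multiply by `n`.
-/

set_option autoImplicit false

namespace Pool.Agent.FSig.SF

open IsLocalRing

universe u

private theorem h0_mono {R : Type*} [CommRing R] {s t : ℕ} (x : Fin s → R) (y : Fin t → R)
    (M : Type*) [AddCommGroup M] [Module R M] (h : ∀ i, y i ∈ Ideal.span (Set.range x)) :
    h0 x M ≤ h0 y M := by
  have hle : LinearMap.range (kosOne y M) ≤ LinearMap.range (kosOne x M) := by
    rintro _ ⟨m, rfl⟩
    choose r hr using fun i => Ideal.mem_span_range_iff_exists_fun.1 (h i)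
    refine ⟨fun j => ∑ i, r i j • m i, ?_⟩
    rw [kosOne_apply, kosOne_apply]
    simp only [Finset.smul_sum]
    rw [Finset.sum_comm]
    refine Finset.sum_congr rfl fun i _ => ?_
    rw [← hr i, Finset.sum_smul]
    refine Finset.sum_congr rfl fun j _ => ?_
    rw [smul_smul, mul_comm]
  exact Module.length_le_of_surjective (Submodule.factor hle) (Submodule.factor_surjective hle)

private theorem pow_mem_span {A : Type*} [CommRing A] {D : ℕ} (x : Fin D → A) (y : A)
    (hy : y ∈ Ideal.span (Set.range x)) (n k : ℕ) (hk : D * n + 1 ≤ k) :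
    y ^ k ∈ Ideal.span (Set.range fun i => x i ^ (n + 1)) := by
  obtain ⟨r, hr⟩ := Ideal.mem_span_range_iff_exists_fun.1 hy
  have h1 := Ideal.sum_pow_mem_span_pow Finset.univ (fun i => r i * x i) n
  rw [hr, Finset.card_univ, Fintype.card_fin] at h1
  have h2 : y ^ (D * n + 1) ∈ Ideal.span (Set.range fun i => x i ^ (n + 1)) := by
    refine Ideal.span_le.2 ?_ h1
    rintro _ ⟨i, _, rfl⟩
    simp only [mul_pow]
    exact Ideal.mul_mem_left _ _ (Ideal.subset_span ⟨i, rfl⟩)
  obtain ⟨l, rfl⟩ := Nat.exists_eq_add_of_le hk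
  rw [pow_add]
  exact Ideal.mul_mem_right _ _ h2

private theorem exists_sop_quot {A : Type u} [CommRing A] [IsDomain A] [IsNoetherianRing A]
    [IsLocalRing A] {D : ℕ} (hD : ringKrullDim A = (D : WithBot ℕ∞)) (c : A) (hc : c ≠ 0)
    (hcm : c ∈ maximalIdeal A) :
    ∃ (D' : ℕ) (y : Fin D' → A), D = D' + 1 ∧ (∀ i, y i ∈ maximalIdeal A) ∧
      ∃ a : ℕ, maximalIdeal A ^ a ≤ Ideal.span (Set.range y) ⊔ Ideal.span {c} := by
  have h1 := ringKrullDim_quotient_span_singleton_succ_eq_ringKrullDim_of_mem_nonZeroDivisors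
    (mem_nonZeroDivisors_of_ne_zero hc) hcm
  have hne : Ideal.span {c} ≠ ⊤ := by
    intro h
    rw [Ideal.span_singleton_eq_top] at h
    exact hcm h
  have : Nontrivial (A ⧸ Ideal.span {c}) := Ideal.Quotient.nontrivial_iff.2 hne
  have : IsLocalRing (A ⧸ Ideal.span {c}) :=
    IsLocalRing.of_surjective' (Ideal.Quotient.mk (Ideal.span {c})) Ideal.Quotient.mk_surjective
  obtain ⟨t, ht, htc⟩ :=
    Ideal.exists_finset_card_eq_height_of_isNoetherianRing (maximalIdeal (A ⧸ Ideal.span {c}))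
  have h2 : ringKrullDim (A ⧸ Ideal.span {c}) = ((t.card : ℕ) : WithBot ℕ∞) := by
    rw [← IsLocalRing.maximalIdeal_height_eq_ringKrullDim, ← htc]
    rfl
  rw [h2, hD] at h1
  have h3 : D = t.card + 1 := by
    exact_mod_cast h1.symm
  let e : Fin t.card ≃ t := t.equivFin.symm
  choose y hy using fun i : Fin t.card =>
    Ideal.Quotient.mk_surjective (I := Ideal.span {c}) ((e i : t) : A ⧸ Ideal.span {c})
  have hrange : (Ideal.Quotient.mk (Ideal.span {c})) '' (Set.range y)
      = (t : Set (A ⧸ Ideal.span {c})) := by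
    ext z
    constructor
    · rintro ⟨_, ⟨i, rfl⟩, rfl⟩
      rw [hy]
      exact (e i).2
    · intro hz
      refine ⟨y (e.symm ⟨z, hz⟩), ⟨_, rfl⟩, ?_⟩
      rw [hy, Equiv.apply_symm_apply]
  refine ⟨t.card, y, h3, ?_, ?_⟩
  · intro i
    rw [mem_maximalIdeal, mem_nonunits_iff]
    intro hu
    have hu' := hu.map (Ideal.Quotient.mk (Ideal.span {c}))
    rw [hy] at hu'
    have : ((e i : t) : A ⧸ Ideal.span {c}) ∈ maximalIdeal (A ⧸ Ideal.span {c}) :=
      ht.1.2 (Ideal.subset_span (e i).2)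
    exact this hu'
  · have hrad : maximalIdeal (A ⧸ Ideal.span {c}) ≤
        (Ideal.span (t : Set (A ⧸ Ideal.span {c}))).radical := by
      rw [Ideal.radical_eq_sInf]
      refine le_sInf ?_
      rintro Q ⟨hQ1, hQ2⟩
      exact ht.2 ⟨hQ2, hQ1⟩ (IsLocalRing.le_maximalIdeal hQ2.ne_top)
    obtain ⟨a, ha⟩ := Ideal.exists_pow_le_of_le_radical_of_fg hrad
      (isNoetherian_def.mp inferInstance _)
    refine ⟨a, ?_⟩
    intro z hz
    have hz1 : Ideal.Quotient.mk (Ideal.span {c}) z ∈ maximalIdeal (A ⧸ Ideal.span {c}) ^ a := by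
      have hmap : (maximalIdeal A).map (Ideal.Quotient.mk (Ideal.span {c}))
          ≤ maximalIdeal (A ⧸ Ideal.span {c}) := by
        rw [Ideal.map_le_iff_le_comap]
        intro w hw
        rw [Ideal.mem_comap]
        refine (mem_maximalIdeal _).2 (mem_nonunits_iff.2 fun hu => ?_)
        have hlt : (maximalIdeal A).map (Ideal.Quotient.mk (Ideal.span {c})) = ⊤ :=
          Ideal.eq_top_of_isUnit_mem _ (Ideal.mem_map_of_mem _ hw) hu
        have hcomap := congrArg (Ideal.comap (Ideal.Quotient.mk (Ideal.span {c}))) hlt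
        rw [Ideal.comap_map_of_surjective _ Ideal.Quotient.mk_surjective, Ideal.comap_top] at hcomap
        have hker : Ideal.comap (Ideal.Quotient.mk (Ideal.span {c})) ⊥ ≤ maximalIdeal A := by
          rw [← RingHom.ker_eq_comap_bot, Ideal.mk_ker, Ideal.span_le, Set.singleton_subset_iff]
          exact hcm
        rw [sup_eq_left.2 hker] at hcomap
        exact (maximalIdeal.isMaximal A).ne_top hcomap
      have h4 := Ideal.mem_map_of_mem (Ideal.Quotient.mk (Ideal.span {c})) hz
      rw [Ideal.map_pow] at h4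
      exact Ideal.pow_right_mono hmap a h4
    have hz2 := ha hz1
    rw [← hrange, ← Ideal.map_span, ← Ideal.mem_comap,
      Ideal.comap_map_of_surjective _ Ideal.Quotient.mk_surjective,
      ← RingHom.ker_eq_comap_bot, Ideal.mk_ker] at hz2
    exact hz2

theorem h0_small {A : Type u} [CommRing A] [IsDomain A] [IsNoetherianRing A] [IsLocalRing A]
    {D : ℕ} (x : Fin D → A) (hx : IsSop x) (M : Type u) [AddCommGroup M] [Module A M]
    [Module.Finite A M] (c : A) (hc : c ≠ 0) (hcM : ∀ m : M, c • m = 0) :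
    ∃ C : ℕ, ∀ n : ℕ, 1 ≤ n → n * h0 (fun i => x i ^ n) M ≤ ((C * n ^ D : ℕ) : ℕ∞) := by
  by_cases hcm : c ∈ maximalIdeal A
  · obtain ⟨D', y, rfl, hym, a, ha⟩ := exists_sop_quot hx.dim c hc hcm
    have hann : Ideal.span {c} ≤ Module.annihilator A M := by
      rw [Ideal.span_le, Set.singleton_subset_iff]
      exact Module.mem_annihilator.2 hcM
    obtain ⟨C, hC⟩ := growth D' y M ⟨a, ha.trans (sup_le_sup_left hann _)⟩
    obtain ⟨a', ha'⟩ := hx.prim
    have hya : ∀ i, y i ^ (a' + 1) ∈ Ideal.span (Set.range x) := fun i =>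
      ha' (Ideal.pow_le_pow_right (Nat.le_succ a') (Ideal.pow_mem_pow (hym i) (a' + 1)))
    refine ⟨C * ((a' + 1) * (D' + 1)) ^ D', fun n hn => ?_⟩
    obtain ⟨n, rfl⟩ := Nat.exists_eq_add_of_le' hn
    have hmem : ∀ i, y i ^ ((a' + 1) * (D' + 1) * (n + 1)) ∈
        Ideal.span (Set.range fun i => x i ^ (n + 1)) := by
      intro i
      rw [mul_assoc, pow_mul]
      refine pow_mem_span x _ (hya i) n _ ?_
      nlinarith
    have h1 : h0 (fun i => x i ^ (n + 1)) M
        ≤ h0 (fun i => y i ^ ((a' + 1) * (D' + 1) * (n + 1))) M := h0_mono _ _ M hmem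
    have h2 := (hC ((a' + 1) * (D' + 1) * (n + 1)) (Nat.one_le_iff_ne_zero.2 (by positivity))).1
    calc ((n + 1 : ℕ) : ℕ∞) * h0 (fun i => x i ^ (n + 1)) M
        ≤ ((n + 1 : ℕ) : ℕ∞) * ((C * ((a' + 1) * (D' + 1) * (n + 1)) ^ D' : ℕ) : ℕ∞) := by
          gcongr
          exact h1.trans h2
      _ = ((C * ((a' + 1) * (D' + 1)) ^ D' * (n + 1) ^ (D' + 1) : ℕ) : ℕ∞) := by
          rw [← Nat.cast_mul]
          congr 1
          rw [mul_pow ((a' + 1) * (D' + 1)) (n + 1) D', pow_succ]
          ring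
  · have hu : IsUnit c := by
      by_contra h
      exact hcm ((mem_maximalIdeal c).2 h)
    have : Subsingleton M := by
      refine ⟨fun a b => ?_⟩
      have h0' : ∀ m : M, m = 0 := fun m => by
        obtain ⟨u, rfl⟩ := hu
        have := hcM m
        rw [← one_smul A m, ← Units.inv_mul u, mul_smul, this, smul_zero]
      rw [h0' a, h0' b]
    refine ⟨0, fun n _ => ?_⟩
    have : h0 (fun i => x i ^ n) M = 0 := by
      unfold h0
      have : Subsingleton (M ⧸ LinearMap.range (kosOne (fun i => x i ^ n) M)) :=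
        (Submodule.Quotient.mk_surjective _).subsingleton
      exact Module.length_eq_zero
    rw [this]
    simp

end Pool.Agent.FSig.SF
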