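import Pool.Agent.Work.MP_27623f_ag.SF.K5
import Pool.Agent.Work.MP_27623f_ag.SF.K6
import Pool.Agent.Work.MP_27623f_ag.RootLen

/-!
MODULE F4 (size M).  Kunz: the rank of `A^{1/p}` over `A` is at least `p^D [k^{1/p} : k]`, `D = dim A`.

PROOF.  `κ = rootDegree k (p^1) > 0` (`rootDegree_pos`), `l_e = length A/(x_1^(p^e), ..., x_D^(p^e))`, a natural number
(`m^c ≤` the ideal; `length_ne_top` of ColonLen), `l_e = h0 (fun i => x i ^ p^e) A`.
(1) `κ l_(e+1) = h0 (fun i => x i ^ p^e) (RootMod A p 1)`: `length_root` (RootLen, `e = 1`) for the ideal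
`(x_i^(p^(e+1)))` and `T = range (kosOne (fun i => x i ^ p^e) (RootMod A p 1))`
(`x_i^(p^e) • toRoot 1 r = toRoot 1 (x_i^(p^(e+1)) r)`).
(2) `C = RootMod A p 1 ⧸ range ι` is killed by `c ≠ 0` (`c y = ι (π y)`); the sequence
`A^m → RootMod A p 1 → C → 0` and `h0_le_add` (with `M' = range ι` or `Fin m → A`) give
`κ l_(e+1) ≤ m l_e + h0 (x^(p^e)) C`; here `h0 (x^n) (Fin m → A) = m h0 (x^n) A` (induction on `m` with `h0_le_add`: `≤` suffices).
By `h0_small`: `p^e h0 (x^(p^e)) C ≤ C' p^(e D)`.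
(3) `h0_lower`: `p^(e D) ≤ N l_e` for all `e`.
(4) Suppose `m < p^D κ`, so `m ≤ p^D κ - 1`.  Put `λ_e = l_e / p^(e D)` (real numbers).  Then
`κ p^D λ_(e+1) ≤ (κ p^D - 1) λ_e + C' p^(-e)`, so `λ_(e+1) ≤ (1 - δ) λ_e + C' p^(-e)` with `δ = 1/(κ p^D) > 0`.  It follows that
`λ_e → 0` (for instance: `λ_(e+j) ≤ (1-δ)^j λ_e + C' p^(-e) / δ` for all `j`, and then
let `j → ∞` and `e → ∞`), which contradicts `λ_e ≥ 1/N`.
-/

set_option autoImplicit false

namespace Pool.Agent.FSig.SF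

open IsLocalRing Pool.Agent.FSig

universe u

private theorem f4_numeric (p D m κ C N : ℕ) (hp : 2 ≤ p) (l : ℕ → ℕ)
    (h1 : ∀ e, p ^ e * (κ * l (e + 1)) ≤ p ^ e * (m * l e) + C * (p ^ e) ^ D)
    (h2 : ∀ e, (p ^ e) ^ D ≤ N * l e) : p ^ D * κ ≤ m := by
  by_contra hlt
  push Not at hlt
  have hp0 : (0 : ℝ) < p := by
    have : 0 < p := by omega
    exact_mod_cast this
  have hN : 0 < N := by
    rcases Nat.eq_zero_or_pos N with h | h
    · have := h2 0
      rw [h, pow_zero, one_pow, zero_mul] at this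
      omega
    · exact h
  have hN' : (0 : ℝ) < N := by exact_mod_cast hN
  obtain ⟨lam, hlam⟩ : ∃ lam : ℕ → ℝ, ∀ e, lam e = (l e : ℝ) / ((p : ℝ) ^ e) ^ D :=
    ⟨fun e => (l e : ℝ) / ((p : ℝ) ^ e) ^ D, fun _ => rfl⟩
  have hpe : ∀ e : ℕ, (0 : ℝ) < (p : ℝ) ^ e := fun e => pow_pos hp0 e
  have hpeD : ∀ e : ℕ, (0 : ℝ) < ((p : ℝ) ^ e) ^ D := fun e => pow_pos (hpe e) D
  have hlow : ∀ e, 1 / (N : ℝ) ≤ lam e := by
    intro e
    rw [hlam, div_le_div_iff₀ hN' (hpeD e), one_mul]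
    have := h2 e
    have h3 : ((p : ℝ) ^ e) ^ D ≤ N * l e := by exact_mod_cast this
    linarith
  have hrec : ∀ e, ((p : ℝ) ^ D * κ) * lam (e + 1) ≤ m * lam e + C / (p : ℝ) ^ e := by
    intro e
    have h3 : (p : ℝ) ^ e * (κ * l (e + 1)) ≤ (p : ℝ) ^ e * (m * l e) + C * ((p : ℝ) ^ e) ^ D := by
      exact_mod_cast h1 e
    have h4 : ((p : ℝ) ^ D * κ) * lam (e + 1) = κ * l (e + 1) / ((p : ℝ) ^ e) ^ D := by
      rw [hlam, pow_succ (p : ℝ) e, mul_pow]
      have : (0 : ℝ) < (p : ℝ) ^ D := pow_pos hp0 D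
      have := hpeD e
      field_simp
    have h5 : (κ : ℝ) * l (e + 1) ≤ m * l e + C * ((p : ℝ) ^ e) ^ D / (p : ℝ) ^ e := by
      rw [← sub_nonneg]
      have h6 : m * (l e : ℝ) + C * ((p : ℝ) ^ e) ^ D / (p : ℝ) ^ e - κ * l (e + 1) =
          ((p : ℝ) ^ e * (m * l e) + C * ((p : ℝ) ^ e) ^ D - (p : ℝ) ^ e * (κ * l (e + 1))) /
            (p : ℝ) ^ e := by
        have := hpe e
        field_simp
      rw [h6]
      exact div_nonneg (by linarith) (hpe e).le
    rw [h4, hlam, div_le_iff₀ (hpeD e)]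
    refine h5.trans (le_of_eq ?_)
    have := hpe e
    have := hpeD e
    field_simp
  have hm1 : ((m : ℝ) + 1) ≤ (p : ℝ) ^ D * κ := by exact_mod_cast hlt
  have hlam0 : ∀ e, 0 < lam e := fun e => lt_of_lt_of_le (by positivity) (hlow e)
  have hstep : ∀ e, 2 * N * C ≤ e → lam (e + 1) ≤ ((m : ℝ) + 1 / 2) / (m + 1) * lam e := by
    intro e he
    have h3 : 2 * N * C ≤ p ^ e := he.trans (Nat.lt_pow_self (by omega)).le
    have h3' : 2 * (N : ℝ) * C ≤ (p : ℝ) ^ e := by exact_mod_cast h3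
    have h4 : (C : ℝ) / (p : ℝ) ^ e ≤ 1 / 2 * (1 / N) := by
      rw [div_le_iff₀ (hpe e)]
      have h5 : (1 : ℝ) / 2 * (1 / N) * (p : ℝ) ^ e = (p : ℝ) ^ e / (2 * N) := by
        field_simp
      rw [h5, le_div_iff₀ (by positivity)]
      linarith
    have h6 : ((m : ℝ) + 1) * lam (e + 1) ≤ (m + 1 / 2) * lam e := by
      calc ((m : ℝ) + 1) * lam (e + 1) ≤ ((p : ℝ) ^ D * κ) * lam (e + 1) :=
            mul_le_mul_of_nonneg_right hm1 (hlam0 _).le
        _ ≤ m * lam e + C / (p : ℝ) ^ e := hrec e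
        _ ≤ m * lam e + 1 / 2 * (1 / N) := by linarith
        _ ≤ (m + 1 / 2) * lam e := by
            have := hlow e
            linarith
    rw [div_mul_eq_mul_div, le_div_iff₀ (by positivity)]
    linarith
  have hind : ∀ j, lam (2 * N * C + j) ≤ (((m : ℝ) + 1 / 2) / (m + 1)) ^ j * lam (2 * N * C) := by
    intro j
    induction j with
    | zero => simp
    | succ j ih =>
      have h3 := hstep (2 * N * C + j) (Nat.le_add_right _ _)
      rw [← add_assoc, pow_succ', mul_assoc (((m : ℝ) + 1 / 2) / (m + 1))]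
      exact h3.trans (mul_le_mul_of_nonneg_left ih (by positivity))
  have hr : ((m : ℝ) + 1 / 2) / (m + 1) < 1 := by
    rw [div_lt_one (by positivity)]
    linarith
  obtain ⟨j, hj⟩ := exists_pow_lt_of_lt_one
    (show (0 : ℝ) < 1 / N / lam (2 * N * C) from div_pos (by positivity) (hlam0 _)) hr
  rw [lt_div_iff₀ (hlam0 _)] at hj
  have := hlow (2 * N * C + j)
  have := hind j
  linarith

private theorem f4_range {A : Type u} [CommRing A] {D : ℕ} (y : Fin D → A) :
    LinearMap.range (kosOne y A) = Ideal.span (Set.range y) := by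
  ext r
  rw [LinearMap.mem_range, Ideal.mem_span_range_iff_exists_fun]
  refine exists_congr fun c => ?_
  rw [kosOne_apply]
  simp only [smul_eq_mul, mul_comm]

private theorem f4_h0_ring {A : Type u} [CommRing A] {D : ℕ} (y : Fin D → A) :
    h0 y A = Module.length A (A ⧸ Ideal.span (Set.range y)) := by
  unfold h0
  rw [f4_range]

private theorem f4_prim {A : Type u} [CommRing A] [IsNoetherianRing A] [IsLocalRing A] {D : ℕ}
    (x : Fin D → A) (hx : IsSop x) (n : ℕ) :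
    ∃ c, maximalIdeal A ^ c ≤ Ideal.span (Set.range fun i => x i ^ n) := by
  obtain ⟨c, hc⟩ := hx.prim
  have h1 : Ideal.span (Set.range x) ≤ (Ideal.span (Set.range fun i => x i ^ n)).radical := by
    rw [Ideal.span_le]
    rintro _ ⟨i, rfl⟩
    exact ⟨n, Ideal.subset_span ⟨i, rfl⟩⟩
  have h2 : maximalIdeal A ≤ (Ideal.span (Set.range fun i => x i ^ n)).radical := by
    intro a ha
    rw [← Ideal.radical_idem]
    exact ⟨c, h1 (hc (Ideal.pow_mem_pow ha c))⟩
  exact Ideal.exists_pow_le_of_le_radical_of_fg h2 (isNoetherian_def.mp inferInstance _)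

private theorem f4_h0_pi {A : Type u} [CommRing A] {D : ℕ} (y : Fin D → A) (m : ℕ) :
    h0 y (Fin m → A) ≤ m * h0 y A := by
  induction m with
  | zero =>
    have h1 : h0 y (Fin 0 → A) = 0 := by
      unfold h0
      have : Subsingleton ((Fin 0 → A) ⧸ LinearMap.range (kosOne y (Fin 0 → A))) :=
        (Submodule.Quotient.mk_surjective _).subsingleton
      exact Module.length_eq_zero
    rw [h1]
    exact zero_le
  | succ m ih =>
    let f : (Fin m → A) →ₗ[A] (Fin (m + 1) → A) :=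
      { toFun := fun v => Fin.cons 0 v
        map_add' := fun v w => by
          funext i
          refine Fin.cases ?_ (fun j => ?_) i
          · simp
          · simp
        map_smul' := fun r v => by
          funext i
          refine Fin.cases ?_ (fun j => ?_) i
          · simp
          · simp }
    let g : (Fin (m + 1) → A) →ₗ[A] A := LinearMap.proj 0
    have hg : Function.Surjective g := fun a => ⟨fun _ => a, rfl⟩
    have hfg : Function.Exact f g := by
      intro w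
      constructor
      · intro hw
        refine ⟨fun i => w i.succ, ?_⟩
        funext i
        refine Fin.cases ?_ (fun j => ?_) i
        · exact (show w 0 = 0 from hw).symm
        · rfl
      · rintro ⟨v, rfl⟩
        rfl
    have h2 := h0_le_add y f g hg hfg
    push_cast
    rw [add_mul, one_mul]
    exact h2.trans (add_le_add ih le_rfl)

private theorem f4_root {A : Type u} [CommRing A] [IsNoetherianRing A] [IsLocalRing A]
    (p : ℕ) [Fact p.Prime] [CharP A p] (hF : (frobenius A p).Finite) {D : ℕ} (x : Fin D → A)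
    (hx : IsSop x) (e : ℕ) :
    h0 (fun i => x i ^ p ^ e) (RootMod A p 1) =
      ((rootDegree (ResidueField A) (p ^ 1) : ℕ) : ℕ∞) * h0 (fun i => x i ^ p ^ (e + 1)) A := by
  rw [f4_h0_ring]
  refine length_root p 1 hF _ (f4_prim x hx _) _ fun r => ?_
  rw [LinearMap.mem_range, Ideal.mem_span_range_iff_exists_fun]
  constructor
  · rintro ⟨t, ht⟩
    rw [kosOne_apply] at ht
    obtain ⟨t', rfl⟩ : ∃ t' : Fin D → A, (fun i => toRoot p 1 (t' i)) = t := ⟨t, rfl⟩
    refine ⟨t', ?_⟩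
    have h1 : (∑ i, (x i ^ p ^ e) • toRoot p 1 (t' i) : RootMod A p 1) =
        ∑ i, t' i * x i ^ p ^ (e + 1) := by
      refine Finset.sum_congr rfl fun i _ => ?_
      show (x i ^ p ^ e) ^ p ^ 1 * t' i = _
      rw [← pow_mul, ← pow_add, mul_comm]
    exact h1.symm.trans ht
  · rintro ⟨t, ht⟩
    refine ⟨fun i => toRoot p 1 (t i), ?_⟩
    rw [kosOne_apply]
    have h1 : (∑ i, (x i ^ p ^ e) • toRoot p 1 (t i) : RootMod A p 1) =
        ∑ i, t i * x i ^ p ^ (e + 1) := by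
      refine Finset.sum_congr rfl fun i _ => ?_
      show (x i ^ p ^ e) ^ p ^ 1 * t i = _
      rw [← pow_mul, ← pow_add, mul_comm]
    exact h1.trans ht

theorem kunz_le {A : Type u} [CommRing A] [IsDomain A] [IsNoetherianRing A] [IsLocalRing A]
    (p : ℕ) [Fact p.Prime] [CharP A p] (hF : (frobenius A p).Finite) {D : ℕ} (x : Fin D → A)
    (hx : IsSop x) (m : ℕ) (ι : (Fin m → A) →ₗ[A] RootMod A p 1)
    (π : RootMod A p 1 →ₗ[A] (Fin m → A)) (c : A) (hc : c ≠ 0)
    (h : ∀ y, ι (π y) = c • y) :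
    p ^ D * rootDegree (ResidueField A) (p ^ 1) ≤ m := by
  have hfin := finite_root p 1 hF
  have hpp : p.Prime := Fact.out
  have hcM : ∀ z : RootMod A p 1 ⧸ LinearMap.range ι, c • z = 0 := by
    intro z
    obtain ⟨y, rfl⟩ := Submodule.mkQ_surjective _ z
    rw [← map_smul, ← h, Submodule.mkQ_apply, Submodule.Quotient.mk_eq_zero]
    exact ⟨_, rfl⟩
  obtain ⟨C, hC⟩ := h0_small x hx (RootMod A p 1 ⧸ LinearMap.range ι) c hc hcM
  obtain ⟨N, hN⟩ := h0_lower x hx
  have hl : ∀ e, h0 (fun i => x i ^ p ^ e) A ≠ ⊤ := by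
    intro e
    rw [f4_h0_ring]
    exact length_ne_top _ (f4_prim x hx _)
  choose l hl using fun e => ENat.ne_top_iff_exists.1 (hl e)
  have hpe : ∀ e, 1 ≤ p ^ e := fun e => Nat.one_le_pow _ _ hpp.pos
  refine f4_numeric p D m _ C N hpp.two_le l (fun e => ?_) (fun e => ?_)
  · have h1 : h0 (fun i => x i ^ p ^ e) (RootMod A p 1) ≤
        h0 (fun i => x i ^ p ^ e) (Fin m → A) +
          h0 (fun i => x i ^ p ^ e) (RootMod A p 1 ⧸ LinearMap.range ι) := by
      refine h0_le_add _ ι (LinearMap.range ι).mkQ (Submodule.mkQ_surjective _) ?_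
      rw [LinearMap.exact_iff, Submodule.ker_mkQ]
    rw [f4_root p hF x hx e, ← hl (e + 1)] at h1
    have h2 := f4_h0_pi (fun i => x i ^ p ^ e) m
    rw [← hl e] at h2
    have h3 := hC (p ^ e) (hpe e)
    have h4 : ((p ^ e : ℕ) : ℕ∞) * (((rootDegree (ResidueField A) (p ^ 1) : ℕ) : ℕ∞) *
        (l (e + 1) : ℕ∞)) ≤ ((p ^ e : ℕ) : ℕ∞) * (m * (l e : ℕ∞)) +
          ((C * (p ^ e) ^ D : ℕ) : ℕ∞) := by
      calc ((p ^ e : ℕ) : ℕ∞) * (((rootDegree (ResidueField A) (p ^ 1) : ℕ) : ℕ∞) *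
            (l (e + 1) : ℕ∞))
          ≤ ((p ^ e : ℕ) : ℕ∞) * (h0 (fun i => x i ^ p ^ e) (Fin m → A) +
              h0 (fun i => x i ^ p ^ e) (RootMod A p 1 ⧸ LinearMap.range ι)) :=
            mul_le_mul_right h1 _
        _ = ((p ^ e : ℕ) : ℕ∞) * h0 (fun i => x i ^ p ^ e) (Fin m → A) +
              ((p ^ e : ℕ) : ℕ∞) *
                h0 (fun i => x i ^ p ^ e) (RootMod A p 1 ⧸ LinearMap.range ι) := mul_add _ _ _
        _ ≤ _ := add_le_add (mul_le_mul_right h2 _) h3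
    exact_mod_cast h4
  · have h1 := hN (p ^ e) (hpe e)
    rw [← hl e] at h1
    exact_mod_cast h1

end Pool.Agent.FSig.SF
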