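import Pool.Agent.Work.MP_27623f_ag.SF.F3
import Pool.Agent.Work.MP_27623f_ag.SF.Defs
import Pool.Agent.Work.MP_27623f_ag.RootLen

/-!
MODULE F5 (size M).  The colength of the splitting ideals grows like `q^D`.

PROOF.  `a_e = splitId A p e`, `k` the residue field, `κ_e = rootDegree k (p^e) = κ_1^e` (`rootDegree_pow`), `κ_e > 0`.
`m^[p^e] ⊆ a_e`, so `A / a_e` has finite length (for `t ∈ m`: `φ (toRoot (t^(p^e) a)) = t φ (..) ∈ m`;
`exists_pow_le_frobPow`).
(1) `T = {toRoot e a | a ∈ a_(e+e0)}` is a submodule of `RootMod A p e`, and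
`length (RootMod A p e / T) = κ_e length (A / a_(e+e0))` (`length_root`).
(2) For `a ∈ a_(e+e0)` and `φ : RootMod A p e → A` linear one has `φ (toRoot a) ∈ a_e0`: for
`ψ : RootMod A p e0 → A` the map `x ↦ ψ (toRoot (φ x))` is `A`-linear on `RootMod A p (e+e0)` (`a^(p^(e+e0)) = (a^(p^e0))^(p^e)`).
(3) `ι, π` from `hu e`.  If `v ∈ A^(m^e)` and `ι v ∈ T` then `c v_j = (π (ι v))_j = (proj_j ∘ π)(ι v) ∈ a_e0` for all `j`, and
`c ∉ a_e0`; so `v_j ∈ 𝔟 := {r | c r ∈ a_e0}`, a proper ideal (`1 ∉ 𝔟`), `𝔟 ≤ m`.  Hence the surjection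
... `A^(m^e) / ι⁻¹(T) → (A/m)^(m^e)` and the injection `A^(m^e) / ι⁻¹(T) → RootMod A p e / T` give
`m^e ≤ length (A^(m^e) / ι⁻¹ T) ≤ κ_e length (A / a_(e+e0))`.
(4) `p^(D e) κ_1^e ≤ m^e ≤ κ_1^e length (A/a_(e+e0))`, cancel `κ_1^e > 0`.
-/

set_option autoImplicit false

namespace Pool.Agent.FSig.SF

open IsLocalRing Pool.Agent.FSig

universe u

private theorem charP_res {R : Type u} [CommRing R] [IsLocalRing R] (p : ℕ) [hp : Fact p.Prime]
    [CharP R p] : CharP (ResidueField R) p := by
  apply ringChar.of_eq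
  apply CharP.ringChar_of_prime_eq_zero hp.1
  have h : ((p : R)) = 0 := CharP.cast_eq_zero R p
  rw [← map_natCast (residue R), h, map_zero]

theorem splitId_length {A : Type u} [CommRing A] [IsNoetherianRing A] [IsLocalRing A]
    (p : ℕ) [Fact p.Prime] [CharP A p] (hF : (frobenius A p).Finite) (D m : ℕ)
    (hm : p ^ D * rootDegree (ResidueField A) (p ^ 1) ≤ m) (c : A)
    (hu : ∀ e : ℕ, ∃ (ι : (Fin (m ^ e) → A) →ₗ[A] RootMod A p e)
        (π : RootMod A p e →ₗ[A] (Fin (m ^ e) → A)), ∀ v, π (ι v) = c • v)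
    (e₀ : ℕ) (hc : c ∉ splitId A p e₀) (e : ℕ) :
    ((p ^ (D * e) : ℕ) : ℕ∞) ≤ Module.length A (A ⧸ splitId A p (e + e₀)) := by
  have hres := charP_res (R := A) p
  let T : Submodule A (RootMod A p e) :=
    { carrier := {x | (show A from x) ∈ splitId A p (e + e₀)}
      add_mem' := fun {x y} hx hy => by
        show (show A from x) + (show A from y) ∈ splitId A p (e + e₀)
        exact Ideal.add_mem _ hx hy
      zero_mem' := by
        show (0 : A) ∈ splitId A p (e + e₀)
        exact Ideal.zero_mem _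
      smul_mem' := fun r x hx => by
        show r ^ p ^ e * (show A from x) ∈ splitId A p (e + e₀)
        exact Ideal.mul_mem_left _ (r ^ p ^ e) hx }
  have hT : ∀ r : A, toRoot p e r ∈ T ↔ r ∈ splitId A p (e + e₀) := fun r => Iff.rfl
  have hfin : ∃ n, maximalIdeal A ^ n ≤ splitId A p (e + e₀) := by
    apply Ideal.exists_pow_le_of_le_radical_of_fg _ (IsNoetherian.noetherian _)
    intro t ht
    refine ⟨p ^ (e + e₀), ?_⟩
    intro φ
    have h1 : toRoot p (e + e₀) (t ^ p ^ (e + e₀)) = t • toRoot p (e + e₀) (1 : A) := by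
      show t ^ p ^ (e + e₀) = t ^ p ^ (e + e₀) * 1
      rw [mul_one]
    rw [h1, map_smul, smul_eq_mul]
    exact Ideal.mul_mem_right _ _ ht
  have hlen := length_root p e hF (splitId A p (e + e₀)) hfin T hT
  have key : ∀ (φ : RootMod A p e →ₗ[A] A) (a : A), a ∈ splitId A p (e + e₀) →
      φ (toRoot p e a) ∈ splitId A p e₀ := by
    intro φ a ha ψ
    let χ : RootMod A p (e + e₀) →ₗ[A] A :=
      { toFun := fun x => ψ (toRoot p e₀ (φ (toRoot p e (show A from x))))
        map_add' := fun x y => by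
          have h1 : toRoot p e ((show A from x) + (show A from y)) =
            toRoot p e (show A from x) + toRoot p e (show A from y) := rfl
          have h2 : ∀ u v : A, toRoot p e₀ (u + v) = toRoot p e₀ u + toRoot p e₀ v :=
            fun _ _ => rfl
          show ψ (toRoot p e₀ (φ (toRoot p e ((show A from x) + (show A from y))))) = _
          rw [h1, map_add, h2, map_add]
        map_smul' := fun r x => by
          have h1 : toRoot p e (r ^ p ^ (e + e₀) * (show A from x)) =
              (r ^ p ^ e₀) • toRoot p e (show A from x) := by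
            show r ^ p ^ (e + e₀) * (show A from x) = (r ^ p ^ e₀) ^ p ^ e * (show A from x)
            rw [← pow_mul, ← pow_add, add_comm e₀ e]
          show ψ (toRoot p e₀ (φ (toRoot p e (r ^ p ^ (e + e₀) * (show A from x))))) =
            r • ψ (toRoot p e₀ (φ (toRoot p e (show A from x))))
          rw [h1, map_smul]
          have h3 : toRoot p e₀ ((r ^ p ^ e₀) • φ (toRoot p e (show A from x))) =
            r • toRoot p e₀ (φ (toRoot p e (show A from x))) := rfl
          rw [h3, map_smul] }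
    exact ha χ
  obtain ⟨ι, π, hιπ⟩ := hu e
  have h3 : ∀ v : Fin (m ^ e) → A, ι v ∈ T → ∀ j, v j ∈ maximalIdeal A := by
    intro v hv j
    by_contra hj
    have hunit : IsUnit (v j) := by
      rwa [mem_maximalIdeal, mem_nonunits_iff, not_not] at hj
    apply hc
    have h4 := key ((LinearMap.proj j : (Fin (m ^ e) → A) →ₗ[A] A) ∘ₗ π) (show A from ι v) hv
    have h5 : ((LinearMap.proj j : (Fin (m ^ e) → A) →ₗ[A] A) ∘ₗ π)
        (toRoot p e (show A from ι v)) = c * v j := by
      have h6 : π (toRoot p e (show A from ι v)) = c • v := hιπ v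
      rw [LinearMap.comp_apply, h6]
      rfl
    rw [h5] at h4
    obtain ⟨w, hw⟩ := hunit.exists_right_inv
    have h6 : c = (c * v j) * w := by rw [mul_assoc, hw, mul_one]
    rw [h6]
    exact Ideal.mul_mem_right _ _ h4
  have h7 : ((m ^ e : ℕ) : ℕ∞) ≤ Module.length A (RootMod A p e ⧸ T) := by
    let μ : (Fin (m ^ e) → A) →ₗ[A] (Fin (m ^ e) → A ⧸ maximalIdeal A) :=
      LinearMap.pi fun j => (maximalIdeal A).mkQ ∘ₗ LinearMap.proj j
    have hμ : Function.Surjective μ := by
      intro w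
      choose v hv using fun j => (maximalIdeal A).mkQ_surjective (w j)
      refine ⟨v, ?_⟩
      funext j
      exact hv j
    have hle : T.comap ι ≤ LinearMap.ker μ := by
      intro v hv
      rw [LinearMap.mem_ker]
      funext j
      exact (Submodule.Quotient.mk_eq_zero (maximalIdeal A)).2 (h3 v hv j)
    have hsurj : Function.Surjective ((T.comap ι).liftQ μ hle) := by
      intro w
      obtain ⟨v, hv⟩ := hμ w
      exact ⟨(T.comap ι).mkQ v, hv⟩
    have hinj : Function.Injective ((T.comap ι).mapQ T ι le_rfl) := by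
      rw [← LinearMap.ker_eq_bot, LinearMap.ker_eq_bot']
      intro x hx
      obtain ⟨v, rfl⟩ := (T.comap ι).mkQ_surjective x
      have h8 : T.mkQ (ι v) = 0 := hx
      rw [Submodule.mkQ_apply, Submodule.Quotient.mk_eq_zero] at h8
      exact (Submodule.Quotient.mk_eq_zero (T.comap ι)).2 h8
    have a1 := Module.length_le_of_surjective _ hsurj
    have a2 := Module.length_le_of_injective _ hinj
    have a3 : ((m ^ e : ℕ) : ℕ∞) ≤
        Module.length A (Fin (m ^ e) → A ⧸ maximalIdeal A) := by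
      rw [Module.length_pi, ENat.card_eq_coe_fintype_card, Fintype.card_fin]
      have : Nontrivial (A ⧸ maximalIdeal A) :=
        Ideal.Quotient.nontrivial_iff.2 (maximalIdeal.isMaximal A).ne_top
      have h9 : (1 : ℕ∞) ≤ Module.length A (A ⧸ maximalIdeal A) :=
        Order.one_le_iff_pos.2 Module.length_pos
      calc ((m ^ e : ℕ) : ℕ∞) = ((m ^ e : ℕ) : ℕ∞) * 1 := (mul_one _).symm
        _ ≤ _ := mul_le_mul_right h9 _
    exact a3.trans (a1.trans a2)
  rw [hlen, rootDegree_pow] at h7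
  obtain ⟨κ, hκ⟩ : ∃ κ, κ = rootDegree (ResidueField A) (p ^ 1) := ⟨_, rfl⟩
  have hκ0 : 0 < κ := by
    rw [hκ]
    exact rootDegree_pos p 1 hF
  rw [← hκ] at h7 hm
  have h10 : p ^ (D * e) * κ ^ e ≤ m ^ e := by
    rw [pow_mul, ← mul_pow]
    exact Nat.pow_le_pow_left hm e
  have h11 : 0 < κ ^ e := pow_pos hκ0 e
  rcases eq_or_ne (Module.length A (A ⧸ splitId A p (e + e₀))) ⊤ with htop | hntop
  · rw [htop]
    exact le_top
  · obtain ⟨n, hn⟩ := ENat.ne_top_iff_exists.1 hntop
    rw [← hn] at h7 ⊢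
    have h12 : m ^ e ≤ κ ^ e * n := by exact_mod_cast h7
    have h13 : p ^ (D * e) ≤ n := by
      by_contra h
      push Not at h
      have h14 : κ ^ e * n < κ ^ e * p ^ (D * e) := Nat.mul_lt_mul_of_pos_left h h11
      have h15 : κ ^ e * p ^ (D * e) = p ^ (D * e) * κ ^ e := mul_comm _ _
      omega
    exact_mod_cast h13

end Pool.Agent.FSig.SF
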