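import Pool.Agent.Work.MP_27623f_ag.SF.Defs

/-!
MODULE F6 (size S-M).  A nontrivial relation makes `H_1` of the Frobenius powers large.

PROOF.  `q = p^e`, `ζ^[q] = (ζ_i^q)_i` is a relation of `(x_i^q)` (`∑ x_i^q ζ_i^q = (∑ x_i ζ_i)^q = 0`,
`sum_pow_char_pow`).  The linear map `A → ker (kosOne (x^q) A) / range (kosTwo (x^q) A)`, `a ↦` class of `a ζ^[q]`, has its kernel in
`splitId A p e`: let `a ζ_i^q = ∑_j x_j^q (t_ij - t_ji)` for all `i` and let `φ : RootMod A p e → A` be linear;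
`φ (toRoot (a ζ_i^q)) = ζ_i φ (toRoot a)` and `φ (toRoot (x_j^q t)) = x_j φ (toRoot t)`, so
`φ (toRoot a) ζ_i = ∑_j x_j (t'_ij - t'_ji)`, `t'_ij = φ (toRoot t_ij)`.  If `φ (toRoot a)` were a unit then
`ζ ∈ range (kosTwo x A)`, a contradiction.  So `length (A / splitId) ≤ length (A / kernel) ≤ h1`
(`Module.length_le_of_injective`, `Module.length_le_of_surjective`).
-/

set_option autoImplicit false

namespace Pool.Agent.FSig.SF

open IsLocalRing Pool.Agent.FSig

universe u

theorem length_splitId_le_h1 {A : Type u} [CommRing A] [IsLocalRing A]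
    (p e : ℕ) [Fact p.Prime] [CharP A p] {s : ℕ} (x : Fin s → A) (ζ : Fin s → A)
    (h1 : kosOne x A ζ = 0) (h2 : ζ ∉ LinearMap.range (kosTwo x A)) :
    Module.length A (A ⧸ splitId A p e) ≤ SF.h1 (fun i => x i ^ p ^ e) A := by
  have hsum : ∑ i, x i * ζ i = 0 := by
    have h := h1
    rw [kosOne_apply] at h
    simpa only [smul_eq_mul] using h
  have hz : (fun i => ζ i ^ p ^ e) ∈ LinearMap.ker (kosOne (fun i => x i ^ p ^ e) A) := by
    rw [LinearMap.mem_ker, kosOne_apply]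
    simp only [smul_eq_mul]
    calc ∑ i, x i ^ p ^ e * ζ i ^ p ^ e = ∑ i, (x i * ζ i) ^ p ^ e :=
          Finset.sum_congr rfl fun i _ => (mul_pow _ _ _).symm
      _ = (∑ i, x i * ζ i) ^ p ^ e := (sum_pow_char_pow p e _ _).symm
      _ = 0 := by rw [hsum, zero_pow (pow_ne_zero _ (Fact.out : p.Prime).ne_zero)]
  let T : A →+ RootMod A p e :=
    { toFun := toRoot p e
      map_zero' := rfl
      map_add' := fun _ _ => rfl }
  have hT : ∀ a : A, T a = toRoot p e a := fun _ => rfl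
  have hsm : ∀ r b : A, T (r ^ p ^ e * b) = r • T b := fun _ _ => rfl
  let F : A →ₗ[A] (LinearMap.ker (kosOne (fun i => x i ^ p ^ e) A) ⧸
      (LinearMap.range (kosTwo (fun i => x i ^ p ^ e) A)).submoduleOf
        (LinearMap.ker (kosOne (fun i => x i ^ p ^ e) A))) :=
    (Submodule.mkQ _) ∘ₗ (LinearMap.toSpanSingleton A _
      (⟨fun i => ζ i ^ p ^ e, hz⟩ : LinearMap.ker (kosOne (fun i => x i ^ p ^ e) A)))
  have hker : LinearMap.ker F ≤ splitId A p e := by
    intro a ha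
    have ha1 : a • (⟨fun i => ζ i ^ p ^ e, hz⟩ :
        LinearMap.ker (kosOne (fun i => x i ^ p ^ e) A)) ∈
        (LinearMap.range (kosTwo (fun i => x i ^ p ^ e) A)).submoduleOf
        (LinearMap.ker (kosOne (fun i => x i ^ p ^ e) A)) :=
      (Submodule.Quotient.mk_eq_zero _).1 ha
    have ha2 : a • (fun i => ζ i ^ p ^ e) ∈ LinearMap.range (kosTwo (fun i => x i ^ p ^ e) A) := ha1
    obtain ⟨t, ht⟩ := ha2
    rw [mem_splitId]
    intro φ
    rw [IsLocalRing.mem_maximalIdeal, mem_nonunits_iff]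
    intro hu
    obtain ⟨v, hv⟩ := hu
    apply h2
    refine ⟨fun i j => (↑v⁻¹ : A) * φ (T (t i j)), ?_⟩
    funext i
    have e1 := congrFun ht i
    rw [kosTwo_apply] at e1
    simp only [smul_eq_mul, Pi.smul_apply] at e1
    have e2 : φ (T (a * ζ i ^ p ^ e)) = ζ i * φ (T a) := by
      rw [mul_comm a, hsm, map_smul, smul_eq_mul]
    have e3 : φ (T (∑ j, x j ^ p ^ e * (t i j - t j i))) =
        ∑ j, x j * (φ (T (t i j)) - φ (T (t j i))) := by
      rw [map_sum, map_sum]
      refine Finset.sum_congr rfl fun j _ => ?_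
      rw [hsm, map_smul, smul_eq_mul, map_sub, map_sub]
    rw [e1, e2, hT, ← hv] at e3
    rw [kosTwo_apply]
    simp only [smul_eq_mul]
    calc ∑ j, x j * ((↑v⁻¹ : A) * φ (T (t i j)) - (↑v⁻¹ : A) * φ (T (t j i)))
        = (↑v⁻¹ : A) * ∑ j, x j * (φ (T (t i j)) - φ (T (t j i))) := by
          rw [Finset.mul_sum]
          refine Finset.sum_congr rfl fun j _ => ?_
          ring
      _ = (↑v⁻¹ : A) * (ζ i * ↑v) := by rw [← e3]
      _ = ζ i * ((↑v⁻¹ : A) * ↑v) := by ring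
      _ = ζ i := by rw [Units.inv_mul, mul_one]
  have l1 : Module.length A (A ⧸ splitId A p e) ≤ Module.length A (A ⧸ LinearMap.ker F) :=
    Module.length_le_of_surjective (Submodule.factor hker) (Submodule.factor_surjective hker)
  have l2 : Module.length A (A ⧸ LinearMap.ker F) ≤ SF.h1 (fun i => x i ^ p ^ e) A :=
    Module.length_le_of_injective ((LinearMap.ker F).liftQ F le_rfl)
      (LinearMap.ker_eq_bot.1 (Submodule.ker_liftQ_eq_bot _ _ _ le_rfl))
  exact l1.trans l2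

end Pool.Agent.FSig.SF
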