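import Pool.Agent.Work.MP_27623f_ag.SF.K4
import Pool.Agent.Work.MP_27623f_ag.SF.F2
import Pool.Agent.Work.MP_27623f_ag.SF.F4
import Pool.Agent.Work.MP_27623f_ag.SF.F5
import Pool.Agent.Work.MP_27623f_ag.SF.F6

/-!
MODULE F7 (size S-M).  Strongly F-regular F-finite local domains: all relations of a system of parameters are trivial.

PROOF.  `D = 0`: `Fin 0 → A` is trivial.  `D ≥ 1`: suppose `ζ ∈ ker`, `ζ ∉ range`.  `exists_uniform`: `m, c` and the two
families; `c ∉ splitId A p e₀` for some `e₀` (`hS c`; `φ (toRoot c) = 1` is not in the maximal ideal); `kunz_le`;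
`splitId_length`: `p^(D e) ≤ length A/splitId (e + e₀) ≤ h1 (x^(p^(e+e₀))) A` (`length_splitId_le_h1`); `growth` (`s = D`, `M = A`):
`p^(e+e₀) h1 ≤ C p^((e+e₀) D)`.  So `p^(e+e₀) p^(D e) ≤ C p^((e+e₀) D)`, i.e. `p^(e + e₀) ≤ C p^(e₀ D)` for all `e`, a contradiction.
-/

set_option autoImplicit false

namespace Pool.Agent.FSig.SF

open IsLocalRing Pool.Agent.FSig

universe u

theorem ker_le_range {A : Type u} [CommRing A] [IsDomain A] [IsNoetherianRing A] [IsLocalRing A]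
    (p : ℕ) [Fact p.Prime] [CharP A p] (hF : (frobenius A p).Finite)
    (hS : StronglyFRegular A p) {D : ℕ} (x : Fin D → A) (hx : IsSop x) :
    LinearMap.ker (kosOne x A) ≤ LinearMap.range (kosTwo x A) := by
  intro ζ hζ
  by_contra hζ2
  rw [LinearMap.mem_ker] at hζ
  have hp : p.Prime := Fact.out
  obtain ⟨m, c, hc0, ⟨ι, π, b, hb, -, h2⟩, hu⟩ := exists_uniform (A := A) p hF
  obtain ⟨e₀, φ, hφ⟩ := hS c hc0
  have hcs : c ∉ splitId A p e₀ := by
    intro h
    rw [mem_splitId] at h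
    have h1 := h φ
    rw [hφ] at h1
    exact (Ideal.ne_top_iff_one _).1 (maximalIdeal.isMaximal A).ne_top h1
  have hm := kunz_le p hF x hx m ι π b hb h2
  obtain ⟨k, hk⟩ := hx.prim
  obtain ⟨C, hC⟩ := growth D x A ⟨k, hk.trans le_sup_left⟩
  have key : ∀ e : ℕ, p ^ (e + e₀) ≤ C * p ^ (e₀ * D) := by
    intro e
    have h3 := splitId_length p hF D m hm c hu e₀ hcs e
    have h4 := length_splitId_le_h1 p (e + e₀) x ζ hζ hζ2
    have h5 := (hC (p ^ (e + e₀)) (Nat.one_le_iff_ne_zero.2 (pow_ne_zero _ hp.ne_zero))).2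
    have h6 : ((p ^ (e + e₀) * p ^ (D * e) : ℕ) : ℕ∞) ≤
        ((C * (p ^ (e + e₀)) ^ D : ℕ) : ℕ∞) := by
      refine le_trans ?_ h5
      rw [Nat.cast_mul]
      exact mul_le_mul_right (h3.trans h4) _
    have h7 : p ^ (e + e₀) * p ^ (D * e) ≤ C * (p ^ (e + e₀)) ^ D := by exact_mod_cast h6
    have h8 : C * (p ^ (e + e₀)) ^ D = C * p ^ (e₀ * D) * p ^ (D * e) := by
      rw [← pow_mul, add_mul, pow_add, mul_comm e D]
      ring
    rw [h8] at h7
    exact Nat.le_of_mul_le_mul_right h7 (pow_pos hp.pos _)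
  have h9 := key (C * p ^ (e₀ * D))
  have h10 : C * p ^ (e₀ * D) + e₀ < p ^ (C * p ^ (e₀ * D) + e₀) :=
    Nat.lt_pow_self hp.one_lt
  omega

end Pool.Agent.FSig.SF
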