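import Pool.Agent.Work.MP_27623f_ag.SF.F7

/-!
MODULE F8 (size S-M).  Strongly F-regular F-finite local domains are Cohen-Macaulay: every system of parameters is a regular
sequence in every order.

PROOF.  Let `i ∉ T`, `x_i s ∈ (x_j : j ∈ T)`, `x_i s = ∑_(j ∈ T) a_j x_j`.  For `n ≥ 1` let `y_j = x_j` for `j ∈ T ∪ {i}` and `y_j = x_j^n` for the
other `j`; `y` is a system of parameters (radical; `Ideal.exists_pow_le_of_le_radical_of_fg`).  `ζ = (s` at `i`, `- a_j` at `j ∈ T`, `0` else`)` is a
relation of `y`, so it is trivial (`ker_le_range`) and `s = ∑_j y_j (t_ij - t_ji) ∈ (y_j : j ≠ i)` (the term `j = i` vanishes)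
`≤ (x_j : j ∈ T) + m^n`.  This holds for all `n`; by Krull's intersection theorem in the local Noetherian ring `A / (x_j : j ∈ T)`
(`Ideal.isHausdorff_of_le_jacobson`, `Ideal.iInf_pow_smul_eq_bot_of_isLocalRing`; see `exists_pair_of_not_mem` in SA/MaxP)
`s ∈ (x_j : j ∈ T)`.
-/

set_option autoImplicit false

namespace Pool.Agent.FSig.SF

open IsLocalRing Pool.Agent.FSig Pool.Agent.FSig.SA

universe u

/-- Krull's intersection theorem modulo an ideal -/
private theorem f8_krull {A : Type u} [CommRing A] [IsNoetherianRing A] [IsLocalRing A]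
    (c : Ideal A) (s : A) (h : ∀ n : ℕ, s ∈ c ⊔ maximalIdeal A ^ n) : s ∈ c := by
  have h1 := Ideal.iInf_pow_smul_eq_bot_of_isLocalRing (M := A ⧸ c)
    (maximalIdeal A) (maximalIdeal.isMaximal A).ne_top
  have h2 : (Ideal.Quotient.mk c s : A ⧸ c) ∈
      (⨅ i : ℕ, maximalIdeal A ^ i • (⊤ : Submodule A (A ⧸ c))) := by
    rw [Submodule.mem_iInf]
    intro i
    obtain ⟨y, hy, z, hz, hyz⟩ := Submodule.mem_sup.1 (h i)
    have h3 : (Ideal.Quotient.mk c s : A ⧸ c) = z • (1 : A ⧸ c) := by
      rw [← hyz, map_add, Ideal.Quotient.eq_zero_iff_mem.2 hy, zero_add]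
      rw [Algebra.smul_def, mul_one]
      rfl
    rw [h3]
    exact Submodule.smul_mem_smul hz Submodule.mem_top
  rw [h1, Submodule.mem_bot, Ideal.Quotient.eq_zero_iff_mem] at h2
  exact h2

theorem regSeq_of_sfr {A : Type u} [CommRing A] [IsDomain A] [IsNoetherianRing A]
    [IsLocalRing A] (p : ℕ) [Fact p.Prime] [CharP A p] (hF : (frobenius A p).Finite)
    (hS : StronglyFRegular A p) {D : ℕ} (x : Fin D → A) (hx : IsSop x) : RegSeq x := by
  classical
  intro i T hi s hs
  obtain ⟨a0, ha0⟩ := (Submodule.mem_span_image_finset_iff_exists_fun A).1 hs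
  obtain ⟨a, ha⟩ : ∃ a : Fin D → A, ∑ j ∈ T, a j • x j = x i * s := by
    refine ⟨fun j => if h : j ∈ T then a0 ⟨j, h⟩ else 0, ?_⟩
    rw [← ha0, ← Finset.sum_coe_sort]
    refine Finset.sum_congr rfl fun j _ => ?_
    simp only [Finset.coe_mem, dite_true]
  refine f8_krull _ s fun n => ?_
  rcases Nat.eq_zero_or_pos n with rfl | hn
  · rw [pow_zero, Ideal.one_eq_top, sup_top_eq]
    exact Submodule.mem_top
  set y : Fin D → A := fun j => if j ∈ T ∨ j = i then x j else x j ^ n with hy
  have hyrad : ∀ j, x j ∈ (Ideal.span (Set.range y)).radical := by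
    intro j
    have hyj : y j ∈ Ideal.span (Set.range y) := Ideal.subset_span ⟨j, rfl⟩
    by_cases h : j ∈ T ∨ j = i
    · have e : y j = x j := by rw [hy]; simp only [if_pos h]
      rw [e] at hyj
      exact Ideal.le_radical hyj
    · have e : y j = x j ^ n := by rw [hy]; simp only [if_neg h]
      rw [e] at hyj
      exact ⟨n, hyj⟩
  have hysop : IsSop y := by
    refine ⟨hx.dim, fun j => ?_, ?_⟩
    · by_cases h : j ∈ T ∨ j = i
      · have e : y j = x j := by rw [hy]; simp only [if_pos h]
        rw [e]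
        exact hx.mem j
      · have e : y j = x j ^ n := by rw [hy]; simp only [if_neg h]
        rw [e]
        exact Ideal.pow_mem_of_mem _ (hx.mem j) n hn
    · obtain ⟨c, hc⟩ := hx.prim
      refine Ideal.exists_pow_le_of_le_radical_of_fg ?_
        (IsNoetherian.noetherian (maximalIdeal A))
      have h1 : Ideal.span (Set.range x) ≤ (Ideal.span (Set.range y)).radical := by
        rw [Ideal.span_le]
        rintro _ ⟨j, rfl⟩
        exact hyrad j
      intro m hm
      have h2 : m ^ c ∈ (Ideal.span (Set.range y)).radical :=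
        h1 (hc (Ideal.pow_mem_pow hm c))
      obtain ⟨k, hk⟩ := h2
      exact ⟨c * k, by rw [pow_mul]; exact hk⟩
  set ζ : Fin D → A := fun j => if j = i then s else if j ∈ T then - a j else 0 with hζ
  have hker : ζ ∈ LinearMap.ker (kosOne y A) := by
    rw [LinearMap.mem_ker, kosOne_apply]
    have h1 : ∀ j, y j • ζ j = (if j = i then x i * s else 0) -
        (if j ∈ T then a j • x j else 0) := by
      intro j
      by_cases hji : j = i
      · subst hji
        have e1 : y j = x j := by rw [hy]; simp only [or_true, if_true]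
        have e2 : ζ j = s := by rw [hζ]; simp only [if_true]
        rw [e1, e2, if_pos rfl, if_neg hi, sub_zero, smul_eq_mul]
      · by_cases hjT : j ∈ T
        · have e1 : y j = x j := by rw [hy]; simp only [hjT, true_or, if_true]
          have e2 : ζ j = - a j := by rw [hζ]; simp only [if_neg hji, if_pos hjT]
          rw [e1, e2, if_neg hji, if_pos hjT, smul_eq_mul, smul_eq_mul]
          ring
        · have e2 : ζ j = 0 := by rw [hζ]; simp only [if_neg hji, if_neg hjT]
          rw [e2, if_neg hji, if_neg hjT, smul_zero, sub_zero]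
    rw [Finset.sum_congr rfl fun j _ => h1 j, Finset.sum_sub_distrib, Finset.sum_ite_eq',
      if_pos (Finset.mem_univ i), Finset.sum_ite_mem, Finset.univ_inter, ha, sub_self]
  obtain ⟨t, ht⟩ := ker_le_range p hF hS y hysop hker
  have hsi : s = ∑ j, y j • (t i j - t j i) := by
    have h1 := congrFun ht i
    rw [kosTwo_apply] at h1
    rw [h1, hζ]
    simp only [if_true]
  rw [hsi]
  refine Ideal.sum_mem _ fun j _ => ?_
  by_cases hji : j = i
  · subst hji
    rw [sub_self, smul_zero]
    exact Ideal.zero_mem _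
  · rw [smul_eq_mul]
    refine Ideal.mul_mem_right _ _ ?_
    by_cases hjT : j ∈ T
    · have e1 : y j = x j := by rw [hy]; simp only [hjT, true_or, if_true]
      rw [e1]
      exact Ideal.mem_sup_left (Ideal.subset_span ⟨j, hjT, rfl⟩)
    · have e1 : y j = x j ^ n := by
        rw [hy]
        simp only [hjT, hji, or_self, if_false]
      rw [e1]
      exact Ideal.mem_sup_right (Ideal.pow_mem_pow (hx.mem j) n)

end Pool.Agent.FSig.SF
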