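import Pool.Agent.Work.MP_27623f_ag.SF.Defs

/-!
MODULE K1 (size M).  Exactness properties of `h0`, `h1` for a short exact sequence
`0 → M' → M → M'' → 0` (maps `f`, `g`).

PROOF.  `H_0(M) = M / (x) M`, `(x) M = range (kosOne x M)`; `H_1(M) = ker (kosOne) / range (kosTwo)`
(`kosOne ∘ kosTwo = 0`: `∑_i ∑_j x_i x_j (t_ij - t_ji) = 0`).  `kosOne`, `kosTwo` commute with linear maps.
* `h0_le_of_surjective`: `g` induces a surjection `M / (x) M → M'' / (x) M''` (`Module.length_le_of_surjective`).
* `h0_le_add`: the sequence `M'/(x)M' → M/(x)M → M''/(x)M'' → 0` is exact.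
* `h1_le_add`: the sequence `H_1(M') → H_1(M) → H_1(M'')` is exact: let `m ∈ ker kosOne` with
  `g m = kosTwo t''`; lift `t''` to `t` (surjectivity of `g`); `g (m - kosTwo t) = 0`, so
  `m - kosTwo t = f m'` and `f (kosOne m') = 0`, so `kosOne m' = 0`.
* `h0_le_h0_add_h1` follows from `h0_five`.
* `h0_five`: the kernel of `M'/(x)M' → M/(x)M` is a quotient of `H_1(M'')`: for `m'' ∈ ker kosOne` choose
  `m` with `g m = m''`; `g (kosOne m) = 0`, `kosOne m = f y`; the class of `y` modulo `(x) M'` does not depend
  on the choice of `m`, is linear in `m''`, is zero for `m'' ∈ range kosTwo` (take `m = kosTwo t`), and every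
  `y` with `f y ∈ (x) M` occurs.  (It may be easier to show: length of the kernel `≤` length of
  `ker kosOne(M'') / range kosTwo`, through the submodule `{(m'', y) | ...}` and its two projections.)
In general a length inequality for `A → B → C` exact in the middle is
`length B ≤ length A + length C` (`Module.length_eq_add_of_exact` for the image and the quotient).
-/

set_option autoImplicit false

namespace Pool.Agent.FSig.SF

/-! ### helpers -/

private theorem kosOne_comp {R : Type*} [CommRing R] {s : ℕ} (x : Fin s → R) {M N : Type*}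
    [AddCommGroup M] [Module R M] [AddCommGroup N] [Module R N] (f : M →ₗ[R] N)
    (m : Fin s → M) : kosOne x N (fun i => f (m i)) = f (kosOne x M m) := by
  rw [kosOne_apply, kosOne_apply, map_sum]
  simp only [map_smul]

private theorem kosTwo_comp {R : Type*} [CommRing R] {s : ℕ} (x : Fin s → R) {M N : Type*}
    [AddCommGroup M] [Module R M] [AddCommGroup N] [Module R N] (f : M →ₗ[R] N)
    (t : Fin s → Fin s → M) :
    kosTwo x N (fun i j => f (t i j)) = fun i => f (kosTwo x M t i) := by
  funext i
  rw [kosTwo_apply, kosTwo_apply, map_sum]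
  simp only [map_smul, map_sub]

private theorem kosOne_kosTwo {R : Type*} [CommRing R] {s : ℕ} (x : Fin s → R) {M : Type*}
    [AddCommGroup M] [Module R M] (t : Fin s → Fin s → M) :
    kosOne x M (kosTwo x M t) = 0 := by
  rw [kosOne_apply]
  simp only [kosTwo_apply, Finset.smul_sum, smul_sub, Finset.sum_sub_distrib]
  rw [sub_eq_zero, Finset.sum_comm]
  refine Finset.sum_congr rfl fun i _ => Finset.sum_congr rfl fun j _ => ?_
  rw [smul_comm]

private theorem length_mid_le {R A B C : Type*} [CommRing R] [AddCommGroup A] [Module R A]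
    [AddCommGroup B] [Module R B] [AddCommGroup C] [Module R C] (a : A →ₗ[R] B) (b : B →ₗ[R] C)
    (h : Function.Exact a b) :
    Module.length R B ≤ Module.length R A + Module.length R C := by
  have h1 : Module.length R B
      = Module.length R (LinearMap.ker b) + Module.length R (LinearMap.range b) := by
    refine Module.length_eq_add_of_exact (LinearMap.ker b).subtype b.rangeRestrict
      (Submodule.injective_subtype _) b.surjective_rangeRestrict ?_
    intro y
    constructor
    · intro hy
      have : b y = 0 := by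
        have := congrArg Subtype.val hy
        simpa using this
      exact ⟨⟨y, this⟩, rfl⟩
    · rintro ⟨z, rfl⟩
      apply Subtype.ext
      exact z.2
  rw [h1]
  gcongr
  · refine Module.length_le_of_surjective (a.codRestrict (LinearMap.ker b) fun y => ?_) ?_
    · exact (h (a y)).2 ⟨y, rfl⟩
    · rintro ⟨y, hy⟩
      obtain ⟨z, hz⟩ := (h y).1 hy
      exact ⟨z, Subtype.ext hz⟩
  · exact Module.length_le_of_injective (LinearMap.range b).subtype
      (Submodule.injective_subtype _)

private theorem length_ker_add_range {R A B : Type*} [CommRing R] [AddCommGroup A] [Module R A]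
    [AddCommGroup B] [Module R B] (b : A →ₗ[R] B) :
    Module.length R A
      = Module.length R (LinearMap.ker b) + Module.length R (LinearMap.range b) := by
  refine Module.length_eq_add_of_exact (LinearMap.ker b).subtype b.rangeRestrict
    (Submodule.injective_subtype _) b.surjective_rangeRestrict ?_
  intro y
  constructor
  · intro hy
    have : b y = 0 := by
      have := congrArg Subtype.val hy
      simpa using this
    exact ⟨⟨y, this⟩, rfl⟩
  · rintro ⟨z, rfl⟩
    apply Subtype.ext
    exact z.2

private theorem range_le {R : Type*} [CommRing R] {s : ℕ} (x : Fin s → R) {M N : Type*}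
    [AddCommGroup M] [Module R M] [AddCommGroup N] [Module R N] (f : M →ₗ[R] N) :
    LinearMap.range (kosOne x M) ≤ (LinearMap.range (kosOne x N)).comap f := by
  rintro _ ⟨m, rfl⟩
  exact ⟨fun i => f (m i), kosOne_comp x f m⟩

/-- the map on `H_0` -/
private def H0map {R : Type*} [CommRing R] {s : ℕ} (x : Fin s → R) {M N : Type*}
    [AddCommGroup M] [Module R M] [AddCommGroup N] [Module R N] (f : M →ₗ[R] N) :
    (M ⧸ LinearMap.range (kosOne x M)) →ₗ[R] (N ⧸ LinearMap.range (kosOne x N)) :=
  Submodule.mapQ _ _ f (range_le x f)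

private theorem H0map_mk {R : Type*} [CommRing R] {s : ℕ} (x : Fin s → R) {M N : Type*}
    [AddCommGroup M] [Module R M] [AddCommGroup N] [Module R N] (f : M →ₗ[R] N) (m : M) :
    H0map x f (Submodule.Quotient.mk m) = Submodule.Quotient.mk (f m) := rfl

private theorem H0map_surjective {R : Type*} [CommRing R] {s : ℕ} (x : Fin s → R) {M N : Type*}
    [AddCommGroup M] [Module R M] [AddCommGroup N] [Module R N] (f : M →ₗ[R] N)
    (hf : Function.Surjective f) : Function.Surjective (H0map x f) := by
  intro y
  obtain ⟨y, rfl⟩ := Submodule.Quotient.mk_surjective _ y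
  obtain ⟨z, rfl⟩ := hf y
  exact ⟨Submodule.Quotient.mk z, rfl⟩

private theorem H0map_exact {R : Type*} [CommRing R] {s : ℕ} (x : Fin s → R) {M' M M'' : Type*}
    [AddCommGroup M'] [Module R M'] [AddCommGroup M] [Module R M] [AddCommGroup M'']
    [Module R M''] (f : M' →ₗ[R] M) (g : M →ₗ[R] M'') (hg : Function.Surjective g)
    (hfg : Function.Exact f g) : Function.Exact (H0map x f) (H0map x g) := by
  intro y
  obtain ⟨y, rfl⟩ := Submodule.Quotient.mk_surjective _ y
  constructor
  · intro hy
    rw [H0map_mk, Submodule.Quotient.mk_eq_zero] at hy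
    obtain ⟨m'', hm''⟩ := hy
    choose m hm using fun i => hg (m'' i)
    have h1 : g (y - kosOne x M m) = 0 := by
      rw [map_sub, ← kosOne_comp, ← hm'', sub_eq_zero]
      congr 1
      funext i
      exact (hm i).symm
    obtain ⟨z, hz⟩ := (hfg _).1 h1
    refine ⟨Submodule.Quotient.mk z, ?_⟩
    rw [H0map_mk, hz, Submodule.Quotient.mk_sub, sub_eq_self, Submodule.Quotient.mk_eq_zero]
    exact ⟨m, rfl⟩
  · rintro ⟨z, hz⟩
    obtain ⟨z, rfl⟩ := Submodule.Quotient.mk_surjective _ z
    rw [← hz, H0map_mk, H0map_mk, (hfg (f z)).2 ⟨z, rfl⟩, Submodule.Quotient.mk_zero]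

/-- the map on `Z_1` -/
private def Z1map {R : Type*} [CommRing R] {s : ℕ} (x : Fin s → R) {M N : Type*}
    [AddCommGroup M] [Module R M] [AddCommGroup N] [Module R N] (f : M →ₗ[R] N) :
    LinearMap.ker (kosOne x M) →ₗ[R] LinearMap.ker (kosOne x N) :=
  (f.compLeft (Fin s)).restrict fun m hm => by
    rw [LinearMap.mem_ker] at hm ⊢
    have := kosOne_comp x f m
    rw [hm, map_zero] at this
    exact this

private theorem Z1map_val {R : Type*} [CommRing R] {s : ℕ} (x : Fin s → R) {M N : Type*}
    [AddCommGroup M] [Module R M] [AddCommGroup N] [Module R N] (f : M →ₗ[R] N)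
    (m : LinearMap.ker (kosOne x M)) :
    (Z1map x f m : Fin s → N) = fun i => f ((m : Fin s → M) i) := rfl

private theorem range2_le {R : Type*} [CommRing R] {s : ℕ} (x : Fin s → R) {M N : Type*}
    [AddCommGroup M] [Module R M] [AddCommGroup N] [Module R N] (f : M →ₗ[R] N) :
    (LinearMap.range (kosTwo x M)).submoduleOf (LinearMap.ker (kosOne x M))
      ≤ ((LinearMap.range (kosTwo x N)).submoduleOf (LinearMap.ker (kosOne x N))).comap
          (Z1map x f) := by
  rintro ⟨m, hm⟩ ⟨t, ht⟩
  refine ⟨fun i j => f (t i j), ?_⟩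
  rw [kosTwo_comp, ht]
  rfl

/-- the map on `H_1` -/
private def H1map {R : Type*} [CommRing R] {s : ℕ} (x : Fin s → R) {M N : Type*}
    [AddCommGroup M] [Module R M] [AddCommGroup N] [Module R N] (f : M →ₗ[R] N) :
    (LinearMap.ker (kosOne x M) ⧸
      (LinearMap.range (kosTwo x M)).submoduleOf (LinearMap.ker (kosOne x M))) →ₗ[R]
    (LinearMap.ker (kosOne x N) ⧸
      (LinearMap.range (kosTwo x N)).submoduleOf (LinearMap.ker (kosOne x N))) :=
  Submodule.mapQ _ _ (Z1map x f) (range2_le x f)

private theorem H1map_mk {R : Type*} [CommRing R] {s : ℕ} (x : Fin s → R) {M N : Type*}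
    [AddCommGroup M] [Module R M] [AddCommGroup N] [Module R N] (f : M →ₗ[R] N)
    (m : LinearMap.ker (kosOne x M)) :
    H1map x f (Submodule.Quotient.mk m) = Submodule.Quotient.mk (Z1map x f m) := rfl

private theorem H1map_exact {R : Type*} [CommRing R] {s : ℕ} (x : Fin s → R) {M' M M'' : Type*}
    [AddCommGroup M'] [Module R M'] [AddCommGroup M] [Module R M] [AddCommGroup M'']
    [Module R M''] (f : M' →ₗ[R] M) (g : M →ₗ[R] M'') (hf : Function.Injective f)
    (hg : Function.Surjective g) (hfg : Function.Exact f g) :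
    Function.Exact (H1map x f) (H1map x g) := by
  intro y
  obtain ⟨y, rfl⟩ := Submodule.Quotient.mk_surjective _ y
  constructor
  · intro hy
    rw [H1map_mk, Submodule.Quotient.mk_eq_zero] at hy
    obtain ⟨t'', ht''⟩ := hy
    have ht2 : kosTwo x M'' t'' = fun i => g ((y : Fin s → M) i) := ht''
    choose t ht using fun i j => hg (t'' i j)
    have hgt : kosTwo x M'' t'' = fun i => g (kosTwo x M t i) := by
      rw [← kosTwo_comp]
      congr 1
      funext i j
      exact (ht i j).symm
    have h1 : ∀ i, g ((y : Fin s → M) i - kosTwo x M t i) = 0 := by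
      intro i
      rw [map_sub, sub_eq_zero]
      rw [hgt] at ht2
      exact (congrFun ht2 i).symm
    choose z hz using fun i => (hfg _).1 (h1 i)
    have hz' : (fun i => f (z i)) = (y : Fin s → M) - kosTwo x M t := by
      funext i
      exact hz i
    have hzk : kosOne x M' z = 0 := by
      apply hf
      rw [← kosOne_comp, hz', map_sub, kosOne_kosTwo, map_zero, sub_zero]
      exact y.2
    refine ⟨Submodule.Quotient.mk ⟨z, hzk⟩, ?_⟩
    rw [H1map_mk, Submodule.Quotient.eq]
    refine ⟨-t, ?_⟩
    show kosTwo x M (-t) = (fun i => f (z i)) - (y : Fin s → M)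
    rw [hz', map_neg]
    abel
  · rintro ⟨z, hz⟩
    obtain ⟨z, rfl⟩ := Submodule.Quotient.mk_surjective _ z
    rw [← hz, H1map_mk, H1map_mk]
    have : Z1map x g (Z1map x f z) = 0 := by
      apply Subtype.ext
      funext i
      exact (hfg _).2 ⟨_, rfl⟩
    rw [this, Submodule.Quotient.mk_zero]

theorem h0_le_of_surjective {R : Type*} [CommRing R] {s : ℕ} (x : Fin s → R) {M M'' : Type*}
    [AddCommGroup M] [Module R M] [AddCommGroup M''] [Module R M''] (g : M →ₗ[R] M'')
    (hg : Function.Surjective g) : h0 x M'' ≤ h0 x M :=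
  Module.length_le_of_surjective (H0map x g) (H0map_surjective x g hg)

theorem h0_le_add {R : Type*} [CommRing R] {s : ℕ} (x : Fin s → R) {M' M M'' : Type*}
    [AddCommGroup M'] [Module R M'] [AddCommGroup M] [Module R M] [AddCommGroup M'']
    [Module R M''] (f : M' →ₗ[R] M) (g : M →ₗ[R] M'') (hg : Function.Surjective g)
    (hfg : Function.Exact f g) : h0 x M ≤ h0 x M' + h0 x M'' :=
  length_mid_le _ _ (H0map_exact x f g hg hfg)

theorem h1_le_add {R : Type*} [CommRing R] {s : ℕ} (x : Fin s → R) {M' M M'' : Type*}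
    [AddCommGroup M'] [Module R M'] [AddCommGroup M] [Module R M] [AddCommGroup M'']
    [Module R M''] (f : M' →ₗ[R] M) (g : M →ₗ[R] M'') (hf : Function.Injective f)
    (hg : Function.Surjective g) (hfg : Function.Exact f g) : h1 x M ≤ h1 x M' + h1 x M'' :=
  length_mid_le _ _ (H1map_exact x f g hf hg hfg)

/-- the kernel of `H_0(M') → H_0(M)` has length at most `h1 x M''` -/
private theorem length_ker_H0map_le {R : Type*} [CommRing R] {s : ℕ} (x : Fin s → R)
    {M' M M'' : Type*}
    [AddCommGroup M'] [Module R M'] [AddCommGroup M] [Module R M] [AddCommGroup M'']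
    [Module R M''] (f : M' →ₗ[R] M) (g : M →ₗ[R] M'') (hf : Function.Injective f)
    (hg : Function.Surjective g) (hfg : Function.Exact f g) :
    Module.length R (LinearMap.ker (H0map x f)) ≤ h1 x M'' := by
  let Q : Submodule R (Fin s → M) := (LinearMap.range f).comap (kosOne x M)
  let k : Q →ₗ[R] LinearMap.range f :=
    (kosOne x M).restrict (p := Q) (q := LinearMap.range f) fun m hm => hm
  let δ : Q →ₗ[R] M' := (LinearEquiv.ofInjective f hf).symm.toLinearMap ∘ₗ k
  have hδ : ∀ m : Q, f (δ m) = kosOne x M (m : Fin s → M) := by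
    intro m
    have : LinearEquiv.ofInjective f hf (δ m) = k m := by
      simp [δ]
    exact congrArg Subtype.val this
  let δ' : Q →ₗ[R] (M' ⧸ LinearMap.range (kosOne x M')) :=
    (LinearMap.range (kosOne x M')).mkQ ∘ₗ δ
  let π : Q →ₗ[R] LinearMap.ker (kosOne x M'') :=
    (g.compLeft (Fin s)).restrict (p := Q) (q := LinearMap.ker (kosOne x M'')) fun m hm => by
      obtain ⟨y, hy⟩ := hm
      rw [LinearMap.mem_ker]
      have h1 := kosOne_comp x g m
      rw [← hy, (hfg (f y)).2 ⟨y, rfl⟩] at h1
      exact h1
  have hπ : Function.Surjective π := by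
    rintro ⟨m'', hm''⟩
    choose m hm using fun i => hg (m'' i)
    have hm' : (fun i => g (m i)) = m'' := funext hm
    have h1 : g (kosOne x M m) = 0 := by
      rw [← kosOne_comp, hm']
      exact hm''
    obtain ⟨y, hy⟩ := (hfg _).1 h1
    exact ⟨⟨m, ⟨y, hy⟩⟩, Subtype.ext hm'⟩
  let π' := ((LinearMap.range (kosTwo x M'')).submoduleOf (LinearMap.ker (kosOne x M''))).mkQ ∘ₗ π
  have hπ' : Function.Surjective π' :=
    (Submodule.mkQ_surjective _).comp hπ
  have hker : LinearMap.ker π' ≤ LinearMap.ker δ' := by
    intro m hm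
    rw [LinearMap.mem_ker] at hm ⊢
    have h1 : Submodule.Quotient.mk (π m) = (0 : LinearMap.ker (kosOne x M'') ⧸
        (LinearMap.range (kosTwo x M'')).submoduleOf (LinearMap.ker (kosOne x M''))) := hm
    rw [Submodule.Quotient.mk_eq_zero] at h1
    obtain ⟨t'', ht''⟩ := h1
    have ht2 : kosTwo x M'' t'' = fun i => g ((m : Fin s → M) i) := ht''
    choose t ht using fun i j => hg (t'' i j)
    have hgt : kosTwo x M'' t'' = fun i => g (kosTwo x M t i) := by
      rw [← kosTwo_comp]
      congr 1
      funext i j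
      exact (ht i j).symm
    have h1 : ∀ i, g ((m : Fin s → M) i - kosTwo x M t i) = 0 := by
      intro i
      rw [map_sub, sub_eq_zero]
      rw [hgt] at ht2
      exact (congrFun ht2 i).symm
    choose z hz using fun i => (hfg _).1 (h1 i)
    have hz' : (fun i => f (z i)) = (m : Fin s → M) - kosTwo x M t := by
      funext i
      exact hz i
    have h2 : δ m = kosOne x M' z := by
      apply hf
      rw [hδ, ← kosOne_comp, hz', map_sub, kosOne_kosTwo, sub_zero]
    show Submodule.Quotient.mk (δ m) = (0 : M' ⧸ LinearMap.range (kosOne x M'))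
    rw [h2, Submodule.Quotient.mk_eq_zero]
    exact ⟨z, rfl⟩
  have hrange : LinearMap.ker (H0map x f) ≤ LinearMap.range δ' := by
    intro y hy
    obtain ⟨y, rfl⟩ := Submodule.Quotient.mk_surjective _ y
    rw [LinearMap.mem_ker, H0map_mk, Submodule.Quotient.mk_eq_zero] at hy
    obtain ⟨m, hm⟩ := hy
    refine ⟨⟨m, ⟨y, hm.symm⟩⟩, ?_⟩
    have : δ ⟨m, ⟨y, hm.symm⟩⟩ = y := by
      apply hf
      rw [hδ]
      exact hm
    show Submodule.Quotient.mk (δ ⟨m, ⟨y, hm.symm⟩⟩) = Submodule.Quotient.mk y
    rw [this]
  calc Module.length R (LinearMap.ker (H0map x f))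
      ≤ Module.length R (LinearMap.range δ') :=
        Module.length_le_of_injective (Submodule.inclusion hrange)
          (Submodule.inclusion_injective hrange)
    _ = Module.length R (Q ⧸ LinearMap.ker δ') :=
        (LinearEquiv.length_eq δ'.quotKerEquivRange).symm
    _ ≤ Module.length R (Q ⧸ LinearMap.ker π') :=
        Module.length_le_of_surjective (Submodule.factor hker) (Submodule.factor_surjective hker)
    _ = h1 x M'' := LinearEquiv.length_eq (π'.quotKerEquivOfSurjective hπ')

/-- The exact sequence `H_1(M'') → H_0(M') → H_0(M) → H_0(M'') → 0`. -/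
theorem h0_five {R : Type*} [CommRing R] {s : ℕ} (x : Fin s → R) {M' M M'' : Type*}
    [AddCommGroup M'] [Module R M'] [AddCommGroup M] [Module R M] [AddCommGroup M'']
    [Module R M''] (f : M' →ₗ[R] M) (g : M →ₗ[R] M'') (hf : Function.Injective f)
    (hg : Function.Surjective g) (hfg : Function.Exact f g) :
    h0 x M' + h0 x M'' ≤ h0 x M + h1 x M'' := by
  have h1 := length_ker_H0map_le x f g hf hg hfg
  have hA : h0 x M' = Module.length R (LinearMap.ker (H0map x f))
      + Module.length R (LinearMap.range (H0map x f)) := length_ker_add_range _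
  have hex := H0map_exact x f g hg hfg
  have hB : h0 x M = Module.length R (LinearMap.range (H0map x f)) + h0 x M'' := by
    refine Module.length_eq_add_of_exact (LinearMap.range (H0map x f)).subtype (H0map x g)
      (Submodule.injective_subtype _) (H0map_surjective x g hg) ?_
    intro y
    rw [hex y]
    constructor
    · rintro hy
      exact ⟨⟨y, hy⟩, rfl⟩
    · rintro ⟨z, rfl⟩
      exact z.2
  rw [hA, hB]
  calc Module.length R (LinearMap.ker (H0map x f))
        + Module.length R (LinearMap.range (H0map x f)) + h0 x M''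
      = (Module.length R (LinearMap.range (H0map x f)) + h0 x M'')
        + Module.length R (LinearMap.ker (H0map x f)) := by
        rw [add_assoc, add_comm]
    _ ≤ _ := by gcongr

theorem h0_le_h0_add_h1 {R : Type*} [CommRing R] {s : ℕ} (x : Fin s → R) {M' M M'' : Type*}
    [AddCommGroup M'] [Module R M'] [AddCommGroup M] [Module R M] [AddCommGroup M'']
    [Module R M''] (f : M' →ₗ[R] M) (g : M →ₗ[R] M'') (hf : Function.Injective f)
    (hg : Function.Surjective g) (hfg : Function.Exact f g) : h0 x M' ≤ h0 x M + h1 x M'' :=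
  le_self_add.trans (h0_five x f g hf hg hfg)

private theorem h1_le_of_equiv {R : Type*} [CommRing R] {s : ℕ} (x : Fin s → R) {M N : Type*}
    [AddCommGroup M] [Module R M] [AddCommGroup N] [Module R N] (e : M ≃ₗ[R] N) :
    h1 x N ≤ h1 x M := by
  refine Module.length_le_of_surjective (H1map x e.toLinearMap) ?_
  intro y
  obtain ⟨y, rfl⟩ := Submodule.Quotient.mk_surjective _ y
  refine ⟨Submodule.Quotient.mk (Z1map x e.symm.toLinearMap y), ?_⟩
  rw [H1map_mk]
  congr 1
  apply Subtype.ext
  funext i
  exact e.apply_symm_apply _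

/-- `h0`, `h1` are invariant under isomorphisms. -/
theorem h_congr {R : Type*} [CommRing R] {s : ℕ} (x : Fin s → R) {M N : Type*}
    [AddCommGroup M] [Module R M] [AddCommGroup N] [Module R N] (e : M ≃ₗ[R] N) :
    h0 x M = h0 x N ∧ h1 x M = h1 x N :=
  ⟨le_antisymm (h0_le_of_surjective x e.symm.toLinearMap e.symm.surjective)
      (h0_le_of_surjective x e.toLinearMap e.surjective),
    le_antisymm (h1_le_of_equiv x e.symm) (h1_le_of_equiv x e)⟩

end Pool.Agent.FSig.SF
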