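import Pool.Agent.Work.MP_27623f_ag.SF.K1

/-!
MODULE K2 (size M).  One more element.

PROOF.  Write elements of `Fin (s+1) → M` as `Fin.cons m_0 m'`;
`kosOne (cons x_0 x') (cons m_0 m') = x_0 m_0 + kosOne x' m'` (`Fin.sum_univ_succ`).
Trivial relations: `(cons (∑_j x'_j n_j) (- x_0 n))` for `n : Fin s → M`, and `cons 0 (kosTwo x' t)`; both are in
`range (kosTwo (cons x_0 x'))`, and conversely every element of this range is a sum of two such elements.
* `h0_cons`: `M / (x_0, x') M = (M / x_0 M) / (x') (M / x_0 M)`; `g` induces an isomorphism.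
* `h1_cons_le`: `H_1(x'; M) → H_1(cons x_0 x'; M) → H_0(x'; M)` is exact: the second map is
  `cons m_0 m' ↦ m_0`; if `m_0 = ∑_j x'_j n_j` then `(m_0, m') - (∑_j x'_j n_j, - x_0 n) = (0, m' + x_0 n)` and
  `m' + x_0 n ∈ ker (kosOne x')`.
* `h1_cons_le_of_regular`: the map `H_1(cons x_0 x'; M) → H_1(x'; N)`, `(m_0, m') ↦ g m'` is injective: if
  `g m' = kosTwo x' t''`, lift `t''` to `t`, then `m' = kosTwo x' t + x_0 n` (coordinatewise, `hk`), and
  `(m_0, m') - (0, kosTwo x' t) + (∑ x'_j n_j, - x_0 n) = (m_0 + ∑ x'_j n_j, 0)` is a relation,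
  so `x_0 (m_0 + ∑ x'_j n_j) = 0` and `m_0 + ∑ x'_j n_j = 0`.
-/

set_option autoImplicit false

namespace Pool.Agent.FSig.SF

private theorem len_mid {R A B C : Type*} [CommRing R] [AddCommGroup A] [Module R A]
    [AddCommGroup B] [Module R B] [AddCommGroup C] [Module R C] (p : A →ₗ[R] B) (q : B →ₗ[R] C)
    (h : ∀ b, q b = 0 → ∃ a, p a = b) : Module.length R B ≤ Module.length R A + Module.length R C := by
  have h1 : Module.length R B = Module.length R (LinearMap.ker q) +
      Module.length R (LinearMap.range q) := by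
    refine Module.length_eq_add_of_exact (LinearMap.ker q).subtype q.rangeRestrict
      (Submodule.subtype_injective _) q.surjective_rangeRestrict ?_
    intro b
    constructor
    · intro hb
      have hb' : q b = 0 := congrArg Subtype.val hb
      exact ⟨⟨b, hb'⟩, rfl⟩
    · rintro ⟨c, rfl⟩
      exact Subtype.ext c.2
  have h2 : Module.length R (LinearMap.ker q) ≤ Module.length R A := by
    let A' : Submodule R A := LinearMap.ker (q ∘ₗ p)
    let p' : A' →ₗ[R] LinearMap.ker q := LinearMap.codRestrict _ (p ∘ₗ A'.subtype) (fun a => a.2)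
    have h3 : Function.Surjective p' := by
      rintro ⟨b, hb⟩
      obtain ⟨a, ha⟩ := h b hb
      refine ⟨⟨a, ?_⟩, Subtype.ext ha⟩
      show q (p a) = 0
      rw [ha]
      exact hb
    exact (Module.length_le_of_surjective p' h3).trans
      (Module.length_le_of_injective A'.subtype (Submodule.subtype_injective _))
  have h4 : Module.length R (LinearMap.range q) ≤ Module.length R C :=
    Module.length_le_of_injective _ (Submodule.subtype_injective _)
  rw [h1]
  exact add_le_add h2 h4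

private theorem kosOne_cons {R : Type*} [CommRing R] {s : ℕ} (x₀ : R) (x : Fin s → R) {M : Type*}
    [AddCommGroup M] [Module R M] (m : Fin (s + 1) → M) :
    kosOne (Fin.cons x₀ x : Fin (s + 1) → R) M m = x₀ • m 0 + kosOne x M (fun i => m i.succ) := by
  rw [kosOne_apply, kosOne_apply, Fin.sum_univ_succ]
  simp

private theorem kosTwo_cons_zero {R : Type*} [CommRing R] {s : ℕ} (x₀ : R) (x : Fin s → R)
    {M : Type*} [AddCommGroup M] [Module R M] (t : Fin (s + 1) → Fin (s + 1) → M) :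
    kosTwo (Fin.cons x₀ x : Fin (s + 1) → R) M t 0 =
      kosOne x M (fun i => t 0 i.succ - t i.succ 0) := by
  rw [kosTwo_apply, kosOne_apply, Fin.sum_univ_succ]
  simp

private theorem kosTwo_cons_succ {R : Type*} [CommRing R] {s : ℕ} (x₀ : R) (x : Fin s → R)
    {M : Type*} [AddCommGroup M] [Module R M] (t : Fin (s + 1) → Fin (s + 1) → M) (i : Fin s) :
    kosTwo (Fin.cons x₀ x : Fin (s + 1) → R) M t i.succ =
      x₀ • (t i.succ 0 - t 0 i.succ) + kosTwo x M (fun a b => t a.succ b.succ) i := by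
  rw [kosTwo_apply, kosTwo_apply, Fin.sum_univ_succ]
  simp

private theorem kosOne_map {R : Type*} [CommRing R] {s : ℕ} (x : Fin s → R) {M N : Type*}
    [AddCommGroup M] [Module R M] [AddCommGroup N] [Module R N] (g : M →ₗ[R] N) (m : Fin s → M) :
    g (kosOne x M m) = kosOne x N (fun i => g (m i)) := by
  rw [kosOne_apply, kosOne_apply, map_sum]
  exact Finset.sum_congr rfl fun i _ => map_smul _ _ _

private theorem kosTwo_map {R : Type*} [CommRing R] {s : ℕ} (x : Fin s → R) {M N : Type*}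
    [AddCommGroup M] [Module R M] [AddCommGroup N] [Module R N] (g : M →ₗ[R] N)
    (t : Fin s → Fin s → M) (i : Fin s) :
    g (kosTwo x M t i) = kosTwo x N (fun a b => g (t a b)) i := by
  rw [kosTwo_apply, kosTwo_apply, map_sum]
  exact Finset.sum_congr rfl fun j _ => by rw [map_smul, map_sub]

/-- the relation with the entries `∑ x_j n_j` and `- x_0 n` -/
private theorem mem_rel {R : Type*} [CommRing R] {s : ℕ} (x₀ : R) (x : Fin s → R)
    {M : Type*} [AddCommGroup M] [Module R M] (n : Fin s → M) (t : Fin s → Fin s → M)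
    (m : Fin (s + 1) → M) (h0 : m 0 = kosOne x M n)
    (h1 : ∀ i : Fin s, m i.succ = kosTwo x M t i - x₀ • n i) :
    m ∈ LinearMap.range (kosTwo (Fin.cons x₀ x : Fin (s + 1) → R) M) := by
  refine ⟨Fin.cons (Fin.cons 0 n) (fun i => Fin.cons 0 (t i)), ?_⟩
  funext i
  refine Fin.cases ?_ (fun i => ?_) i
  · rw [kosTwo_cons_zero, h0]
    congr 1
    funext i
    simp
  · rw [kosTwo_cons_succ, h1]
    simp only [Fin.cons_succ, Fin.cons_zero, zero_sub, smul_neg]
    abel

theorem h0_cons {R : Type*} [CommRing R] {s : ℕ} (x₀ : R) (x : Fin s → R) {M N : Type*}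
    [AddCommGroup M] [Module R M] [AddCommGroup N] [Module R N] (g : M →ₗ[R] N)
    (hg : Function.Surjective g) (hk : ∀ m, g m = 0 ↔ ∃ m', x₀ • m' = m) :
    h0 (Fin.cons x₀ x : Fin (s + 1) → R) M = h0 x N := by
  let φ : M →ₗ[R] N ⧸ LinearMap.range (kosOne x N) := (LinearMap.range (kosOne x N)).mkQ ∘ₗ g
  have hφ : Function.Surjective φ := (Submodule.mkQ_surjective _).comp hg
  have hker : LinearMap.range (kosOne (Fin.cons x₀ x : Fin (s + 1) → R) M) = LinearMap.ker φ := by
    ext m
    rw [LinearMap.mem_ker]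
    have h1 : φ m = 0 ↔ g m ∈ LinearMap.range (kosOne x N) := by
      show (LinearMap.range (kosOne x N)).mkQ (g m) = 0 ↔ _
      rw [Submodule.mkQ_apply, Submodule.Quotient.mk_eq_zero]
    rw [h1]
    constructor
    · rintro ⟨a, rfl⟩
      rw [kosOne_cons, map_add, (hk _).2 ⟨a 0, rfl⟩, zero_add, kosOne_map]
      exact ⟨_, rfl⟩
    · rintro ⟨n, hn⟩
      choose n' hn' using fun i => hg (n i)
      have h2 : g (m - kosOne x M n') = 0 := by
        rw [map_sub, kosOne_map, ← hn]
        simp only [hn']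
        exact sub_self _
      obtain ⟨m0, hm0⟩ := (hk _).1 h2
      refine ⟨Fin.cons m0 n', ?_⟩
      rw [kosOne_cons]
      simp only [Fin.cons_zero, Fin.cons_succ]
      rw [hm0]
      exact sub_add_cancel _ _
  unfold h0
  exact ((Submodule.quotEquivOfEq _ _ hker).trans
    (φ.quotKerEquivOfSurjective hφ)).length_eq

theorem h1_cons_le {R : Type*} [CommRing R] {s : ℕ} (x₀ : R) (x : Fin s → R) (M : Type*)
    [AddCommGroup M] [Module R M] :
    h1 (Fin.cons x₀ x : Fin (s + 1) → R) M ≤ h1 x M + h0 x M := by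
  -- the map from `H_1(x)`
  let ε : (Fin s → M) →ₗ[R] (Fin (s + 1) → M) :=
    { toFun := fun m => Fin.cons 0 m
      map_add' := fun m m' => by
        funext i
        refine Fin.cases ?_ (fun i => ?_) i <;> simp
      map_smul' := fun c m => by
        funext i
        refine Fin.cases ?_ (fun i => ?_) i <;> simp }
  have hε0 : ∀ m, ε m 0 = 0 := fun m => rfl
  have hεs : ∀ m (i : Fin s), ε m i.succ = m i := fun m i => rfl
  let p : (LinearMap.ker (kosOne x M) ⧸
      (LinearMap.range (kosTwo x M)).submoduleOf (LinearMap.ker (kosOne x M))) →ₗ[R]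
      (LinearMap.ker (kosOne (Fin.cons x₀ x : Fin (s + 1) → R) M) ⧸
      (LinearMap.range (kosTwo (Fin.cons x₀ x : Fin (s + 1) → R) M)).submoduleOf
        (LinearMap.ker (kosOne (Fin.cons x₀ x : Fin (s + 1) → R) M))) :=
    Submodule.mapQ _ _ (ε.restrict (fun m hm => by
      rw [LinearMap.mem_ker] at hm ⊢
      rw [kosOne_cons, hε0, smul_zero, zero_add]
      exact hm)) (fun m hm => by
      rw [Submodule.mem_comap]
      show ε m.1 ∈ LinearMap.range (kosTwo (Fin.cons x₀ x : Fin (s + 1) → R) M)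
      obtain ⟨t, ht⟩ : m.1 ∈ LinearMap.range (kosTwo x M) := hm
      refine mem_rel x₀ x 0 t (ε m.1) ?_ (fun i => ?_)
      · rw [hε0, map_zero]
      · rw [hεs, ht]
        simp)
  let q : (LinearMap.ker (kosOne (Fin.cons x₀ x : Fin (s + 1) → R) M) ⧸
      (LinearMap.range (kosTwo (Fin.cons x₀ x : Fin (s + 1) → R) M)).submoduleOf
        (LinearMap.ker (kosOne (Fin.cons x₀ x : Fin (s + 1) → R) M))) →ₗ[R]
      (M ⧸ LinearMap.range (kosOne x M)) :=
    Submodule.mapQ _ _ ((LinearMap.proj 0 : (Fin (s + 1) → M) →ₗ[R] M) ∘ₗ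
      (LinearMap.ker (kosOne (Fin.cons x₀ x : Fin (s + 1) → R) M)).subtype) (fun m hm => by
      rw [Submodule.mem_comap]
      show m.1 0 ∈ LinearMap.range (kosOne x M)
      obtain ⟨t, ht⟩ : m.1 ∈ LinearMap.range (kosTwo (Fin.cons x₀ x : Fin (s + 1) → R) M) := hm
      rw [← ht, kosTwo_cons_zero]
      exact ⟨_, rfl⟩)
  refine len_mid p q ?_
  intro b hb
  obtain ⟨⟨m, hm⟩, rfl⟩ := Submodule.mkQ_surjective _ b
  have h1 : m 0 ∈ LinearMap.range (kosOne x M) := by
    have h2 : (LinearMap.range (kosOne x M)).mkQ (m 0) = 0 := hb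
    rwa [Submodule.mkQ_apply, Submodule.Quotient.mk_eq_zero] at h2
  obtain ⟨n, hn⟩ := h1
  have hm' := LinearMap.mem_ker.1 hm
  rw [kosOne_cons] at hm'
  have h3 : kosOne x M (fun i => m i.succ + x₀ • n i) = 0 := by
    have h4 : (fun i => m i.succ + x₀ • n i) = (fun i => m i.succ) + x₀ • n := rfl
    rw [h4, map_add, map_smul, hn, add_comm]
    exact hm'
  refine ⟨Submodule.mkQ _ ⟨_, LinearMap.mem_ker.2 h3⟩, ?_⟩
  rw [← sub_eq_zero]
  have h5 : p (Submodule.mkQ _ ⟨_, LinearMap.mem_ker.2 h3⟩) =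
      Submodule.mkQ _ ⟨ε (fun i => m i.succ + x₀ • n i), by
        rw [LinearMap.mem_ker, kosOne_cons, hε0, smul_zero, zero_add]
        exact h3⟩ := rfl
  rw [h5, ← map_sub, Submodule.mkQ_apply, Submodule.Quotient.mk_eq_zero]
  show ε (fun i => m i.succ + x₀ • n i) - m ∈
    LinearMap.range (kosTwo (Fin.cons x₀ x : Fin (s + 1) → R) M)
  rw [← Submodule.neg_mem_iff]
  refine mem_rel x₀ x n 0 _ ?_ (fun i => ?_)
  · rw [Pi.neg_apply, Pi.sub_apply, hε0, hn]
    abel
  · rw [Pi.neg_apply, Pi.sub_apply, hεs, map_zero]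
    simp

theorem h1_cons_le_of_regular {R : Type*} [CommRing R] {s : ℕ} (x₀ : R) (x : Fin s → R)
    {M N : Type*} [AddCommGroup M] [Module R M] [AddCommGroup N] [Module R N] (g : M →ₗ[R] N)
    (hg : Function.Surjective g) (hk : ∀ m, g m = 0 ↔ ∃ m', x₀ • m' = m)
    (hreg : ∀ m : M, x₀ • m = 0 → m = 0) :
    h1 (Fin.cons x₀ x : Fin (s + 1) → R) M ≤ h1 x N := by
  let γ : (Fin (s + 1) → M) →ₗ[R] (Fin s → N) :=
    { toFun := fun m i => g (m i.succ)
      map_add' := fun m m' => by
        funext i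
        simp
      map_smul' := fun c m => by
        funext i
        simp }
  have hγ : ∀ m (i : Fin s), γ m i = g (m i.succ) := fun m i => rfl
  let ψ : (LinearMap.ker (kosOne (Fin.cons x₀ x : Fin (s + 1) → R) M) ⧸
      (LinearMap.range (kosTwo (Fin.cons x₀ x : Fin (s + 1) → R) M)).submoduleOf
        (LinearMap.ker (kosOne (Fin.cons x₀ x : Fin (s + 1) → R) M))) →ₗ[R]
      (LinearMap.ker (kosOne x N) ⧸
      (LinearMap.range (kosTwo x N)).submoduleOf (LinearMap.ker (kosOne x N))) :=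
    Submodule.mapQ _ _ (γ.restrict (fun m hm => by
      rw [LinearMap.mem_ker] at hm ⊢
      rw [kosOne_cons] at hm
      have h1 := congrArg g hm
      rw [map_add, (hk _).2 ⟨m 0, rfl⟩, zero_add, kosOne_map, map_zero] at h1
      exact h1)) (fun m hm => by
      rw [Submodule.mem_comap]
      show γ m.1 ∈ LinearMap.range (kosTwo x N)
      obtain ⟨t, ht⟩ : m.1 ∈ LinearMap.range (kosTwo (Fin.cons x₀ x : Fin (s + 1) → R) M) := hm
      refine ⟨fun a b => g (t a.succ b.succ), ?_⟩
      funext i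
      rw [hγ, ← ht, kosTwo_cons_succ, map_add, (hk _).2 ⟨_, rfl⟩, zero_add, kosTwo_map])
  refine Module.length_le_of_injective ψ ?_
  rw [← LinearMap.ker_eq_bot, LinearMap.ker_eq_bot']
  intro b hb
  obtain ⟨⟨m, hm⟩, rfl⟩ := Submodule.mkQ_surjective _ b
  have hm' := LinearMap.mem_ker.1 hm
  rw [kosOne_cons] at hm'
  have h1 : γ m ∈ LinearMap.range (kosTwo x N) := by
    have h2 : Submodule.mkQ ((LinearMap.range (kosTwo x N)).submoduleOf
      (LinearMap.ker (kosOne x N))) (γ.restrict (fun m hm => by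
      rw [LinearMap.mem_ker] at hm ⊢
      rw [kosOne_cons] at hm
      have h1 := congrArg g hm
      rw [map_add, (hk _).2 ⟨m 0, rfl⟩, zero_add, kosOne_map, map_zero] at h1
      exact h1) ⟨m, hm⟩) = 0 := hb
    rw [Submodule.mkQ_apply, Submodule.Quotient.mk_eq_zero] at h2
    exact h2
  obtain ⟨t'', ht''⟩ := h1
  choose t ht using fun i j => hg (t'' i j)
  have h3 : ∀ i : Fin s, g (m i.succ - kosTwo x M t i) = 0 := by
    intro i
    rw [map_sub, kosTwo_map]
    simp only [ht]
    rw [← hγ, ← ht'', sub_self]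
  choose n hn using fun i => (hk _).1 (h3 i)
  -- `m 0 = - ∑ x_j n_j`
  have h4 : kosOne x M (fun i => m i.succ) = kosOne x M (kosTwo x M t) + x₀ • kosOne x M n := by
    rw [← map_smul, ← map_add]
    congr 1
    funext i
    rw [Pi.add_apply, Pi.smul_apply, hn]
    abel
  have h5 : kosOne x M (kosTwo x M t) = 0 := by
    rw [kosOne_apply]
    simp only [kosTwo_apply, Finset.smul_sum]
    have e1 : ∑ i, ∑ j, x i • x j • (t i j - t j i) =
        ∑ i, ∑ j, x i • x j • t i j - ∑ i, ∑ j, x i • x j • t j i := by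
      rw [← Finset.sum_sub_distrib]
      refine Finset.sum_congr rfl fun i _ => ?_
      rw [← Finset.sum_sub_distrib]
      refine Finset.sum_congr rfl fun j _ => ?_
      rw [smul_sub, smul_sub]
    have e2 : ∑ i, ∑ j, x i • x j • t j i = ∑ i, ∑ j, x i • x j • t i j := by
      rw [Finset.sum_comm]
      refine Finset.sum_congr rfl fun i _ => Finset.sum_congr rfl fun j _ => ?_
      rw [smul_comm]
    rw [e1, e2, sub_self]
  rw [h4, h5, zero_add, ← smul_add] at hm'
  have h6 : m 0 = kosOne x M (-n) := by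
    have := hreg _ hm'
    rw [map_neg]
    exact eq_neg_of_add_eq_zero_left this
  show Submodule.mkQ _ (⟨m, hm⟩ : LinearMap.ker _) = 0
  rw [Submodule.mkQ_apply, Submodule.Quotient.mk_eq_zero]
  show m ∈ LinearMap.range (kosTwo (Fin.cons x₀ x : Fin (s + 1) → R) M)
  refine mem_rel x₀ x (-n) t m h6 (fun i => ?_)
  rw [Pi.neg_apply, smul_neg, hn]
  abel

end Pool.Agent.FSig.SF
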