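import Pool.Agent.Work.MP_27623f_ag.SF.K1

/-!
MODULE K3 (size S-M).  `M / x_0^n M` is filtered by `n` copies of `M / x_0 M`.

PROOF.  Induction on `n`; for `n = 0` the module `M / 1 • ⊤` is zero (so `h0 = h1 = 0`; `Subsingleton`).
Step: exact sequence `0 → M / x_0^n M → M / x_0^(n+1) M → M / x_0 M → 0`, the first map is induced by
multiplication by `x_0` (injective, because `x_0 m = x_0^(n+1) m'` implies `m = x_0^n m'`), the second one is the projection
(`Submodule.factor`/`Submodule.mapQ`).  Use `h0_le_add`, `h1_le_add`.  Last statement (`h0` from below):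
`h0_le_h0_add_h1` for `0 → M/x_0^n M → M/x_0^(n+1) M → M/x_0 M → 0` gives only an upper bound of the first term; what is
needed is `h0 (M/x_0^(n+1) M) + h1 (M/x_0 M) ≥ h0 (M/x_0^n M) + h0 (M/x_0 M)`: the sequence
`H_1(M/x_0M) → H_0(M/x_0^nM) → H_0(M/x_0^(n+1)M) → H_0(M/x_0M) → 0` is exact (see K1: `h0_five` there).
-/

set_option autoImplicit false

namespace Pool.Agent.FSig.SF

universe u

open scoped Pointwise

/-- multiplication by `x₀`, on the quotients -/
private def fmap {R : Type u} [CommRing R] (x₀ : R) (M : Type u)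
    [AddCommGroup M] [Module R M] (n : ℕ) :
    QuotSMulTop (x₀ ^ n) M →ₗ[R] QuotSMulTop (x₀ ^ (n + 1)) M :=
  Submodule.mapQ _ _ (LinearMap.lsmul R M x₀) (by
    intro m hm
    rw [Submodule.mem_smul_pointwise_iff_exists] at hm
    obtain ⟨y, -, rfl⟩ := hm
    rw [Submodule.mem_comap, Submodule.mem_smul_pointwise_iff_exists]
    refine ⟨y, Submodule.mem_top, ?_⟩
    rw [LinearMap.lsmul_apply, smul_smul, pow_succ'])

private theorem le_top {R : Type u} [CommRing R] (x₀ : R) (M : Type u)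
    [AddCommGroup M] [Module R M] (n : ℕ) :
    (x₀ ^ (n + 1)) • (⊤ : Submodule R M) ≤ x₀ • (⊤ : Submodule R M) := by
  intro m hm
  rw [Submodule.mem_smul_pointwise_iff_exists] at hm ⊢
  obtain ⟨y, -, rfl⟩ := hm
  exact ⟨x₀ ^ n • y, Submodule.mem_top, by rw [smul_smul, pow_succ']⟩

private def gmap {R : Type u} [CommRing R] (x₀ : R) (M : Type u)
    [AddCommGroup M] [Module R M] (n : ℕ) :
    QuotSMulTop (x₀ ^ (n + 1)) M →ₗ[R] QuotSMulTop x₀ M :=
  Submodule.factor (le_top x₀ M n)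

private theorem gmap_surj {R : Type u} [CommRing R] (x₀ : R) (M : Type u)
    [AddCommGroup M] [Module R M] (n : ℕ) : Function.Surjective (gmap x₀ M n) :=
  Submodule.factor_surjective (le_top x₀ M n)

private theorem fmap_inj {R : Type u} [CommRing R] (x₀ : R) (M : Type u)
    [AddCommGroup M] [Module R M] (hreg : ∀ m : M, x₀ • m = 0 → m = 0) (n : ℕ) :
    Function.Injective (fmap x₀ M n) := by
  rw [injective_iff_map_eq_zero]
  intro y hy
  obtain ⟨m, rfl⟩ := Submodule.Quotient.mk_surjective _ y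
  have h1 : Submodule.Quotient.mk (p := (x₀ ^ (n + 1)) • (⊤ : Submodule R M)) (x₀ • m) = 0 := hy
  rw [Submodule.Quotient.mk_eq_zero, Submodule.mem_smul_pointwise_iff_exists] at h1
  obtain ⟨z, -, hz⟩ := h1
  rw [Submodule.Quotient.mk_eq_zero, Submodule.mem_smul_pointwise_iff_exists]
  refine ⟨z, Submodule.mem_top, ?_⟩
  have h2 : x₀ • (x₀ ^ n • z - m) = 0 := by
    rw [smul_sub, smul_smul, ← pow_succ', hz, sub_self]
  exact sub_eq_zero.1 (hreg _ h2)

private theorem fg_exact {R : Type u} [CommRing R] (x₀ : R) (M : Type u)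
    [AddCommGroup M] [Module R M] (n : ℕ) : Function.Exact (fmap x₀ M n) (gmap x₀ M n) := by
  intro y
  obtain ⟨m, rfl⟩ := Submodule.Quotient.mk_surjective _ y
  constructor
  · intro hy
    have h1 : Submodule.Quotient.mk (p := x₀ • (⊤ : Submodule R M)) m = 0 := hy
    rw [Submodule.Quotient.mk_eq_zero, Submodule.mem_smul_pointwise_iff_exists] at h1
    obtain ⟨z, -, hz⟩ := h1
    refine ⟨Submodule.Quotient.mk z, ?_⟩
    show Submodule.Quotient.mk (x₀ • z) = Submodule.Quotient.mk m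
    rw [hz]
  · rintro ⟨z, hz⟩
    obtain ⟨z, rfl⟩ := Submodule.Quotient.mk_surjective _ z
    rw [← hz]
    show Submodule.Quotient.mk (p := x₀ • (⊤ : Submodule R M)) (x₀ • z) = 0
    rw [Submodule.Quotient.mk_eq_zero, Submodule.mem_smul_pointwise_iff_exists]
    exact ⟨z, Submodule.mem_top, rfl⟩

private theorem sub0 {R : Type u} [CommRing R] (x₀ : R) (M : Type u)
    [AddCommGroup M] [Module R M] : Subsingleton (QuotSMulTop (x₀ ^ 0) M) := by
  refine Submodule.Quotient.subsingleton_iff.2 ?_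
  rw [pow_zero, one_smul]

theorem h_quot_pow_le {R : Type u} [CommRing R] {s : ℕ} (x : Fin s → R) (x₀ : R) (M : Type u)
    [AddCommGroup M] [Module R M] (hreg : ∀ m : M, x₀ • m = 0 → m = 0) (n : ℕ) :
    h0 x (QuotSMulTop (x₀ ^ n) M) ≤ n * h0 x (QuotSMulTop x₀ M) ∧
      h1 x (QuotSMulTop (x₀ ^ n) M) ≤ n * h1 x (QuotSMulTop x₀ M) := by
  induction n with
  | zero =>
    have := sub0 x₀ M
    constructor
    · unfold h0
      rw [Module.length_eq_zero]
      exact bot_le
    · unfold h1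
      rw [Module.length_eq_zero]
      exact bot_le
  | succ n ih =>
    push_cast
    rw [add_mul, one_mul, add_mul, one_mul]
    exact ⟨(h0_le_add x (fmap x₀ M n) (gmap x₀ M n) (gmap_surj x₀ M n) (fg_exact x₀ M n)).trans
      (add_le_add ih.1 le_rfl),
      (h1_le_add x (fmap x₀ M n) (gmap x₀ M n) (fmap_inj x₀ M hreg n) (gmap_surj x₀ M n)
        (fg_exact x₀ M n)).trans (add_le_add ih.2 le_rfl)⟩

theorem le_h0_quot_pow {R : Type u} [CommRing R] {s : ℕ} (x : Fin s → R) (x₀ : R) (M : Type u)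
    [AddCommGroup M] [Module R M] (hreg : ∀ m : M, x₀ • m = 0 → m = 0) (n : ℕ) :
    n * h0 x (QuotSMulTop x₀ M) ≤
      h0 x (QuotSMulTop (x₀ ^ n) M) + n * h1 x (QuotSMulTop x₀ M) := by
  induction n with
  | zero => simp
  | succ n ih =>
    push_cast
    rw [add_mul, one_mul, add_mul, one_mul]
    calc (n : ℕ∞) * h0 x (QuotSMulTop x₀ M) + h0 x (QuotSMulTop x₀ M)
        ≤ h0 x (QuotSMulTop (x₀ ^ n) M) + n * h1 x (QuotSMulTop x₀ M)
          + h0 x (QuotSMulTop x₀ M) := add_le_add ih le_rfl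
      _ = (h0 x (QuotSMulTop (x₀ ^ n) M) + h0 x (QuotSMulTop x₀ M))
          + n * h1 x (QuotSMulTop x₀ M) := by
          rw [add_assoc, add_comm (_ * _) (h0 _ _), ← add_assoc]
      _ ≤ (h0 x (QuotSMulTop (x₀ ^ (n + 1)) M) + h1 x (QuotSMulTop x₀ M))
          + n * h1 x (QuotSMulTop x₀ M) :=
          add_le_add (h0_five x (fmap x₀ M n) (gmap x₀ M n) (fmap_inj x₀ M hreg n)
            (gmap_surj x₀ M n) (fg_exact x₀ M n)) le_rfl
      _ = _ := by
          rw [add_assoc, add_comm (h1 _ _)]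

end Pool.Agent.FSig.SF
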