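import Pool.Agent.Work.MP_27623f_ag.SF.K2
import Pool.Agent.Work.MP_27623f_ag.SF.K3
import Pool.Agent.Work.MP_27623f_ag.ColonLen

/-!
MODULE K4 (size M-L).  Growth of the lengths of `H_0` and `H_1` of the powers of a sequence.

PROOF.  Induction on `s` (all modules `M`).
`s = 0`: `m^c M = 0`, so `M` has finite length; `h0 = length M`, `h1 = 0` (`Fin 0 → M` is trivial).
Step `s + 1`: `x = Fin.cons x_0 x'` (`Fin.cons_self_tail`; `fun i => x i ^ n` is `Fin.cons (x_0^n) (fun i => x' i ^ n)`).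
`M` is Noetherian, so there is `k ≥ 1` with `(0 :_M x_0^k) = (0 :_M x_0^(k+1))`; `M_0 = (0 :_M x_0^k)` (a submodule),
`M_1 = M / M_0`; `x_0` is injective on `M_1`.
`M_0`: `Ann M ≤ Ann M_0`, `x_0^k ∈ Ann M_0`, so `m^(c k') ≤ (x') ⊔ Ann M_0` for some `k'` (`(I ⊔ (x_0))^k' ≤ I ⊔ (x_0^k)`; or by
radicals: `Ideal.exists_pow_le_of_le_radical_of_fg`).  By induction (`s`, `x'`, `M_0`): `C_0`.
`h0 (x^n) M_0 ≤ h0 (x'^n) M_0 ≤ C_0 n^s` (the first one: `M_0/(x'^n)M_0 → M_0/(x^n)M_0` is onto; or `h0_cons` +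
`h0_le_of_surjective`), `h1 (x^n) M_0 ≤ h1 (x'^n) M_0 + h0 (x'^n) M_0` (`h1_cons_le`), hence
`n h1 (x^n) M_0 ≤ C_0 n^s + n C_0 n^s ≤ 2 C_0 n^(s+1)`.
`M_1`: put `N = QuotSMulTop x_0 M_1`; `(x') ⊔ Ann N ≥ (x) ⊔ Ann M`; by induction `C_1` for `N`.  For `n ≥ 1` apply `h0_cons` and
`h1_cons_le_of_regular` to `M_1 → QuotSMulTop (x_0^n) M_1`, and `h_quot_pow_le`:
`h0 (x^n) M_1 ≤ n h0 (x'^n) N ≤ C_1 n^(s+1)` and `n h1 (x^n) M_1 ≤ n (n h1 (x'^n) N) ≤ n C_1 n^s`.
`M`: `h0_le_add`, `h1_le_add` for `0 → M_0 → M → M_1 → 0`.  `C = 3 (C_0 + C_1)`.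
-/

set_option autoImplicit false

namespace Pool.Agent.FSig.SF

open IsLocalRing

universe u

private theorem k4_len {R : Type u} [CommRing R] [IsNoetherianRing R] [IsLocalRing R]
    (M : Type u) [AddCommGroup M] [Module R M] [Module.Finite R M] {c : ℕ}
    (h : maximalIdeal R ^ c ≤ Module.annihilator R M) : Module.length R M ≠ ⊤ := by
  obtain ⟨A, hA⟩ : ∃ A : Ideal R, A = Module.annihilator R M := ⟨_, rfl⟩
  have h1 : Module.length R (R ⧸ A) ≠ ⊤ := length_ne_top A ⟨c, hA ▸ h⟩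
  obtain ⟨n, f, hf⟩ := Module.Finite.exists_fin' R M
  have hk : ∀ m : M, A ≤ LinearMap.ker (LinearMap.toSpanSingleton R M m) := by
    intro m a ha
    rw [hA, Module.mem_annihilator] at ha
    rw [LinearMap.mem_ker, LinearMap.toSpanSingleton_apply]
    exact ha m
  obtain ⟨g, hg⟩ : ∃ g : (Fin n → R ⧸ A) →ₗ[R] M, g = ∑ i,
      (Submodule.liftQ A (LinearMap.toSpanSingleton R M (f (fun j => if i = j then 1 else 0)))
        (hk _)) ∘ₗ (LinearMap.proj i) := ⟨_, rfl⟩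
  have hgs : Function.Surjective g := by
    intro m
    obtain ⟨v, rfl⟩ := hf m
    refine ⟨fun i => Submodule.Quotient.mk (v i), ?_⟩
    rw [hg, LinearMap.sum_apply, LinearMap.pi_apply_eq_sum_univ f v]
    refine Finset.sum_congr rfl fun i _ => ?_
    rw [LinearMap.comp_apply, LinearMap.proj_apply, Submodule.liftQ_apply,
      LinearMap.toSpanSingleton_apply]
  have h2 := Module.length_le_of_surjective g hgs
  have h3 : Module.length R (Fin n → R ⧸ A) ≠ ⊤ := by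
    rw [Module.length_pi_of_fintype]
    exact (ENat.sum_ne_top).2 fun _ _ => h1
  exact ne_top_of_le_ne_top h3 h2

private theorem k4_zero {R : Type u} [CommRing R] [IsNoetherianRing R] [IsLocalRing R]
    (x : Fin 0 → R) (M : Type u) [AddCommGroup M] [Module R M] [Module.Finite R M]
    (hM : ∃ c : ℕ, maximalIdeal R ^ c ≤ Ideal.span (Set.range x) ⊔ Module.annihilator R M) :
    ∃ C : ℕ, ∀ n : ℕ, 1 ≤ n → h0 (fun i => x i ^ n) M ≤ ((C * n ^ 0 : ℕ) : ℕ∞) ∧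
      n * h1 (fun i => x i ^ n) M ≤ ((C * n ^ 0 : ℕ) : ℕ∞) := by
  obtain ⟨c, hc⟩ := hM
  have hx : Ideal.span (Set.range x) = ⊥ := by
    rw [Set.range_eq_empty, Ideal.span_empty]
  rw [hx, bot_sup_eq] at hc
  have hl := k4_len M hc
  obtain ⟨C, hC⟩ := ENat.ne_top_iff_exists.1 hl
  refine ⟨C, fun n _ => ⟨?_, ?_⟩⟩
  · rw [pow_zero, mul_one, hC]
    exact Module.length_le_of_surjective (Submodule.mkQ _) (Submodule.mkQ_surjective _)
  · have h2 : h1 (fun i => x i ^ n) M = 0 := by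
      rw [h1, Module.length_eq_zero_iff]
      have h3 : Subsingleton (LinearMap.ker (kosOne (fun i => x i ^ n) M)) := by
        have h4 : Subsingleton (Fin 0 → M) := inferInstance
        exact Subsingleton.intro fun a b => Subtype.ext (Subsingleton.elim _ _)
      infer_instance
    rw [h2, mul_zero]
    exact zero_le

private theorem k4_cons {R : Type u} [CommRing R] {s : ℕ} (x : Fin (s + 1) → R) (n : ℕ) :
    (fun i => x i ^ n) =
      (Fin.cons (x 0 ^ n) (fun i : Fin s => x i.succ ^ n) : Fin (s + 1) → R) := by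
  funext i
  refine Fin.cases ?_ (fun j => ?_) i
  · rw [Fin.cons_zero]
  · rw [Fin.cons_succ]

private theorem k4_span {R : Type u} [CommRing R] {s : ℕ} (x : Fin (s + 1) → R) :
    Ideal.span (Set.range x) ≤
      Ideal.span (Set.range fun i : Fin s => x i.succ) ⊔ Ideal.span {x 0} := by
  rw [Ideal.span_le]
  rintro _ ⟨i, rfl⟩
  refine Fin.cases ?_ (fun j => ?_) i
  · exact Ideal.mem_sup_right (Ideal.mem_span_singleton_self _)
  · exact Ideal.mem_sup_left (Ideal.subset_span ⟨j, rfl⟩)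

open scoped Pointwise in
private theorem k4_quot {R : Type u} [CommRing R] (y : R) (M : Type u) [AddCommGroup M]
    [Module R M] (m : M) :
    (Submodule.mkQ (y • (⊤ : Submodule R M))) m = 0 ↔ ∃ m', y • m' = m := by
  rw [Submodule.mkQ_apply, Submodule.Quotient.mk_eq_zero, Submodule.mem_smul_pointwise_iff_exists]
  constructor
  · rintro ⟨m', -, h⟩
    exact ⟨m', h⟩
  · rintro ⟨m', h⟩
    exact ⟨m', Submodule.mem_top, h⟩

open scoped Pointwise in
private theorem k4_tor {R : Type u} [CommRing R] [IsNoetherianRing R] [IsLocalRing R] {s : ℕ}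
    (ih : ∀ (x : Fin s → R) (M : Type u) [AddCommGroup M] [Module R M] [Module.Finite R M],
      (∃ c : ℕ, maximalIdeal R ^ c ≤ Ideal.span (Set.range x) ⊔ Module.annihilator R M) →
      ∃ C : ℕ, ∀ n : ℕ, 1 ≤ n → h0 (fun i => x i ^ n) M ≤ ((C * n ^ s : ℕ) : ℕ∞) ∧
        n * h1 (fun i => x i ^ n) M ≤ ((C * n ^ s : ℕ) : ℕ∞))
    (x : Fin (s + 1) → R) (M : Type u) [AddCommGroup M] [Module R M] [Module.Finite R M]
    (hM : ∃ c : ℕ, maximalIdeal R ^ c ≤ Ideal.span (Set.range x) ⊔ Module.annihilator R M)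
    (k : ℕ) (hk : ∀ m : M, x 0 ^ k • m = 0) :
    ∃ C : ℕ, ∀ n : ℕ, 1 ≤ n → h0 (fun i => x i ^ n) M ≤ ((C * n ^ (s + 1) : ℕ) : ℕ∞) ∧
      n * h1 (fun i => x i ^ n) M ≤ ((C * n ^ (s + 1) : ℕ) : ℕ∞) := by
  obtain ⟨c, hc⟩ := hM
  have hJ : maximalIdeal R ^ (c * (1 + k)) ≤
      Ideal.span (Set.range fun i : Fin s => x i.succ) ⊔ Module.annihilator R M := by
    obtain ⟨J, hJ⟩ : ∃ J, J = Ideal.span (Set.range fun i : Fin s => x i.succ) ⊔
        Module.annihilator R M := ⟨_, rfl⟩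
    rw [← hJ]
    have e1 : maximalIdeal R ^ c ≤ J ⊔ Ideal.span {x 0} := by
      refine hc.trans (sup_le ((k4_span x).trans (sup_le ?_ le_sup_right)) ?_)
      · rw [hJ]
        exact le_sup_left.trans le_sup_left
      · rw [hJ]
        exact le_sup_right.trans le_sup_left
    rw [pow_mul]
    refine (Ideal.pow_right_mono e1 _).trans (Ideal.sup_pow_add_le_pow_sup_pow.trans
      (sup_le (le_of_eq (pow_one J)) ?_))
    rw [Ideal.span_singleton_pow, Ideal.span_singleton_le_iff_mem, hJ]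
    refine Ideal.mem_sup_right ?_
    rw [Module.mem_annihilator]
    exact hk
  obtain ⟨C, hC⟩ := ih (fun i => x i.succ) M ⟨_, hJ⟩
  refine ⟨2 * C, fun n hn => ?_⟩
  obtain ⟨a0, a1⟩ := hC n hn
  rw [k4_cons x n]
  have b0 : h0 (Fin.cons (x 0 ^ n) (fun i : Fin s => x i.succ ^ n) : Fin (s + 1) → R) M ≤
      h0 (fun i : Fin s => x i.succ ^ n) M := by
    rw [h0_cons (x 0 ^ n) (fun i : Fin s => x i.succ ^ n)
      (Submodule.mkQ (x 0 ^ n • (⊤ : Submodule R M))) (Submodule.mkQ_surjective _)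
      (k4_quot (x 0 ^ n) M)]
    exact h0_le_of_surjective _ _ (Submodule.mkQ_surjective (x 0 ^ n • (⊤ : Submodule R M)))
  have b1 := h1_cons_le (x 0 ^ n) (fun i : Fin s => x i.succ ^ n) M
  have c1 : C * n ^ s ≤ C * n ^ (s + 1) :=
    Nat.mul_le_mul_left _ (Nat.pow_le_pow_right hn (Nat.le_succ s))
  have c2 : n * (C * n ^ s) = C * n ^ (s + 1) := by ring
  refine ⟨b0.trans (a0.trans ?_), ?_⟩
  · have c4 : C * n ^ s ≤ 2 * C * n ^ (s + 1) := by
      have c5 : 2 * C * n ^ (s + 1) = C * n ^ (s + 1) + C * n ^ (s + 1) := by ring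
      omega
    exact Nat.cast_le.2 c4
  · calc (n : ℕ∞) * h1 (Fin.cons (x 0 ^ n) (fun i : Fin s => x i.succ ^ n) : Fin (s + 1) → R) M
        ≤ n * (h1 (fun i : Fin s => x i.succ ^ n) M + h0 (fun i : Fin s => x i.succ ^ n) M) :=
          mul_le_mul_right b1 _
      _ = n * h1 (fun i : Fin s => x i.succ ^ n) M +
          n * h0 (fun i : Fin s => x i.succ ^ n) M := mul_add _ _ _
      _ ≤ ((C * n ^ s : ℕ) : ℕ∞) + n * ((C * n ^ s : ℕ) : ℕ∞) :=
          add_le_add a1 (mul_le_mul_right a0 _)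
      _ = ((C * n ^ s + n * (C * n ^ s) : ℕ) : ℕ∞) := by push_cast; ring
      _ ≤ ((2 * C * n ^ (s + 1) : ℕ) : ℕ∞) := by
          rw [c2]
          have c3 : C * n ^ s + C * n ^ (s + 1) ≤ 2 * C * n ^ (s + 1) := by
            have : 2 * C * n ^ (s + 1) = C * n ^ (s + 1) + C * n ^ (s + 1) := by ring
            omega
          exact Nat.cast_le.2 c3

open scoped Pointwise in
private theorem k4_reg {R : Type u} [CommRing R] [IsNoetherianRing R] [IsLocalRing R] {s : ℕ}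
    (ih : ∀ (x : Fin s → R) (M : Type u) [AddCommGroup M] [Module R M] [Module.Finite R M],
      (∃ c : ℕ, maximalIdeal R ^ c ≤ Ideal.span (Set.range x) ⊔ Module.annihilator R M) →
      ∃ C : ℕ, ∀ n : ℕ, 1 ≤ n → h0 (fun i => x i ^ n) M ≤ ((C * n ^ s : ℕ) : ℕ∞) ∧
        n * h1 (fun i => x i ^ n) M ≤ ((C * n ^ s : ℕ) : ℕ∞))
    (x : Fin (s + 1) → R) (M : Type u) [AddCommGroup M] [Module R M] [Module.Finite R M]
    (hM : ∃ c : ℕ, maximalIdeal R ^ c ≤ Ideal.span (Set.range x) ⊔ Module.annihilator R M)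
    (hreg : ∀ m : M, x 0 • m = 0 → m = 0) :
    ∃ C : ℕ, ∀ n : ℕ, 1 ≤ n → h0 (fun i => x i ^ n) M ≤ ((C * n ^ (s + 1) : ℕ) : ℕ∞) ∧
      n * h1 (fun i => x i ^ n) M ≤ ((C * n ^ (s + 1) : ℕ) : ℕ∞) := by
  obtain ⟨c, hc⟩ := hM
  have hJ : maximalIdeal R ^ c ≤ Ideal.span (Set.range fun i : Fin s => x i.succ) ⊔
      Module.annihilator R (QuotSMulTop (x 0) M) := by
    refine hc.trans (sup_le ((k4_span x).trans (sup_le le_sup_left ?_)) ?_)
    · rw [Ideal.span_singleton_le_iff_mem]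
      exact Ideal.mem_sup_right (QuotSMulTop.mem_annihilator M (x 0))
    · refine le_trans ?_ le_sup_right
      exact (Submodule.mkQ (x 0 • (⊤ : Submodule R M))).annihilator_le_of_surjective
        (Submodule.mkQ_surjective _)
  obtain ⟨C, hC⟩ := ih (fun i => x i.succ) (QuotSMulTop (x 0) M) ⟨_, hJ⟩
  refine ⟨C, fun n hn => ?_⟩
  obtain ⟨a0, a1⟩ := hC n hn
  obtain ⟨q0, q1⟩ := h_quot_pow_le (fun i : Fin s => x i.succ ^ n) (x 0) M hreg n
  have hregn : ∀ (j : ℕ) (m : M), x 0 ^ j • m = 0 → m = 0 := by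
    intro j
    induction j with
    | zero =>
      intro m hm
      rwa [pow_zero, one_smul] at hm
    | succ j ihj =>
      intro m hm
      rw [pow_succ, mul_smul] at hm
      exact hreg m (ihj _ hm)
  rw [k4_cons x n]
  have b0 := h0_cons (x 0 ^ n) (fun i : Fin s => x i.succ ^ n)
      (Submodule.mkQ (x 0 ^ n • (⊤ : Submodule R M))) (Submodule.mkQ_surjective _)
      (k4_quot (x 0 ^ n) M)
  have b1 := h1_cons_le_of_regular (x 0 ^ n) (fun i : Fin s => x i.succ ^ n)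
      (Submodule.mkQ (x 0 ^ n • (⊤ : Submodule R M))) (Submodule.mkQ_surjective _)
      (k4_quot (x 0 ^ n) M) (hregn n)
  have c2 : n * (C * n ^ s) = C * n ^ (s + 1) := by ring
  refine ⟨?_, ?_⟩
  · rw [b0]
    calc h0 (fun i : Fin s => x i.succ ^ n) (QuotSMulTop (x 0 ^ n) M)
        ≤ n * h0 (fun i : Fin s => x i.succ ^ n) (QuotSMulTop (x 0) M) := q0
      _ ≤ n * ((C * n ^ s : ℕ) : ℕ∞) := mul_le_mul_right a0 _
      _ = ((C * n ^ (s + 1) : ℕ) : ℕ∞) := by rw [← c2]; push_cast; ring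
  · calc (n : ℕ∞) * h1 (Fin.cons (x 0 ^ n) (fun i : Fin s => x i.succ ^ n) : Fin (s + 1) → R) M
        ≤ n * h1 (fun i : Fin s => x i.succ ^ n) (QuotSMulTop (x 0 ^ n) M) :=
          mul_le_mul_right b1 _
      _ ≤ n * (n * h1 (fun i : Fin s => x i.succ ^ n) (QuotSMulTop (x 0) M)) :=
          mul_le_mul_right q1 _
      _ ≤ n * ((C * n ^ s : ℕ) : ℕ∞) := mul_le_mul_right a1 _
      _ = ((C * n ^ (s + 1) : ℕ) : ℕ∞) := by rw [← c2]; push_cast; ring

private theorem k4_succ {R : Type u} [CommRing R] [IsNoetherianRing R] [IsLocalRing R] {s : ℕ}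
    (ih : ∀ (x : Fin s → R) (M : Type u) [AddCommGroup M] [Module R M] [Module.Finite R M],
      (∃ c : ℕ, maximalIdeal R ^ c ≤ Ideal.span (Set.range x) ⊔ Module.annihilator R M) →
      ∃ C : ℕ, ∀ n : ℕ, 1 ≤ n → h0 (fun i => x i ^ n) M ≤ ((C * n ^ s : ℕ) : ℕ∞) ∧
        n * h1 (fun i => x i ^ n) M ≤ ((C * n ^ s : ℕ) : ℕ∞))
    (x : Fin (s + 1) → R) (M : Type u) [AddCommGroup M] [Module R M] [Module.Finite R M]
    (hM : ∃ c : ℕ, maximalIdeal R ^ c ≤ Ideal.span (Set.range x) ⊔ Module.annihilator R M) :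
    ∃ C : ℕ, ∀ n : ℕ, 1 ≤ n → h0 (fun i => x i ^ n) M ≤ ((C * n ^ (s + 1) : ℕ) : ℕ∞) ∧
      n * h1 (fun i => x i ^ n) M ≤ ((C * n ^ (s + 1) : ℕ) : ℕ∞) := by
  obtain ⟨c, hc⟩ := hM
  have hNo : IsNoetherian R M := isNoetherian_of_isNoetherianRing_of_finite R M
  obtain ⟨k, M₀, hM₀, hM₁⟩ : ∃ (k : ℕ) (M₀ : Submodule R M), (∀ m ∈ M₀, x 0 ^ k • m = 0) ∧
      ∀ m, x 0 • m ∈ M₀ → m ∈ M₀ := by
    obtain ⟨k, hk⟩ := Filter.eventually_atTop.1
      (LinearMap.eventually_iSup_ker_pow_eq (LinearMap.lsmul R M (x 0)))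
    have hk' := hk k le_rfl
    have hpow : ∀ (j : ℕ) (m : M), ((LinearMap.lsmul R M (x 0)) ^ j) m = x 0 ^ j • m := by
      intro j
      induction j with
      | zero => intro m; rw [pow_zero, pow_zero, one_smul]; rfl
      | succ j ihj =>
        intro m
        rw [pow_succ, Module.End.mul_apply, ihj, pow_succ, mul_smul]
        rfl
    refine ⟨k, LinearMap.ker ((LinearMap.lsmul R M (x 0)) ^ k), fun m hm => ?_, fun m hm => ?_⟩
    · rw [LinearMap.mem_ker, hpow] at hm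
      exact hm
    · rw [← hk']
      rw [LinearMap.mem_ker, hpow] at hm
      refine Submodule.mem_iSup_of_mem (k + 1) ?_
      rw [LinearMap.mem_ker, hpow, pow_succ, mul_smul]
      exact hm
  have hF₀ : Module.Finite R M₀ := inferInstance
  obtain ⟨C₀, hC₀⟩ := k4_tor ih x M₀ ⟨c, hc.trans (sup_le_sup_left
    (M₀.subtype.annihilator_le_of_injective M₀.injective_subtype) _)⟩ k
    (fun m => Subtype.ext (by
      rw [Submodule.coe_smul]
      exact hM₀ m.1 m.2))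
  obtain ⟨C₁, hC₁⟩ := k4_reg ih x (M ⧸ M₀) ⟨c, hc.trans (sup_le_sup_left
    (M₀.mkQ.annihilator_le_of_surjective M₀.mkQ_surjective) _)⟩
    (fun m hm => by
      obtain ⟨m, rfl⟩ := M₀.mkQ_surjective m
      rw [← map_smul, Submodule.mkQ_apply, Submodule.Quotient.mk_eq_zero] at hm
      rw [Submodule.mkQ_apply, Submodule.Quotient.mk_eq_zero]
      exact hM₁ m hm)
  refine ⟨C₀ + C₁, fun n hn => ?_⟩
  obtain ⟨a0, a1⟩ := hC₀ n hn
  obtain ⟨b0, b1⟩ := hC₁ n hn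
  have hex : Function.Exact M₀.subtype M₀.mkQ := by
    rw [LinearMap.exact_iff, Submodule.ker_mkQ, Submodule.range_subtype]
  have e : (((C₀ + C₁) * n ^ (s + 1) : ℕ) : ℕ∞) =
      ((C₀ * n ^ (s + 1) : ℕ) : ℕ∞) + ((C₁ * n ^ (s + 1) : ℕ) : ℕ∞) := by
    push_cast
    ring
  rw [e]
  constructor
  · exact (h0_le_add _ M₀.subtype M₀.mkQ M₀.mkQ_surjective hex).trans (add_le_add a0 b0)
  · calc (n : ℕ∞) * h1 (fun i => x i ^ n) M
        ≤ n * (h1 (fun i => x i ^ n) M₀ + h1 (fun i => x i ^ n) (M ⧸ M₀)) :=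
          mul_le_mul_right (h1_le_add _ M₀.subtype M₀.mkQ M₀.injective_subtype
            M₀.mkQ_surjective hex) _
      _ = n * h1 (fun i => x i ^ n) M₀ + n * h1 (fun i => x i ^ n) (M ⧸ M₀) := mul_add _ _ _
      _ ≤ _ := add_le_add a1 b1

theorem growth {R : Type u} [CommRing R] [IsNoetherianRing R] [IsLocalRing R] (s : ℕ)
    (x : Fin s → R) (M : Type u) [AddCommGroup M] [Module R M] [Module.Finite R M]
    (hM : ∃ c : ℕ, maximalIdeal R ^ c ≤ Ideal.span (Set.range x) ⊔ Module.annihilator R M) :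
    ∃ C : ℕ, ∀ n : ℕ, 1 ≤ n → h0 (fun i => x i ^ n) M ≤ ((C * n ^ s : ℕ) : ℕ∞) ∧
      n * h1 (fun i => x i ^ n) M ≤ ((C * n ^ s : ℕ) : ℕ∞) := by
  have key : ∀ (s : ℕ) (x : Fin s → R) (M : Type u) [AddCommGroup M] [Module R M]
      [Module.Finite R M],
      (∃ c : ℕ, maximalIdeal R ^ c ≤ Ideal.span (Set.range x) ⊔ Module.annihilator R M) →
      ∃ C : ℕ, ∀ n : ℕ, 1 ≤ n → h0 (fun i => x i ^ n) M ≤ ((C * n ^ s : ℕ) : ℕ∞) ∧
        n * h1 (fun i => x i ^ n) M ≤ ((C * n ^ s : ℕ) : ℕ∞) := by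
    intro s
    induction s with
    | zero => exact fun x M _ _ _ hM => k4_zero x M hM
    | succ s ih => exact fun x M _ _ _ hM => k4_succ ih x M hM
  exact key s x M hM

end Pool.Agent.FSig.SF
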