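import Pool.Agent.Work.MP_27623f_ag.SF.Defs

/-!
MODULE KCh (size S-M).  Change of rings for `h0`, `h1` along a surjection `A → B`.

PROOF.  The subsets `range (kosOne x N)`, `ker (kosOne x N)`, `range (kosTwo x N)` of `N`, `Fin s → N` are the same for
`A` and for `B` (`algebraMap_smul`), and the `A`-submodules of a `B`-module are its `B`-submodules, because `A → B` is
surjective; so the lengths agree (`Module.length_eq_of_surjective`-like lemma if it exists; otherwise the order isomorphism
of the submodule lattices, `Submodule.orderIsoOfSurjective`, `Module.length` is defined through the Krull dimension of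
the lattice; see also `Submodule.length_eq`/`Order.krullDim_eq_of_orderIso`).
-/

set_option autoImplicit false

namespace Pool.Agent.FSig.SF

private theorem len_semi {A B : Type*} [CommRing A] [CommRing B] [Algebra A B]
    (hs : Function.Surjective (algebraMap A B)) {M M' : Type*} [AddCommGroup M] [Module A M]
    [AddCommGroup M'] [Module B M'] (f : M →ₛₗ[algebraMap A B] M') (hf : Function.Bijective f) :
    Module.length A M = Module.length B M' := by
  have : RingHomSurjective (algebraMap A B) := ⟨hs⟩
  rw [Module.length, Module.length, WithBot.unbot_inj,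
    Order.krullDim_eq_of_orderIso (Submodule.orderIsoMapComapOfBijective f hf)]

private theorem len_quot {A B : Type*} [CommRing A] [CommRing B] [Algebra A B]
    (hs : Function.Surjective (algebraMap A B)) {M M' : Type*} [AddCommGroup M] [Module A M]
    [AddCommGroup M'] [Module B M'] (f : M →ₛₗ[algebraMap A B] M') (hf : Function.Bijective f)
    (P : Submodule A M) (Q : Submodule B M') (h : ∀ m, m ∈ P ↔ f m ∈ Q) :
    Module.length A (M ⧸ P) = Module.length B (M' ⧸ Q) := by
  refine len_semi hs (P.mapQ Q f fun m hm => (h m).1 hm) ⟨?_, ?_⟩
  · intro a b hab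
    induction a using Submodule.Quotient.induction_on with
    | _ a =>
    induction b using Submodule.Quotient.induction_on with
    | _ b =>
    rw [Submodule.mapQ_apply, Submodule.mapQ_apply, Submodule.Quotient.eq, ← map_sub] at hab
    rw [Submodule.Quotient.eq]
    exact (h _).2 hab
  · intro b
    induction b using Submodule.Quotient.induction_on with
    | _ b =>
    obtain ⟨a, rfl⟩ := hf.2 b
    exact ⟨Submodule.Quotient.mk a, Submodule.mapQ_apply _ _ _ _⟩

theorem h_change {A B : Type*} [CommRing A] [CommRing B] [Algebra A B]
    (hs : Function.Surjective (algebraMap A B)) {s : ℕ} (x : Fin s → A) (N : Type*)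
    [AddCommGroup N] [Module A N] [Module B N] [IsScalarTower A B N] :
    h0 x N = h0 (fun i => algebraMap A B (x i)) N ∧
      h1 x N = h1 (fun i => algebraMap A B (x i)) N := by
  have e1 : ∀ m : Fin s → N, kosOne x N m = kosOne (fun i => algebraMap A B (x i)) N m := by
    intro m
    rw [kosOne_apply, kosOne_apply]
    exact Finset.sum_congr rfl fun i _ => (algebraMap_smul B (x i) (m i)).symm
  have e2 : ∀ t : Fin s → Fin s → N,
      kosTwo x N t = kosTwo (fun i => algebraMap A B (x i)) N t := by
    intro t
    funext i
    rw [kosTwo_apply, kosTwo_apply]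
    exact Finset.sum_congr rfl fun j _ => (algebraMap_smul B (x j) _).symm
  constructor
  · let f : N →ₛₗ[algebraMap A B] N :=
      ⟨AddHom.id N, fun r m => (algebraMap_smul B r m).symm⟩
    refine len_quot hs f Function.bijective_id _ _ fun m => ?_
    constructor
    · rintro ⟨t, rfl⟩
      exact ⟨t, (e1 t).symm⟩
    · rintro ⟨t, ht⟩
      exact ⟨t, (e1 t).trans ht⟩
  · let f : LinearMap.ker (kosOne x N) →ₛₗ[algebraMap A B]
        LinearMap.ker (kosOne (fun i => algebraMap A B (x i)) N) :=
      { toFun := fun m => ⟨m.1, by
          have h := m.2
          rw [LinearMap.mem_ker] at h ⊢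
          rw [← e1, h]⟩
        map_add' := fun _ _ => rfl
        map_smul' := fun r m => by
          refine Subtype.ext ?_
          funext i
          exact (algebraMap_smul B r (m.1 i)).symm }
    have hf : Function.Bijective f := by
      constructor
      · intro a b hab
        have h : (f a).1 = (f b).1 := congrArg Subtype.val hab
        exact Subtype.ext h
      · intro b
        refine ⟨⟨b.1, ?_⟩, rfl⟩
        have h := b.2
        rw [LinearMap.mem_ker] at h ⊢
        rw [e1, h]
    refine len_quot hs f hf _ _ fun m => ?_
    show m.1 ∈ LinearMap.range (kosTwo x N) ↔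
      m.1 ∈ LinearMap.range (kosTwo (fun i => algebraMap A B (x i)) N)
    constructor
    · rintro ⟨t, ht⟩
      exact ⟨t, (e2 t).symm.trans ht⟩
    · rintro ⟨t, ht⟩
      exact ⟨t, (e2 t).trans ht⟩

theorem length_change {A B : Type*} [CommRing A] [CommRing B] [Algebra A B]
    (hs : Function.Surjective (algebraMap A B)) (N : Type*)
    [AddCommGroup N] [Module A N] [Module B N] [IsScalarTower A B N] :
    Module.length A N = Module.length B N := by
  exact Module.length_eq_of_surjective hs

end Pool.Agent.FSig.SF
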