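import Pool.Agent.Work.MP_27623f_ag.SF.K4
import Pool.Agent.Work.MP_27623f_ag.SF.KCh

/-!
MODULE K5 (size M-L).  `length A / (x_1^n, ..., x_D^n) ≥ n^D / N` for a system of parameters.

PROOF.  Induction on `D`, all rings `A`.  `D = 0`: `h0 ≥ 1`, since `A / (0)` is not zero (the range of `kosOne` is zero); `N = 1`.
Step `D + 1`.
(1) Reduction to a domain: there is a prime `P` with `dim A/P = dim A = D + 1` (`ringKrullDim A` is finite and is attained by
a chain of primes; take `P` = the first one; then `ringKrullDim (A ⧸ P) ≥ D + 1`, and `≤`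
is `ringKrullDim_quotient_le`).  `h0 (x^n) A ≥ h0 (x^n) (A/P)` (`h0_le_of_surjective`) `= h0 (x̄^n) (A/P)` over `A/P` (`h_change`),
and `x̄` is a system of parameters of `A/P`.  So assume that `A` is a domain.
(2) `x = Fin.cons x_0 x'`; `x_0 ≠ 0`: otherwise `x'` (`D` elements) generates an ideal primary to the maximal ideal and
`dim A ≤ D` (`ringKrullDim_le_ringKrullDim_quotient_add_card`-like or `Ideal.height_le_card_of_mem_minimalPrimes_span_finset` and
`IsLocalRing.maximalIdeal_height_eq_ringKrullDim`).  `B = A ⧸ (x_0)` is local Noetherian of dimension `D`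
(`ringKrullDim_quotient_span_singleton_succ_eq_ringKrullDim_of_mem_nonZeroDivisors`), the images of `x'` form a
system of parameters.  By induction `n^D ≤ N' h0 (x̄'^n) B`; by `growth` (`D`, `B`, `B`): `n h1 (x̄'^n) B ≤ C n^D`.
(3) By `h0_cons` and `le_h0_quot_pow` (`M = A`, `QuotSMulTop x_0 A = B`, `h_change`):
`n h0 (x'^n) B ≤ h0 (x^n) A + n h1 (x'^n) B ≤ h0 (x^n) A + C n^D`.  So
`n^(D+1) ≤ N' n h0 (x'^n) B ≤ N' h0 (x^n) A + N' C n^D`.  For `n ≥ 2 N' C` the last term is at most half of the left-hand side,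
so `n^(D+1) ≤ 2 N' h0`; for `n < 2 N' C` use `h0 (x^n) A ≥ 1` (as `(x^n)` is a proper ideal) and
`n^(D+1) ≤ (2 N' C)^(D+1)`.  `N = 2 N' + (2 N' C)^(D+1)`.
-/

set_option autoImplicit false

namespace Pool.Agent.FSig.SF

open IsLocalRing Pointwise

universe u

private theorem exists_prime_dim {A : Type u} [CommRing A] [IsLocalRing A] (n : ℕ)
    (hD : ringKrullDim A = (n : WithBot ℕ∞)) :
    ∃ P : Ideal A, P.IsPrime ∧ ringKrullDim (A ⧸ P) = (n : WithBot ℕ∞) := by
  obtain ⟨l, hl⟩ := (Order.le_krullDim_iff (α := PrimeSpectrum A) (n := n)).1 (by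
    have h : Order.krullDim (PrimeSpectrum A) = (n : WithBot ℕ∞) := hD
    rw [h])
  refine ⟨l.head.asIdeal, l.head.isPrime, le_antisymm ?_ ?_⟩
  · rw [← hD]
    exact ringKrullDim_quotient_le _
  · rw [ringKrullDim_quotient]
    have hmem : ∀ i, l i ∈ PrimeSpectrum.zeroLocus (R := A) l.head.asIdeal := fun i =>
      (LTSeries.head_le l i : l.head ≤ l i)
    let l' : LTSeries (PrimeSpectrum.zeroLocus (R := A) (l.head.asIdeal : Set A)) :=
      { length := l.length
        toFun := fun i => ⟨l i, hmem i⟩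
        step := fun i => l.step i }
    have h1 := Order.LTSeries.length_le_krullDim l'
    have h2 : l'.length = n := hl
    rw [h2] at h1
    exact h1

private theorem isSop_quot {A B : Type u} [CommRing A] [IsLocalRing A] [CommRing B]
    [IsLocalRing B] (f : A →+* B) (hf : Function.Surjective f) {D : ℕ} (x : Fin D → A)
    (hx : IsSop x) {k : ℕ} (y : Fin k → A)
    (hy : ∀ i, f (x i) ∈ Ideal.span (Set.range fun j => f (y j)))
    (hym : ∀ j, y j ∈ maximalIdeal A)
    (hD : ringKrullDim B = (k : WithBot ℕ∞)) : IsSop (fun j => f (y j)) := by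
  have hloc : IsLocalHom f := IsLocalHom.of_surjective f hf
  obtain ⟨c, hc⟩ := hx.prim
  refine ⟨hD, fun j => ?_, c, ?_⟩
  · have h1 := Ideal.mem_map_of_mem f (hym j)
    rwa [IsLocalRing.map_maximalIdeal_of_surjective f hf] at h1
  · rw [← IsLocalRing.map_maximalIdeal_of_surjective f hf, ← Ideal.map_pow]
    refine (Ideal.map_mono hc).trans ?_
    rw [Ideal.map_span, Ideal.span_le]
    rintro _ ⟨_, ⟨i, rfl⟩, rfl⟩
    exact hy i

private theorem one_le_h0 {A : Type u} [CommRing A] [IsLocalRing A] {D : ℕ} (y : Fin D → A)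
    (hy : ∀ i, y i ∈ maximalIdeal A) : 1 ≤ h0 y A := by
  rw [Order.one_le_iff_ne_zero]
  unfold h0
  intro h
  rw [Module.length_eq_zero_iff, Submodule.Quotient.subsingleton_iff] at h
  have h1 : (1 : A) ∈ LinearMap.range (kosOne y A) := by
    rw [h]
    trivial
  obtain ⟨m, hm⟩ := h1
  rw [kosOne_apply] at hm
  have h2 : (1 : A) ∈ maximalIdeal A := by
    rw [← hm]
    refine Ideal.sum_mem _ fun i _ => ?_
    rw [smul_eq_mul]
    exact Ideal.mul_mem_right _ _ (hy i)
  exact (maximalIdeal.isMaximal A).ne_top ((Ideal.eq_top_iff_one _).2 h2)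

/-- the numerical part of the induction step -/
private theorem arith (D N C n : ℕ) (hn : 1 ≤ n) (h a b : ℕ∞) (h1 : 1 ≤ h)
    (ha : ((n ^ D : ℕ) : ℕ∞) ≤ N * a) (hb : n * b ≤ ((C * n ^ D : ℕ) : ℕ∞))
    (hab : n * a ≤ h + n * b) :
    ((n ^ (D + 1) : ℕ) : ℕ∞) ≤ ((2 * N + (2 * N * C) ^ (D + 1) + 1 : ℕ) : ℕ∞) * h := by
  have hmain : ((n ^ (D + 1) : ℕ) : ℕ∞) ≤ N * h + ((N * (C * n ^ D) : ℕ) : ℕ∞) := by
    calc ((n ^ (D + 1) : ℕ) : ℕ∞) = (n : ℕ∞) * ((n ^ D : ℕ) : ℕ∞) := by
          rw [pow_succ, mul_comm, Nat.cast_mul]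
      _ ≤ (n : ℕ∞) * (N * a) := by gcongr
      _ = N * (n * a) := by ring
      _ ≤ N * (h + n * b) := by gcongr
      _ ≤ N * (h + ((C * n ^ D : ℕ) : ℕ∞)) := by gcongr
      _ = N * h + ((N * (C * n ^ D) : ℕ) : ℕ∞) := by
          rw [mul_add, Nat.cast_mul N]
  induction h using ENat.recTopCoe with
  | top =>
    rw [ENat.mul_top]
    · exact le_top
    · exact Nat.cast_ne_zero.2 (Nat.succ_ne_zero _)
  | coe h =>
    have h1' : 1 ≤ h := by exact_mod_cast h1
    have hm' : n ^ (D + 1) ≤ N * h + N * (C * n ^ D) := by exact_mod_cast hmain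
    have hgoal : n ^ (D + 1) ≤ (2 * N + (2 * N * C) ^ (D + 1) + 1) * h := by
      by_cases hcase : 2 * N * C ≤ n
      · have h3 : 2 * (N * (C * n ^ D)) ≤ n ^ (D + 1) := by
          calc 2 * (N * (C * n ^ D)) = (2 * N * C) * n ^ D := by ring
            _ ≤ n * n ^ D := Nat.mul_le_mul_right _ hcase
            _ = n ^ (D + 1) := by ring
        have h4 : n ^ (D + 1) ≤ 2 * N * h := by
          have : 2 * N * h = 2 * (N * h) := by ring
          omega
        calc n ^ (D + 1) ≤ 2 * N * h := h4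
          _ ≤ (2 * N + (2 * N * C) ^ (D + 1) + 1) * h := by
              refine Nat.mul_le_mul_right _ ?_
              omega
      · have h3 : n ^ (D + 1) ≤ (2 * N * C) ^ (D + 1) :=
          Nat.pow_le_pow_left (by omega) _
        calc n ^ (D + 1) ≤ (2 * N * C) ^ (D + 1) * 1 := by omega
          _ ≤ (2 * N + (2 * N * C) ^ (D + 1) + 1) * h := by
              refine Nat.mul_le_mul ?_ h1'
              omega
    exact_mod_cast hgoal

private theorem step_domain {A : Type u} [CommRing A] [IsDomain A] [IsNoetherianRing A]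
    [IsLocalRing A] {D : ℕ}
    (IH : ∀ (B : Type u) [CommRing B] [IsNoetherianRing B] [IsLocalRing B] (x : Fin D → B),
      IsSop x → ∃ N : ℕ, ∀ n : ℕ, 1 ≤ n → ((n ^ D : ℕ) : ℕ∞) ≤ N * h0 (fun i => x i ^ n) B)
    (x : Fin (D + 1) → A) (hx : IsSop x) :
    ∃ N : ℕ, ∀ n : ℕ, 1 ≤ n → ((n ^ (D + 1) : ℕ) : ℕ∞) ≤ N * h0 (fun i => x i ^ n) A := by
  have hx0 : x 0 ≠ 0 := by
    intro h0'
    obtain ⟨c, hc⟩ := hx.prim
    have h1 : maximalIdeal A ∈ (Ideal.span (Set.range fun i : Fin D => x i.succ)).minimalPrimes := by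
      refine ⟨⟨inferInstance, ?_⟩, ?_⟩
      · rw [Ideal.span_le]
        rintro _ ⟨i, rfl⟩
        exact hx.mem _
      · rintro Q ⟨hQ1, hQ2⟩ _
        have h2 : maximalIdeal A ^ c ≤ Q := by
          refine hc.trans ?_
          rw [Ideal.span_le]
          rintro _ ⟨i, rfl⟩
          refine Fin.cases ?_ (fun i => ?_) i
          · rw [h0']
            exact Q.zero_mem
          · exact hQ2 (Ideal.subset_span ⟨i, rfl⟩)
        exact hQ1.le_of_pow_le h2
    have h3 := Ideal.height_le_card_of_mem_minimalPrimes_span (Set.finite_range _) h1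
    have h4 : (((Set.range fun i : Fin D => x i.succ).ncard : ℕ) : ℕ∞) ≤ D := by
      rw [← Set.image_univ]
      have h41 := Set.ncard_image_le (f := fun i : Fin D => x i.succ) (Set.finite_univ (α := Fin D))
      rw [Set.ncard_univ, Nat.card_eq_fintype_card, Fintype.card_fin] at h41
      exact_mod_cast h41
    have h5 := IsLocalRing.maximalIdeal_height_eq_ringKrullDim (R := A)
    rw [hx.dim] at h5
    have h6 : (maximalIdeal A).height = ((D + 1 : ℕ) : ℕ∞) := by exact_mod_cast h5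
    have h7 : ((D + 1 : ℕ) : ℕ∞) ≤ (D : ℕ∞) := by
      rw [← h6]
      exact h3.trans h4
    have h8 : D + 1 ≤ D := by exact_mod_cast h7
    omega
  have hreg : ∀ m : A, x 0 • m = 0 → m = 0 := fun m hm => by
    rw [smul_eq_mul] at hm
    exact (mul_eq_zero.1 hm).resolve_left hx0
  let I : Ideal A := Ideal.span {x 0}
  have hI : I ≠ ⊤ := by
    intro h
    have h2 : (1 : A) ∈ maximalIdeal A := by
      have h3 : I ≤ maximalIdeal A := by
        rw [Ideal.span_le, Set.singleton_subset_iff]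
        exact hx.mem 0
      exact h3 (h ▸ Submodule.mem_top)
    exact (maximalIdeal.isMaximal A).ne_top ((Ideal.eq_top_iff_one _).2 h2)
  have : Nontrivial (A ⧸ I) := Ideal.Quotient.nontrivial_iff.2 hI
  have : IsLocalRing (A ⧸ I) :=
    IsLocalRing.of_surjective' (Ideal.Quotient.mk I) Ideal.Quotient.mk_surjective
  have hdim : ringKrullDim (A ⧸ I) = (D : WithBot ℕ∞) := by
    have h1 := ringKrullDim_quotient_span_singleton_succ_eq_ringKrullDim_of_mem_nonZeroDivisors
      (mem_nonZeroDivisors_of_ne_zero hx0) (hx.mem 0)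
    rw [hx.dim] at h1
    have h2 : ringKrullDim (A ⧸ I) + 1 = ((D + 1 : ℕ) : WithBot ℕ∞) := h1
    rw [Nat.cast_add, Nat.cast_one] at h2
    exact ENat.WithBot.add_one_cancel.1 h2
  have hsop : IsSop (fun j : Fin D => Ideal.Quotient.mk I (x j.succ)) := by
    refine isSop_quot (Ideal.Quotient.mk I) Ideal.Quotient.mk_surjective x hx
      (fun j => x j.succ) (fun i => ?_) (fun j => hx.mem _) hdim
    refine Fin.cases ?_ (fun i => ?_) i
    · have : Ideal.Quotient.mk I (x 0) = 0 :=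
        Ideal.Quotient.eq_zero_iff_mem.2 (Ideal.subset_span rfl)
      rw [this]
      exact Ideal.zero_mem _
    · exact Ideal.subset_span ⟨i, rfl⟩
  obtain ⟨N, hN⟩ := IH (A ⧸ I) _ hsop
  obtain ⟨C, hC⟩ := growth D (fun j : Fin D => Ideal.Quotient.mk I (x j.succ)) (A ⧸ I) (by
    obtain ⟨c, hc⟩ := hsop.prim
    exact ⟨c, hc.trans le_sup_left⟩)
  refine ⟨2 * N + (2 * N * C) ^ (D + 1) + 1, fun n hn => ?_⟩
  -- comparison of the modules
  have htop : x 0 • (⊤ : Submodule A A) = I := by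
    ext z
    rw [Submodule.mem_smul_pointwise_iff_exists, Ideal.mem_span_singleton']
    constructor
    · rintro ⟨b, -, rfl⟩
      exact ⟨b, mul_comm _ _⟩
    · rintro ⟨b, rfl⟩
      exact ⟨b, trivial, mul_comm _ _⟩
  have hq : ∀ y : Fin D → A, h0 y (QuotSMulTop (x 0) A) =
      h0 (fun i => Ideal.Quotient.mk I (y i)) (A ⧸ I) ∧ h1 y (QuotSMulTop (x 0) A) =
      h1 (fun i => Ideal.Quotient.mk I (y i)) (A ⧸ I) := by
    intro y
    have e1 := h_congr y (Submodule.quotEquivOfEq (x 0 • (⊤ : Submodule A A)) I htop)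
    have e2 := h_change (A := A) (B := A ⧸ I) Ideal.Quotient.mk_surjective y (A ⧸ I)
    exact ⟨e1.1.trans e2.1, e1.2.trans e2.2⟩
  have h2 := le_h0_quot_pow (fun i : Fin D => x i.succ ^ n) (x 0) A hreg n
  rw [(hq _).1, (hq _).2] at h2
  have h3 : h0 (fun i => x i ^ n) A = h0 (fun i : Fin D => x i.succ ^ n)
      (QuotSMulTop (x 0 ^ n) A) := by
    have e1 : (fun i => x i ^ n) = (Fin.cons (x 0 ^ n) fun i : Fin D => x i.succ ^ n :
        Fin (D + 1) → A) := by
      funext i
      refine Fin.cases ?_ (fun i => ?_) i <;> simp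
    rw [e1]
    refine h0_cons (x 0 ^ n) _ (Submodule.mkQ _) (Submodule.mkQ_surjective _) fun m => ?_
    rw [Submodule.mkQ_apply, Submodule.Quotient.mk_eq_zero,
      Submodule.mem_smul_pointwise_iff_exists]
    simp
  rw [← h3] at h2
  have h4 := hN n hn
  have h5 := (hC n hn).2
  simp only [map_pow] at h2
  have h6 : 1 ≤ h0 (fun i => x i ^ n) A :=
    one_le_h0 _ fun i => Ideal.pow_mem_of_mem _ (hx.mem i) n hn
  exact arith D N C n hn _ _ _ h6 h4 h5 h2

theorem h0_lower {A : Type u} [CommRing A] [IsNoetherianRing A] [IsLocalRing A] {D : ℕ}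
    (x : Fin D → A) (hx : IsSop x) :
    ∃ N : ℕ, ∀ n : ℕ, 1 ≤ n → ((n ^ D : ℕ) : ℕ∞) ≤ N * h0 (fun i => x i ^ n) A := by
  induction D generalizing A with
  | zero =>
    refine ⟨1, fun n _ => ?_⟩
    rw [pow_zero, Nat.cast_one, one_mul]
    exact one_le_h0 _ fun i => i.elim0
  | succ D IH =>
    obtain ⟨P, hP, hdim⟩ := exists_prime_dim (D + 1) hx.dim
    have : IsDomain (A ⧸ P) := Ideal.Quotient.isDomain P
    have : IsLocalRing (A ⧸ P) :=
      IsLocalRing.of_surjective' (Ideal.Quotient.mk P) Ideal.Quotient.mk_surjective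
    have hsop : IsSop (fun j => Ideal.Quotient.mk P (x j)) :=
      isSop_quot (Ideal.Quotient.mk P) Ideal.Quotient.mk_surjective x hx x
        (fun i => Ideal.subset_span ⟨i, rfl⟩) hx.mem hdim
    obtain ⟨N, hN⟩ := step_domain (A := A ⧸ P) (D := D) (fun B _ _ _ y hy => IH y hy) _ hsop
    refine ⟨N, fun n hn => (hN n hn).trans ?_⟩
    have h1 : h0 (fun i => Ideal.Quotient.mk P (x i) ^ n) (A ⧸ P) ≤ h0 (fun i => x i ^ n) A := by
      have e2 := (h_change (A := A) (B := A ⧸ P) Ideal.Quotient.mk_surjective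
        (fun i => x i ^ n) (A ⧸ P)).1
      have e3 : h0 (fun i => x i ^ n) (A ⧸ P) ≤ h0 (fun i => x i ^ n) A :=
        h0_le_of_surjective _ (Submodule.mkQ P) (Submodule.mkQ_surjective _)
      rw [e2] at e3
      refine le_trans (le_of_eq ?_) e3
      congr 1
    gcongr

end Pool.Agent.FSig.SF
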