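import Pool.Agent.Work.MP_27623f_ag.SF.Defs

/-!
MODULE P1 (size S-M).  Elements of high degree times `a^q J^(-q)` are divisible by `y^q`, `y = a X`.

PROOF.  `X^q` divides `f` (`Polynomial.X_pow_dvd_iff`): `f = X^q f'`, `f'_n = f_(n+q) ∈ symPow J (n+q) = symZ J (n+q)`.  `g = C b * f'`
has coefficients `b f_(n+q) ∈ symZ J (-q + (n+q)) = symZ J n = symPow J n` (`hJ.mul`), so `g ∈ symAlg J`.  In `K[X]`:
`(C a * X)^q * (C b * f') = C (a^q b) * (X^q f') = C (algebraMap r) * f`.
-/

set_option autoImplicit false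

namespace Pool.Agent.FSig.SF

open Pool.Agent.FSig Pool.Agent.FSig.SA

universe u

theorem mul_mem_span {R K : Type u} [CommRing R] [Field K] [Algebra R K] (J : Submodule R K)
    (hJ : DivSys R K (symZ J)) (a : K) (y : symAlg J)
    (hy : (y : Polynomial K) = Polynomial.C a * Polynomial.X) (q : ℕ) (f : symAlg J)
    (hf : ∀ n < q, (f : Polynomial K).coeff n = 0) (r : R) (b : K)
    (hb : b ∈ symZ J (-(q : ℤ))) (hr : algebraMap R K r = a ^ q * b) :
    f * algebraMap R (symAlg J) r ∈ Ideal.span {y ^ q} := by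
  obtain ⟨f', hf'⟩ := Polynomial.X_pow_dvd_iff.2 hf
  have hcoeff : ∀ n, f'.coeff n = (f : Polynomial K).coeff (n + q) := by
    intro n
    rw [hf', Polynomial.coeff_X_pow_mul]
  have hg : Polynomial.C b * f' ∈ symAlg J := by
    intro n
    rw [Polynomial.coeff_C_mul, hcoeff]
    have h1 : (f : Polynomial K).coeff (n + q) ∈ symZ J ((n + q : ℕ) : ℤ) := f.2 (n + q)
    have h2 := hJ.mul _ _ b hb _ h1
    have h3 : -(q : ℤ) + ((n + q : ℕ) : ℤ) = (n : ℤ) := by push_cast; ring
    rw [h3] at h2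
    exact h2
  rw [Ideal.mem_span_singleton]
  refine ⟨⟨Polynomial.C b * f', hg⟩, ?_⟩
  apply Subtype.ext
  show (f : Polynomial K) * (algebraMap R (symAlg J) r : symAlg J) =
    ((y ^ q : symAlg J) : Polynomial K) * (Polynomial.C b * f')
  have e1 : ((algebraMap R (symAlg J) r : symAlg J) : Polynomial K) = Polynomial.C (algebraMap R K r) := rfl
  have e2 : ((y ^ q : symAlg J) : Polynomial K) = (Polynomial.C a * Polynomial.X) ^ q := by
    rw [← hy]
    rfl
  rw [e1, e2, hr, mul_pow, ← Polynomial.C_pow, Polynomial.C_mul]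
  calc (f : Polynomial K) * (Polynomial.C (a ^ q) * Polynomial.C b)
      = (Polynomial.X ^ q * f') * (Polynomial.C (a ^ q) * Polynomial.C b) := by rw [← hf']
    _ = _ := by ring

end Pool.Agent.FSig.SF
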