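import Pool.Agent.Work.MP_27623f_ag.SF.P1
import Pool.Agent.Work.MP_27623f_ag.ColonPow
import Pool.Agent.Work.MP_27623f_ag.RegPow

/-!
MODULE P2 (size M).  From the canonical module of `R` to the symbolic algebra.

PROOF.  `q = p^e`, `z_i = constTerm J (x i)`, `S = symAlg J`, `θ = r u₀^q ∈ R`.  `algebraMap R K θ = a^q (r w^q)`, `r w^q ∈ symZ J (-q)`.
(1) For `ξ ∈ S`, `ζ ∈ R` with `constTerm ξ = ζ` the element `ξ^q - (algebraMap ζ)^q = (ξ - algebraMap ζ)^q` (characteristic `p`) has zero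
coefficients below `q` (its base has constant term `0`, i.e. is divisible by `X`).  By `mul_mem_span`:
`(ξ^q - ζ^q) ρ ∈ (y^q)` for every `ρ ∈ R` with `algebraMap ρ = a^q b`, `b ∈ symZ J (-q)`.
(2) `ξ = ∏ x_i^T`, `ρ = θ`: `(∏ x_i^(qT)) θ ≡ (∏ z_i^(qT)) θ` modulo `y^q`.
(3) By `h`: `(r ∏ z_i^(qT)) w^q = ∑ z_i^(q(T+1)) b_i`, `b_i ∈ symZ J (-q)` (`powId` is a span: `Submodule.mem_ideal_smul_span_iff...` or
`Submodule.smul_induction_on`).  `a^q b_i ∈ symZ J 0 = 1` (`a^q ∈ symZ J q`), `= algebraMap ρ_i`.  So `(∏ z_i^(qT)) θ = ∑ z_i^(q(T+1)) ρ_i` in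
`R` (injectivity of `R → K`), and by (1) with `ξ = x_i^(T+1)`: `z_i^(q(T+1)) ρ_i ≡ x_i^(q(T+1)) ρ_i` modulo `y^q`.
(4) Hence `(∏ x_i^(qT)) θ ∈ (y^q, x_i^(q(T+1)))` in `S`; apply `ι`; `colon_prod` (ColonPow; see `colon_pow` in SA/PowP for the
use of `reg_pow`) for the sequence `cons (ι y) (ι x)` with `κ = cons 0 (q T)`, `b = q`: `ι θ ∈ (y^q, x_i^q)`.
-/

set_option autoImplicit false

namespace Pool.Agent.FSig.SF

open Pool.Agent.FSig Pool.Agent.FSig.SA IsLocalRing

universe u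

private theorem exists_sum {R K : Type*} [CommRing R] [AddCommGroup K] [Module R K]
    (N : Submodule R K) {d : ℕ} (g : Fin d → R) (k : K)
    (hk : k ∈ Ideal.span (Set.range g) • N) :
    ∃ b : Fin d → K, (∀ i, b i ∈ N) ∧ k = ∑ i, g i • b i := by
  refine Submodule.smul_induction_on hk (fun r hr n hn => ?_) (fun x y hx hy => ?_)
  · obtain ⟨c, rfl⟩ := Ideal.mem_span_range_iff_exists_fun.1 hr
    refine ⟨fun i => c i • n, fun i => N.smul_mem _ hn, ?_⟩
    rw [Finset.sum_smul]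
    refine Finset.sum_congr rfl fun i _ => ?_
    rw [smul_smul, mul_comm]
  · obtain ⟨b, hb, rfl⟩ := hx
    obtain ⟨b', hb', rfl⟩ := hy
    refine ⟨fun i => b i + b' i, fun i => N.add_mem (hb i) (hb' i), ?_⟩
    rw [← Finset.sum_add_distrib]
    exact Finset.sum_congr rfl fun i _ => (smul_add _ _ _).symm

private theorem pow_mem_symZ {R K : Type*} [CommRing R] [Field K] [Algebra R K]
    (J : Submodule R K) (hJ : DivSys R K (symZ J)) {j : ℤ} {w : K} (hw : w ∈ symZ J j) (n : ℕ) :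
    w ^ n ∈ symZ J (n * j) := by
  induction n with
  | zero =>
    rw [pow_zero, Nat.cast_zero, zero_mul, hJ.zero]
    exact Submodule.one_le.1 le_rfl
  | succ n ih =>
    have h := hJ.mul _ _ _ ih _ hw
    rw [pow_succ]
    have e : (n : ℤ) * j + j = ((n + 1 : ℕ) : ℤ) * j := by push_cast; ring
    rwa [e] at h

private theorem cong_span {R K : Type u} [CommRing R] [IsDomain R] [Field K] [Algebra R K]
    [IsFractionRing R K] (p e : ℕ) [Fact p.Prime] [CharP R p] (J : Submodule R K)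
    (hJ : DivSys R K (symZ J)) (a : K) (y : symAlg J)
    (hy : (y : Polynomial K) = Polynomial.C a * Polynomial.X) (ξ : symAlg J)
    (ρ : R) (b : K) (hb : b ∈ symZ J (-((p ^ e : ℕ) : ℤ)))
    (hr : algebraMap R K ρ = a ^ p ^ e * b) :
    (ξ ^ p ^ e - (algebraMap R (symAlg J) (constTerm J ξ)) ^ p ^ e) * algebraMap R (symAlg J) ρ ∈
      Ideal.span {y ^ p ^ e} := by
  have : CharP K p := charP_of_injective_algebraMap (IsFractionRing.injective R K) p
  refine mul_mem_span J hJ a y hy (p ^ e) _ ?_ ρ b hb hr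
  have e1 : ((ξ ^ p ^ e - (algebraMap R (symAlg J) (constTerm J ξ)) ^ p ^ e : symAlg J) :
      Polynomial K) = ((ξ : Polynomial K) -
        Polynomial.C (algebraMap R K (constTerm J ξ))) ^ p ^ e := by
    rw [sub_pow_char_pow]
    rfl
  have h1 : Polynomial.X ∣ ((ξ : Polynomial K) -
      Polynomial.C (algebraMap R K (constTerm J ξ))) := by
    rw [Polynomial.X_dvd_iff, Polynomial.coeff_sub, Polynomial.coeff_C_zero,
      algebraMap_constTerm, sub_self]
  rw [e1]
  exact Polynomial.X_pow_dvd_iff.1 (pow_dvd_pow_of_dvd h1 _)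

theorem stage3 {R K : Type u} [CommRing R] [IsDomain R] [Field K] [Algebra R K]
    [IsFractionRing R K] (p e : ℕ) [Fact p.Prime] [CharP R p] (J : Submodule R K)
    (hJ : DivSys R K (symZ J)) (a : K) (ha : a ∈ symZ J 1) (y : symAlg J)
    (hy : (y : Polynomial K) = Polynomial.C a * Polynomial.X) {d : ℕ} (x : Fin d → symAlg J)
    (w : K) (hw : w ∈ symZ J (-1)) (u₀ : R) (hu : algebraMap R K u₀ = a * w)
    {A : Type u} [CommRing A] (ι : symAlg J →+* A)
    (hreg : RegSeq (Fin.cons (ι y) (fun i => ι (x i)) : Fin (d + 1) → A)) (r : R) (T : ℕ)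
    (h : (r * ∏ i, (constTerm J (x i)) ^ (p ^ e * T)) • w ^ p ^ e ∈
      powId (fun i => constTerm J (x i)) (fun _ => p ^ e * (T + 1)) •
        symZ J (-((p ^ e : ℕ) : ℤ))) :
    ι (algebraMap R (symAlg J) r * (algebraMap R (symAlg J) u₀) ^ p ^ e) ∈
      powId (Fin.cons (ι y) (fun i => ι (x i)) : Fin (d + 1) → A) (fun _ => p ^ e) := by
  obtain ⟨q, hq⟩ : ∃ q, q = p ^ e := ⟨_, rfl⟩
  have hinj : Function.Injective (algebraMap R K) := IsFractionRing.injective R K
  -- membership facts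
  have hwq : w ^ p ^ e ∈ symZ J (-((p ^ e : ℕ) : ℤ)) := by
    have h1 := pow_mem_symZ J hJ hw (p ^ e)
    rwa [mul_neg_one] at h1
  have haq : a ^ p ^ e ∈ symZ J ((p ^ e : ℕ) : ℤ) := by
    have h1 := pow_mem_symZ J hJ ha (p ^ e)
    rwa [mul_one] at h1
  have hrw : algebraMap R K r * w ^ p ^ e ∈ symZ J (-((p ^ e : ℕ) : ℤ)) := by
    rw [← Algebra.smul_def]
    exact Submodule.smul_mem _ _ hwq
  obtain ⟨θ, hθ⟩ : ∃ θ : R, θ = r * u₀ ^ p ^ e := ⟨_, rfl⟩
  have hθK : algebraMap R K θ = a ^ p ^ e * (algebraMap R K r * w ^ p ^ e) := by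
    rw [hθ, map_mul, map_pow, hu, mul_pow]
    ring
  have hθS : algebraMap R (symAlg J) r * (algebraMap R (symAlg J) u₀) ^ p ^ e =
      algebraMap R (symAlg J) θ := by
    rw [hθ, map_mul, map_pow]
  rw [hθS]
  -- the ideal in `S`
  obtain ⟨I, hI⟩ : ∃ I : Ideal (symAlg J), I = Ideal.span {y ^ p ^ e} ⊔
      Ideal.span (Set.range fun i => x i ^ (p ^ e * (T + 1))) := ⟨_, rfl⟩
  -- the relation in `R`
  obtain ⟨b, hb, hsum⟩ := exists_sum _ _ _ h
  have hρ : ∀ i, ∃ ρ : R, algebraMap R K ρ = a ^ p ^ e * b i := by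
    intro i
    have h1 := hJ.mul _ _ _ haq _ (hb i)
    rw [add_neg_cancel, hJ.zero] at h1
    exact Submodule.mem_one.1 h1
  choose ρ hρ using hρ
  have hrel : (∏ i, constTerm J (x i) ^ (p ^ e * T)) * θ =
      ∑ i, constTerm J (x i) ^ (p ^ e * (T + 1)) * ρ i := by
    apply hinj
    rw [map_mul, hθK, map_sum]
    have h1 : ∀ i, algebraMap R K (constTerm J (x i) ^ (p ^ e * (T + 1)) * ρ i) =
        a ^ p ^ e * ((constTerm J (x i) ^ (p ^ e * (T + 1))) • b i) := by
      intro i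
      rw [map_mul, hρ, Algebra.smul_def]
      ring
    simp only [h1]
    rw [← Finset.mul_sum, ← hsum, Algebra.smul_def, map_mul]
    ring
  have key : algebraMap R (symAlg J) θ * ∏ i, x i ^ (p ^ e * T) ∈ I := by
    have h1 := cong_span p e J hJ a y hy (∏ i, x i ^ T) θ _ hrw hθK
    have e1 : (∏ i, x i ^ T) ^ p ^ e = ∏ i, x i ^ (p ^ e * T) := by
      rw [← Finset.prod_pow]
      exact Finset.prod_congr rfl fun i _ => by rw [← pow_mul, mul_comm T]
    have e2 : (algebraMap R (symAlg J) (constTerm J (∏ i, x i ^ T))) ^ p ^ e =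
        algebraMap R (symAlg J) (∏ i, constTerm J (x i) ^ (p ^ e * T)) := by
      rw [← map_pow, map_prod, ← Finset.prod_pow]
      congr 1
      exact Finset.prod_congr rfl fun i _ => by rw [map_pow, ← pow_mul, mul_comm T]
    rw [e1, e2] at h1
    have h2 : algebraMap R (symAlg J) θ * ∏ i, x i ^ (p ^ e * T) =
        (∏ i, x i ^ (p ^ e * T) -
          algebraMap R (symAlg J) (∏ i, constTerm J (x i) ^ (p ^ e * T))) *
            algebraMap R (symAlg J) θ +
        algebraMap R (symAlg J) ((∏ i, constTerm J (x i) ^ (p ^ e * T)) * θ) := by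
      rw [map_mul]
      ring
    rw [h2, hrel, map_sum, hI]
    refine Ideal.add_mem _ (Ideal.mem_sup_left h1) (Ideal.sum_mem _ fun i _ => ?_)
    have h3 := cong_span p e J hJ a y hy (x i ^ (T + 1)) (ρ i) _ (hb i) (hρ i)
    have e3 : (x i ^ (T + 1)) ^ p ^ e = x i ^ (p ^ e * (T + 1)) := by
      rw [← pow_mul, mul_comm (T + 1)]
    have e4 : (algebraMap R (symAlg J) (constTerm J (x i ^ (T + 1)))) ^ p ^ e =
        algebraMap R (symAlg J) (constTerm J (x i) ^ (p ^ e * (T + 1))) := by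
      rw [← map_pow, map_pow (constTerm J), ← pow_mul, mul_comm (T + 1)]
    rw [e3, e4] at h3
    have h4 : algebraMap R (symAlg J) (constTerm J (x i) ^ (p ^ e * (T + 1)) * ρ i) =
        x i ^ (p ^ e * (T + 1)) * algebraMap R (symAlg J) (ρ i) -
        (x i ^ (p ^ e * (T + 1)) -
          algebraMap R (symAlg J) (constTerm J (x i) ^ (p ^ e * (T + 1)))) *
            algebraMap R (symAlg J) (ρ i) := by
      rw [map_mul]
      ring
    rw [h4]
    exact Ideal.sub_mem _ (Ideal.mem_sup_right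
      (Ideal.mul_mem_right _ _ (Ideal.subset_span ⟨i, rfl⟩))) (Ideal.mem_sup_left h3)
  -- the image in `A`
  have hP := fun (a : Fin (d + 1) → ℕ) (i : Fin (d + 1)) (T : Finset (Fin (d + 1)))
    (hi : i ∉ T) (c : ℕ) (s : A) hs =>
      reg_pow (Fin.cons (ι y) (fun i => ι (x i)) : Fin (d + 1) → A) hreg a i T hi c s hs
  refine colon_prod _ hP (Fin.cons 0 (fun _ => p ^ e * T)) (fun _ => p ^ e) _ ?_
  have hprod : (∏ i : Fin (d + 1), (Fin.cons (ι y) (fun i => ι (x i)) : Fin (d + 1) → A) i ^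
      (Fin.cons 0 (fun _ => p ^ e * T) : Fin (d + 1) → ℕ) i) =
      ι (∏ i, x i ^ (p ^ e * T)) := by
    rw [Fin.prod_univ_succ, map_prod]
    simp only [Fin.cons_zero, Fin.cons_succ, pow_zero, one_mul, map_pow]
  rw [hprod, ← map_mul]
  have hmap : I.map ι ≤ powId (Fin.cons (ι y) (fun i => ι (x i)) : Fin (d + 1) → A)
      (fun i => (Fin.cons 0 (fun _ => p ^ e * T) : Fin (d + 1) → ℕ) i + p ^ e) := by
    rw [hI, Ideal.map_sup, Ideal.map_span, Ideal.map_span, sup_le_iff, Ideal.span_le,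
      Ideal.span_le]
    constructor
    · rintro _ ⟨_, rfl, rfl⟩
      refine Ideal.subset_span ⟨0, ?_⟩
      simp only [Fin.cons_zero, zero_add, map_pow]
    · rintro _ ⟨_, ⟨i, rfl⟩, rfl⟩
      refine Ideal.subset_span ⟨i.succ, ?_⟩
      simp only [Fin.cons_succ, map_pow]
      congr 1
  exact hmap (Ideal.mem_map_of_mem ι key)

end Pool.Agent.FSig.SF
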