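import Pool.Agent.Work.MP_27623f_ag.SF.P1
import Pool.Agent.Work.MP_27623f_ag.ColonPow
import Pool.Agent.Work.MP_27623f_ag.RegPow
import Pool.Agent.Work.MP_27623f_ag.Frob

/-!
MODULE P3 (size M-L).  The element `u₀` is not in the parameter ideal.

PROOF.  Notation: `z_i = constTerm J (x i)`, `X_i = ι (x i)`, `Y = ι y`, `ρ̃ = ι (algebraMap R _ ρ)` for `ρ ∈ R`; `p = 0` in `A`, `ε (ρ̃) = ρ`
(`constTerm J (algebraMap ρ) = ρ`, see SA/StA), `ε Y = 0` (`y` has constant term `0`).  Suppose `ũ₀ ∈ (Y, X_i)`.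
(1) Choose `0 ≠ b ∈ symZ J (-1)` (`hJ.ne`); `a b ∈ symZ J 0 = 1`, `a b = algebraMap ρ`, `ρ ≠ 0`.  There is `t ≥ 1` with `ρ̃ ∉ (Y, X_i^t)`:
otherwise `ρ̃ ∈ (Y) ⊔ m_A^t` for all `t`, so `ρ̃ ∈ (Y)` by Krull (see `exists_pair_of_not_mem` in SA/MaxP), and `ρ = ε ρ̃ ∈ (ε Y) = 0`.
(2) `hdag b t`: `e`, `q = p^e ≥ t`, `s`.  `w^q ∈ symZ J (-q)`, `s w^q ∈ symZ J (-1)`, `a s w^q ∈ 1`, `= algebraMap ρ_s`.
In `S`: `y^(q-1) * algebraMap ρ_s = (monomial (q-1) s) * (algebraMap u₀)^q` (both are `a^q s w^q X^(q-1)`; the monomial is in `symAlg J` as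
`s ∈ symZ J (q-1) = symPow J (q-1)`).  `ũ₀^q ∈ (Y^q, X_i^q)` (Frobenius).  So `Y^(q-1) ρ̃_s ∈ (Y^q, X_i^q)`, and `colon_prod`
(`κ = cons (q-1) 0`, `b = cons 1 q`) gives `ρ̃_s ∈ (Y, X_i^q)`.
(3) `(∏ z_i^(q-t)) b - s w^q = ∑ z_i^q b_i`, `b_i ∈ symZ J (-1)`; times `a`: `(∏ z_i^(q-t)) ρ - ρ_s = ∑ z_i^q ρ_i` in `R`,
`algebraMap ρ_i = a b_i`.  By `mul_mem_span` with exponent `1`: `(f) ρ_i ∈ (y)` for every `f ∈ S` with constant term `0` (and the same for
`ρ`), so modulo `Y`: `z̃_i^q ρ̃_i ≡ X_i^q ρ̃_i` and `(∏ z̃_i^(q-t)) ρ̃ ≡ (∏ X_i^(q-t)) ρ̃`.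
Hence `(∏ X_i^(q-t)) ρ̃ ∈ (Y, X_i^q)`; `colon_prod` (`κ = cons 0 (q-t)`, `b = cons 1 t`) gives `ρ̃ ∈ (Y, X_i^t)`, a contradiction.
-/

set_option autoImplicit false

namespace Pool.Agent.FSig.SF

open Pool.Agent.FSig Pool.Agent.FSig.SA IsLocalRing

universe u

private theorem p3_krull {A : Type*} [CommRing A] [IsNoetherianRing A] [IsLocalRing A]
    (a : Ideal A) {x : A} (hx : x ∉ a) :
    ∃ t, x ∉ a ⊔ maximalIdeal A ^ (t + 1) := by
  by_contra hcon
  push Not at hcon
  have ha : a ≠ ⊤ := by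
    rintro rfl
    exact hx trivial
  have hnt : Nontrivial (A ⧸ a) := Ideal.Quotient.nontrivial_iff.mpr ha
  have hloc : IsLocalRing (A ⧸ a) :=
    IsLocalRing.of_surjective' (Ideal.Quotient.mk a) Ideal.Quotient.mk_surjective
  have ham : a ≤ maximalIdeal A := IsLocalRing.le_maximalIdeal ha
  have hmap : (maximalIdeal A).map (Ideal.Quotient.mk a) ≤ maximalIdeal (A ⧸ a) := by
    rw [Ideal.map_le_iff_le_comap]
    intro b hb
    rw [Ideal.mem_comap, IsLocalRing.mem_maximalIdeal, mem_nonunits_iff]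
    intro hu
    obtain ⟨c', hc'⟩ := hu.exists_right_inv
    obtain ⟨c, rfl⟩ := Ideal.Quotient.mk_surjective c'
    rw [← map_mul, ← map_one (Ideal.Quotient.mk a), Ideal.Quotient.eq] at hc'
    have h1 : b * c - 1 ∈ maximalIdeal A := ham hc'
    have h2 : b * c ∈ maximalIdeal A := Ideal.mul_mem_right _ _ hb
    have h3 : (1 : A) ∈ maximalIdeal A := by
      have := Ideal.sub_mem _ h2 h1
      rwa [sub_sub_cancel] at this
    exact (Ideal.ne_top_iff_one _).1 (IsLocalRing.maximalIdeal.isMaximal A).ne_top h3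
  have hall : Ideal.Quotient.mk a x ∈ (⨅ i : ℕ, maximalIdeal (A ⧸ a) ^ i) := by
    rw [Ideal.mem_iInf]
    intro i
    rcases i with _ | t
    · rw [pow_zero, Ideal.one_eq_top]
      trivial
    · have h1 := Ideal.mem_map_of_mem (Ideal.Quotient.mk a) (hcon t)
      rw [Ideal.map_sup, Ideal.map_quotient_self, bot_sup_eq, Ideal.map_pow] at h1
      exact Ideal.pow_right_mono hmap _ h1
  rw [Ideal.iInf_pow_eq_bot_of_isLocalRing _ (IsLocalRing.maximalIdeal.isMaximal _).ne_top,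
    Ideal.mem_bot, Ideal.Quotient.eq_zero_iff_mem] at hall
  exact hx hall

private theorem p3_pow_mem {R K : Type*} [CommRing R] [Field K] [Algebra R K]
    {J : ℤ → Submodule R K} (hJ : DivSys R K J) (i : ℤ) (x : K) (hx : x ∈ J i) (k : ℕ) :
    x ^ k ∈ J (k * i) := by
  induction k with
  | zero =>
    rw [pow_zero, Nat.cast_zero, zero_mul, hJ.zero]
    exact Submodule.one_le.1 le_rfl
  | succ k ih =>
    have h1 := hJ.mul _ _ _ ih _ hx
    have h2 : ((k + 1 : ℕ) : ℤ) * i = k * i + i := by push_cast; ring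
    rw [h2, pow_succ]
    exact h1

private theorem p3_sum {R K : Type*} [CommRing R] [Field K] [Algebra R K] {d : ℕ}
    (x : Fin d → R) (a : Fin d → ℕ) (M : Submodule R K) (v : K) (hv : v ∈ powId x a • M) :
    ∃ f : Fin d → K, (∀ i, f i ∈ M) ∧ v = ∑ i, x i ^ a i • f i := by
  refine Submodule.smul_induction_on (p := fun v => ∃ f : Fin d → K, (∀ i, f i ∈ M) ∧
    v = ∑ i, x i ^ a i • f i) hv ?_ ?_
  · intro r hr m hm
    obtain ⟨c, rfl⟩ := Ideal.mem_span_range_iff_exists_fun.1 hr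
    refine ⟨fun i => c i • m, fun i => M.smul_mem _ hm, ?_⟩
    rw [Finset.sum_smul]
    refine Finset.sum_congr rfl fun i _ => ?_
    rw [smul_smul, mul_comm]
  · rintro u v ⟨f, hf, rfl⟩ ⟨g, hg, rfl⟩
    refine ⟨fun i => f i + g i, fun i => M.add_mem (hf i) (hg i), ?_⟩
    rw [← Finset.sum_add_distrib]
    refine Finset.sum_congr rfl fun i _ => ?_
    rw [smul_add]

private theorem p3_colon {A : Type*} [CommRing A] {d : ℕ} (Y : A) (X : Fin d → A)
    (hreg : RegSeq (Fin.cons Y X : Fin (d + 1) → A)) (κ k b₀ b : ℕ) (s : A)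
    (h : s * (Y ^ κ * ∏ i, X i ^ k) ∈ powId (Fin.cons Y X : Fin (d + 1) → A)
      (Fin.cons (κ + b₀) (fun _ => k + b))) :
    s ∈ powId (Fin.cons Y X : Fin (d + 1) → A) (Fin.cons b₀ (fun _ => b)) := by
  have hP := fun (a : Fin (d + 1) → ℕ) (i : Fin (d + 1)) (T : Finset (Fin (d + 1)))
    (hi : i ∉ T) (c : ℕ) (s : A) hs => reg_pow (Fin.cons Y X) hreg a i T hi c s hs
  refine colon_prod _ hP (Fin.cons κ (fun _ => k)) (Fin.cons b₀ (fun _ => b)) s ?_
  have e1 : ∏ i, (Fin.cons Y X : Fin (d + 1) → A) i ^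
      (Fin.cons κ (fun _ => k) : Fin (d + 1) → ℕ) i = Y ^ κ * ∏ i, X i ^ k := by
    rw [Fin.prod_univ_succ]
    simp only [Fin.cons_zero, Fin.cons_succ]
  have e2 : (fun i => (Fin.cons κ (fun _ => k) : Fin (d + 1) → ℕ) i +
      (Fin.cons b₀ (fun _ => b) : Fin (d + 1) → ℕ) i) =
      (Fin.cons (κ + b₀) (fun _ => k + b) : Fin (d + 1) → ℕ) := by
    funext i
    refine Fin.cases ?_ (fun j => ?_) i
    · simp only [Fin.cons_zero]
    · simp only [Fin.cons_succ]
  rw [e1, e2]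
  exact h

private theorem p3_memY {A : Type*} [CommRing A] {d : ℕ} (Y : A) (X : Fin d → A) (b₀ b : ℕ) :
    Y ^ b₀ ∈ powId (Fin.cons Y X : Fin (d + 1) → A) (Fin.cons b₀ (fun _ => b)) := by
  refine Ideal.subset_span ⟨0, ?_⟩
  simp only [Fin.cons_zero]

private theorem p3_memX {A : Type*} [CommRing A] {d : ℕ} (Y : A) (X : Fin d → A) (b₀ b : ℕ)
    (i : Fin d) :
    X i ^ b ∈ powId (Fin.cons Y X : Fin (d + 1) → A) (Fin.cons b₀ (fun _ => b)) := by
  refine Ideal.subset_span ⟨i.succ, ?_⟩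
  simp only [Fin.cons_succ]

private theorem p3_le {A : Type*} [CommRing A] {d : ℕ} (Y : A) (X : Fin d → A) (b₀ b : ℕ)
    (I : Ideal A) (hY : Y ^ b₀ ∈ I) (hX : ∀ i, X i ^ b ∈ I) :
    powId (Fin.cons Y X : Fin (d + 1) → A) (Fin.cons b₀ (fun _ => b)) ≤ I := by
  unfold powId
  rw [Ideal.span_le]
  rintro _ ⟨i, rfl⟩
  refine Fin.cases ?_ (fun j => ?_) i
  · show _ ∈ I
    simp only [Fin.cons_zero]
    exact hY
  · show _ ∈ I
    simp only [Fin.cons_succ]
    exact hX j

theorem stage4 {R K : Type u} [CommRing R] [IsDomain R] [Field K] [Algebra R K]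
    [IsFractionRing R K] (p : ℕ) [Fact p.Prime] [CharP R p] (J : Submodule R K)
    (hJ : DivSys R K (symZ J)) (a : K) (ha0 : a ≠ 0) (ha : a ∈ symZ J 1) (y : symAlg J)
    (hy : (y : Polynomial K) = Polynomial.C a * Polynomial.X) {d : ℕ} (x : Fin d → symAlg J)
    (w : K) (hw : w ∈ symZ J (-1)) (u₀ : R) (hu : algebraMap R K u₀ = a * w)
    {A : Type u} [CommRing A] [IsNoetherianRing A] [IsLocalRing A] (ι : symAlg J →+* A)
    (ε : A →+* R) (hε : ∀ f, ε (ι f) = constTerm J f)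
    (hxm : ∀ i, ι (x i) ∈ maximalIdeal A)
    (hreg : RegSeq (Fin.cons (ι y) (fun i => ι (x i)) : Fin (d + 1) → A))
    (hdag : ∀ b ∈ symZ J (-1), ∀ t : ℕ, 1 ≤ t → ∃ e : ℕ, t ≤ p ^ e ∧
      ∃ s ∈ symZ J (((p ^ e : ℕ) : ℤ) - 1),
        (∏ i, (constTerm J (x i)) ^ (p ^ e - t)) • b - s * w ^ p ^ e ∈
          powId (fun i => constTerm J (x i)) (fun _ => p ^ e) • symZ J (-1)) :
    ι (algebraMap R (symAlg J) u₀) ∉
      Ideal.span (Set.range (Fin.cons (ι y) (fun i => ι (x i)) : Fin (d + 1) → A)) := by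
  classical
  intro hcon
  set Y : A := ι y with hYdef
  set X : Fin d → A := fun i => ι (x i) with hXdef
  set z : Fin d → R := fun i => constTerm J (x i) with hzdef
  have hp : p.Prime := Fact.out
  have hinjK : Function.Injective (algebraMap R K) := FaithfulSMul.algebraMap_injective R K
  have hct : ∀ r : R, constTerm J (algebraMap R (symAlg J) r) = r := by
    intro r
    apply hinjK
    rw [algebraMap_constTerm]
    have h1 : ((algebraMap R (symAlg J) r : symAlg J) : Polynomial K) =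
        algebraMap R (Polynomial K) r := rfl
    rw [h1, Polynomial.algebraMap_apply, Polynomial.coeff_C_zero]
  have hcoe : ∀ r : R, ((algebraMap R (symAlg J) r : symAlg J) : Polynomial K) =
      Polynomial.C (algebraMap R K r) := by
    intro r
    have h1 : ((algebraMap R (symAlg J) r : symAlg J) : Polynomial K) =
        algebraMap R (Polynomial K) r := rfl
    rw [h1, Polynomial.algebraMap_apply]
  have hεr : ∀ r : R, ε (ι (algebraMap R (symAlg J) r)) = r := fun r => by rw [hε, hct]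
  have hy0 : constTerm J y = 0 := by
    apply hinjK
    rw [algebraMap_constTerm, hy, map_zero]
    simp
  have hcA : CharP A p := by
    rw [CharP.charP_iff_prime_eq_zero hp]
    have h1 : ((p : ℕ) : R) = 0 := CharP.cast_eq_zero _ p
    have h2 := congrArg (ι.comp (algebraMap R (symAlg J))) h1
    rw [map_natCast, map_zero] at h2
    exact h2
  have hEA : ExpChar A p := ExpChar.prime hp
  -- the congruence modulo `y`
  have hcong : ∀ (f : symAlg J) (ρ' : R) (b' : K), constTerm J f = 0 → b' ∈ symZ J (-1) →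
      algebraMap R K ρ' = a * b' → ι (f * algebraMap R (symAlg J) ρ') ∈ Ideal.span {Y} := by
    intro f ρ' b' hf hb' hρ'
    have h1 := mul_mem_span J hJ a y hy 1 f (by
      intro n hn
      have : n = 0 := by omega
      rw [this, ← algebraMap_constTerm, hf, map_zero]) ρ' b' (by simpa using hb')
      (by rw [pow_one]; exact hρ')
    rw [pow_one, Ideal.mem_span_singleton'] at h1
    obtain ⟨g, hg⟩ := h1
    rw [Ideal.mem_span_singleton']
    exact ⟨ι g, by rw [← map_mul, hg]⟩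
  -- (1)
  obtain ⟨b, hb, hb0⟩ := hJ.ne (-1)
  have hone : ∀ v ∈ symZ J (-1), ∃ ρ' : R, algebraMap R K ρ' = a * v := by
    intro v hv
    have h1 := hJ.mul 1 (-1) a ha v hv
    have h2 : (1 : ℤ) + -1 = 0 := by norm_num
    rw [h2, hJ.zero] at h1
    exact Submodule.mem_one.1 h1
  obtain ⟨ρ, hρ⟩ := hone b hb
  have hρ0 : ρ ≠ 0 := by
    rintro rfl
    rw [map_zero] at hρ
    exact mul_ne_zero ha0 hb0 hρ.symm
  obtain ⟨t, ht1, ht⟩ : ∃ t : ℕ, 1 ≤ t ∧ ι (algebraMap R (symAlg J) ρ) ∉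
      powId (Fin.cons Y X : Fin (d + 1) → A) (Fin.cons 1 (fun _ => t)) := by
    by_contra hall
    push Not at hall
    have hmem : ι (algebraMap R (symAlg J) ρ) ∈ Ideal.span {Y} := by
      by_contra hn
      obtain ⟨t, ht⟩ := p3_krull _ hn
      apply ht
      refine p3_le Y X 1 (t + 1) _ ?_ ?_ (hall (t + 1) (by omega))
      · rw [pow_one]
        exact Ideal.mem_sup_left (Ideal.mem_span_singleton_self Y)
      · intro i
        exact Ideal.mem_sup_right (Ideal.pow_mem_pow (hxm i) _)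
    obtain ⟨g, hg⟩ := Ideal.mem_span_singleton'.1 hmem
    apply hρ0
    rw [← hεr ρ, ← hg, map_mul, hYdef, hε, hy0, mul_zero]
  -- (2)
  obtain ⟨e, hte, s, hs, hmem⟩ := hdag b hb t ht1
  set q : ℕ := p ^ e with hq
  have hq1 : 1 ≤ q := ht1.trans hte
  have hwq : w ^ q ∈ symZ J (-(q : ℤ)) := by
    have h1 := p3_pow_mem hJ (-1) w hw q
    rwa [mul_neg_one] at h1
  have hsw : s * w ^ q ∈ symZ J (-1) := by
    have h1 := hJ.mul _ _ s hs _ hwq
    have h2 : ((q : ℤ) - 1) + -(q : ℤ) = -1 := by ring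
    rwa [h2] at h1
  obtain ⟨ρs, hρs⟩ := hone _ hsw
  have hmon : Polynomial.monomial (q - 1) s ∈ symAlg J := by
    intro n
    rw [Polynomial.coeff_monomial]
    split_ifs with h
    · rw [← h]
      have h1 : ((q : ℤ) - 1) = ((q - 1 : ℕ) : ℤ) := by
        rw [Nat.cast_sub hq1, Nat.cast_one]
      rw [h1] at hs
      exact hs
    · exact Submodule.zero_mem _
  have hid : y ^ (q - 1) * algebraMap R (symAlg J) ρs =
      (⟨_, hmon⟩ : symAlg J) * (algebraMap R (symAlg J) u₀) ^ q := by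
    apply Subtype.ext
    show (y : Polynomial K) ^ (q - 1) * ((algebraMap R (symAlg J) ρs : symAlg J) : Polynomial K) =
      Polynomial.monomial (q - 1) s *
        ((algebraMap R (symAlg J) u₀ : symAlg J) : Polynomial K) ^ q
    rw [hcoe, hcoe, hρs, hu, hy, mul_pow, ← Polynomial.C_pow, ← Polynomial.C_pow,
      ← Polynomial.C_mul_X_pow_eq_monomial]
    have h1 : a ^ q = a ^ (q - 1) * a := by
      rw [← pow_succ]
      congr 1
      omega
    rw [mul_pow, h1]
    simp only [Polynomial.C_mul, Polynomial.C_pow]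
    ring
  have hcons : (fun _ : Fin (d + 1) => q) = Fin.cons ((q - 1) + 1) (fun _ => 0 + q) := by
    funext i
    refine Fin.cases ?_ (fun j => ?_) i
    · simp only [Fin.cons_zero]
      omega
    · simp only [Fin.cons_succ]
      omega
  have hfrob : ι (algebraMap R (symAlg J) u₀) ^ q ∈
      powId (Fin.cons Y X : Fin (d + 1) → A) (fun _ => q) := by
    have h1 := pow_mem_frobPow q hcon
    rw [hq, frobPow_eq_map, Ideal.map_span, ← Set.range_comp] at h1
    unfold powId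
    have h2 : ((iterateFrobenius A p e) ∘ (Fin.cons Y X : Fin (d + 1) → A)) =
        fun i => (Fin.cons Y X : Fin (d + 1) → A) i ^ q := by
      funext i
      simp only [Function.comp_apply, iterateFrobenius_def, hq]
    have h3 : (⇑(iterateFrobenius A p e) ∘ (Fin.cons (ι y) (fun i => ι (x i)) :
        Fin (d + 1) → A)) = fun i => (Fin.cons Y X : Fin (d + 1) → A) i ^ q := h2
    rw [h3] at h1
    exact h1
  have hρs' : ι (algebraMap R (symAlg J) ρs) ∈
      powId (Fin.cons Y X : Fin (d + 1) → A) (Fin.cons 1 (fun _ => q)) := by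
    apply p3_colon Y X hreg (q - 1) 0 1 q
    rw [← hcons]
    have h1 : ι (algebraMap R (symAlg J) ρs) * (Y ^ (q - 1) * ∏ i, X i ^ 0) =
        ι ⟨_, hmon⟩ * ι (algebraMap R (symAlg J) u₀) ^ q := by
      have h2 := congrArg ι hid
      rw [map_mul, map_mul, map_pow, map_pow] at h2
      rw [← h2]
      simp only [pow_zero, Finset.prod_const_one]
      ring
    rw [h1]
    exact Ideal.mul_mem_left _ _ hfrob
  -- (3)
  obtain ⟨g, hg, hgs⟩ := p3_sum _ _ _ _ hmem
  choose ρi hρi using fun i => hone (g i) (hg i)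
  have hR : (∏ i, z i ^ (q - t)) * ρ - ρs = ∑ i, z i ^ q * ρi i := by
    apply hinjK
    rw [map_sub, map_mul, hρ, hρs, map_sum]
    have h1 := congrArg (fun v => a * v) hgs
    simp only [mul_sub, Finset.mul_sum] at h1
    have h2 : ∀ i ∈ Finset.univ, algebraMap R K (z i ^ q * ρi i) =
        a * (z i ^ q • g i) := by
      intro i _
      rw [map_mul, hρi, Algebra.smul_def]
      ring
    rw [Finset.sum_congr rfl h2, ← h1, Algebra.smul_def]
    ring
  have hsumA : ι (algebraMap R (symAlg J) ((∏ i, z i ^ (q - t)) * ρ)) =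
      ι (algebraMap R (symAlg J) ρs) + ∑ i, ι (algebraMap R (symAlg J) (z i ^ q * ρi i)) := by
    have h1 : (∏ i, z i ^ (q - t)) * ρ = ρs + ∑ i, z i ^ q * ρi i := by
      rw [← hR]
      ring
    rw [h1, map_add, map_add, map_sum, map_sum]
  have hY1 : Ideal.span {Y} ≤
      powId (Fin.cons Y X : Fin (d + 1) → A) (Fin.cons 1 (fun _ => q)) := by
    rw [Ideal.span_singleton_le_iff_mem]
    have := p3_memY Y X 1 q
    rwa [pow_one] at this
  have hterm : ∀ i, ι (algebraMap R (symAlg J) (z i ^ q * ρi i)) ∈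
      powId (Fin.cons Y X : Fin (d + 1) → A) (Fin.cons 1 (fun _ => q)) := by
    intro i
    have h1 := hcong (algebraMap R (symAlg J) (z i) ^ q - x i ^ q) (ρi i) (g i) (by
      rw [map_sub, map_pow, map_pow, hct]
      exact sub_self _) (hg i) (hρi i)
    have h2 : ι (algebraMap R (symAlg J) (z i ^ q * ρi i)) =
        ι ((algebraMap R (symAlg J) (z i) ^ q - x i ^ q) * algebraMap R (symAlg J) (ρi i)) +
          ι (algebraMap R (symAlg J) (ρi i)) * X i ^ q := by
      rw [hXdef]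
      simp only [map_mul, map_sub, map_pow]
      ring
    rw [h2]
    exact Ideal.add_mem _ (hY1 h1) (Ideal.mul_mem_left _ _ (p3_memX Y X 1 q i))
  have hfin : ι (algebraMap R (symAlg J) ρ) * (Y ^ 0 * ∏ i, X i ^ (q - t)) ∈
      powId (Fin.cons Y X : Fin (d + 1) → A) (Fin.cons (0 + 1) (fun _ => (q - t) + t)) := by
    have e1 : (Fin.cons (0 + 1) (fun _ => (q - t) + t) : Fin (d + 1) → ℕ) =
        Fin.cons 1 (fun _ => q) := by
      funext i
      refine Fin.cases ?_ (fun j => ?_) i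
      · simp only [Fin.cons_zero]
      · simp only [Fin.cons_succ]
        omega
    rw [e1]
    have h1 := hcong (algebraMap R (symAlg J) (∏ i, z i ^ (q - t)) - ∏ i, x i ^ (q - t)) ρ b (by
      rw [map_sub, hct, map_prod]
      simp only [map_pow]
      exact sub_self _) hb hρ
    have h2 : ι (algebraMap R (symAlg J) ρ) * (Y ^ 0 * ∏ i, X i ^ (q - t)) =
        ι (algebraMap R (symAlg J) ((∏ i, z i ^ (q - t)) * ρ)) -
          ι ((algebraMap R (symAlg J) (∏ i, z i ^ (q - t)) - ∏ i, x i ^ (q - t)) *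
            algebraMap R (symAlg J) ρ) := by
      rw [map_mul (algebraMap R (symAlg J)), ← map_sub, sub_mul, sub_sub_cancel, map_mul, map_prod,
        hXdef]
      simp only [map_pow]
      ring
    rw [h2, hsumA]
    refine Ideal.sub_mem _ (Ideal.add_mem _ hρs' (Ideal.sum_mem _ fun i _ => hterm i)) (hY1 h1)
  exact ht (p3_colon Y X hreg 0 (q - t) 1 t _ hfin)

end Pool.Agent.FSig.SF
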