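import Pool.Agent.Work.MP_27623f_ag.SF.Defs

/-!
MODULE W5 (size M).  Powers of a system of parameters and a canonical module.

PROOF.
`isSop_pow`: same radical; `Ideal.exists_pow_le_of_le_radical_of_fg` (or `exists_pow_le_frobPow`-like); `z_i^(a_i) ∈ m` as `a_i ≥ 1`.
`colon_W`: let `∏ z_i^(κ_i) • b ∈ (z_i^(κ_i+β_i)) W`, all `β_i ≥ 1`.  Claim by induction on a set `T` of indices: for the exponents
`a_i = β_i` (`i ∈ T`), `a_i = κ_i + β_i` (`i ∉ T`) one has `∏_(i ∉ T) z_i^(κ_i) • b ∈ (z_i^(a_i)) W`.  Step, `i ∉ T`: with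
`b' = ∏_(j ∉ T, j ≠ i) z_j^(κ_j) • b`: `z_i^(κ_i) b' = z_i^(κ_i+β_i) w' + v`, `w' ∈ W`, `v ∈ (z_j^(a_j) : j ≠ i) W`, so
`z_i^(κ_i) (b' - z_i^(β_i) w') ∈ (z_j^(a_j) : j ≠ i) W`; if `κ_i ≥ 1` use regularity of the system of parameters with exponents `κ_i` at `i` and
`a_j` at `j ≠ i` (`hreg`), `T = univ.erase i` there; if `κ_i = 0` nothing is to be done.  So
`b' ∈ (z_i^(β_i), z_j^(a_j)) W`.  (In the applications `b ∈ W`.)
`socGen_pow`: `hcan` for the system of parameters `z^t` gives `w_t` with `SocGen W (z^t) w_t`.  `x = (∏ z_i^(t-1)) • w ∉ (z^t) W` by `colon_W`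
(`κ = t-1`, `β = 1`).  `m x ⊆ (z^t) W`: `r ∈ m`: `r w ∈ (z) W` (otherwise `s r w - w ∈ (z) W`, `1 - s r` is a unit, `w ∈ (z)W`), and
`(∏ z_i^(t-1)) z_j W ⊆ z_j^t W`.  There is `r` with `r x - w_t ∈ (z^t) W`; `r` is a unit (otherwise `w_t ∈ (z^t)W`).  For
`b ∈ W`, `b ∉ (z^t) W`: `s b - w_t ∈ (z^t) W`, so `r⁻¹ s b - x ∈ (z^t) W`.
`powId z (fun _ => 1) = span (range z)`.
-/

set_option autoImplicit false

namespace Pool.Agent.FSig.SF

open Pool.Agent.FSig Pool.Agent.FSig.SA IsLocalRing

universe u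

private theorem w5_split {R : Type u} [CommRing R] {d : ℕ} (z : Fin d → R) (a : Fin d → ℕ)
    (i : Fin d) : powId z a = Ideal.span {z i ^ a i} ⊔
      Ideal.span ((fun j => z j ^ a j) '' ((Finset.univ.erase i : Finset (Fin d)) : Set (Fin d))) := by
  unfold powId
  rw [← Ideal.span_union]
  congr 1
  ext y
  simp only [Set.mem_range, Set.mem_union, Set.mem_image, Finset.coe_erase, Finset.coe_univ,
    Set.mem_sdiff, Set.mem_univ, true_and, Set.mem_singleton_iff]
  constructor
  · rintro ⟨j, rfl⟩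
    by_cases h : j = i
    · left
      rw [h]
    · right
      exact ⟨j, h, rfl⟩
  · rintro (rfl | ⟨j, -, rfl⟩)
    · exact ⟨i, rfl⟩
    · exact ⟨j, rfl⟩

private theorem w5_single {R K : Type u} [CommRing R] [AddCommGroup K] [Module R K]
    (W : Submodule R K) (r : R) (y : K) :
    y ∈ Ideal.span {r} • W ↔ ∃ w ∈ W, r • w = y := by
  rw [Submodule.ideal_span_singleton_smul]
  exact Iff.rfl

theorem isSop_pow {R : Type u} [CommRing R] [IsNoetherianRing R] [IsLocalRing R] {d : ℕ}
    (z : Fin d → R) (hz : IsSop z) (a : Fin d → ℕ) (ha : ∀ i, 1 ≤ a i) :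
    IsSop (fun i => z i ^ a i) := by
  refine ⟨hz.dim, fun i => Ideal.pow_mem_of_mem _ (hz.mem i) _ (ha i), ?_⟩
  obtain ⟨c, hc⟩ := hz.prim
  have h1 : Ideal.span (Set.range z) ≤ (Ideal.span (Set.range fun i => z i ^ a i)).radical := by
    rw [Ideal.span_le]
    rintro _ ⟨i, rfl⟩
    exact ⟨a i, Ideal.subset_span ⟨i, rfl⟩⟩
  have h2 : maximalIdeal R ^ c ≤ (Ideal.span (Set.range fun i => z i ^ a i)).radical :=
    hc.trans h1
  have h3 : maximalIdeal R ≤ (Ideal.span (Set.range fun i => z i ^ a i)).radical := by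
    intro x hx
    have h4 : x ^ c ∈ (Ideal.span (Set.range fun i => z i ^ a i)).radical :=
      h2 (Ideal.pow_mem_pow hx c)
    exact Ideal.radical_idem (Ideal.span (Set.range fun i => z i ^ a i)) ▸
      (⟨c, h4⟩ : x ∈ (Ideal.span (Set.range fun i => z i ^ a i)).radical.radical)
  exact Ideal.exists_pow_le_of_le_radical_of_fg h3 (IsNoetherian.noetherian _)

private theorem w5_one {R K : Type u} [CommRing R] [IsNoetherianRing R] [IsLocalRing R]
    [AddCommGroup K] [Module R K] (W : Submodule R K) (hcan : IsCanonical W) {d : ℕ}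
    (z : Fin d → R) (hz : IsSop z) (a : Fin d → ℕ) (ha : ∀ i, 1 ≤ a i) (i : Fin d) (c : ℕ)
    (hc : c ≤ a i) (b : K) (hb : b ∈ W)
    (h : z i ^ c • b ∈ powId z a • W) : b ∈ powId z (Function.update a i (a i - c)) • W := by
  rcases Nat.eq_zero_or_pos c with h0 | h0
  · subst h0
    rw [Nat.sub_zero, Function.update_eq_self]
    simpa using h
  rw [w5_split z a i, Submodule.sup_smul] at h
  obtain ⟨y, hy, v, hv, hyv⟩ := Submodule.mem_sup.mp h
  obtain ⟨w', hw', rfl⟩ := (w5_single W _ _).mp hy
  have hsop := isSop_pow z hz (Function.update a i c) (by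
    intro j
    by_cases hj : j = i
    · subst hj
      rw [Function.update_self]
      exact h0
    · rw [Function.update_of_ne hj]
      exact ha j)
  have himg : ∀ e : ℕ, (fun j => z j ^ (Function.update a i e) j) ''
        ((Finset.univ.erase i : Finset (Fin d)) : Set (Fin d)) =
        (fun j => z j ^ a j) '' ((Finset.univ.erase i : Finset (Fin d)) : Set (Fin d)) := by
    intro e
    apply Set.image_congr
    intro j hj
    have hji : j ≠ i := Finset.ne_of_mem_erase (Finset.mem_coe.mp hj)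
    simp only [Function.update_of_ne hji]
  have hreg := (hcan d _ hsop).1 i (Finset.univ.erase i) (Finset.notMem_erase i _)
    (b - z i ^ (a i - c) • w') (W.sub_mem hb (W.smul_mem _ hw'))
  rw [himg c] at hreg
  have e1 : (fun j => z j ^ (Function.update a i c) j) i • (b - z i ^ (a i - c) • w') = v := by
    show z i ^ (Function.update a i c) i • (b - z i ^ (a i - c) • w') = v
    rw [Function.update_self, smul_sub, smul_smul, ← pow_add, Nat.add_sub_cancel' hc, ← hyv]
    abel
  have h5 := hreg (by rw [e1]; exact hv)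
  rw [w5_split z _ i, Submodule.sup_smul, himg, Function.update_self]
  have e2 : b = z i ^ (a i - c) • w' + (b - z i ^ (a i - c) • w') := by abel
  rw [e2]
  exact Submodule.add_mem_sup ((w5_single W _ _).mpr ⟨w', hw', rfl⟩) h5

private theorem w5_T {R K : Type u} [CommRing R] [IsNoetherianRing R] [IsLocalRing R]
    [AddCommGroup K] [Module R K] (W : Submodule R K) (hcan : IsCanonical W) {d : ℕ}
    (z : Fin d → R) (hz : IsSop z) (κ β : Fin d → ℕ) (hβ : ∀ i, 1 ≤ β i) (T : Finset (Fin d)) :
    ∀ b ∈ W, (∏ i ∈ T, z i ^ κ i) • b ∈ powId z (fun i => if i ∈ T then κ i + β i else β i) • W →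
    b ∈ powId z β • W := by
  induction T using Finset.induction_on with
  | empty =>
    intro b _ h
    simpa using h
  | insert i T hi ih =>
    intro b hb h
    apply ih b hb
    rw [Finset.prod_insert hi, mul_smul] at h
    have h2 := w5_one W hcan z hz _ (by
      intro j
      show 1 ≤ if j ∈ insert i T then κ j + β j else β j
      have := hβ j
      split_ifs <;> omega) i (κ i) (by
      show κ i ≤ if i ∈ insert i T then κ i + β i else β i
      rw [if_pos (Finset.mem_insert_self i T)]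
      omega) _ (W.smul_mem _ hb) h
    have h3 : Function.update (fun j => if j ∈ insert i T then κ j + β j else β j) i
        ((if i ∈ insert i T then κ i + β i else β i) - κ i) =
        fun j => if j ∈ T then κ j + β j else β j := by
      funext j
      by_cases hj : j = i
      · subst hj
        rw [Function.update_self, if_pos (Finset.mem_insert_self _ _), if_neg hi]
        omega
      · rw [Function.update_of_ne hj]
        simp [Finset.mem_insert, hj]
    rw [h3] at h2
    exact h2

theorem colon_W {R K : Type u} [CommRing R] [IsNoetherianRing R] [IsLocalRing R]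
    [AddCommGroup K] [Module R K] (W : Submodule R K) (hcan : IsCanonical W) {d : ℕ}
    (z : Fin d → R) (hz : IsSop z) (κ β : Fin d → ℕ) (hβ : ∀ i, 1 ≤ β i) (b : K) (hb : b ∈ W)
    (h : (∏ i, z i ^ κ i) • b ∈ powId z (fun i => κ i + β i) • W) : b ∈ powId z β • W := by
  apply w5_T W hcan z hz κ β hβ Finset.univ b hb
  simpa using h

private theorem w5_unit {R K : Type u} [CommRing R] [IsLocalRing R]
    [AddCommGroup K] [Module R K] (W : Submodule R K) (I : Ideal R) (w : K)
    (hw : w ∉ I • W) (r : R) (hr : r • w - w ∈ I • W) : IsUnit r := by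
  by_contra hn
  have h1 : IsUnit (1 - r) := by
    by_contra h2
    exact (maximalIdeal.isMaximal R).ne_top ((Ideal.eq_top_iff_one _).mpr (by
      have := Ideal.add_mem _ ((mem_maximalIdeal _).mpr h2) ((mem_maximalIdeal _).mpr hn)
      rwa [sub_add_cancel] at this))
  obtain ⟨u, hu⟩ := h1
  apply hw
  have h3 : (1 - r) • w ∈ I • W := by
    rw [sub_smul, one_smul]
    have := (I • W).neg_mem hr
    rwa [neg_sub] at this
  have h4 := (I • W).smul_mem ((u⁻¹ : Rˣ) : R) h3
  rwa [smul_smul, ← hu, Units.inv_mul, one_smul] at h4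

theorem socGen_pow {R K : Type u} [CommRing R] [IsNoetherianRing R] [IsLocalRing R]
    [AddCommGroup K] [Module R K] (W : Submodule R K) (hcan : IsCanonical W) {d : ℕ}
    (z : Fin d → R) (hz : IsSop z) (w : K) (hw : SocGen W (Ideal.span (Set.range z)) w)
    (t : ℕ) (ht : 1 ≤ t) : SocGen W (powId z (fun _ => t)) ((∏ i, z i ^ (t - 1)) • w) := by
  have hone : powId z (fun _ => 1) = Ideal.span (Set.range z) := by
    unfold powId
    simp only [pow_one]
  obtain ⟨-, wt, hwt⟩ := hcan d _ (isSop_pow z hz (fun _ => t) (fun _ => ht))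
  change SocGen W (powId z (fun _ => t)) wt at hwt
  set x := (∏ i, z i ^ (t - 1)) • w with hx
  have hxW : x ∈ W := W.smul_mem _ hw.mem
  have hxn : x ∉ powId z (fun _ => t) • W := by
    intro hmem
    apply hw.nmem
    rw [← hone]
    apply colon_W W hcan z hz (fun _ => t - 1) (fun _ => 1) (fun _ => le_rfl) w hw.mem
    have e : (fun _ : Fin d => t - 1 + 1) = fun _ => t := by
      funext _
      omega
    show (∏ i, z i ^ (t - 1)) • w ∈ powId z (fun _ : Fin d => t - 1 + 1) • W
    rw [e]
    exact hmem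
  -- `(∏ z_i^(t-1)) • ((z) W) ⊆ (z^t) W`
  have hmul : ∀ y ∈ Ideal.span (Set.range z) • W, (∏ i, z i ^ (t - 1)) • y ∈
      powId z (fun _ => t) • W := by
    intro y hy
    refine Submodule.smul_induction_on hy ?_ ?_
    · intro r hr n hn
      rw [smul_smul]
      refine Submodule.smul_mem_smul ?_ hn
      refine Submodule.span_induction (p := fun r _ => (∏ i, z i ^ (t - 1)) * r ∈
        powId z (fun _ => t)) ?_ ?_ ?_ ?_ hr
      · rintro _ ⟨j, rfl⟩
        rw [← Finset.mul_prod_erase Finset.univ _ (Finset.mem_univ j)]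
        have e : (z j ^ (t - 1) * ∏ k ∈ Finset.univ.erase j, z k ^ (t - 1)) * z j =
            (∏ k ∈ Finset.univ.erase j, z k ^ (t - 1)) * z j ^ t := by
          have e2 : z j ^ t = z j ^ (t - 1) * z j := by
            rw [← pow_succ]
            congr 1
            omega
          rw [e2]
          ring
        rw [e]
        exact Ideal.mul_mem_left _ _ (Ideal.subset_span ⟨j, rfl⟩)
      · rw [mul_zero]
        exact Ideal.zero_mem _
      · intro a b _ _ ha hb
        rw [mul_add]
        exact Ideal.add_mem _ ha hb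
      · intro a b _ hb
        rw [smul_eq_mul, mul_left_comm]
        exact Ideal.mul_mem_left _ _ hb
    · intro a b ha hb
      rw [smul_add]
      exact Submodule.add_mem _ ha hb
  -- `m x ⊆ (z^t) W`
  have hmx : ∀ r ∈ maximalIdeal R, r • x ∈ powId z (fun _ => t) • W := by
    intro r hr
    have h1 : r • w ∈ Ideal.span (Set.range z) • W := by
      by_contra hn
      obtain ⟨s, hs⟩ := hw.soc (r • w) (W.smul_mem _ hw.mem) hn
      rw [smul_smul] at hs
      have hu := w5_unit W _ w hw.nmem (s * r) hs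
      exact (mem_maximalIdeal _).mp (Ideal.mul_mem_left _ s hr) hu
    have h2 := hmul _ h1
    rw [hx, smul_comm]
    exact h2
  obtain ⟨r, hr⟩ := hwt.soc x hxW hxn
  have hru : IsUnit r := by
    by_contra hn
    apply hwt.nmem
    have h1 := hmx r ((mem_maximalIdeal _).mpr hn)
    have h2 := Submodule.sub_mem _ h1 hr
    rwa [sub_sub_cancel] at h2
  obtain ⟨u, rfl⟩ := hru
  refine ⟨hxW, hxn, ?_⟩
  intro b hb hbn
  obtain ⟨s, hs⟩ := hwt.soc b hb hbn
  refine ⟨((u⁻¹ : Rˣ) : R) * s, ?_⟩
  have h1 := Submodule.sub_mem _ hs hr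
  have h2 := Submodule.smul_mem _ ((u⁻¹ : Rˣ) : R) h1
  have e : ((u⁻¹ : Rˣ) : R) • (s • b - wt - ((u : R) • x - wt)) =
      (((u⁻¹ : Rˣ) : R) * s) • b - x := by
    rw [sub_sub_sub_cancel_right, smul_sub, smul_smul, smul_smul, Units.inv_mul, one_smul]
  rwa [e] at h2

end Pool.Agent.FSig.SF
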