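import Pool.Agent.Work.MP_27623f_ag.SF.W4
import Pool.Agent.Work.MP_27623f_ag.SF.W5
import Pool.Agent.Work.MP_27623f_ag.Frob

/-!
MODULE W10 (size M).  From an irreducible ideal of `R` to the canonical module.

PROOF.  `W = symZ J (-1)`, `q = p^e`.  `m^n ≤ I'`; take `t ≥ 1`, `t ≥ n`, so `I = powId z (fun _ => t) ≤ m^t ≤ I'`; `m^c ≤ I` (`isSop_pow`);
`SocGen W I w_t`, `w_t = (∏ z_i^(t-1)) • w` (`socGen_pow`).  `exists_embed` (with `hl t`): `a ∈ W`, `I' a ⊆ I W`, `w' a - w_t ∈ I W`.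
`r w'^q = ∑_j c_j ι_j^q`, `ι_j ∈ I'` (`frobPow`; `Submodule.span_induction`).  Multiply by `a^q` in `K`:
`r (w' a)^q = ∑ c_j (ι_j a)^q`.  For `x ∈ I W = ∑ z_i^t W`: `x^q ∈ ∑ z_i^(t q) symZ J (-q)` (additivity of the `q`-th power in
characteristic `p`; `y ∈ symZ J (-1)` implies `y^q ∈ symZ J (-q)` by `hJ.mul`).  So `r (w' a)^q ∈ powId z (t q) • symZ J (-q)`, and
`(w' a)^q - w_t^q = (w' a - w_t)^q` is in the same module.  Hence `r w_t^q` is in it; `w_t^q = (∏ z_i^(q (t-1))) w^q`; `T = t - 1`.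
-/

set_option autoImplicit false

namespace Pool.Agent.FSig.SF

open Pool.Agent.FSig Pool.Agent.FSig.SA IsLocalRing

universe u

private theorem pow_mem_symZ {R K : Type u} [CommRing R] [Field K] [Algebra R K]
    {J : Submodule R K} (hJ : DivSys R K (symZ J)) {y : K} (hy : y ∈ symZ J (-1)) (n : ℕ) :
    y ^ n ∈ symZ J (-((n : ℕ) : ℤ)) := by
  induction n with
  | zero =>
    have h0 : (-((0 : ℕ) : ℤ)) = 0 := by simp
    rw [h0, hJ.zero, pow_zero]
    exact Submodule.one_le.1 le_rfl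
  | succ n ih =>
    have h1 := hJ.mul _ _ _ ih _ hy
    have h2 : (-((n : ℕ) : ℤ)) + (-1) = -((n + 1 : ℕ) : ℤ) := by push_cast; ring
    rw [h2] at h1
    rwa [pow_succ]

private theorem pow_mem_powId {R : Type u} [CommRing R] (p e : ℕ) [Fact p.Prime] [CharP R p] {d : ℕ}
    (z : Fin d → R) (t : ℕ) {r : R} (hr : r ∈ powId z (fun _ => t)) :
    r ^ p ^ e ∈ powId z (fun _ => p ^ e * t) := by
  unfold powId at hr
  refine Submodule.span_induction (p := fun r _ => r ^ p ^ e ∈ powId z (fun _ => p ^ e * t)) ?_ ?_ ?_ ?_ hr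
  · rintro _ ⟨i, rfl⟩
    refine Ideal.subset_span ⟨i, ?_⟩
    show z i ^ (p ^ e * t) = (z i ^ t) ^ p ^ e
    rw [← pow_mul, mul_comm]
  · rw [zero_pow (pow_pos (Fact.out : p.Prime).pos e).ne']
    exact Ideal.zero_mem _
  · intro x y _ _ hx hy
    rw [add_pow_char_pow]
    exact Ideal.add_mem _ hx hy
  · intro c x _ hx
    rw [smul_eq_mul, mul_pow]
    exact Ideal.mul_mem_left _ _ hx

private theorem pow_mem_smul {R K : Type u} [CommRing R] [Field K] [Algebra R K] (p e : ℕ) [Fact p.Prime]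
    [CharP R p] [CharP K p] {J : Submodule R K} (hJ : DivSys R K (symZ J)) {d : ℕ}
    (z : Fin d → R) (t : ℕ) {x : K} (hx : x ∈ powId z (fun _ => t) • symZ J (-1)) :
    x ^ p ^ e ∈ powId z (fun _ => p ^ e * t) • symZ J (-((p ^ e : ℕ) : ℤ)) := by
  refine Submodule.smul_induction_on (p := fun x => x ^ p ^ e ∈
    powId z (fun _ => p ^ e * t) • symZ J (-((p ^ e : ℕ) : ℤ))) hx ?_ ?_
  · intro r hr y hy
    show (r • y) ^ p ^ e ∈ _
    rw [smul_pow]
    exact Submodule.smul_mem_smul (pow_mem_powId p e z t hr) (pow_mem_symZ hJ hy _)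
  · intro x y hx hy
    show (x + y) ^ p ^ e ∈ _
    rw [add_pow_char_pow]
    exact Submodule.add_mem _ hx hy

theorem pair_to_W {R K : Type u} [CommRing R] [IsDomain R] [IsNoetherianRing R]
    [IsLocalRing R] [Field K] [Algebra R K] [IsFractionRing R K] (p e : ℕ) [Fact p.Prime]
    [CharP R p] (J : Submodule R K) (hJ : DivSys R K (symZ J))
    (hcan : IsCanonical (symZ J (-1))) {d : ℕ} (z : Fin d → R) (hz : IsSop z) (w : K)
    (hw : SocGen (symZ J (-1)) (Ideal.span (Set.range z)) w)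
    (hl : ∀ t : ℕ, 1 ≤ t → Module.length R (R ⧸ powId z (fun _ => t)) ≤
      Module.length R (symZ J (-1) ⧸ (powId z (fun _ => t) • (⊤ : Submodule R (symZ J (-1))))))
    {I' : Ideal R} {w' : R} (h : Pair R I' w') (r : R)
    (hr : r * w' ^ p ^ e ∈ frobPow I' (p ^ e)) :
    ∃ T : ℕ, (r * ∏ i, z i ^ (p ^ e * T)) • w ^ p ^ e ∈
      powId z (fun _ => p ^ e * (T + 1)) • symZ J (-((p ^ e : ℕ) : ℤ)) := by
  have hK : CharP K p := charP_of_injective_algebraMap (IsFractionRing.injective R K) p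
  obtain ⟨n, hn⟩ := h.prim
  obtain ⟨T, hT⟩ : ∃ T : ℕ, n ≤ T + 1 := ⟨n, Nat.le_succ n⟩
  refine ⟨T, ?_⟩
  set W := symZ J (-1) with hWdef
  set q := p ^ e with hq
  have hle : powId z (fun _ => T + 1) ≤ I' := by
    refine le_trans ?_ hn
    unfold powId
    rw [Ideal.span_le]
    rintro _ ⟨i, rfl⟩
    exact Ideal.pow_le_pow_right hT (Ideal.pow_mem_pow (hz.mem i) _)
  have hI : ∃ c, maximalIdeal R ^ c ≤ powId z (fun _ => T + 1) :=
    (isSop_pow z hz (fun _ => T + 1) (fun _ => Nat.succ_pos T)).prim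
  have hwt := socGen_pow W hcan z hz w hw (T + 1) (Nat.succ_pos T)
  obtain ⟨a, haW, haI, ha⟩ := exists_embed W (hJ.fg (-1)) (powId z (fun _ => T + 1)) hI _ hwt
    (hl (T + 1) (Nat.succ_pos T)) h hle
  set Nn : Submodule R K := powId z (fun _ => q * (T + 1)) • symZ J (-((q : ℕ) : ℤ)) with hNn
  have hA : ∀ x ∈ powId z (fun _ => T + 1) • W, x ^ q ∈ Nn := fun x hx =>
    pow_mem_smul p e hJ z (T + 1) hx
  have hB : ∀ u ∈ frobPow I' q, u • a ^ q ∈ Nn := by
    intro u hu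
    unfold frobPow at hu
    refine Submodule.span_induction (p := fun u _ => u • a ^ q ∈ Nn) ?_ ?_ ?_ ?_ hu
    · rintro _ ⟨ι, hι, rfl⟩
      show ι ^ q • a ^ q ∈ Nn
      rw [← smul_pow]
      exact hA _ (haI ι hι)
    · rw [zero_smul]
      exact Submodule.zero_mem _
    · intro x y _ _ hx hy
      rw [add_smul]
      exact Submodule.add_mem _ hx hy
    · intro c x _ hx
      rw [smul_eq_mul, mul_smul]
      exact Submodule.smul_mem _ c hx
  have h1 : r • (w' • a) ^ q ∈ Nn := by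
    have := hB _ hr
    rwa [smul_pow, ← mul_smul]
  set wt : K := (∏ i, z i ^ (T + 1 - 1)) • w with hwtdef
  have h2 : (w' • a) ^ q - wt ^ q ∈ Nn := by
    have := hA _ ha
    rwa [hq, sub_pow_char_pow] at this
  have h3 : r • wt ^ q ∈ Nn := by
    have h4 : r • wt ^ q = r • (w' • a) ^ q - r • ((w' • a) ^ q - wt ^ q) := by
      rw [← smul_sub]
      congr 1
      ring
    rw [h4]
    exact Submodule.sub_mem _ h1 (Submodule.smul_mem _ r h2)
  have h5 : wt ^ q = (∏ i, z i ^ (q * T)) • w ^ q := by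
    rw [hwtdef, smul_pow, ← Finset.prod_pow]
    congr 1
    refine Finset.prod_congr rfl fun i _ => ?_
    rw [← pow_mul, Nat.add_sub_cancel, mul_comm]
  rw [h5, ← mul_smul] at h3
  exact h3

end Pool.Agent.FSig.SF
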