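import Mathlib

/-!
MODULE W11 (size M, Mathlib only).  Chevalley's theorem for ideals of a complete local ring.

PROOF.  Suppose `𝔞 e ≰ m^N` for all `e`.  For every `M` the chain `𝔞 e ⊔ m^M` is descending in the Artinian ring `R / m^M`
(see `art_quot` in `Pool/Agent/Work/MP_27623f_ag/SA/Cof.lean`), so it is equal to an ideal `𝔟 M` for all `e ≥ e(M)`.  `𝔟 (M+1) ⊔ m^M = 𝔟 M`
(take `e ≥ e(M), e(M+1)`), and `𝔟 M ≤ 𝔞 e ⊔ m^M` for all `e`.  `𝔟 N ≰ m^N`: choose `a_N ∈ 𝔟 N`, `a_N ∉ m^N`, and recursively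
`a_(M+1) ∈ 𝔟 (M+1)` with `a_(M+1) - a_M ∈ m^M`.  By completeness there is `a` with `a - a_M ∈ m^M` for all `M ≥ N` (`IsPrecomplete`:
`IsPrecomplete.prec`).  `a ∉ m^N`, in particular `a ≠ 0`.  For every `e` and every `M ≥ N`: `a ∈ 𝔟 M ⊔ m^M ≤ 𝔞 e ⊔ m^M`; by Krull
(`R / 𝔞 e` is a Noetherian local ring or zero; `Ideal.iInf_pow_smul_eq_bot_of_isLocalRing` for the module `R ⧸ 𝔞 e`, see
`exists_pair_of_not_mem` in SA/MaxP) `a ∈ 𝔞 e`.  So `a = 0` by `h0`, a contradiction.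
-/

set_option autoImplicit false

namespace Pool.Agent.FSig.SF

open IsLocalRing

private theorem art_quot' {R : Type*} [CommRing R] [IsNoetherianRing R] [IsLocalRing R] (N : ℕ)
    (htop : maximalIdeal R ^ N ≠ ⊤) :
    IsArtinianRing (R ⧸ maximalIdeal R ^ N) := by
  set I := maximalIdeal R ^ N with hI
  have hnt : Nontrivial (R ⧸ I) := Ideal.Quotient.nontrivial_iff.mpr htop
  have hloc : IsLocalRing (R ⧸ I) :=
    IsLocalRing.of_surjective' (Ideal.Quotient.mk I) Ideal.Quotient.mk_surjective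
  have hmax : maximalIdeal (R ⧸ I) ≤
      (maximalIdeal R).map (Ideal.Quotient.mk I) := by
    intro y hy
    obtain ⟨z, rfl⟩ := Ideal.Quotient.mk_surjective y
    apply Ideal.mem_map_of_mem
    rw [IsLocalRing.mem_maximalIdeal, mem_nonunits_iff] at hy ⊢
    exact fun hz => hy (hz.map _)
  have hnil : IsNilpotent (maximalIdeal (R ⧸ I)) := by
    refine ⟨N, ?_⟩
    rw [Ideal.zero_eq_bot, eq_bot_iff]
    refine (Ideal.pow_right_mono hmax N).trans ?_
    rw [← Ideal.map_pow, ← hI, Ideal.map_quotient_self]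
  exact (isArtinianRing_iff_isNilpotent_maximalIdeal (R ⧸ I)).mpr hnil

/-- Descending chains of ideals are stationary modulo a power of the maximal ideal. -/
private theorem stat_mod {R : Type*} [CommRing R] [IsNoetherianRing R] [IsLocalRing R]
    (𝔞 : ℕ → Ideal R) (hanti : Antitone 𝔞) (M : ℕ) :
    ∃ n, ∀ e, n ≤ e → 𝔞 n ⊔ maximalIdeal R ^ M = 𝔞 e ⊔ maximalIdeal R ^ M := by
  by_cases htop : maximalIdeal R ^ M = ⊤
  · exact ⟨0, fun e _ => by rw [htop, sup_top_eq, sup_top_eq]⟩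
  have hart := art_quot' M htop
  let f : ℕ →o (Submodule (R ⧸ maximalIdeal R ^ M) (R ⧸ maximalIdeal R ^ M))ᵒᵈ :=
    ⟨fun e => OrderDual.toDual ((𝔞 e).map (Ideal.Quotient.mk (maximalIdeal R ^ M))),
      fun i j hij => OrderDual.toDual_le_toDual.2 (Ideal.map_mono (hanti hij))⟩
  obtain ⟨n, hn⟩ := IsArtinian.monotone_stabilizes f
  refine ⟨n, fun e he => ?_⟩
  have h1 : (𝔞 n).map (Ideal.Quotient.mk (maximalIdeal R ^ M)) =
      (𝔞 e).map (Ideal.Quotient.mk (maximalIdeal R ^ M)) := by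
    have h2 := hn e he
    exact OrderDual.toDual.injective h2
  have h3 := congrArg (Ideal.comap (Ideal.Quotient.mk (maximalIdeal R ^ M))) h1
  rw [Ideal.comap_map_quotientMk, Ideal.comap_map_quotientMk] at h3
  rw [sup_comm, h3, sup_comm]

private theorem krull_mem {R : Type*} [CommRing R] [IsNoetherianRing R] [IsLocalRing R]
    (c : Ideal R) (x : R) (hcon : ∀ i, x ∈ c ⊔ maximalIdeal R ^ i) : x ∈ c := by
  have h1 := Ideal.iInf_pow_smul_eq_bot_of_isLocalRing (M := R ⧸ c)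
    (maximalIdeal R) (maximalIdeal.isMaximal R).ne_top
  have h2 : (Ideal.Quotient.mk c x : R ⧸ c) ∈
      (⨅ i : ℕ, maximalIdeal R ^ i • (⊤ : Submodule R (R ⧸ c))) := by
    rw [Submodule.mem_iInf]
    intro i
    obtain ⟨y, hy, z, hz, hyz⟩ := Submodule.mem_sup.1 (hcon i)
    have h3 : (Ideal.Quotient.mk c x : R ⧸ c) = z • (1 : R ⧸ c) := by
      rw [← hyz, map_add, Ideal.Quotient.eq_zero_iff_mem.2 hy, zero_add]
      rw [Algebra.smul_def, mul_one]
      rfl
    rw [h3]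
    exact Submodule.smul_mem_smul hz Submodule.mem_top
  rwa [h1, Submodule.mem_bot, Ideal.Quotient.eq_zero_iff_mem] at h2

theorem chevalley {R : Type*} [CommRing R] [IsNoetherianRing R] [IsLocalRing R]
    [IsAdicComplete (maximalIdeal R) R] (𝔞 : ℕ → Ideal R) (hanti : ∀ e, 𝔞 (e + 1) ≤ 𝔞 e)
    (h0 : ∀ x : R, (∀ e, x ∈ 𝔞 e) → x = 0) (N : ℕ) :
    ∃ e₀, ∀ e, e₀ ≤ e → 𝔞 e ≤ maximalIdeal R ^ N := by
  classical
  have hA : Antitone 𝔞 := antitone_nat_of_succ_le hanti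
  by_contra hcon
  have hN : ∀ e, ¬ 𝔞 e ≤ maximalIdeal R ^ N := fun e he =>
    hcon ⟨e, fun e' he' => (hA he').trans he⟩
  choose E hE using stat_mod 𝔞 hA
  set 𝔟 : ℕ → Ideal R := fun M => 𝔞 (E M) ⊔ maximalIdeal R ^ M with h𝔟
  have hb1 : ∀ M e, 𝔟 M ≤ 𝔞 e ⊔ maximalIdeal R ^ M := by
    intro M e
    have h1 := hE M (max (E M) e) (le_max_left _ _)
    show 𝔞 (E M) ⊔ maximalIdeal R ^ M ≤ _
    rw [h1]
    exact sup_le_sup_right (hA (le_max_right _ _)) _
  have hb2 : ∀ M, 𝔟 M ≤ 𝔟 (M + 1) ⊔ maximalIdeal R ^ M := by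
    intro M
    refine (hb1 M (E (M + 1))).trans ?_
    exact sup_le_sup_right le_sup_left _
  have hstep : ∀ M x, x ∈ 𝔟 M → ∃ y, y ∈ 𝔟 (M + 1) ∧ y - x ∈ maximalIdeal R ^ M := by
    intro M x hx
    obtain ⟨y, hy, z, hz, hyz⟩ := Submodule.mem_sup.1 (hb2 M hx)
    refine ⟨y, hy, ?_⟩
    have h1 : y - x = -z := by rw [← hyz]; ring
    rw [h1]
    exact neg_mem hz
  choose! nx hnx using hstep
  obtain ⟨a0, ha0, ha0'⟩ := SetLike.not_le_iff_exists.1 (hN (E N))
  let s : ℕ → R := fun k => Nat.rec a0 (fun k x => nx (N + k) x) k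
  have hs0 : s 0 = a0 := rfl
  have hs1 : ∀ k, s (k + 1) = nx (N + k) (s k) := fun k => rfl
  have hsb : ∀ k, s k ∈ 𝔟 (N + k) := by
    intro k
    induction k with
    | zero => exact (le_sup_left : 𝔞 (E N) ≤ 𝔟 N) ha0
    | succ k ih => rw [hs1]; exact (hnx _ _ ih).1
  have hsd : ∀ k, s (k + 1) - s k ∈ maximalIdeal R ^ (N + k) := fun k => by
    rw [hs1]; exact (hnx _ _ (hsb k)).2
  have hcau : ∀ (m n : ℕ), m ≤ n → s n - s m ∈ maximalIdeal R ^ (N + m) := by
    intro m n hmn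
    induction n, hmn using Nat.le_induction with
    | base => rw [sub_self]; exact zero_mem _
    | succ n hmn ih =>
      have h1 : s (n + 1) - s m = (s (n + 1) - s n) + (s n - s m) := by ring
      rw [h1]
      exact add_mem (Ideal.pow_le_pow_right (by omega) (hsd n)) ih
  have hprec : IsPrecomplete (maximalIdeal R) R := inferInstance
  obtain ⟨a, ha⟩ := hprec.prec (f := s) (by
    intro m n hmn
    rw [SModEq.sub_mem, smul_eq_mul, Ideal.mul_top]
    have h1 := hcau m n hmn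
    have h2 : s m - s n = -(s n - s m) := by ring
    rw [h2]
    exact neg_mem (Ideal.pow_le_pow_right (by omega) h1))
  have ha' : ∀ n, s n - a ∈ maximalIdeal R ^ n := by
    intro n
    have h1 := ha n
    rwa [SModEq.sub_mem, smul_eq_mul, Ideal.mul_top] at h1
  have haN : a ∉ maximalIdeal R ^ N := by
    intro h
    apply ha0'
    have h1 : a0 = a + (s N - a) - (s N - s 0) := by rw [hs0]; ring
    rw [h1]
    exact sub_mem (add_mem h (ha' N)) (Ideal.pow_le_pow_right (by omega) (hcau 0 N (Nat.zero_le _)))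
  have hae : ∀ e, a ∈ 𝔞 e := by
    intro e
    refine krull_mem _ _ fun i => ?_
    have h1 : a = s i + -(s i - a) := by ring
    rw [h1]
    refine add_mem ?_ (Ideal.mem_sup_right (neg_mem (ha' i)))
    exact (sup_le_sup_left (Ideal.pow_le_pow_right (by omega)) _ :
      𝔞 e ⊔ maximalIdeal R ^ (N + i) ≤ 𝔞 e ⊔ maximalIdeal R ^ i) (hb1 (N + i) e (hsb i))
  apply haN
  rw [h0 a hae]
  exact zero_mem _

end Pool.Agent.FSig.SF
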