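import Mathlib

/-!
MODULE W6 (size M, Mathlib only).  Linear maps to `E / I E`, `I` a small ideal, are close to linear maps to `E` (Artin-Rees).

PROOF.  Same proof as `exists_hom_approx` in `Pool/Agent/Work/MP_27623f_ag/SA/ARHom.lean` with the target `R` replaced by a finitely generated
module `E`: `f : R^a → D` onto, `k_1, ..., k_b` generators of its kernel, `L : E^a → E^b`, `(L v)_l = ∑_i k_l(i) v_i`.  Artin-Rees
(`Ideal.exists_pow_inf_eq_pow_smul` for `range L ≤ E^b`): `m^(c+c₀) E^b ∩ range L ≤ m^c (range L)`.  `N = c + c₀`.  Choose `v_i ∈ E` over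
`φ (f e_i)`; `L v ∈ I E^b ≤ m^N E^b`, so `L v = L v'` with `v'_i ∈ m^c E`; `v - v'` defines `ψ : D → E`.
-/

set_option autoImplicit false

namespace Pool.Agent.FSig.SF

universe u

private theorem mem_smul_top_pi {R E : Type*} [CommRing R] [AddCommGroup E] [Module R E]
    (I : Ideal R) {ι : Type*} [Fintype ι] (w : ι → E)
    (hw : ∀ j, w j ∈ I • (⊤ : Submodule R E)) : w ∈ I • (⊤ : Submodule R (ι → E)) := by
  classical
  have h1 : w = ∑ j, LinearMap.single R (fun _ : ι => E) j (w j) := by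
    funext i
    rw [Finset.sum_apply, Finset.sum_eq_single i]
    · simp
    · intro j _ hj
      simp [Ne.symm hj]
    · simp
  rw [h1]
  refine Submodule.sum_mem _ fun j _ => ?_
  have h2 : LinearMap.single R (fun _ : ι => E) j (w j) ∈
      (I • (⊤ : Submodule R E)).map (LinearMap.single R (fun _ : ι => E) j) :=
    Submodule.mem_map_of_mem (hw j)
  rw [Submodule.map_smul''] at h2
  exact Submodule.smul_mono le_rfl le_top h2

private theorem coord_of_mem_pi {R E : Type*} [CommRing R] [AddCommGroup E] [Module R E]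
    (I : Ideal R) {ι : Type*} (w : ι → E) (hw : w ∈ I • (⊤ : Submodule R (ι → E))) (i : ι) :
    w i ∈ I • (⊤ : Submodule R E) := by
  have h2 : (LinearMap.proj i : (ι → E) →ₗ[R] E) w ∈
      (I • (⊤ : Submodule R (ι → E))).map (LinearMap.proj i : (ι → E) →ₗ[R] E) :=
    Submodule.mem_map_of_mem hw
  rw [Submodule.map_smul''] at h2
  exact Submodule.smul_mono le_rfl le_top h2

theorem exists_hom_approx' {R : Type u} [CommRing R] [IsNoetherianRing R] (m : Ideal R)
    (D E : Type u) [AddCommGroup D] [Module R D] [Module.Finite R D] [AddCommGroup E]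
    [Module R E] [Module.Finite R E] (c : ℕ) :
    ∃ N : ℕ, ∀ I : Ideal R, I ≤ m ^ N → ∀ φ : D →ₗ[R] E ⧸ (I • (⊤ : Submodule R E)),
      ∃ ψ : D →ₗ[R] E, ∀ x : D, ∃ s ∈ m ^ c • (⊤ : Submodule R E),
        φ x = Submodule.Quotient.mk (ψ x + s) := by
  classical
  obtain ⟨a, f, hf⟩ := Module.Finite.exists_fin' R D
  have hK : (LinearMap.ker f).FG := IsNoetherian.noetherian _
  obtain ⟨S, hS⟩ := hK
  -- the linear map `L`
  let L : (Fin a → E) →ₗ[R] (S → E) :=
    LinearMap.pi fun k => ∑ i, ((k : Fin a → R) i) • LinearMap.proj i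
  have hLs : ∀ (v : Fin a → E) (k : S), L v k = ∑ i, (k : Fin a → R) i • v i := by
    intro v k
    simp [L]
  obtain ⟨c0, hc0⟩ := Ideal.exists_pow_inf_eq_pow_smul m (LinearMap.range L)
  refine ⟨c + c0, ?_⟩
  intro I hI φ
  choose v hv using fun i : Fin a =>
    Submodule.mkQ_surjective (I • (⊤ : Submodule R E)) (φ (f (Pi.single i 1)))
  have key : ∀ ξ : Fin a → R, (I • (⊤ : Submodule R E)).mkQ (∑ i, ξ i • v i) = φ (f ξ) := by
    intro ξ
    have hξ : ξ = ∑ i, ξ i • (Pi.single i (1 : R) : Fin a → R) := by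
      funext i
      simp [Finset.sum_apply, Pi.single_apply]
    conv_rhs => rw [hξ]
    rw [map_sum, map_sum, map_sum]
    refine Finset.sum_congr rfl fun i _ => ?_
    rw [map_smul, map_smul, map_smul, hv]
  have hLv : L v ∈ (m ^ (c + c0)) • (⊤ : Submodule R (S → E)) := by
    apply mem_smul_top_pi
    intro k
    have h1 : L v k ∈ I • (⊤ : Submodule R E) := by
      rw [← Submodule.Quotient.mk_eq_zero, ← Submodule.mkQ_apply, hLs, key]
      have : (k : Fin a → R) ∈ LinearMap.ker f := by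
        rw [← hS]
        exact Submodule.subset_span k.2
      rw [LinearMap.mem_ker.1 this, map_zero]
    exact Submodule.smul_mono hI le_rfl h1
  have hLv2 : L v ∈ (m ^ c) • LinearMap.range L := by
    have h1 : L v ∈ (m ^ (c + c0)) • (⊤ : Submodule R (S → E)) ⊓ LinearMap.range L :=
      ⟨hLv, ⟨v, rfl⟩⟩
    rw [hc0 (c + c0) (Nat.le_add_left _ _), Nat.add_sub_cancel] at h1
    exact Submodule.smul_mono le_rfl inf_le_right h1
  rw [LinearMap.range_eq_map, ← Submodule.map_smul''] at hLv2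
  obtain ⟨v', hv', hLL⟩ := hLv2
  have hcoord := coord_of_mem_pi (m ^ c) v' hv'
  let ψ : (Fin a → R) →ₗ[R] E :=
    ∑ i, (LinearMap.toSpanSingleton R E (v i - v' i)).comp (LinearMap.proj i)
  have hψ : ∀ w : Fin a → R, ψ w = ∑ i, w i • (v i - v' i) := by
    intro w
    simp [ψ]
  have hker : LinearMap.ker f ≤ LinearMap.ker ψ := by
    rw [← hS, Submodule.span_le]
    intro k hk
    show ψ k = 0
    have h1 := congrFun hLL ⟨k, hk⟩
    rw [hLs, hLs] at h1
    rw [hψ]
    simp only [smul_sub, Finset.sum_sub_distrib]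
    rw [h1, sub_self]
  refine ⟨((LinearMap.ker f).liftQ ψ hker).comp
    (f.quotKerEquivOfSurjective hf).symm.toLinearMap, ?_⟩
  intro x
  obtain ⟨ξ, hξ⟩ := hf x
  refine ⟨∑ i, ξ i • v' i, ?_, ?_⟩
  · exact Submodule.sum_mem _ fun i _ => Submodule.smul_mem _ _ (hcoord i)
  · have hx : (f.quotKerEquivOfSurjective hf).symm x = (LinearMap.ker f).mkQ ξ := by
      rw [LinearEquiv.symm_apply_eq]
      rw [← hξ]
      rfl
    rw [LinearMap.comp_apply]
    show φ x = (I • (⊤ : Submodule R E)).mkQ ((LinearMap.ker f).liftQ ψ hker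
      ((f.quotKerEquivOfSurjective hf).symm x) + ∑ i, ξ i • v' i)
    rw [hx, Submodule.mkQ_apply (LinearMap.ker f), Submodule.liftQ_apply, hψ,
      ← Finset.sum_add_distrib, ← hξ, ← key]
    congr 1
    refine Finset.sum_congr rfl fun i _ => ?_
    rw [smul_sub, sub_add_cancel]

end Pool.Agent.FSig.SF
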