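import Pool.Agent.Work.MP_27623f_ag.SF.Defs

/-!
MODULE W7 (size S-M).  `Hom_R (J^(-q), J^(-1)) = J^(q-1)`.

PROOF.  As in `exists_mul_of_hom` (`Pool/Agent/Work/MP_27623f_ag/SA/Hom.lean`): for `0 ≠ b ∈ M = symZ J (-q)` and `x ∈ M` there are
`r, s ∈ R`, `s ≠ 0`, `s x = r b`, so `ψ x = (ψ b / b) x`.  Put `s₀ = ψ b / b`, `s₀ M ⊆ W = symZ J (-1)`.
`s₀ ∈ symZ J (q - 1)`: by `hJ.dual (-(q-1))` (note `-(-(q-1)) = q-1`) it suffices that `k = s₀ y ∈ 1` for
`y ∈ symZ J (-(q-1))`.  For `v ∈ W`: `y v ∈ symZ J (-q) = M`, so `k v ∈ W`.  `W` is finitely generated, contains a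
nonzero element and is stable under `k`, so `k` is integral over `R` (`isIntegral_of_smul_mem_submodule`), and `k ∈ R`
(`IsIntegrallyClosed.isIntegral_iff`).
-/

set_option autoImplicit false

namespace Pool.Agent.FSig.SF

open Pool.Agent.FSig Pool.Agent.FSig.SA

universe u

theorem exists_mul_of_hom' {R K : Type u} [CommRing R] [IsDomain R] [IsIntegrallyClosed R]
    [Field K] [Algebra R K] [IsFractionRing R K] (J : Submodule R K)
    (hJ : DivSys R K (symZ J)) (q : ℕ) (ψ : symZ J (-(q : ℤ)) →ₗ[R] symZ J (-1)) :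
    ∃ s ∈ symZ J ((q : ℤ) - 1), ∀ x : symZ J (-(q : ℤ)), ((ψ x : symZ J (-1)) : K) = s * x := by
  obtain ⟨b, hb, hb0⟩ := hJ.ne (-(q : ℤ))
  have key : ∀ x : symZ J (-(q : ℤ)), ((ψ x : symZ J (-1)) : K) =
      ((ψ ⟨b, hb⟩ : symZ J (-1)) : K) / b * (x : K) := by
    intro x
    obtain ⟨r, s, hs, hrs⟩ := IsFractionRing.div_surjective (A := R) ((x : K) / b)
    have hs0 : algebraMap R K s ≠ 0 := by
      have h1 : s ≠ 0 := nonZeroDivisors.ne_zero hs
      exact (map_ne_zero_iff _ (IsFractionRing.injective R K)).2 h1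
    have h2 : algebraMap R K s * (x : K) = algebraMap R K r * b := by
      rw [div_eq_div_iff hs0 hb0] at hrs
      rw [hrs]
      ring
    have h3 : s • x = r • (⟨b, hb⟩ : symZ J (-(q : ℤ))) := by
      apply Subtype.ext
      show s • (x : K) = r • b
      rw [Algebra.smul_def, Algebra.smul_def]
      exact h2
    have h4 : s • ψ x = r • ψ ⟨b, hb⟩ := by
      have h5 := congrArg ψ h3
      rwa [map_smul, map_smul] at h5
    have h6 : algebraMap R K s * ((ψ x : symZ J (-1)) : K) =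
        algebraMap R K r * ((ψ ⟨b, hb⟩ : symZ J (-1)) : K) := by
      have h5 : s • ((ψ x : symZ J (-1)) : K) = r • ((ψ ⟨b, hb⟩ : symZ J (-1)) : K) :=
        congrArg Subtype.val h4
      rwa [Algebra.smul_def, Algebra.smul_def] at h5
    apply mul_left_cancel₀ hs0
    rw [h6]
    have h7 : algebraMap R K s * (((ψ ⟨b, hb⟩ : symZ J (-1)) : K) / b * (x : K)) =
        ((ψ ⟨b, hb⟩ : symZ J (-1)) : K) / b * (algebraMap R K s * (x : K)) := by ring
    rw [h7, h2]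
    field_simp
  refine ⟨((ψ ⟨b, hb⟩ : symZ J (-1)) : K) / b, ?_, key⟩
  have e : ((q : ℤ) - 1) = -(-((q : ℤ) - 1)) := by ring
  rw [e]
  apply hJ.dual
  intro y hy
  have hstab : ∀ v ∈ symZ J (-1),
      (((ψ ⟨b, hb⟩ : symZ J (-1)) : K) / b * y) • v ∈ symZ J (-1) := by
    intro v hv
    have h1 : y * v ∈ symZ J (-(q : ℤ)) := by
      have h0 := hJ.mul _ _ y hy v hv
      have e2 : -((q : ℤ) - 1) + -1 = -(q : ℤ) := by ring
      rwa [e2] at h0
    have h2 := key ⟨_, h1⟩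
    have h3 : (((ψ ⟨b, hb⟩ : symZ J (-1)) : K) / b * y) • v =
        ((ψ ⟨y * v, h1⟩ : symZ J (-1)) : K) := by
      rw [h2, smul_eq_mul, mul_assoc]
    rw [h3]
    exact (ψ ⟨_, h1⟩).2
  have hint : IsIntegral R (((ψ ⟨b, hb⟩ : symZ J (-1)) : K) / b * y) := by
    refine isIntegral_of_smul_mem_submodule (symZ J (-1)) ?_ (hJ.fg (-1)) _ hstab
    obtain ⟨v, hv, hv0⟩ := hJ.ne (-1)
    exact (Submodule.ne_bot_iff _).2 ⟨v, hv, hv0⟩
  obtain ⟨r, hr⟩ := IsIntegrallyClosed.isIntegral_iff.1 hint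
  exact Submodule.mem_one.2 ⟨r, hr⟩

end Pool.Agent.FSig.SF
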