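import Pool.Agent.Work.MP_27623f_ag.SF.W4
import Pool.Agent.Work.MP_27623f_ag.SF.W5
import Pool.Agent.Work.MP_27623f_ag.SF.W6
import Pool.Agent.Work.MP_27623f_ag.SF.W7

/-!
MODULE W8 (size M).  Local duality for `J^(-q)` in the form which is needed.

PROOF.  `W = symZ J (-1)`, `M = symZ J (-q)`, both finitely generated (`hJ.fg`).  `m^c ≤ powId z (fun _ => q)` for some `c`
(`isSop_pow`).  `N` from `exists_hom_approx'` for `m`, `M`, `W`, `c`; `T = N`, `I = powId z (fun _ => q (T+1)) ≤ m^N`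
(`z_i ∈ m`, `q (T+1) ≥ N`), `m^c' ≤ I`.  `v' = (∏ z_i^(q T)) • v ∉ I M` (`hv' T`).  `SocGen W I w_T` with `w_T = (∏ z_i^(q(T+1)-1)) • w`
(`socGen_pow`), `exists_hom_to` (with `hl`) for the module `M` and `v'`: `f : M → W / I W` with `f v' = [w_T]`.  Let `f v = [v₀]`,
`v₀ ∈ W`.  Then `(∏ z_i^(qT)) v₀ - w_T ∈ I W`, i.e. `(∏ z_i^(qT)) (v₀ - (∏ z_i^(q-1)) w) ∈ (z_i^(qT+q)) W`, and by `colon_W`
`v₀ - (∏ z_i^(q-1)) w ∈ (z^q) W`; as `(∏ z_i^(q-1)) w ∉ (z^q) W` (`socGen_pow`), `v₀ ∉ (z^q) W`.  `ψ : M → W` from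
`exists_hom_approx'` for `f`: `v₀ - ψ v - s ∈ I W`, `s ∈ m^c W ≤ (z^q) W`, `I W ≤ (z^q) W`; so `ψ v ∉ (z^q) W`.  `ψ` is multiplication by
`s₀ ∈ symZ J (q-1)` (`exists_mul_of_hom'`).
-/

set_option autoImplicit false

namespace Pool.Agent.FSig.SF

open Pool.Agent.FSig Pool.Agent.FSig.SA IsLocalRing

universe u

private theorem mem_smul_top' {R K : Type*} [CommRing R] [AddCommGroup K] [Module R K]
    (N : Submodule R K) (I : Ideal R) (x : N) :
    x ∈ I • (⊤ : Submodule R N) ↔ (x : K) ∈ I • N := by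
  have h : (I • (⊤ : Submodule R N)).map N.subtype = I • N := by
    rw [Submodule.map_smul'', Submodule.map_subtype_top]
  constructor
  · intro hx
    rw [← h]
    exact ⟨x, hx, rfl⟩
  · intro hx
    rw [← h] at hx
    obtain ⟨y, hy, hyx⟩ := hx
    have : y = x := Subtype.ext hyx
    rwa [← this]

theorem exists_mult {R K : Type u} [CommRing R] [IsDomain R] [IsNoetherianRing R]
    [IsLocalRing R] [IsIntegrallyClosed R] [Field K] [Algebra R K] [IsFractionRing R K]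
    (J : Submodule R K) (hJ : DivSys R K (symZ J)) (hcan : IsCanonical (symZ J (-1))) {d : ℕ}
    (z : Fin d → R) (hz : IsSop z) (w : K)
    (hw : SocGen (symZ J (-1)) (Ideal.span (Set.range z)) w)
    (hl : ∀ t : ℕ, 1 ≤ t → Module.length R (R ⧸ powId z (fun _ => t)) ≤
      Module.length R (symZ J (-1) ⧸ (powId z (fun _ => t) • (⊤ : Submodule R (symZ J (-1))))))
    (q : ℕ) (hq : 1 ≤ q) (v : K) (hv : v ∈ symZ J (-(q : ℤ)))
    (hv' : ∀ T : ℕ, (∏ i, z i ^ (q * T)) • v ∉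
      powId z (fun _ => q * (T + 1)) • symZ J (-(q : ℤ))) :
    ∃ s ∈ symZ J ((q : ℤ) - 1), s * v ∉ powId z (fun _ => q) • symZ J (-1) := by
  have : Module.Finite R (symZ J (-(q : ℤ))) := Module.Finite.iff_fg.2 (hJ.fg _)
  have : Module.Finite R (symZ J (-1)) := Module.Finite.iff_fg.2 (hJ.fg _)
  obtain ⟨c, hc⟩ := (isSop_pow z hz (fun _ => q) fun _ => hq).prim
  have hc1 : maximalIdeal R ^ c ≤ powId z (fun _ => q) := hc
  obtain ⟨N, hN⟩ := exists_hom_approx' (maximalIdeal R) (symZ J (-(q : ℤ))) (symZ J (-1)) c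
  have ht : 1 ≤ q * (N + 1) := Nat.mul_pos hq (Nat.succ_pos N)
  obtain ⟨c', hc'⟩ := (isSop_pow z hz (fun _ => q * (N + 1)) fun _ => ht).prim
  have hIN : powId z (fun _ => q * (N + 1)) ≤ maximalIdeal R ^ N := by
    refine Ideal.span_le.2 ?_
    rintro _ ⟨i, rfl⟩
    have h1 : N ≤ q * (N + 1) := by nlinarith
    exact Ideal.pow_le_pow_right h1 (Ideal.pow_mem_pow (hz.mem i) _)
  have hIq : powId z (fun _ => q * (N + 1)) ≤ powId z (fun _ => q) := by
    refine Ideal.span_le.2 ?_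
    rintro _ ⟨i, rfl⟩
    show z i ^ (q * (N + 1)) ∈ powId z (fun _ => q)
    have h1 : z i ^ (q * (N + 1)) = z i ^ (q * N) * z i ^ q := by
      rw [← pow_add]; congr 1
    rw [h1]
    exact Ideal.mul_mem_left _ _ (Ideal.subset_span ⟨i, rfl⟩)
  have hsoc := socGen_pow (symZ J (-1)) hcan z hz w hw (q * (N + 1)) ht
  have hsocq := socGen_pow (symZ J (-1)) hcan z hz w hw q hq
  obtain ⟨v₁, hv₁⟩ : ∃ v₁ : symZ J (-(q : ℤ)), v₁ = ⟨v, hv⟩ := ⟨_, rfl⟩
  have hv2 : (∏ i, z i ^ (q * N)) • v₁ ∉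
      powId z (fun _ => q * (N + 1)) • (⊤ : Submodule R (symZ J (-(q : ℤ)))) := by
    rw [mem_smul_top', hv₁]
    exact hv' N
  obtain ⟨f, hf⟩ := exists_hom_to (symZ J (-1)) (hJ.fg _) (powId z (fun _ => q * (N + 1)))
    ⟨c', hc'⟩ _ hsoc (hl _ ht) (symZ J (-(q : ℤ))) _ hv2
  obtain ⟨v₀, hv₀⟩ := Submodule.Quotient.mk_surjective _ (f v₁)
  rw [map_smul, ← hv₀, ← Submodule.Quotient.mk_smul, Submodule.Quotient.eq,
    mem_smul_top'] at hf
  have hwW : (∏ i, z i ^ (q - 1)) • w ∈ symZ J (-1) := Submodule.smul_mem _ _ hw.mem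
  have hcol : (v₀ : K) - (∏ i, z i ^ (q - 1)) • w ∈ powId z (fun _ => q) • symZ J (-1) := by
    refine colon_W (symZ J (-1)) hcan z hz (fun _ => q * N) (fun _ => q) (fun _ => hq) _
      (Submodule.sub_mem _ v₀.2 hwW) ?_
    have h1 : ∀ i, z i ^ (q * (N + 1) - 1) = z i ^ (q * N) * z i ^ (q - 1) := by
      intro i
      rw [← pow_add]
      congr 1
      rw [mul_add, mul_one]
      omega
    have h2 : (∏ i, z i ^ (q * N)) • ((v₀ : K) - (∏ i, z i ^ (q - 1)) • w) =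
        (∏ i, z i ^ (q * N)) • (v₀ : K) - (∏ i, z i ^ (q * (N + 1) - 1)) • w := by
      rw [smul_sub, smul_smul, ← Finset.prod_mul_distrib]
      simp only [h1]
    rw [h2]
    exact hf
  have hv₀n : (v₀ : K) ∉ powId z (fun _ => q) • symZ J (-1) := by
    intro h
    refine hsocq.nmem ?_
    have h1 := Submodule.sub_mem _ h hcol
    rwa [sub_sub_cancel] at h1
  obtain ⟨ψ, hψ⟩ := hN _ hIN f
  obtain ⟨s, hs, hfs⟩ := hψ v₁
  rw [← hv₀, Submodule.Quotient.eq, mem_smul_top'] at hfs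
  have hs1 : (s : K) ∈ powId z (fun _ => q) • symZ J (-1) :=
    Submodule.smul_mono_left hc1 ((mem_smul_top' _ _ s).1 hs)
  have hψn : ((ψ v₁ : symZ J (-1)) : K) ∉ powId z (fun _ => q) • symZ J (-1) := by
    intro h
    refine hv₀n ?_
    have h1 : ((v₀ - (ψ v₁ + s) : symZ J (-1)) : K) ∈ powId z (fun _ => q) • symZ J (-1) :=
      Submodule.smul_mono_left hIq hfs
    have h2 : (v₀ : K) = ((v₀ - (ψ v₁ + s) : symZ J (-1)) : K) +
        (((ψ v₁ : symZ J (-1)) : K) + (s : K)) := by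
      simp
    rw [h2]
    exact Submodule.add_mem _ h1 (Submodule.add_mem _ h hs1)
  obtain ⟨t, ht1, ht2⟩ := exists_mul_of_hom' J hJ q ψ
  refine ⟨t, ht1, ?_⟩
  have h3 := ht2 v₁
  rw [h3, hv₁] at hψn
  exact hψn

end Pool.Agent.FSig.SF
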