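import Pool.Agent.Work.MP_27623f_ag.SF.A2
import Pool.Agent.Work.MP_27623f_ag.SF.W5

/-!
MODULE W9 (size S-M).  If `r w^q` dies in the local cohomology of `J^(-q)` then `r` lies in the splitting ideal.

PROOF.  `q = p^e`, `W = symZ J (-1)`.  Let `φ : RootMod R p e → R` be linear, `Φ` from `exists_ext`.  Suppose that
`φ (toRoot r) = u` is a unit.  Apply `Φ` to `h`: `(r ∏ z_i^(q T)) w^q = algebraMap (..)^..`:
`Φ ((r ∏ z_i^(qT)) • w^q) = Φ ((w ∏ z_i^T)^q * algebraMap r) = w (∏ z_i^T) u`.  An element of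
`powId z (q(T+1)) • symZ J (-q)` is a sum of `z_i^(q(T+1)) b`, `b ∈ symZ J (-q)` (`Submodule.smul_induction_on`, `powId` is a span), and
`Φ (z_i^(q(T+1)) b) = z_i^(T+1) Φ b`, `Φ b ∈ symZ J (-1)` (`ext_symZ`, `n = -1`; `hR` holds as `Φ (algebraMap r) = algebraMap (φ r)`).  So
`(∏ z_i^T) • (u w) ∈ powId z (T+1) • W`; `colon_W` (`κ = T`, `β = 1`) gives `u w ∈ powId z 1 • W = (z) W`, so
`w ∈ (z) W`, a contradiction to `hw.nmem`.
-/

set_option autoImplicit false

namespace Pool.Agent.FSig.SF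

open Pool.Agent.FSig Pool.Agent.FSig.SA IsLocalRing

universe u

/-- the extended map sends `z^(q (T+1)) J^(-q)` to `z^(T+1) J^(-1)` -/
private theorem w9_map {R K : Type u} [CommRing R] [Field K] [Algebra R K] (p e : ℕ)
    (J : Submodule R K) (hJ : DivSys R K (symZ J)) {d : ℕ} (z : Fin d → R) (T : ℕ) (Φ : K →+ K)
    (h1 : ∀ a x : K, Φ (a ^ p ^ e * x) = a * Φ x)
    (hR : ∀ r : R, Φ (algebraMap R K r) ∈ (1 : Submodule R K)) (x : K)
    (hx : x ∈ powId z (fun _ => p ^ e * (T + 1)) • symZ J (-((p ^ e : ℕ) : ℤ))) :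
    Φ x ∈ powId z (fun _ => T + 1) • symZ J (-1) := by
  refine Submodule.smul_induction_on hx (fun a ha b hb => ?_) (fun a b ha hb => ?_)
  · obtain ⟨c, hc⟩ := Ideal.mem_span_range_iff_exists_fun.1 ha
    have hsum : a • b = ∑ i, (algebraMap R K (z i ^ (T + 1))) ^ p ^ e * (c i • b) := by
      rw [← hc, Finset.sum_smul]
      refine Finset.sum_congr rfl fun i _ => ?_
      rw [Algebra.smul_def, Algebra.smul_def, map_mul, map_pow, map_pow, ← pow_mul,
        mul_comm (p ^ e) (T + 1)]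
      ring
    rw [hsum, map_sum]
    refine Submodule.sum_mem _ fun i _ => ?_
    rw [h1, ← Algebra.smul_def]
    refine Submodule.smul_mem_smul (Ideal.subset_span ⟨i, rfl⟩) ?_
    refine ext_symZ p e J hJ Φ h1 hR (-1) _ ?_
    have h2 : (p : ℤ) ^ e * -1 = -((p ^ e : ℕ) : ℤ) := by
      push_cast
      ring
    rw [h2]
    exact Submodule.smul_mem _ _ hb
  · rw [map_add]
    exact Submodule.add_mem _ ha hb

theorem mem_splitId_of {R K : Type u} [CommRing R] [IsDomain R] [IsNoetherianRing R]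
    [IsLocalRing R] [Field K] [Algebra R K] [IsFractionRing R K] (p e : ℕ) [Fact p.Prime]
    [CharP R p] (J : Submodule R K) (hJ : DivSys R K (symZ J))
    (hcan : IsCanonical (symZ J (-1))) {d : ℕ} (z : Fin d → R) (hz : IsSop z) (w : K)
    (hw : SocGen (symZ J (-1)) (Ideal.span (Set.range z)) w) (r : R) (T : ℕ)
    (h : (r * ∏ i, z i ^ (p ^ e * T)) • w ^ p ^ e ∈
      powId z (fun _ => p ^ e * (T + 1)) • symZ J (-((p ^ e : ℕ) : ℤ))) :
    r ∈ splitId R p e := by
  rw [mem_splitId]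
  intro φ
  by_contra hu
  have hunit : IsUnit (φ (toRoot p e r)) := by
    by_contra h2
    exact hu ((mem_maximalIdeal _).2 h2)
  obtain ⟨Φ, h1, h2⟩ := exists_ext (K := K) p e φ
  have hR : ∀ r : R, Φ (algebraMap R K r) ∈ (1 : Submodule R K) := fun r => by
    rw [h2]
    exact Submodule.mem_one.2 ⟨_, rfl⟩
  have h3 := w9_map p e J hJ z T Φ h1 hR _ h
  have h4 : (r * ∏ i, z i ^ (p ^ e * T)) • w ^ p ^ e =
      (algebraMap R K (∏ i, z i ^ T) * w) ^ p ^ e * algebraMap R K r := by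
    have h5 : ∏ i, z i ^ (p ^ e * T) = (∏ i, z i ^ T) ^ p ^ e := by
      rw [← Finset.prod_pow]
      refine Finset.prod_congr rfl fun i _ => ?_
      rw [← pow_mul, mul_comm]
    rw [h5, Algebra.smul_def, map_mul, map_pow]
    ring
  rw [h4, h1, h2] at h3
  have h5 : algebraMap R K (∏ i, z i ^ T) * w * algebraMap R K (φ (toRoot p e r)) =
      (∏ i, z i ^ T) • (φ (toRoot p e r) • w) := by
    rw [Algebra.smul_def, Algebra.smul_def]
    ring
  rw [h5] at h3
  have h6 := colon_W (symZ J (-1)) hcan z hz (fun _ => T) (fun _ => 1) (fun _ => le_rfl)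
    (φ (toRoot p e r) • w) (Submodule.smul_mem _ _ hw.mem) h3
  have h7 : powId z (fun _ => 1) = Ideal.span (Set.range z) := by
    unfold powId
    simp only [pow_one]
  rw [h7] at h6
  apply hw.nmem
  obtain ⟨v, hv⟩ := hunit.exists_left_inv
  have h8 := Submodule.smul_mem _ v h6
  rwa [smul_smul, hv, one_smul] at h8

end Pool.Agent.FSig.SF
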