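import Pool.Agent.Work.MP_27623f_ag.SF.A1
import Pool.Agent.Work.MP_27623f_ag.SF.W8
import Pool.Agent.Work.MP_27623f_ag.SF.W9
import Pool.Agent.Work.MP_27623f_ag.SF.W11

/-!
MODULE W12 (size M).  Every element of `E_R` is a multiple by `J^(q-1)` of the Frobenius image of the socle element, for `q` large.

PROOF.  `W = symZ J (-1)`, `q = p^e`.  `m^N ≤ powId z (fun _ => t)` (`isSop_pow`).  `chevalley` for `𝔞 e = splitId R p e`
(`splitId_anti`; if `x ≠ 0` then `hS x` gives `e` with `x ∉ splitId R p e`) gives `e₀`; take `e ≥ e₀` with `p^e ≥ t`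
(`e = max e₀ t`, `Nat.lt_pow_self`), so `splitId R p e ≤ powId z (fun _ => t)`.
`I = powId z (fun _ => q)`, `Δ = {s w^q | s ∈ symZ J (q-1)} + I W`, a submodule of `W` (`s w^q ∈ W`: `w^q ∈ symZ J (-q)`, `hJ.mul`), for instance
`Δ = (symZ J (q-1)).map (mulRight (w^q)) ⊔ I • W`.  Suppose `x = (∏ z_i^(q-t)) • b ∉ Δ`.  `exists_annih` (with `hl q` and
`socGen_pow` for the `SocGen` of `W` and `I`): `r ∈ R` with `r Δ ⊆ I W`, `r x ∉ I W`.
(1) `r ∉ powId z (fun _ => t)`: otherwise `r x ∈ (∏ z_i^(q-t)) (z_j^t) W ⊆ (z_j^q) W`.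
(2) For all `s ∈ symZ J (q-1)`: `s (r w^q) ∈ I W`.  By `exists_mult` for `v = r • w^q` (contrapositive) there is `T` with
`(∏ z_i^(qT)) • v ∈ powId z (q(T+1)) • symZ J (-q)`, and `mem_splitId_of` gives `r ∈ splitId R p e ≤ powId z (fun _ => t)`.
Contradiction.  So `x ∈ Δ`, `x = s w^q + (element of I W)`.
-/

set_option autoImplicit false

namespace Pool.Agent.FSig.SF

open Pool.Agent.FSig Pool.Agent.FSig.SA IsLocalRing

universe u

private theorem prod_mul_mem_powId {R : Type*} [CommRing R] {d : ℕ} (z : Fin d → R) (q t : ℕ)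
    (hqt : t ≤ q) (a : R) (ha : a ∈ powId z (fun _ => t)) :
    a * ∏ i, z i ^ (q - t) ∈ powId z (fun _ => q) := by
  obtain ⟨c, rfl⟩ := Ideal.mem_span_range_iff_exists_fun.1 ha
  rw [Finset.sum_mul]
  refine Ideal.sum_mem _ fun j _ => ?_
  have h1 : c j * z j ^ t * ∏ i, z i ^ (q - t) =
      (c j * ∏ i ∈ Finset.univ.erase j, z i ^ (q - t)) * z j ^ q := by
    rw [← Finset.mul_prod_erase Finset.univ (fun i => z i ^ (q - t)) (Finset.mem_univ j)]
    have h2 : z j ^ q = z j ^ t * z j ^ (q - t) := by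
      rw [← pow_add]
      congr 1
      omega
    rw [h2]
    ring
  rw [h1]
  exact Ideal.mul_mem_left _ _ (Ideal.subset_span ⟨j, rfl⟩)

private theorem pow_mem_symZ {R K : Type*} [CommRing R] [Field K] [Algebra R K]
    (J : Submodule R K) (hJ : DivSys R K (symZ J)) (w : K) (hw : w ∈ symZ J (-1)) (n : ℕ) :
    w ^ n ∈ symZ J (-(n : ℤ)) := by
  induction n with
  | zero =>
    rw [pow_zero, Nat.cast_zero, neg_zero, hJ.zero]
    exact Submodule.one_le.1 le_rfl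
  | succ n ih =>
    have h2 := hJ.mul _ _ _ ih _ hw
    rw [pow_succ]
    have h3 : (-((n + 1 : ℕ) : ℤ)) = -(n : ℤ) + -1 := by
      push_cast
      ring
    rw [h3]
    exact h2

theorem dagger {R K : Type u} [CommRing R] [IsDomain R] [IsNoetherianRing R]
    [IsLocalRing R] [IsIntegrallyClosed R] [IsAdicComplete (maximalIdeal R) R] [Field K]
    [Algebra R K] [IsFractionRing R K] (p : ℕ) [Fact p.Prime] [CharP R p]
    (hS : StronglyFRegular R p) (t₀ : R) (ht₀ : t₀ ≠ 0) (ht₀u : ¬ IsUnit t₀)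
    (J : Submodule R K) (hJ : DivSys R K (symZ J)) (hcan : IsCanonical (symZ J (-1))) {d : ℕ}
    (z : Fin d → R) (hz : IsSop z) (w : K)
    (hw : SocGen (symZ J (-1)) (Ideal.span (Set.range z)) w)
    (hl : ∀ t : ℕ, 1 ≤ t → Module.length R (R ⧸ powId z (fun _ => t)) ≤
      Module.length R (symZ J (-1) ⧸ (powId z (fun _ => t) • (⊤ : Submodule R (symZ J (-1))))))
    (b : K) (hb : b ∈ symZ J (-1)) (t : ℕ) (ht : 1 ≤ t) :
    ∃ e : ℕ, t ≤ p ^ e ∧ ∃ s ∈ symZ J (((p ^ e : ℕ) : ℤ) - 1),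
      (∏ i, z i ^ (p ^ e - t)) • b - s * w ^ p ^ e ∈
        powId z (fun _ => p ^ e) • symZ J (-1) := by
  obtain ⟨N, hN⟩ := (isSop_pow z hz (fun _ => t) (fun _ => ht)).prim
  have hN' : maximalIdeal R ^ N ≤ powId z (fun _ => t) := hN
  obtain ⟨e₀, he₀⟩ := chevalley (fun e => splitId R p e)
    (fun e => splitId_anti p hS t₀ ht₀ ht₀u e) (fun x hx => by
      by_contra hx0
      obtain ⟨e, φ, hφ⟩ := hS x hx0
      have h1 := (mem_splitId.1 (hx e)) φ
      rw [hφ] at h1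
      exact (Ideal.ne_top_iff_one _).1 (maximalIdeal.isMaximal R).ne_top h1) N
  have hp1 : 1 < p := (Fact.out : p.Prime).one_lt
  obtain ⟨e, he1, he2⟩ : ∃ e : ℕ, e₀ ≤ e ∧ t ≤ p ^ e :=
    ⟨max e₀ t, le_max_left _ _,
      (le_max_right e₀ t).trans (Nat.lt_pow_self hp1).le⟩
  have hsplit : splitId R p e ≤ powId z (fun _ => t) := (he₀ e he1).trans hN'
  have hq : 1 ≤ p ^ e := ht.trans he2
  refine ⟨e, he2, ?_⟩
  have hwq : w ^ p ^ e ∈ symZ J (-((p ^ e : ℕ) : ℤ)) := pow_mem_symZ J hJ w hw.mem (p ^ e)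
  let Δ : Submodule R K :=
    (symZ J (((p ^ e : ℕ) : ℤ) - 1)).map (LinearMap.mulRight R (w ^ p ^ e)) ⊔
      powId z (fun _ => p ^ e) • symZ J (-1)
  have hΔW : Δ ≤ symZ J (-1) := by
    refine sup_le ?_ Submodule.smul_le_right
    rintro _ ⟨s, hs, rfl⟩
    have h1 := hJ.mul _ _ s hs _ hwq
    have h2 : ((p ^ e : ℕ) : ℤ) - 1 + -((p ^ e : ℕ) : ℤ) = -1 := by ring
    rw [h2] at h1
    exact h1
  have hx : (∏ i, z i ^ (p ^ e - t)) • b ∈ Δ := by
    by_contra hxΔ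
    obtain ⟨r, hr1, hr2⟩ := exists_annih (symZ J (-1)) (hJ.fg _) (powId z (fun _ => p ^ e))
      (isSop_pow z hz (fun _ => p ^ e) (fun _ => hq)).prim _
      (socGen_pow (symZ J (-1)) hcan z hz w hw (p ^ e) hq) (hl _ hq) Δ hΔW le_sup_right
      ((∏ i, z i ^ (p ^ e - t)) • b) (Submodule.smul_mem _ _ hb) hxΔ
    have hrt : r ∉ powId z (fun _ => t) := by
      intro hr
      apply hr2
      rw [smul_smul]
      exact Submodule.smul_mem_smul (prod_mul_mem_powId z (p ^ e) t he2 r hr) hb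
    have hv : r • w ^ p ^ e ∈ symZ J (-((p ^ e : ℕ) : ℤ)) := Submodule.smul_mem _ _ hwq
    have hT : ∃ T : ℕ, (∏ i, z i ^ (p ^ e * T)) • (r • w ^ p ^ e) ∈
        powId z (fun _ => p ^ e * (T + 1)) • symZ J (-((p ^ e : ℕ) : ℤ)) := by
      by_contra hcon
      push Not at hcon
      obtain ⟨s, hs1, hs2⟩ := exists_mult J hJ hcan z hz w hw hl (p ^ e) hq _ hv hcon
      apply hs2
      rw [mul_smul_comm]
      exact hr1 _ (Submodule.mem_sup_left ⟨s, hs1, rfl⟩)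
    obtain ⟨T, hT⟩ := hT
    rw [smul_smul, mul_comm _ r] at hT
    exact hrt (hsplit (mem_splitId_of p e J hJ hcan z hz w hw r T hT))
  obtain ⟨_, ⟨s, hs, rfl⟩, y, hy, hxy⟩ := Submodule.mem_sup.1 hx
  refine ⟨s, hs, ?_⟩
  rw [← hxy]
  have : LinearMap.mulRight R (w ^ p ^ e) s + y - s * w ^ p ^ e = y := by
    rw [LinearMap.mulRight_apply]
    ring
  rw [this]
  exact hy

end Pool.Agent.FSig.SF
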