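import Pool.Agent.Work.MP_27623f_ag.SF.W1
import Pool.Agent.Work.MP_27623f_ag.SF.K6

/-!
MODULE W2 (size M).  `length W/(z)W ≥ length R/(z)` for a nonzero fractional ideal `W` and a regular system of parameters `z`.

PROOF.  `W` is finitely generated and not zero; there is `0 ≠ a ∈ K` with `a W ⊆ 1` (common denominator,
`IsLocalization.exist_integer_multiples_of_finset`); `μ : W → R` with `algebraMap (μ x) = a x`, an injective linear map, `C = R / range μ`
is killed by an element `c ≠ 0` (any nonzero element of `range μ`).  For `n ≥ 1`: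
`n^d length R/(z) = length R/(z^n) = h0 (z^n) R` (`length_powId`; `range (kosOne z' R) = span (range z')`)
`≤ h0 (z^n) W + h0 (z^n) C` (`h0_le_add`) `≤ n^d h0 z W + h0 (z^n) C` (`h0_pow_le`), and `n h0 (z^n) C ≤ C' n^d` (`h0_small`).
If `length R/(z) ≥ length W/(z)W + 1` (both are finite, `m^c ≤ (z)`), then `n · n^d ≤ C' n^d` for all `n`, a contradiction.
-/

set_option autoImplicit false

namespace Pool.Agent.FSig.SF

open Pool.Agent.FSig Pool.Agent.FSig.SA IsLocalRing

universe u

private theorem range_kosOne {R : Type u} [CommRing R] {d : ℕ} (z : Fin d → R) (M : Type u)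
    [AddCommGroup M] [Module R M] :
    LinearMap.range (kosOne z M) = Ideal.span (Set.range z) • (⊤ : Submodule R M) := by
  classical
  refine le_antisymm ?_ ?_
  · rintro _ ⟨m, rfl⟩
    rw [kosOne_apply]
    exact Submodule.sum_mem _ fun i _ =>
      Submodule.smul_mem_smul (Ideal.subset_span ⟨i, rfl⟩) Submodule.mem_top
  · refine Submodule.smul_le.2 fun r hr m _ => ?_
    induction hr using Submodule.span_induction with
    | mem r hr =>
      obtain ⟨i, rfl⟩ := hr
      refine ⟨Pi.single i m, ?_⟩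
      rw [kosOne_apply, Finset.sum_eq_single i]
      · rw [Pi.single_eq_same]
      · intro j _ hj
        rw [Pi.single_eq_of_ne hj, smul_zero]
      · intro h
        exact absurd (Finset.mem_univ i) h
    | zero => rw [zero_smul]; exact Submodule.zero_mem _
    | add a b _ _ ha hb => rw [add_smul]; exact Submodule.add_mem _ ha hb
    | smul c a _ ha => rw [smul_eq_mul, mul_smul]; exact Submodule.smul_mem _ _ ha

private theorem exists_mu {R K : Type u} [CommRing R] [IsDomain R] [Field K] [Algebra R K]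
    [IsFractionRing R K] (W : Submodule R K) (hW : W.FG) :
    ∃ μ : W →ₗ[R] R, Function.Injective μ := by
  obtain ⟨s, hs⟩ := hW
  obtain ⟨b, hb⟩ := IsLocalization.exist_integer_multiples_of_finset (nonZeroDivisors R) s
  have hb0 : (b : R) ≠ 0 := nonZeroDivisors.ne_zero b.2
  have hι : Function.Injective (Algebra.linearMap R K) := IsFractionRing.injective R K
  have hall : ∀ x ∈ W, (b : R) • x ∈ LinearMap.range (Algebra.linearMap R K) := by
    intro x hx
    rw [← hs] at hx
    induction hx using Submodule.span_induction with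
    | mem x hx =>
      obtain ⟨r, hr⟩ := hb x hx
      exact ⟨r, hr⟩
    | zero => rw [smul_zero]; exact Submodule.zero_mem _
    | add x y _ _ hx hy => rw [smul_add]; exact Submodule.add_mem _ hx hy
    | smul c x _ hx => rw [smul_comm]; exact Submodule.smul_mem _ _ hx
  let f : W →ₗ[R] LinearMap.range (Algebra.linearMap R K) :=
    LinearMap.codRestrict _ ((b : R) • W.subtype) fun x => hall x x.2
  refine ⟨(LinearEquiv.ofInjective _ hι).symm.toLinearMap ∘ₗ f, ?_⟩
  refine (LinearEquiv.ofInjective _ hι).symm.injective.comp ?_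
  intro x y hxy
  have h1 : (b : R) • (x : K) = (b : R) • (y : K) := congrArg Subtype.val hxy
  have h2 : algebraMap R K (b : R) ≠ 0 := fun h => hb0 (hι (by
    rw [Algebra.linearMap_apply, map_zero]; exact h))
  rw [Algebra.smul_def, Algebra.smul_def] at h1
  exact Subtype.ext (mul_left_cancel₀ h2 h1)

theorem length_le_W {R K : Type u} [CommRing R] [IsDomain R] [IsNoetherianRing R]
    [IsLocalRing R] [Field K] [Algebra R K] [IsFractionRing R K] (W : Submodule R K)
    (hW : W.FG) (hW0 : W ≠ ⊥) {d : ℕ} (z : Fin d → R) (hz : IsSop z) (hreg : RegSeq z) :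
    Module.length R (R ⧸ Ideal.span (Set.range z)) ≤
      Module.length R (W ⧸ (Ideal.span (Set.range z) • (⊤ : Submodule R W))) := by
  obtain ⟨μ, hμ⟩ := exists_mu W hW
  obtain ⟨x0, hx0W, hx0⟩ := (Submodule.ne_bot_iff W).1 hW0
  have hc : μ ⟨x0, hx0W⟩ ≠ 0 := by
    intro h
    have h1 : (⟨x0, hx0W⟩ : W) = 0 := hμ (by rw [h, map_zero])
    exact hx0 (congrArg Subtype.val h1)
  have hcM : ∀ m : R ⧸ LinearMap.range μ, μ ⟨x0, hx0W⟩ • m = 0 := by
    intro m
    obtain ⟨r, rfl⟩ := Submodule.Quotient.mk_surjective _ m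
    rw [← Submodule.Quotient.mk_smul, Submodule.Quotient.mk_eq_zero]
    refine ⟨r • ⟨x0, hx0W⟩, ?_⟩
    rw [map_smul, smul_eq_mul, smul_eq_mul, mul_comm]
  obtain ⟨C0, hC0⟩ := h0_small z hz (R ⧸ LinearMap.range μ) _ hc hcM
  have hex : Function.Exact μ (Submodule.mkQ (LinearMap.range μ)) := LinearMap.exact_map_mkQ_range μ
  have hRn : ∀ n : ℕ, 1 ≤ n → h0 (fun i => z i ^ n) R =
      ((n ^ d : ℕ) : ℕ∞) * Module.length R (R ⧸ Ideal.span (Set.range z)) := by
    intro n hn
    have h1 := length_powId z hreg (fun _ => n) (fun _ => hn)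
    rw [Finset.prod_const, Finset.card_univ, Fintype.card_fin] at h1
    rw [← h1]
    unfold h0
    rw [range_kosOne, smul_eq_mul, Ideal.mul_top]
    rfl
  have hmain : ∀ n : ℕ, 1 ≤ n →
      ((n ^ d : ℕ) : ℕ∞) * Module.length R (R ⧸ Ideal.span (Set.range z)) ≤
      ((n ^ d : ℕ) : ℕ∞) * h0 z W + h0 (fun i => z i ^ n) (R ⧸ LinearMap.range μ) := by
    intro n hn
    rw [← hRn n hn]
    exact (h0_le_add _ μ _ (Submodule.mkQ_surjective _) hex).trans
      (add_le_add (h0_pow_le z W n hn) le_rfl)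
  have hW' : h0 z W = Module.length R (W ⧸ (Ideal.span (Set.range z) • (⊤ : Submodule R W))) := by
    unfold h0
    rw [range_kosOne]
  rw [← hW']
  by_contra hcon
  rw [not_le] at hcon
  have hfin := length_ne_top (Ideal.span (Set.range z)) hz.prim
  obtain ⟨r, hr⟩ := ENat.ne_top_iff_exists.1 hfin
  obtain ⟨w, hw⟩ := ENat.ne_top_iff_exists.1 (ne_top_of_lt hcon)
  rw [← hr, ← hw, Nat.cast_lt] at hcon
  have h1 := hC0 (C0 + 1) (by omega)
  have h2 := hmain (C0 + 1) (by omega)
  have h3 : h0 (fun i => z i ^ (C0 + 1)) (R ⧸ LinearMap.range μ) ≠ ⊤ := by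
    intro h
    rw [h, ENat.mul_top (by simp)] at h1
    exact absurd h1 (not_le.2 (ENat.coe_lt_top _))
  obtain ⟨t, ht⟩ := ENat.ne_top_iff_exists.1 h3
  rw [← ht] at h1 h2
  rw [← hr, ← hw] at h2
  have h4 : (C0 + 1) * t ≤ C0 * (C0 + 1) ^ d := by exact_mod_cast h1
  have h5 : (C0 + 1) ^ d * r ≤ (C0 + 1) ^ d * w + t := by exact_mod_cast h2
  have h6 : (C0 + 1) ^ d * (w + 1) ≤ (C0 + 1) ^ d * r := Nat.mul_le_mul le_rfl hcon
  have h7 : (C0 + 1) ^ d ≤ t := by
    have : (C0 + 1) ^ d * (w + 1) = (C0 + 1) ^ d * w + (C0 + 1) ^ d := by ring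
    omega
  have h8 : 0 < (C0 + 1) ^ d := by positivity
  have h9 : (C0 + 1) * (C0 + 1) ^ d ≤ C0 * (C0 + 1) ^ d :=
    (Nat.mul_le_mul le_rfl h7).trans h4
  have h10 := Nat.le_of_mul_le_mul_right h9 h8
  omega

end Pool.Agent.FSig.SF
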