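import Pool.Agent.Work.MP_27623f_ag.SF.P2
import Pool.Agent.Work.MP_27623f_ag.SF.P3
import Pool.Agent.Work.MP_27623f_ag.SF.F8
import Pool.Agent.Work.MP_27623f_ag.SF.A3
import Pool.Agent.Work.MP_27623f_ag.SF.A4
import Pool.Agent.Work.MP_27623f_ag.SF.A5
import Pool.Agent.Work.MP_27623f_ag.SF.D4
import Pool.Agent.Work.MP_27623f_ag.SF.W2
import Pool.Agent.Work.MP_27623f_ag.SF.W10
import Pool.Agent.Work.MP_27623f_ag.SF.W12
import Pool.Agent.Work.MP_27623f_ag.SA.Sys
import Pool.Agent.Work.MP_27623f_ag.SA.Contr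

/-!
MODULE P4 (size M).  Assembly: the replacement of `stageA`.

PROOF.  `hJs = divSys_symZ J hJ hJ0`; `symZ J (-1) = dual J` (`pow_one`).  `d` with `ringKrullDim R = d` (finite dimensional), `2 ≤ d`.  `t₀ ∈ m`,
`t₀ ≠ 0` (`m ≠ 0` as the dimension is positive).  `S = symAlg J`: domain, `CharP S p`, finite type over `R`, Noetherian;
`A = Localization.AtPrime (origin J)`: local Noetherian domain, `CharP A p` (see SA/StA); `A` is F-finite (`ffinite_loc'`), strongly F-regular
(`sfr_symAlg`, `sfr_loc`, `primeCompl ≤ nonZeroDivisors`).  `0 ≠ a ∈ symZ J 1 = symPow J 1`, `y = C a * X ∈ S`, `y ≠ 0`, constant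
term `0`.  `exists_params` gives `x`; `z_i = constTerm J (x i)` is a system of parameters of `R`, and `cons y x` one of `A`, so it is
`RegSeq` (`regSeq_of_sfr`).  `hl t`: `isSop_pow`, `regSeq_of_sfr` for `R` and `z^t`, `length_le_W` (`powId z (fun _ => t)` is
the span of the range of `z_i^t`).  `hcan` gives `w` with `SocGen W (z) w`.  `a w ∈ symZ J 0 = 1`, `= algebraMap u₀`.
`ι = algebraMap S A`, `ε : A → R` the lift of `constTerm J` (elements outside of `origin J` have unit constant term).
`𝔮_A = span (range (cons (ι y) (ι x)))`, `𝔮 = 𝔮_A.comap ι`, `u = algebraMap R S u₀`.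
* `∃ M, origin J ^ M ≤ 𝔮`: from `IsSop.prim`.
* `u ∉ 𝔮`: `stage4` with `hdag` from `dagger`.
* For a pair `(I', w')` and `r w'^q ∈ I'^[q]`: `pair_to_W` gives `T`, `stage3` gives
`ι (r u^q) ∈ powId (..) (fun _ => q) = frobPow 𝔮_A q` (`frobPow_eq_map`, `Ideal.map_span`), `contract` gives
`r u^q ∈ frobPow 𝔮 q`.
-/

set_option autoImplicit false

namespace Pool.Agent.FSig.SF

open Pool.Agent.FSig Pool.Agent.FSig.SA IsLocalRing

universe u

private theorem p4_frob {A : Type u} [CommRing A] (p e : ℕ) [ExpChar A p] {n : ℕ}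
    (v : Fin n → A) : frobPow (Ideal.span (Set.range v)) (p ^ e) = powId v (fun _ => p ^ e) := by
  rw [frobPow_eq_map, Ideal.map_span, ← Set.range_comp]
  rfl

theorem stageA_sfr {R K : Type u} [CommRing R] [IsDomain R] [IsNoetherianRing R]
    [IsLocalRing R] [IsIntegrallyClosed R] [IsAdicComplete (maximalIdeal R) R] [Field K]
    [Algebra R K] [IsFractionRing R K] (p : ℕ) [Fact p.Prime] [CharP R p]
    (hF : (frobenius R p).Finite) (hd : 2 ≤ ringKrullDim R) (hS : StronglyFRegular R p)
    (J : Submodule R K) (hJ : J.FG) (hJ0 : J ≠ ⊥) (hfg : (symAlg J).FG)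
    (hcan : IsCanonical (dual J)) :
    ∃ (q : Ideal (symAlg J)) (u : symAlg J), (∃ M, origin J ^ M ≤ q) ∧ u ∉ q ∧
      ∀ (I' : Ideal R) (w' : R), Pair R I' w' → ∀ (e : ℕ) (r : R),
        r * w' ^ p ^ e ∈ frobPow I' (p ^ e) →
          algebraMap R (symAlg J) r * u ^ p ^ e ∈ frobPow q (p ^ e) := by
  classical
  have hp : p.Prime := Fact.out
  have hinjK : Function.Injective (algebraMap R K) := FaithfulSMul.algebraMap_injective R K
  have hJs : DivSys R K (symZ J) := divSys_symZ J hJ hJ0
  have hW1 : symZ J (-1) = dual J := by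
    show dual (J ^ (0 + 1)) = dual J
    rw [zero_add, pow_one]
  have hcan' : IsCanonical (symZ J (-1)) := by rw [hW1]; exact hcan
  -- dimension
  have hfin : ringKrullDim R ≠ ⊤ := by
    have : FiniteRingKrullDim R := inferInstance
    exact ringKrullDim_ne_top
  obtain ⟨d, hdim⟩ : ∃ d : ℕ, ringKrullDim R = d := by
    have hbot : ringKrullDim R ≠ ⊥ := ringKrullDim_ne_bot
    obtain ⟨d', hd'⟩ := WithBot.ne_bot_iff_exists.1 hbot
    rw [← hd'] at hfin ⊢
    have h2 : d' ≠ ⊤ := fun h => hfin (by rw [h]; rfl)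
    obtain ⟨d, hd⟩ := ENat.ne_top_iff_exists.1 h2
    exact ⟨d, by rw [← hd]; rfl⟩
  -- a nonzero nonunit
  obtain ⟨t₀, ht₀, ht₀u⟩ : ∃ t₀ : R, t₀ ≠ 0 ∧ ¬ IsUnit t₀ := by
    by_contra hcon
    push Not at hcon
    have h1 : IsField R := by
      refine ⟨⟨0, 1, zero_ne_one⟩, mul_comm, fun {a} ha => ?_⟩
      exact (hcon a ha).exists_right_inv
    have h2 : ringKrullDim R = 0 := ringKrullDim_eq_zero_of_isField h1
    rw [h2] at hd
    exact absurd hd (by decide)
  -- the symbolic algebra and its localization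
  have hct : ∀ r : R, constTerm J (algebraMap R (symAlg J) r) = r := by
    intro r
    apply hinjK
    rw [algebraMap_constTerm]
    have h1 : ((algebraMap R (symAlg J) r : symAlg J) : Polynomial K) =
        algebraMap R (Polynomial K) r := rfl
    rw [h1, Polynomial.algebraMap_apply, Polynomial.coeff_C_zero]
  have hsurj : Function.Surjective (constTerm J) := fun r => ⟨_, hct r⟩
  have hinj : Function.Injective (algebraMap R (symAlg J)) := by
    intro a b hab
    rw [← hct a, ← hct b, hab]
  have hft : Algebra.FiniteType R (symAlg J) := (Subalgebra.fg_iff_finiteType _).1 hfg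
  have hN : IsNoetherianRing (symAlg J) := Algebra.FiniteType.isNoetherianRing R (symAlg J)
  have hcS : CharP (symAlg J) p := charP_of_injective_algebraMap hinj p
  have hmax : (origin J).IsMaximal := Ideal.comap_isMaximal_of_surjective _ hsurj
  have hNA : IsNoetherianRing (Localization.AtPrime (origin J)) :=
    IsLocalization.isNoetherianRing (origin J).primeCompl _ hN
  have hcA : CharP (Localization.AtPrime (origin J)) p := by
    rw [CharP.charP_iff_prime_eq_zero hp]
    have h1 : ((p : ℕ) : symAlg J) = 0 := CharP.cast_eq_zero _ p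
    have h2 := congrArg (algebraMap (symAlg J) (Localization.AtPrime (origin J))) h1
    rwa [map_natCast, map_zero] at h2
  have hle : (origin J).primeCompl ≤ nonZeroDivisors (symAlg J) :=
    Ideal.primeCompl_le_nonZeroDivisors _
  have hdomA : IsDomain (Localization.AtPrime (origin J)) :=
    IsLocalization.isDomain_localization hle
  have hunit : ∀ y : (origin J).primeCompl, IsUnit (constTerm J (y : symAlg J)) := by
    intro y
    have h1 : (y : symAlg J) ∉ origin J := y.2
    have h2 : constTerm J (y : symAlg J) ∉ IsLocalRing.maximalIdeal R := h1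
    exact IsLocalRing.notMem_maximalIdeal.1 h2
  let ε : Localization.AtPrime (origin J) →+* R := IsLocalization.lift hunit
  have hε : ∀ f, ε (algebraMap (symAlg J) (Localization.AtPrime (origin J)) f) =
      constTerm J f := fun f => IsLocalization.lift_eq hunit f
  have hSS : StronglyFRegular (symAlg J) p := sfr_symAlg p hS t₀ ht₀ ht₀u J hJs
  have hSA : StronglyFRegular (Localization.AtPrime (origin J)) p := sfr_loc p _ hle hSS
  have hFA := ffinite_loc' (R := R) (S := symAlg J) p hF hft (origin J).primeCompl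
  -- the element `y`
  obtain ⟨a, ha, ha0⟩ := hJs.ne 1
  have hymem : Polynomial.C a * Polynomial.X ∈ symAlg J := by
    intro n
    rw [Polynomial.coeff_C_mul, Polynomial.coeff_X]
    split_ifs with h
    · rw [← h, mul_one]
      exact ha
    · rw [mul_zero]
      exact Submodule.zero_mem _
  obtain ⟨y, hy⟩ : ∃ y : symAlg J, (y : Polynomial K) = Polynomial.C a * Polynomial.X :=
    ⟨⟨_, hymem⟩, rfl⟩
  have hy0 : y ≠ 0 := by
    intro h
    have h1 : (y : Polynomial K) = 0 := by rw [h]; rfl
    rw [hy] at h1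
    have h2 := congrArg (fun f : Polynomial K => f.coeff 1) h1
    simp only [Polynomial.coeff_C_mul, Polynomial.coeff_X_one, mul_one,
      Polynomial.coeff_zero] at h2
    exact ha0 h2
  have hyc : constTerm J y = 0 := by
    apply hinjK
    rw [algebraMap_constTerm, hy, map_zero, Polynomial.coeff_C_mul, Polynomial.coeff_X_zero,
      mul_zero]
  obtain ⟨x, hxo, hz, hsopA⟩ := exists_params J hfg hdim y hy0 hyc
  have hreg : RegSeq (Fin.cons (algebraMap (symAlg J) (Localization.AtPrime (origin J)) y)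
      (fun i => algebraMap (symAlg J) (Localization.AtPrime (origin J)) (x i)) :
      Fin (d + 1) → Localization.AtPrime (origin J)) := regSeq_of_sfr p hFA hSA _ hsopA
  have hl : ∀ t : ℕ, 1 ≤ t →
      Module.length R (R ⧸ powId (fun i => constTerm J (x i)) (fun _ => t)) ≤
      Module.length R (symZ J (-1) ⧸ (powId (fun i => constTerm J (x i)) (fun _ => t) •
        (⊤ : Submodule R (symZ J (-1))))) := by
    intro t ht
    have h1 := isSop_pow (fun i => constTerm J (x i)) hz (fun _ => t) (fun _ => ht)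
    have h2 := regSeq_of_sfr p hF hS _ h1
    obtain ⟨b, hb, hb0⟩ := hJs.ne (-1)
    exact length_le_W (symZ J (-1)) (hJs.fg _)
      (fun h => hb0 (by rw [h] at hb; exact (Submodule.mem_bot R).1 hb)) _ h1 h2
  obtain ⟨-, w, hw⟩ := hcan' d _ hz
  obtain ⟨u₀, hu₀⟩ : ∃ u₀ : R, algebraMap R K u₀ = a * w := by
    have h1 := hJs.mul 1 (-1) a ha w hw.mem
    have h2 : (1 : ℤ) + -1 = 0 := by norm_num
    rw [h2, hJs.zero] at h1
    exact Submodule.mem_one.1 h1
  refine ⟨(Ideal.span (Set.range (Fin.cons
      (algebraMap (symAlg J) (Localization.AtPrime (origin J)) y)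
      (fun i => algebraMap (symAlg J) (Localization.AtPrime (origin J)) (x i)) :
      Fin (d + 1) → Localization.AtPrime (origin J)))).comap
    (algebraMap (symAlg J) (Localization.AtPrime (origin J))),
    algebraMap R (symAlg J) u₀, ?_, ?_, ?_⟩
  · obtain ⟨c, hc⟩ := hsopA.prim
    refine ⟨c, ?_⟩
    rw [← Ideal.map_le_iff_le_comap, Ideal.map_pow]
    refine le_trans ?_ hc
    apply Ideal.pow_right_mono
    rw [Localization.AtPrime.map_eq_maximalIdeal]
  · intro hu
    rw [Ideal.mem_comap] at hu
    refine stage4 p J hJs a ha0 ha y hy x w hw.mem u₀ hu₀ _ ε hε ?_ hreg ?_ hu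
    · intro i
      rw [← Localization.AtPrime.map_eq_maximalIdeal]
      exact Ideal.mem_map_of_mem _ (hxo i)
    · intro b hb t ht
      exact dagger p hS t₀ ht₀ ht₀u J hJs hcan' _ hz w hw hl b hb t ht
  · intro I' w' hI' e r hr
    obtain ⟨T, hT⟩ := pair_to_W p e J hJs hcan' _ hz w hw hl hI' r hr
    apply contract p e (origin J) hmax _ hsopA.prim
    rw [p4_frob]
    exact stage3 p e J hJs a ha y hy x w hw.mem u₀ hu₀ _ hreg r T hT

end Pool.Agent.FSig.SF
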