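import Pool.Agent.Work.MP_27623f_ag.SF.K1
import Pool.Agent.Work.MP_27623f_ag.RegPow
import Pool.Agent.Work.MP_27623f_ag.ColonPow
import Pool.Agent.Work.MP_27623f_ag.ColonLen

/-!
MODULE W1 (size M).  Lengths modulo powers.

PROOF.
`length_powId`: for a regular sequence in every order,
`length R/(z_1^(a_1), ..., z_d^(a_d)) = a_1 ... a_d length R/(z)`.  Induction on `∑ a_i`; if all `a_i = 1` it is trivial.  If `a_i ≥ 2` apply
`length_colon` (ColonLen) to `A = powId z a` and `w = z_i^(a_i - 1)`: `colonEl A w = powId z (a with a_i := 1)`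
and `A ⊔ (w) = powId z (a with a_i := a_i - 1)`.  The inclusion `≤` for the colon: `r z_i^(a_i-1) = t z_i^(a_i) + (others)`, so
`z_i^(a_i - 1) (r - t z_i) ∈ (z_j^(a_j) : j ≠ i)` and `reg_pow` (RegPow) gives `r - t z_i ∈ (z_j^(a_j) : j ≠ i)`.
(Alternatively: the statement for all `a` with `1 ≤ a_i`, one coordinate after the other.)
`h0_pow_le`: for every module, `length M/(z_1^n, ..., z_d^n) M ≤ n^d length M/(z) M`.  One coordinate at a time: for an element `x`, an
ideal `I` and `N = M / I M` the module `N / x^n N` is filtered by the `n` modules `x^j N / x^(j+1) N`, which are quotients of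
`N / x N`.  So for every `a`: `length M/(powId z a) M ≤ a_i length M/(powId z (a with a_i := 1)) M`.
-/

set_option autoImplicit false

namespace Pool.Agent.FSig.SF

open Pool.Agent.FSig Pool.Agent.FSig.SA

universe u

private theorem powId_upd_le {R : Type u} [CommRing R] {d : ℕ} (z : Fin d → R)
    (a : Fin d → ℕ) (i : Fin d) (b : ℕ) (hb : b ≤ a i) :
    powId z a ≤ powId z (Function.update a i b) := by
  refine Ideal.span_le.2 ?_
  rintro _ ⟨j, rfl⟩
  by_cases h : j = i
  · subst h
    have e : z j ^ a j = z j ^ (a j - b) * z j ^ b := by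
      rw [← pow_add]
      congr 1
      omega
    show z j ^ a j ∈ _
    rw [e]
    refine Ideal.mul_mem_left _ _ (Ideal.subset_span ⟨j, ?_⟩)
    simp
  · refine Ideal.subset_span ⟨j, ?_⟩
    simp only [Function.update_of_ne h]

private theorem colon_eq {R : Type u} [CommRing R] {d : ℕ} (z : Fin d → R) (hz : RegSeq z)
    (a : Fin d → ℕ) (i : Fin d) (hi : 1 ≤ a i) :
    colonEl (powId z a) (z i ^ (a i - 1)) = powId z (Function.update a i 1) := by
  refine le_antisymm ?_ ?_
  · intro r hr
    have hr' : z i ^ (a i - 1) * r ∈ powId z a := by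
      rw [mul_comm]
      exact hr
    have h := colon_one z (fun a i T hi c s h => reg_pow z hz a i T hi c s h) a i (a i - 1)
      (by omega) r hr'
    have e : a i - (a i - 1) = 1 := by omega
    rwa [e] at h
  · refine Ideal.span_le.2 ?_
    rintro _ ⟨j, rfl⟩
    show z j ^ (Function.update a i 1 j) * z i ^ (a i - 1) ∈ powId z a
    by_cases h : j = i
    · subst h
      rw [Function.update_self, ← pow_add]
      have e : 1 + (a j - 1) = a j := by omega
      rw [e]
      exact Ideal.subset_span ⟨j, rfl⟩
    · rw [Function.update_of_ne h]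
      exact Ideal.mul_mem_right _ _ (Ideal.subset_span ⟨j, rfl⟩)

private theorem sup_eq {R : Type u} [CommRing R] {d : ℕ} (z : Fin d → R)
    (a : Fin d → ℕ) (i : Fin d) :
    powId z a ⊔ Ideal.span {z i ^ (a i - 1)} = powId z (Function.update a i (a i - 1)) := by
  refine le_antisymm (sup_le (powId_upd_le z a i _ (by omega)) ?_) ?_
  · rw [Ideal.span_singleton_le_iff_mem]
    refine Ideal.subset_span ⟨i, ?_⟩
    simp
  · refine Ideal.span_le.2 ?_
    rintro _ ⟨j, rfl⟩
    by_cases h : j = i
    · subst h
      simp only [Function.update_self]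
      exact Ideal.mem_sup_right (Ideal.mem_span_singleton_self _)
    · simp only [Function.update_of_ne h]
      exact Ideal.mem_sup_left (Ideal.subset_span ⟨j, rfl⟩)

theorem length_powId {R : Type u} [CommRing R] {d : ℕ} (z : Fin d → R) (hz : RegSeq z)
    (a : Fin d → ℕ) (ha : ∀ i, 1 ≤ a i) :
    Module.length R (R ⧸ powId z a) =
      ((∏ i, a i : ℕ) : ℕ∞) * Module.length R (R ⧸ Ideal.span (Set.range z)) := by
  classical
  obtain ⟨N, hN⟩ : ∃ N, ∑ i, a i = N := ⟨_, rfl⟩
  induction N using Nat.strong_induction_on generalizing a with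
  | _ N ih =>
  by_cases h1 : ∃ i, 2 ≤ a i
  · obtain ⟨i, hi⟩ := h1
    have hs : a i + ∑ j ∈ Finset.univ \ {i}, a j = N := by
      rw [← hN, ← Finset.sum_sdiff (Finset.subset_univ {i}), Finset.sum_singleton, add_comm]
    have hsum : ∀ b, ∑ j, Function.update a i b j = b + ∑ j ∈ Finset.univ \ {i}, a j :=
      fun b => Finset.sum_update_of_mem (Finset.mem_univ i) a b
    have hprod : ∀ b, ∏ j, Function.update a i b j = b * ∏ j ∈ Finset.univ \ {i}, a j :=
      fun b => Finset.prod_update_of_mem (Finset.mem_univ i) a b
    have hpa : ∏ j, a j = a i * ∏ j ∈ Finset.univ \ {i}, a j := by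
      rw [← hprod (a i), Function.update_eq_self]
    have hpos : ∀ b, 1 ≤ b → ∀ j, 1 ≤ Function.update a i b j := by
      intro b hb j
      by_cases h : j = i
      · subst h; rw [Function.update_self]; exact hb
      · rw [Function.update_of_ne h]; exact ha j
    rw [length_colon (powId z a) (z i ^ (a i - 1)), colon_eq z hz a i (ha i), sup_eq,
      ih _ (by omega) (Function.update a i 1) (hpos 1 le_rfl) (hsum 1),
      ih _ (by omega) (Function.update a i (a i - 1)) (hpos _ (by omega)) (hsum _),
      hprod, hprod, hpa, ← add_mul]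
    congr 1
    rw [← Nat.cast_add, ← add_mul]
    congr 3
    omega
  · have h2 : a = fun _ => 1 := by
      funext i
      have h3 := ha i
      have h4 : ¬ 2 ≤ a i := fun h => h1 ⟨i, h⟩
      omega
    subst h2
    have e : powId z (fun _ => 1) = Ideal.span (Set.range z) := by
      unfold powId
      simp only [pow_one]
    rw [e]
    simp

private theorem length_mid_le {R A B C : Type*} [CommRing R] [AddCommGroup A] [Module R A]
    [AddCommGroup B] [Module R B] [AddCommGroup C] [Module R C] (a : A →ₗ[R] B) (b : B →ₗ[R] C)
    (h : Function.Exact a b) :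
    Module.length R B ≤ Module.length R A + Module.length R C := by
  have h1 : Module.length R B
      = Module.length R (LinearMap.ker b) + Module.length R (LinearMap.range b) := by
    refine Module.length_eq_add_of_exact (LinearMap.ker b).subtype b.rangeRestrict
      (Submodule.injective_subtype _) b.surjective_rangeRestrict ?_
    intro y
    constructor
    · intro hy
      have : b y = 0 := by
        have := congrArg Subtype.val hy
        simpa using this
      exact ⟨⟨y, this⟩, rfl⟩
    · rintro ⟨z, rfl⟩
      apply Subtype.ext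
      exact z.2
  rw [h1]
  gcongr
  · refine Module.length_le_of_surjective (a.codRestrict (LinearMap.ker b) fun y => ?_) ?_
    · exact (h (a y)).2 ⟨y, rfl⟩
    · rintro ⟨y, hy⟩
      obtain ⟨z, hz⟩ := (h y).1 hy
      exact ⟨z, Subtype.ext hz⟩
  · exact Module.length_le_of_injective (LinearMap.range b).subtype
      (Submodule.injective_subtype _)

private theorem length_pow_step {R : Type u} [CommRing R] {M : Type u} [AddCommGroup M]
    [Module R M] (K : Submodule R M) (x : R) (n : ℕ) :
    Module.length R (M ⧸ (K ⊔ LinearMap.range (LinearMap.lsmul R M (x ^ n)))) ≤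
      (n : ℕ∞) * Module.length R (M ⧸ (K ⊔ LinearMap.range (LinearMap.lsmul R M x))) := by
  induction n with
  | zero =>
    have h1 : K ⊔ LinearMap.range (LinearMap.lsmul R M (x ^ 0)) = ⊤ := by
      refine eq_top_iff.2 fun m _ => Submodule.mem_sup_right ⟨m, ?_⟩
      rw [pow_zero, LinearMap.lsmul_apply, one_smul]
    rw [h1]
    have h2 : Subsingleton (M ⧸ (⊤ : Submodule R M)) := Submodule.Quotient.subsingleton_iff.2 rfl
    rw [Module.length_eq_zero]
    exact zero_le
  | succ n ih =>
    have hS : K ⊔ LinearMap.range (LinearMap.lsmul R M x) ≤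
        (K ⊔ LinearMap.range (LinearMap.lsmul R M (x ^ (n + 1)))).comap
          (LinearMap.lsmul R M (x ^ n)) := by
      refine sup_le ?_ ?_
      · intro m hm
        exact Submodule.mem_sup_left (K.smul_mem _ hm)
      · rintro _ ⟨m, rfl⟩
        refine Submodule.mem_sup_right ⟨m, ?_⟩
        simp only [LinearMap.lsmul_apply, smul_smul, pow_succ]
    have hP : K ⊔ LinearMap.range (LinearMap.lsmul R M (x ^ (n + 1))) ≤
        (K ⊔ LinearMap.range (LinearMap.lsmul R M (x ^ n))).comap LinearMap.id := by
      refine sup_le ?_ ?_
      · intro m hm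
        exact Submodule.mem_sup_left hm
      · rintro _ ⟨m, rfl⟩
        refine Submodule.mem_sup_right ⟨x • m, ?_⟩
        simp only [LinearMap.lsmul_apply, smul_smul, pow_succ, LinearMap.id_apply]
    have hex : Function.Exact (Submodule.mapQ _ _ (LinearMap.lsmul R M (x ^ n)) hS)
        (Submodule.mapQ _ _ LinearMap.id hP) := by
      intro y
      obtain ⟨m, rfl⟩ := Submodule.Quotient.mk_surjective _ y
      rw [Submodule.mapQ_apply, LinearMap.id_apply, Submodule.Quotient.mk_eq_zero]
      constructor
      · intro hm
        obtain ⟨k, hk, _, ⟨m', rfl⟩, rfl⟩ := Submodule.mem_sup.1 hm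
        refine ⟨Submodule.Quotient.mk m', ?_⟩
        rw [Submodule.mapQ_apply]
        refine (Submodule.Quotient.eq _).2 ?_
        have e : (LinearMap.lsmul R M (x ^ n)) m' - (k + (LinearMap.lsmul R M (x ^ n)) m') = -k := by
          abel
        rw [e]
        exact Submodule.mem_sup_left (K.neg_mem hk)
      · rintro ⟨y, hy⟩
        obtain ⟨m', rfl⟩ := Submodule.Quotient.mk_surjective _ y
        rw [Submodule.mapQ_apply] at hy
        have h3 := (Submodule.Quotient.eq _).1 hy
        have h4 : (LinearMap.lsmul R M (x ^ n)) m' - m ∈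
            K ⊔ LinearMap.range (LinearMap.lsmul R M (x ^ n)) := hP h3
        have h5 : (LinearMap.lsmul R M (x ^ n)) m' ∈
            K ⊔ LinearMap.range (LinearMap.lsmul R M (x ^ n)) :=
          Submodule.mem_sup_right ⟨m', rfl⟩
        have h6 := Submodule.sub_mem _ h5 h4
        rwa [sub_sub_cancel] at h6
    refine (length_mid_le _ _ hex).trans ?_
    rw [Nat.cast_add, Nat.cast_one, add_mul, one_mul, add_comm]
    exact add_le_add ih le_rfl

private theorem range_split {R : Type u} [CommRing R] {d : ℕ} (x : Fin d → R) (M : Type u)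
    [AddCommGroup M] [Module R M] (i : Fin d) :
    LinearMap.range (kosOne x M) = LinearMap.range (kosOne (Function.update x i 0) M) ⊔
      LinearMap.range (LinearMap.lsmul R M (x i)) := by
  classical
  refine le_antisymm ?_ (sup_le ?_ ?_)
  · rintro _ ⟨m, rfl⟩
    refine Submodule.mem_sup.2 ⟨kosOne (Function.update x i 0) M m, ⟨m, rfl⟩, x i • m i,
      ⟨m i, rfl⟩, ?_⟩
    rw [kosOne_apply, kosOne_apply, ← Finset.add_sum_erase _ _ (Finset.mem_univ i),
      ← Finset.add_sum_erase Finset.univ (fun j => x j • m j) (Finset.mem_univ i),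
      Function.update_self, zero_smul, zero_add, add_comm]
    congr 1
    refine Finset.sum_congr rfl fun j hj => ?_
    rw [Function.update_of_ne (Finset.ne_of_mem_erase hj)]
  · rintro _ ⟨m, rfl⟩
    refine ⟨Function.update m i 0, ?_⟩
    rw [kosOne_apply, kosOne_apply]
    refine Finset.sum_congr rfl fun j _ => ?_
    by_cases h : j = i
    · subst h
      rw [Function.update_self, Function.update_self, smul_zero, zero_smul]
    · rw [Function.update_of_ne h, Function.update_of_ne h]
  · rintro _ ⟨m, rfl⟩
    refine ⟨Pi.single i m, ?_⟩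
    rw [kosOne_apply, Finset.sum_eq_single i]
    · rw [Pi.single_eq_same, LinearMap.lsmul_apply]
    · intro j _ hj
      rw [Pi.single_eq_of_ne hj, smul_zero]
    · intro h
      exact absurd (Finset.mem_univ i) h

theorem h0_pow_le {R : Type u} [CommRing R] {d : ℕ} (z : Fin d → R) (M : Type u)
    [AddCommGroup M] [Module R M] (n : ℕ) (hn : 1 ≤ n) :
    h0 (fun i => z i ^ n) M ≤ ((n ^ d : ℕ) : ℕ∞) * h0 z M := by
  classical
  have key : ∀ T : Finset (Fin d), h0 (fun i => if i ∈ T then z i ^ n else z i) M ≤
      ((n ^ T.card : ℕ) : ℕ∞) * h0 z M := by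
    intro T
    induction T using Finset.induction_on with
    | empty => simp
    | insert i T hi ih =>
      have e1 : Function.update (fun j => if j ∈ insert i T then z j ^ n else z j) i 0 =
          Function.update (fun j => if j ∈ T then z j ^ n else z j) i 0 := by
        funext j
        by_cases h : j = i
        · subst h
          rw [Function.update_self, Function.update_self]
        · rw [Function.update_of_ne h, Function.update_of_ne h]
          simp only [Finset.mem_insert, h, false_or]
      have e2 : LinearMap.range (kosOne (fun j => if j ∈ insert i T then z j ^ n else z j) M) =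
          LinearMap.range (kosOne (Function.update (fun j => if j ∈ T then z j ^ n else z j)
            i 0) M) ⊔ LinearMap.range (LinearMap.lsmul R M (z i ^ n)) := by
        rw [range_split _ M i, e1]
        simp only [Finset.mem_insert_self, if_true]
      have e3 : LinearMap.range (kosOne (fun j => if j ∈ T then z j ^ n else z j) M) =
          LinearMap.range (kosOne (Function.update (fun j => if j ∈ T then z j ^ n else z j)
            i 0) M) ⊔ LinearMap.range (LinearMap.lsmul R M (z i)) := by
        rw [range_split _ M i]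
        simp only [hi, if_false]
      have e4 : h0 (fun j => if j ∈ insert i T then z j ^ n else z j) M ≤
          (n : ℕ∞) * h0 (fun j => if j ∈ T then z j ^ n else z j) M := by
        unfold h0
        rw [e2, e3]
        exact length_pow_step _ _ _
      refine e4.trans ?_
      rw [Finset.card_insert_of_notMem hi, pow_succ', Nat.cast_mul, mul_assoc]
      exact mul_le_mul_right ih _
  have h := key Finset.univ
  simpa using h

end Pool.Agent.FSig.SF
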