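import Pool.Agent.Work.MP_27623f_ag.SelfInj

/-!
MODULE W3 (size M).  A module with simple essential socle and length at least `length B` over an Artinian local ring `B` is an
injective hull of the residue field.

PROOF.  Generalize `SelfInj.lean` (`length_hom_simple`, `length_hom_add_le`, `length_hom_le`, `baer`,
there the target is `B` itself and here it is `E`).
(1) `m e₀ = 0`: if `t ∈ m` and `t e₀ ≠ 0` then `b t e₀ = e₀`, `(1 - b t) e₀ = 0` and `1 - b t` is a unit.  Hence for a simple `B`-module `S`:
`length Hom_B (S, E) ≤ 1`: the image of a nonzero map is killed by `m`, and an element `x ≠ 0` of `E` with `m x = 0` satisfies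
`b x = e₀`, `b` a unit, so `x ∈ B e₀`.
(2) `length Hom_B (N, E) ≤ length N` for `N` of finite length (induction along a composition series, left exactness).
(3) `baer_mod`: for an ideal `I`: `E ≅ Hom (B, E) → Hom (I, E)` has kernel `Hom (B/I, E)` of length `≤ length B/I`, so its image has length
`≥ length E - length B/I ≥ length B - length B/I = length I ≥ length Hom (I, E)`, all finite; so the map is onto.
(4) `exists_functional`: `v ≠ 0` in `N`; the annihilator of `v` is a proper ideal, so `b v ↦ b e₀` is a well defined map `B v → E`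
(if `b v = 0` then `b ∈ m`, `b e₀ = 0`); extend it by (3) (`Module.Baer.extension_property`).
(5) `E` is faithful: if `b E = 0`, `b ≠ 0`, then `length E ≤ length Hom (B/(b), E) ≤ length B/(b) < length B`.  So `B → End_B (E)` is injective, and
`length End_B (E) ≤ length E`; by (2) for `N = B`: `length E = length Hom (B, E) ≤ length B`; so `B → End_B (E)` is onto.
(6) `sep_mod`: `x ∉ Δ`: by (4) there is `f : E/Δ → E` with `f x̄ = e₀ ≠ 0`; `E → E/Δ → E` is multiplication by some `b ∈ B`
(by (5)); `b Δ = 0`, `b x = e₀ ≠ 0`.
-/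

set_option autoImplicit false

namespace Pool.Agent.FSig.SF

universe u

section

variable {B : Type u} [CommRing B] [IsLocalRing B] {E : Type u} [AddCommGroup E] [Module B E]

private theorem unit_of {b c : B} (hb : b ∈ IsLocalRing.maximalIdeal B) : IsUnit (1 - c * b) := by
  by_contra h3
  have h4 := (IsLocalRing.mem_maximalIdeal _).2 h3
  have h5 := Ideal.add_mem _ h4 (Ideal.mul_mem_left _ c hb)
  rw [sub_add_cancel] at h5
  exact (Ideal.ne_top_iff_one _).1 (IsLocalRing.maximalIdeal.isMaximal B).ne_top h5

private theorem kill_e {e₀ : E} (hs : ∀ x : E, x ≠ 0 → ∃ b : B, b • x = e₀) {t : B}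
    (ht : t ∈ IsLocalRing.maximalIdeal B) : t • e₀ = 0 := by
  by_contra hne
  obtain ⟨b, hb⟩ := hs _ hne
  have h1 : (1 - b * t) • e₀ = 0 := by
    rw [sub_smul, one_smul, mul_smul, hb, sub_self]
  have h6 : e₀ = 0 := (IsUnit.smul_eq_zero (unit_of ht)).1 h1
  exact hne (by rw [h6, smul_zero])

private theorem length_hom_simpleE {e₀ : E} (he : e₀ ≠ 0)
    (hs : ∀ x : E, x ≠ 0 → ∃ b : B, b • x = e₀) (K : Type u) [AddCommGroup K] [Module B K]
    [IsSimpleModule B K] : Module.length B (K →ₗ[B] E) ≤ 1 := by
  rcases subsingleton_or_nontrivial (K →ₗ[B] E) with h | h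
  · rw [Module.length_eq_zero]; exact zero_le_one
  · have kill : ∀ b ∈ IsLocalRing.maximalIdeal B, ∀ x : K, b • x = 0 := by
      intro b hb x
      by_contra hbx
      obtain ⟨c, hc⟩ := IsSimpleModule.toSpanSingleton_surjective B hbx x
      have h1 : (1 - c * b) • x = 0 := by
        rw [LinearMap.toSpanSingleton_apply] at hc
        rw [sub_smul, one_smul, mul_smul, hc, sub_self]
      have h6 : x = 0 := (IsUnit.smul_eq_zero (unit_of hb)).1 h1
      exact hbx (by rw [h6, smul_zero])
    have := IsSimpleModule.nontrivial B K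
    obtain ⟨x, hx⟩ := exists_ne (0 : K)
    have hgen := IsSimpleModule.toSpanSingleton_surjective B hx
    have ext : ∀ f g : K →ₗ[B] E, f x = g x → f = g := by
      intro f g hfg
      apply LinearMap.ext
      intro y
      obtain ⟨b, hb⟩ := hgen y
      rw [← hb, LinearMap.toSpanSingleton_apply, map_smul, map_smul, hfg]
    have hsimple : IsSimpleModule B (K →ₗ[B] E) := by
      rw [isSimpleModule_iff_toSpanSingleton_surjective]
      refine ⟨h, fun f hf g => ?_⟩
      have hfx : f x ≠ 0 := fun h0 => hf (ext f 0 (by simpa using h0))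
      by_cases hgx : g x = 0
      · refine ⟨0, ?_⟩
        rw [map_zero]
        exact ext _ _ (by rw [hgx]; rfl)
      obtain ⟨b, hb⟩ := hs _ hfx
      obtain ⟨c, hc⟩ := hs _ hgx
      have hcu : IsUnit c := by
        by_contra h3
        have h4 := (IsLocalRing.mem_maximalIdeal _).2 h3
        apply he
        rw [← hc, ← map_smul, kill c h4 x, map_zero]
      obtain ⟨u, rfl⟩ := hcu
      refine ⟨↑u⁻¹ * b, ?_⟩
      apply ext
      rw [LinearMap.toSpanSingleton_apply, LinearMap.smul_apply, mul_smul, hb, ← hc,
        smul_smul, Units.inv_mul, one_smul]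
    rw [Module.length_eq_one]

omit [IsLocalRing B] in
private theorem length_hom_add_leE {M : Type u} [AddCommGroup M] [Module B M]
    (N : Submodule B M) :
    Module.length B (M →ₗ[B] E) = Module.length B ((M ⧸ N) →ₗ[B] E) +
      Module.length B (LinearMap.range (LinearMap.lcomp B E N.subtype)) := by
  refine Module.length_eq_add_of_exact (LinearMap.lcomp B E N.mkQ)
    (LinearMap.lcomp B E N.subtype).rangeRestrict ?_ (LinearMap.surjective_rangeRestrict _) ?_
  · intro f g hfg
    apply LinearMap.ext
    intro y
    obtain ⟨z, rfl⟩ := N.mkQ_surjective y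
    exact LinearMap.congr_fun hfg z
  · intro f
    constructor
    · intro hf
      have h1 : ∀ x : N, f x = 0 := by
        intro x
        have := congrArg Subtype.val hf
        exact LinearMap.congr_fun this x
      refine ⟨N.liftQ f (fun x hx => h1 ⟨x, hx⟩), ?_⟩
      apply LinearMap.ext
      intro x
      rfl
    · rintro ⟨g, rfl⟩
      apply Subtype.ext
      apply LinearMap.ext
      intro x
      show g (N.mkQ x) = 0
      have : N.mkQ x = 0 := by
        rw [Submodule.mkQ_apply, Submodule.Quotient.mk_eq_zero]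
        exact x.2
      rw [this, map_zero]

private theorem length_hom_leE {e₀ : E} (he : e₀ ≠ 0)
    (hs : ∀ x : E, x ≠ 0 → ∃ b : B, b • x = e₀) {M : Type u} [AddCommGroup M] [Module B M]
    (h : IsFiniteLength B M) : Module.length B (M →ₗ[B] E) ≤ Module.length B M := by
  induction h with
  | of_subsingleton => rw [Module.length_eq_zero]; exact zero_le
  | @of_simple_quotient M _ _ N _ _ ih =>
    rw [length_hom_add_leE N]
    have h1 : Module.length B M = Module.length B N + Module.length B (M ⧸ N) :=
      Module.length_eq_add_of_exact N.subtype N.mkQ (Submodule.subtype_injective _)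
        (Submodule.mkQ_surjective _) (LinearMap.exact_subtype_mkQ N)
    rw [h1, add_comm, Module.length_eq_one B (M ⧸ N)]
    refine add_le_add ?_ (length_hom_simpleE he hs _)
    refine le_trans ?_ ih
    exact Module.length_le_of_injective (Submodule.subtype _) (Submodule.subtype_injective _)

end

theorem baer_mod {B : Type u} [CommRing B] [IsArtinianRing B] [IsLocalRing B] {E : Type u}
    [AddCommGroup E] [Module B E] [Module.Finite B E] (e₀ : E) (he : e₀ ≠ 0)
    (hs : ∀ x : E, x ≠ 0 → ∃ b : B, b • x = e₀) (hl : Module.length B B ≤ Module.length B E) :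
    Module.Baer B E := by
  intro I g
  have hB : Module.length B (B →ₗ[B] E) = Module.length B E :=
    (LinearMap.ringLmapEquivSelf B B E).length_eq
  have h1 := length_hom_add_leE (B := B) (E := E) (M := B) I
  have h2 : Module.length B B = Module.length B I + Module.length B (B ⧸ I) :=
    Module.length_eq_add_of_exact I.subtype I.mkQ (Submodule.subtype_injective _)
      (Submodule.mkQ_surjective _) (LinearMap.exact_subtype_mkQ I)
  have h3 : Module.length B ((B ⧸ I) →ₗ[B] E) ≤ Module.length B (B ⧸ I) :=
    length_hom_leE he hs (Module.length_ne_top_iff.1 Module.length_ne_top)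
  have h4 : Module.length B (I →ₗ[B] E) ≤ Module.length B I :=
    length_hom_leE he hs (Module.length_ne_top_iff.1 Module.length_ne_top)
  have hfin1 : Module.length B (B ⧸ I) ≠ ⊤ := Module.length_ne_top
  have hfin2 : Module.length B I ≠ ⊤ := Module.length_ne_top
  have h5 : Module.length B I ≤
      Module.length B (LinearMap.range (LinearMap.lcomp B E I.subtype)) := by
    have h6 : Module.length B I + Module.length B (B ⧸ I) ≤
        Module.length B (B ⧸ I) +
          Module.length B (LinearMap.range (LinearMap.lcomp B E I.subtype)) := by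
      rw [← h2]
      refine hl.trans ?_
      rw [← hB, h1]
      exact add_le_add h3 le_rfl
    rw [add_comm (Module.length B (B ⧸ I))] at h6
    exact (ENat.add_le_add_iff_right hfin1).1 h6
  have hfin3 : Module.length B (I →ₗ[B] E) ≠ ⊤ := ne_top_of_le_ne_top hfin2 h4
  have hfl : IsFiniteLength B (I →ₗ[B] E) := Module.length_ne_top_iff.1 hfin3
  have htop : LinearMap.range (LinearMap.lcomp B E I.subtype) = ⊤ := by
    by_contra hne
    obtain ⟨hn, ha⟩ := isFiniteLength_iff_isNoetherian_isArtinian.1 hfl
    have := Submodule.length_lt hne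
    exact absurd (le_trans h4 h5) (not_le.2 this)
  have hg : g ∈ LinearMap.range (LinearMap.lcomp B E I.subtype) := by
    rw [htop]; trivial
  obtain ⟨g', hg'⟩ := hg
  exact ⟨g', fun x mem => LinearMap.congr_fun hg' ⟨x, mem⟩⟩

theorem exists_functional {B : Type u} [CommRing B] [IsArtinianRing B] [IsLocalRing B]
    {E : Type u} [AddCommGroup E] [Module B E] [Module.Finite B E] (e₀ : E) (he : e₀ ≠ 0)
    (hs : ∀ x : E, x ≠ 0 → ∃ b : B, b • x = e₀) (hl : Module.length B B ≤ Module.length B E)
    {N : Type u} [AddCommGroup N] [Module B N] (v : N) (hv : v ≠ 0) :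
    ∃ f : N →ₗ[B] E, f v = e₀ := by
  let φ : B →ₗ[B] N := LinearMap.toSpanSingleton B N v
  have hker : LinearMap.ker φ ≤ LinearMap.ker (LinearMap.toSpanSingleton B E e₀) := by
    intro b hb
    rw [LinearMap.mem_ker, LinearMap.toSpanSingleton_apply] at hb ⊢
    apply kill_e hs
    by_contra h3
    rw [IsLocalRing.mem_maximalIdeal, mem_nonunits_iff, not_not] at h3
    exact hv ((IsUnit.smul_eq_zero h3).1 hb)
  obtain ⟨f, hf⟩ := (baer_mod e₀ he hs hl).extension_property ((LinearMap.ker φ).liftQ φ le_rfl)
    (LinearMap.ker_eq_bot.1 (Submodule.ker_liftQ_eq_bot _ _ _ le_rfl))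
    ((LinearMap.ker φ).liftQ (LinearMap.toSpanSingleton B E e₀) hker)
  refine ⟨f, ?_⟩
  have h1 := LinearMap.congr_fun hf (Submodule.Quotient.mk 1)
  rw [LinearMap.comp_apply, Submodule.liftQ_apply, Submodule.liftQ_apply,
    LinearMap.toSpanSingleton_apply, LinearMap.toSpanSingleton_apply, one_smul, one_smul] at h1
  exact h1

theorem sep_mod {B : Type u} [CommRing B] [IsArtinianRing B] [IsLocalRing B] {E : Type u}
    [AddCommGroup E] [Module B E] [Module.Finite B E] (e₀ : E) (he : e₀ ≠ 0)
    (hs : ∀ x : E, x ≠ 0 → ∃ b : B, b • x = e₀) (hl : Module.length B B ≤ Module.length B E)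
    (Δ : Submodule B E) (x : E) (hx : x ∉ Δ) :
    ∃ b : B, (∀ y ∈ Δ, b • y = 0) ∧ b • x ≠ 0 := by
  -- lengths
  have hfinB : Module.length B B ≠ ⊤ := Module.length_ne_top
  have hfinE : Module.length B E ≠ ⊤ := Module.length_ne_top
  have hEB : Module.length B E ≤ Module.length B B := by
    rw [← (LinearMap.ringLmapEquivSelf B B E).length_eq]
    exact length_hom_leE he hs (Module.length_ne_top_iff.1 hfinB)
  -- faithful
  have hfaith : Function.Injective (LinearMap.lsmul B E) := by
    rw [injective_iff_map_eq_zero]
    intro b hb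
    by_contra hb0
    have h1 := length_hom_add_leE (B := B) (E := E) (M := B) (Ideal.span {b})
    have h2 : Module.length B B = Module.length B (Ideal.span {b}) +
        Module.length B (B ⧸ Ideal.span {b}) :=
      Module.length_eq_add_of_exact (Ideal.span {b}).subtype (Ideal.span {b}).mkQ
        (Submodule.subtype_injective _) (Submodule.mkQ_surjective _)
        (LinearMap.exact_subtype_mkQ _)
    have h3 : LinearMap.range (LinearMap.lcomp B E (Ideal.span {b}).subtype) = ⊥ := by
      rw [LinearMap.range_eq_bot]
      apply LinearMap.ext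
      intro f
      apply LinearMap.ext
      rintro ⟨y, hy⟩
      obtain ⟨c, rfl⟩ := Ideal.mem_span_singleton'.1 hy
      change f (c * b) = 0
      have h4 : f (c * b) = c • b • f 1 := by
        rw [← map_smul, ← map_smul, smul_eq_mul, smul_eq_mul, mul_one]
      have h5 : b • f 1 = 0 := LinearMap.congr_fun hb (f 1)
      rw [h4, h5, smul_zero]
    have h4 : Module.length B ((⊥ : Submodule B ((Ideal.span {b} : Ideal B) →ₗ[B] E))) = 0 := by
      rw [Module.length_eq_zero_iff]
      infer_instance
    rw [h3, h4, add_zero, (LinearMap.ringLmapEquivSelf B B E).length_eq] at h1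
    have h5 : Module.length B ((B ⧸ Ideal.span {b}) →ₗ[B] E) ≤
        Module.length B (B ⧸ Ideal.span {b}) :=
      length_hom_leE he hs (Module.length_ne_top_iff.1 Module.length_ne_top)
    have h6 : Module.length B B ≤ Module.length B (B ⧸ Ideal.span {b}) :=
      hl.trans (h1.le.trans h5)
    have h7 : 0 < Module.length B (Ideal.span {b} : Ideal B) := by
      rw [Module.length_pos_iff]
      exact ⟨⟨⟨b, Ideal.mem_span_singleton_self b⟩, 0, fun h => hb0 (congrArg Subtype.val h)⟩⟩
    have h8 : Module.length B (B ⧸ Ideal.span {b}) ≠ ⊤ := Module.length_ne_top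
    rw [h2] at h6
    have h9 : Module.length B (Ideal.span {b} : Ideal B) + Module.length B (B ⧸ Ideal.span {b}) ≤
        0 + Module.length B (B ⧸ Ideal.span {b}) := by rw [zero_add]; exact h6
    exact absurd ((ENat.add_le_add_iff_right h8).1 h9) (not_le.2 h7)
  -- onto
  have hEnd : Module.length B (E →ₗ[B] E) ≤ Module.length B B :=
    (length_hom_leE he hs (Module.length_ne_top_iff.1 hfinE)).trans hEB
  have hrange : LinearMap.range (LinearMap.lsmul B E) = ⊤ := by
    by_contra hne
    have hfl : IsFiniteLength B (E →ₗ[B] E) :=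
      Module.length_ne_top_iff.1 (ne_top_of_le_ne_top hfinB hEnd)
    obtain ⟨hn, ha⟩ := isFiniteLength_iff_isNoetherian_isArtinian.1 hfl
    have h1 := Submodule.length_lt hne
    have h2 : Module.length B (LinearMap.range (LinearMap.lsmul B E)) = Module.length B B :=
      (LinearEquiv.ofInjective _ hfaith).length_eq.symm
    rw [h2] at h1
    exact absurd hEnd (not_le.2 h1)
  -- conclusion
  have hv : (Submodule.Quotient.mk x : E ⧸ Δ) ≠ 0 := by
    rwa [Ne, Submodule.Quotient.mk_eq_zero]
  obtain ⟨f, hf⟩ := exists_functional e₀ he hs hl (Submodule.Quotient.mk x : E ⧸ Δ) hv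
  have h1 : f ∘ₗ Δ.mkQ ∈ LinearMap.range (LinearMap.lsmul B E) := by rw [hrange]; trivial
  obtain ⟨b, hb⟩ := h1
  refine ⟨b, fun y hy => ?_, ?_⟩
  · have h2 := LinearMap.congr_fun hb y
    rw [LinearMap.lsmul_apply, LinearMap.comp_apply, Submodule.mkQ_apply,
      (Submodule.Quotient.mk_eq_zero Δ).2 hy, map_zero] at h2
    exact h2
  · have h2 := LinearMap.congr_fun hb x
    rw [LinearMap.lsmul_apply, LinearMap.comp_apply, Submodule.mkQ_apply, hf] at h2
    rw [h2]
    exact he

end Pool.Agent.FSig.SF
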