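import Pool.Agent.Work.MP_27623f_ag.SF.W3
import Pool.Agent.Work.MP_27623f_ag.SF.KCh
import Pool.Agent.Work.MP_27623f_ag.SF.Defs

/-!
MODULE W4 (size M).  `E = W / I W` is an injective hull of the residue field over `B = R / I`; three consequences.

PROOF.  `B = R ⧸ I` is an Artinian local ring (`m^c ≤ I`, `I ≠ ⊤` since `w ∉ I W`; see the beginning of the proof of
`exists_map_quot` in `Pool/Agent/Work/MP_27623f_ag/MapMod.lean`).  `E = W ⧸ (I • ⊤)` is a `B`-module (Mathlib instance for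
`M ⧸ I • ⊤`), `e₀` = the class of `w`; membership `x ∈ I • W` in `K` for `x ∈ W` is the same as `⟨x, _⟩ ∈ I • (⊤ : Submodule R W)`
(`Submodule.map`/`Submodule.comap` along `W.subtype`, `Submodule.map_smul''`, `Submodule.range_subtype`).  Lengths over `R` and over `B` agree
(`length_change`).
* `exists_hom_to`: `N' = N ⧸ I • ⊤` is a `B`-module, the class of `v` is not zero; `exists_functional`, compose with `N → N'`.
* `exists_embed`: apply `exists_hom_to`-style functional to the `B`-module `R/I'` (or `exists_hom_to` for `N = R ⧸ I'`, `v` = class of `w'`;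
`I • ⊤ = ⊥` in `R/I'` as `I ≤ I'`, and `w' ∉ I'`): `f (w') = e₀`; `a` = a representative of `f (1)`.
* `exists_annih`: `sep_mod` for the image of `Δ` in `E`; `b ∉ Δ` and `I W ≤ Δ`, so its class is not in the image.
-/

set_option autoImplicit false

namespace Pool.Agent.FSig.SF

open Pool.Agent.FSig Pool.Agent.FSig.SA IsLocalRing

universe u

private theorem mem_sub {R K : Type u} [CommRing R] [AddCommGroup K] [Module R K]
    (W : Submodule R K) (I : Ideal R) (x : W) :
    x ∈ I • (⊤ : Submodule R W) ↔ (x : K) ∈ I • W := by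
  have h1 : Submodule.map W.subtype (I • (⊤ : Submodule R W)) = I • W := by
    rw [Submodule.map_smul'', Submodule.map_top, Submodule.range_subtype]
  rw [← h1]
  constructor
  · intro h
    exact Submodule.mem_map_of_mem h
  · rintro ⟨y, hy, hxy⟩
    have h2 : y = x := Subtype.ext hxy
    rwa [← h2]

private theorem ne_top' {R K : Type u} [CommRing R] [AddCommGroup K] [Module R K]
    (W : Submodule R K) (I : Ideal R) (w : K) (hw : SocGen W I w) : I ≠ ⊤ := by
  intro h
  apply hw.nmem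
  rw [h, Submodule.top_smul]
  exact hw.mem

private theorem art {R : Type u} [CommRing R] [IsNoetherianRing R] [IsLocalRing R]
    (I : Ideal R) (hI : ∃ c, maximalIdeal R ^ c ≤ I) (hI1 : I ≠ ⊤) :
    IsLocalRing (R ⧸ I) ∧ IsArtinianRing (R ⧸ I) := by
  have : Nontrivial (R ⧸ I) := Ideal.Quotient.nontrivial_iff.2 hI1
  have hloc : IsLocalRing (R ⧸ I) :=
    IsLocalRing.of_surjective' (Ideal.Quotient.mk I) Ideal.Quotient.mk_surjective
  refine ⟨hloc, ?_⟩
  obtain ⟨n, hn⟩ := hI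
  rw [isArtinianRing_iff_isNilpotent_maximalIdeal]
  refine ⟨n, ?_⟩
  have h1 : IsLocalRing.maximalIdeal (R ⧸ I) ≤
      (IsLocalRing.maximalIdeal R).map (Ideal.Quotient.mk I) := by
    intro y hy
    obtain ⟨a, rfl⟩ := Ideal.Quotient.mk_surjective y
    apply Ideal.mem_map_of_mem
    rw [IsLocalRing.mem_maximalIdeal, mem_nonunits_iff] at hy ⊢
    exact fun h => hy (h.map _)
  rw [Ideal.zero_eq_bot, eq_bot_iff]
  refine (Ideal.pow_right_mono h1 n).trans ?_
  rw [← Ideal.map_pow, Ideal.map_le_iff_le_comap]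
  intro a ha
  rw [Ideal.mem_comap, Ideal.mem_bot, Ideal.Quotient.eq_zero_iff_mem]
  exact hn ha

private theorem fin' {R K : Type u} [CommRing R] [AddCommGroup K] [Module R K]
    (W : Submodule R K) (hW : W.FG) (I : Ideal R) :
    Module.Finite (R ⧸ I) (W ⧸ (I • (⊤ : Submodule R W))) := by
  have : Module.Finite R W := Module.Finite.iff_fg.2 hW
  exact Module.Finite.of_restrictScalars_finite R (R ⧸ I) _

private theorem e_ne {R K : Type u} [CommRing R] [AddCommGroup K] [Module R K]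
    (W : Submodule R K) (I : Ideal R) (w : K) (hw : SocGen W I w) :
    (Submodule.Quotient.mk ⟨w, hw.mem⟩ : W ⧸ (I • (⊤ : Submodule R W))) ≠ 0 := by
  intro h
  rw [Submodule.Quotient.mk_eq_zero, mem_sub] at h
  exact hw.nmem h

private theorem e_soc {R K : Type u} [CommRing R] [AddCommGroup K] [Module R K]
    (W : Submodule R K) (I : Ideal R) (w : K) (hw : SocGen W I w)
    (x : W ⧸ (I • (⊤ : Submodule R W))) (hx : x ≠ 0) :
    ∃ b : R ⧸ I, b • x = Submodule.Quotient.mk ⟨w, hw.mem⟩ := by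
  obtain ⟨y, rfl⟩ := Submodule.Quotient.mk_surjective _ x
  have h1 : (y : K) ∉ I • W := by
    intro h
    apply hx
    rw [Submodule.Quotient.mk_eq_zero, mem_sub]
    exact h
  obtain ⟨r, hr⟩ := hw.soc y y.2 h1
  refine ⟨Ideal.Quotient.mk I r, ?_⟩
  show (Submodule.Quotient.mk (r • y) : W ⧸ (I • (⊤ : Submodule R W))) = _
  rw [Submodule.Quotient.eq, mem_sub]
  exact hr

private theorem len' {R K : Type u} [CommRing R] [AddCommGroup K] [Module R K]
    (W : Submodule R K) (I : Ideal R)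
    (hl : Module.length R (R ⧸ I) ≤ Module.length R (W ⧸ (I • (⊤ : Submodule R W)))) :
    Module.length (R ⧸ I) (R ⧸ I) ≤ Module.length (R ⧸ I) (W ⧸ (I • (⊤ : Submodule R W))) := by
  have hs : Function.Surjective (algebraMap R (R ⧸ I)) := Ideal.Quotient.mk_surjective
  rw [← length_change hs (R ⧸ I), ← length_change hs (W ⧸ (I • (⊤ : Submodule R W)))]
  exact hl

theorem exists_hom_to {R K : Type u} [CommRing R] [IsNoetherianRing R] [IsLocalRing R]
    [AddCommGroup K] [Module R K] (W : Submodule R K) (hW : W.FG) (I : Ideal R)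
    (hI : ∃ c, maximalIdeal R ^ c ≤ I) (w : K) (hw : SocGen W I w)
    (hl : Module.length R (R ⧸ I) ≤ Module.length R (W ⧸ (I • (⊤ : Submodule R W))))
    (N : Type u) [AddCommGroup N] [Module R N] (v : N) (hv : v ∉ I • (⊤ : Submodule R N)) :
    ∃ f : N →ₗ[R] (W ⧸ (I • (⊤ : Submodule R W))),
      f v = Submodule.Quotient.mk ⟨w, hw.mem⟩ := by
  obtain ⟨h1, h2⟩ := art I hI (ne_top' W I w hw)
  have h3 := fin' W hW I
  obtain ⟨f, hf⟩ := exists_functional _ (e_ne W I w hw) (e_soc W I w hw) (len' W I hl)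
    (N := N ⧸ (I • (⊤ : Submodule R N))) (Submodule.Quotient.mk v) (by
      intro h
      apply hv
      rw [← Submodule.Quotient.mk_eq_zero]
      exact h)
  exact ⟨(f.restrictScalars R) ∘ₗ (Submodule.mkQ _), hf⟩

theorem exists_embed {R K : Type u} [CommRing R] [IsNoetherianRing R] [IsLocalRing R]
    [AddCommGroup K] [Module R K] (W : Submodule R K) (hW : W.FG) (I : Ideal R)
    (hI : ∃ c, maximalIdeal R ^ c ≤ I) (w : K) (hw : SocGen W I w)
    (hl : Module.length R (R ⧸ I) ≤ Module.length R (W ⧸ (I • (⊤ : Submodule R W))))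
    {I' : Ideal R} {w' : R} (h : Pair R I' w') (hle : I ≤ I') :
    ∃ a ∈ W, (∀ r ∈ I', r • a ∈ I • W) ∧ w' • a - w ∈ I • W := by
  have hv : (Ideal.Quotient.mk I' w' : R ⧸ I') ∉ I • (⊤ : Submodule R (R ⧸ I')) := by
    have h0 : I • (⊤ : Submodule R (R ⧸ I')) ≤ ⊥ := by
      refine Submodule.smul_le.2 fun r hr m _ => ?_
      obtain ⟨m, rfl⟩ := Ideal.Quotient.mk_surjective m
      rw [Submodule.mem_bot]
      show Ideal.Quotient.mk I' (r • m) = 0
      rw [Ideal.Quotient.eq_zero_iff_mem, smul_eq_mul]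
      exact I'.mul_mem_right _ (hle hr)
    intro h1
    have h2 := h0 h1
    rw [Submodule.mem_bot, Ideal.Quotient.eq_zero_iff_mem] at h2
    exact h.nmem h2
  obtain ⟨f, hf⟩ := exists_hom_to W hW I hI w hw hl (R ⧸ I') (Ideal.Quotient.mk I' w') hv
  obtain ⟨a, ha⟩ := Submodule.Quotient.mk_surjective _ (f 1)
  have hmk : ∀ r : R, f (Ideal.Quotient.mk I' r) = Submodule.Quotient.mk (r • a) := by
    intro r
    have e : (Ideal.Quotient.mk I' r : R ⧸ I') = r • (1 : R ⧸ I') := by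
      rw [Algebra.smul_def, mul_one]
      rfl
    rw [e, map_smul, ← ha, Submodule.Quotient.mk_smul]
  refine ⟨a, a.2, fun r hr => ?_, ?_⟩
  · have h1 := hmk r
    rw [Ideal.Quotient.eq_zero_iff_mem.2 hr, map_zero] at h1
    have h2 := (Submodule.Quotient.mk_eq_zero _).1 h1.symm
    exact (mem_sub W I _).1 h2
  · have h1 := hmk w'
    rw [hf] at h1
    have h2 := (Submodule.Quotient.eq _).1 h1.symm
    exact (mem_sub W I _).1 h2

theorem exists_annih {R K : Type u} [CommRing R] [IsNoetherianRing R] [IsLocalRing R]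
    [AddCommGroup K] [Module R K] (W : Submodule R K) (hW : W.FG) (I : Ideal R)
    (hI : ∃ c, maximalIdeal R ^ c ≤ I) (w : K) (hw : SocGen W I w)
    (hl : Module.length R (R ⧸ I) ≤ Module.length R (W ⧸ (I • (⊤ : Submodule R W))))
    (Δ : Submodule R K) (hΔ : Δ ≤ W) (hIΔ : I • W ≤ Δ) (b : K) (hbW : b ∈ W) (hb : b ∉ Δ) :
    ∃ r : R, (∀ y ∈ Δ, r • y ∈ I • W) ∧ r • b ∉ I • W := by
  obtain ⟨h1, h2⟩ := art I hI (ne_top' W I w hw)
  have h3 := fin' W hW I
  let Δ' : Submodule (R ⧸ I) (W ⧸ (I • (⊤ : Submodule R W))) :=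
    { carrier := {x | ∃ y : W, (y : K) ∈ Δ ∧ Submodule.Quotient.mk y = x}
      add_mem' := by
        rintro _ _ ⟨y, hy, rfl⟩ ⟨y', hy', rfl⟩
        exact ⟨y + y', Δ.add_mem hy hy', rfl⟩
      zero_mem' := ⟨0, Δ.zero_mem, rfl⟩
      smul_mem' := by
        rintro c _ ⟨y, hy, rfl⟩
        obtain ⟨r, rfl⟩ := Ideal.Quotient.mk_surjective c
        exact ⟨r • y, Δ.smul_mem _ hy, rfl⟩ }
  have hx : (Submodule.Quotient.mk ⟨b, hbW⟩ : W ⧸ (I • (⊤ : Submodule R W))) ∉ Δ' := by
    rintro ⟨y, hy, he⟩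
    have h4 := (Submodule.Quotient.eq _).1 he
    have h5 := hIΔ ((mem_sub W I _).1 h4)
    have h6 : b = (y : K) - ((y : K) - b) := by abel
    exact hb (h6 ▸ Δ.sub_mem hy h5)
  obtain ⟨β, hβ, hβx⟩ := sep_mod _ (e_ne W I w hw) (e_soc W I w hw) (len' W I hl) Δ' _ hx
  obtain ⟨r, rfl⟩ := Ideal.Quotient.mk_surjective β
  refine ⟨r, fun y hy => ?_, fun h => ?_⟩
  · have h4 : (Submodule.Quotient.mk (r • (⟨y, hΔ hy⟩ : W)) :
        W ⧸ (I • (⊤ : Submodule R W))) = 0 := hβ (Submodule.Quotient.mk ⟨y, hΔ hy⟩) ⟨_, hy, rfl⟩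
    have h5 := (Submodule.Quotient.mk_eq_zero _).1 h4
    exact (mem_sub W I _).1 h5
  · apply hβx
    show (Submodule.Quotient.mk (r • (⟨b, hbW⟩ : W)) : W ⧸ (I • (⊤ : Submodule R W))) = 0
    rw [Submodule.Quotient.mk_eq_zero, mem_sub]
    exact h

end Pool.Agent.FSig.SF
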